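import Mathlib
import Pool.Agent.Lib.MP_95e7ec_an.AvgDefs

/-!
# Closed orbits which persist under rotation: the definition
-/

set_option autoImplicit false

open Set Filter Topology MeasureTheory
open scoped ContDiff ENNReal

namespace Pool.Agent.Lib.MP_95e7ec_an

/-- The closed orbit `C` of `v` persists for all the turned fields `turn a v`, `0 ≤ a ≤ δ`: it belongs
to a continuous family of periodic solutions `z a` of `turn a v` with continuous periods `T a`. -/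
def Persists (v : ℝ × ℝ → ℝ × ℝ) (δ : ℝ) (C : Set (ℝ × ℝ)) : Prop :=
  ∃ (z : ℝ → ℝ → ℝ × ℝ) (T : ℝ → ℝ),
    ContinuousOn (fun p : ℝ × ℝ => z p.1 p.2) (Set.Icc 0 δ ×ˢ Set.univ) ∧
    ContinuousOn T (Set.Icc 0 δ) ∧
    (∀ a ∈ Set.Icc 0 δ, 0 < T a ∧ (∀ t : ℝ, HasDerivAt (z a) (turn a v (z a t)) t) ∧
      (∀ t : ℝ, z a (t + T a) = z a t) ∧ ∃ s t : ℝ, z a s ≠ z a t) ∧
    C = Set.range (z 0)

end Pool.Agent.Lib.MP_95e7ec_an
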