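import Mathlib
import Pool.Agent.Lib.MP_95e7ec_an.Orbits
import Pool.Agent.Lib.MP_95e7ec_an.AvgDefs
import Pool.Agent.Lib.MP_95e7ec_an.PlaneDefs
import Pool.Agent.Lib.MP_95e7ec_an.Rb.PersDef

/-!
# Closed orbits which persist under rotation: definitions

The theorem: there is an absolute constant `K` such that for every real planar polynomial field `X`
of degree at most `n` and every `0 < δ ≤ 1` at most `K n³ / δ⁴` closed orbits of `X` persist for all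
the turned fields `e^{ia} X`, `0 ≤ a ≤ δ`.
-/

set_option autoImplicit false

open Set Filter Topology MeasureTheory
open scoped ContDiff ENNReal

namespace Pool.Agent.Lib.MP_95e7ec_an

/-- the unit vector of angle `c` -/
noncomputable def dirv (c : ℝ) : ℝ × ℝ := (Real.cos c, Real.sin c)

/-- A compact connected set `C` with an inside `D`. -/
structure JP (C D : Set (ℝ × ℝ)) : Prop where
  conn : IsPreconnected C
  ne : C.Nonempty
  neD : D.Nonempty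
  op : IsOpen D
  disj : Disjoint D C
  cptC : IsCompact C
  cpt : IsCompact (D ∪ C)

/-- Along the curve `C`, the points on the right of `v` are outside, the points on the left of `v`
are inside `D` (up to a quadratic error). -/
def Side (v : ℝ × ℝ → ℝ × ℝ) (C D : Set (ℝ × ℝ)) : Prop :=
  ∀ p ∈ C, v p ≠ 0 ∧ ∃ M r : ℝ, 0 ≤ M ∧ 0 < r ∧ ∀ w : ℝ × ℝ, nm (w - p) < r →
    (M * nm (w - p) ^ 2 < det2 (w - p) (v p) → w ∉ D ∪ C) ∧
    (det2 (w - p) (v p) < -(M * nm (w - p) ^ 2) → w ∈ D)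

/-- the winding number of the closed curve `γ` (with derivative `γ'` and period `T`) about `y` -/
noncomputable def wnd (γ γ' : ℝ → ℝ × ℝ) (T : ℝ) (y : ℝ × ℝ) : ℝ :=
  (∫ t in (0 : ℝ)..T, det2 (γ t - y) (γ' t) / nm (γ t - y) ^ 2) / (2 * Real.pi)

/-- the curvature determinant of the field `X`, in the direction of the turned field -/
noncomputable def cur (X : ℝ × ℝ → ℝ × ℝ) (ψ : ℝ) (z : ℝ × ℝ) : ℝ :=
  det2 (fderiv ℝ X z (turn ψ X z)) (X z)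

/-- A continuous family of closed orbits `C a` of the fields `turn a Y`, with insides `D a` which
lie on the left of `turn a Y`, for `0 ≤ a ≤ δ`. -/
structure Fml (Y : ℝ × ℝ → ℝ × ℝ) (δ : ℝ) where
  C : ℝ → Set (ℝ × ℝ)
  D : ℝ → Set (ℝ × ℝ)
  orb : ∀ a ∈ Set.Icc 0 δ, IsClosedOrbit (turn a Y) (C a)
  jp : ∀ a ∈ Set.Icc 0 δ, JP (C a) (D a)
  side : ∀ a ∈ Set.Icc 0 δ, Side (turn a Y) (C a) (D a)
  sweep : ∀ α β : ℝ, 0 ≤ α → α ≤ β → β ≤ δ → ∀ y : ℝ × ℝ,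
    (∀ a ∈ Set.Icc α β, y ∉ C a) → (y ∈ D α ↔ y ∈ D β)
  usc : ∀ a ∈ Set.Icc 0 δ, ∀ U : Set (ℝ × ℝ), IsOpen U → C a ⊆ U →
    ∃ η : ℝ, 0 < η ∧ ∀ b ∈ Set.Icc 0 δ, |b - a| < η → C b ⊆ U
  cpt : ∀ α β : ℝ, 0 ≤ α → α ≤ β → β ≤ δ → IsCompact (⋃ a ∈ Set.Icc α β, C a)
  conn : ∀ α β : ℝ, 0 ≤ α → α ≤ β → β ≤ δ → IsPreconnected (⋃ a ∈ Set.Icc α β, C a)

/-- the union of the curves of the family with their insides -/
def Fml.hull {Y : ℝ × ℝ → ℝ × ℝ} {δ : ℝ} (F : Fml Y δ) : Set (ℝ × ℝ) :=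
  ⋃ a ∈ Set.Icc 0 δ, (F.D a ∪ F.C a)

/-- the radial variation density of `arg X` about `q`:
`|det (X, DX (z-q))| / (|X|² |z-q|²)` -/
noncomputable def radG {D : ℕ} (μ : Pr D) (q z : ℝ × ℝ) : ℝ :=
  |pe μ.1 z.1 z.2 * (pex μ.2 z.1 z.2 * (z.1 - q.1) + pey μ.2 z.1 z.2 * (z.2 - q.2)) -
    pe μ.2 z.1 z.2 * (pex μ.1 z.1 z.2 * (z.1 - q.1) + pey μ.1 z.1 z.2 * (z.2 - q.2))| /
    ((pe μ.1 z.1 z.2 ^ 2 + pe μ.2 z.1 z.2 ^ 2) * nm (z - q) ^ 2)

/-- `C` is a closed orbit of some turned field, does not contain `q`, and is star-shaped about `q`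
with margin `κ` -/
def IsStar (v : ℝ × ℝ → ℝ × ℝ) (q : ℝ × ℝ) (κ : ℝ) (C : Set (ℝ × ℝ)) : Prop :=
  q ∉ C ∧ ∃ α ∈ Set.Ioo 0 Real.pi, IsClosedOrbit (turn α v) C ∧
    ∀ z ∈ C, κ * nm (z - q) * nm (turn α v z) ≤ |det2 (z - q) (turn α v z)|

/-- `C` meets the disc `|z - q| ≤ R` and has diameter at least `L` -/
def IsNear (q : ℝ × ℝ) (L R : ℝ) (C : Set (ℝ × ℝ)) : Prop :=
  (∃ z ∈ C, nm (z - q) ≤ R) ∧ ∃ z ∈ C, ∃ z' ∈ C, L ≤ nm (z - z')

open scoped Classical in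
/-- the indicator of `IsStar` -/
noncomputable def starInd (v : ℝ × ℝ → ℝ × ℝ) (q : ℝ × ℝ) (κ : ℝ) (C : Set (ℝ × ℝ)) : ℝ≥0∞ :=
  if IsStar v q κ C then 1 else 0

open scoped Classical in
/-- the indicator of `IsNear` -/
noncomputable def nearInd (q : ℝ × ℝ) (L R : ℝ) (C : Set (ℝ × ℝ)) : ℝ≥0∞ :=
  if IsNear q L R C then 1 else 0

end Pool.Agent.Lib.MP_95e7ec_an
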