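import Mathlib
import Pool.Agent.Lib.MP_95e7ec_an.Rb.Defs
import Pool.Agent.Lib.MP_95e7ec_an.AvgBasic

/-!
# Rb, Basic: elementary facts on `nm`, `det2`, `dirv`, `turn`
-/

set_option autoImplicit false

open Set Filter Topology MeasureTheory
open scoped ContDiff ENNReal

namespace Pool.Agent.Lib.MP_95e7ec_an

theorem rb_nm_nonneg (u : ℝ × ℝ) : 0 ≤ nm u := Real.sqrt_nonneg _

theorem rb_nm_eq_abs (u : ℝ × ℝ) : nm u = ‖(⟨u.1, u.2⟩ : ℂ)‖ := by
  rw [Complex.norm_def, Complex.normSq_mk, nm, sq, sq]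

theorem rb_nm_add_le (u v : ℝ × ℝ) : nm (u + v) ≤ nm u + nm v := by
  rw [rb_nm_eq_abs, rb_nm_eq_abs u, rb_nm_eq_abs v]
  exact norm_add_le (⟨u.1, u.2⟩ : ℂ) ⟨v.1, v.2⟩

theorem rb_nm_neg (u : ℝ × ℝ) : nm (-u) = nm u := by
  simp only [nm, Prod.fst_neg, Prod.snd_neg, neg_sq]

theorem rb_nm_sub_le (u v : ℝ × ℝ) : nm (u - v) ≤ nm u + nm v := by
  rw [sub_eq_add_neg, ← rb_nm_neg v]
  exact rb_nm_add_le u (-v)

theorem rb_nm_sub_comm (u v : ℝ × ℝ) : nm (u - v) = nm (v - u) := by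
  rw [← neg_sub v u, rb_nm_neg]

theorem rb_nm_tri (a b c : ℝ × ℝ) : nm (a - c) ≤ nm (a - b) + nm (b - c) := by
  have h := rb_nm_add_le (a - b) (b - c)
  rwa [sub_add_sub_cancel] at h

theorem rb_nm_smul (t : ℝ) (u : ℝ × ℝ) : nm (t • u) = |t| * nm u := by
  have h : (t • u).1 ^ 2 + (t • u).2 ^ 2 = t ^ 2 * (u.1 ^ 2 + u.2 ^ 2) := by
    simp only [Prod.smul_fst, Prod.smul_snd, smul_eq_mul]; ring
  rw [nm, h, Real.sqrt_mul (sq_nonneg t), Real.sqrt_sq_eq_abs, nm]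

theorem rb_nm_zero : nm (0 : ℝ × ℝ) = 0 := by simp [nm]

theorem rb_nm_eq_zero {u : ℝ × ℝ} : nm u = 0 ↔ u = 0 := by
  constructor
  · intro h
    by_contra hu
    exact (nm_pos hu).ne' h
  · rintro rfl
    exact rb_nm_zero

/-- comparison with the maximum norm -/
theorem rb_norm_le_nm (u : ℝ × ℝ) : ‖u‖ ≤ nm u := by
  rw [Prod.norm_def, nm]
  refine max_le ?_ ?_
  · rw [Real.norm_eq_abs]
    exact Real.abs_le_sqrt (by nlinarith [sq_nonneg u.2])
  · rw [Real.norm_eq_abs]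
    exact Real.abs_le_sqrt (by nlinarith [sq_nonneg u.1])

theorem rb_nm_le_norm (u : ℝ × ℝ) : nm u ≤ 2 * ‖u‖ := by
  have h1 : |u.1| ≤ ‖u‖ := norm_fst_le u
  have h2 : |u.2| ≤ ‖u‖ := norm_snd_le u
  have h0 := norm_nonneg u
  rw [nm]
  apply Real.sqrt_le_iff.2
  refine ⟨by positivity, ?_⟩
  nlinarith [sq_abs u.1, sq_abs u.2, abs_nonneg u.1, abs_nonneg u.2]

theorem rb_det2_le (u v : ℝ × ℝ) : |det2 u v| ≤ nm u * nm v := by
  have hu := rb_nm_nonneg u
  have hv := rb_nm_nonneg v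
  apply abs_le_of_sq_le_sq _ (by positivity)
  rw [mul_pow, nm_sq, nm_sq, det2]
  nlinarith [sq_nonneg (u.1 * v.1 + u.2 * v.2)]

theorem rb_det2_add_left (u u' v : ℝ × ℝ) : det2 (u + u') v = det2 u v + det2 u' v := by
  simp only [det2, Prod.fst_add, Prod.snd_add]; ring

theorem rb_det2_sub_left (u u' v : ℝ × ℝ) : det2 (u - u') v = det2 u v - det2 u' v := by
  simp only [det2, Prod.fst_sub, Prod.snd_sub]; ring

theorem rb_det2_smul_left (t : ℝ) (u v : ℝ × ℝ) : det2 (t • u) v = t * det2 u v := by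
  simp only [det2, Prod.smul_fst, Prod.smul_snd, smul_eq_mul]; ring

theorem rb_det2_add_right (u v v' : ℝ × ℝ) : det2 u (v + v') = det2 u v + det2 u v' := by
  simp only [det2, Prod.fst_add, Prod.snd_add]; ring

theorem rb_det2_sub_right (u v v' : ℝ × ℝ) : det2 u (v - v') = det2 u v - det2 u v' := by
  simp only [det2, Prod.fst_sub, Prod.snd_sub]; ring

theorem rb_det2_smul_right (t : ℝ) (u v : ℝ × ℝ) : det2 u (t • v) = t * det2 u v := by
  simp only [det2, Prod.smul_fst, Prod.smul_snd, smul_eq_mul]; ring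

theorem rb_det2_self (u : ℝ × ℝ) : det2 u u = 0 := by
  simp only [det2]; ring

theorem rb_det2_swap (u v : ℝ × ℝ) : det2 u v = -det2 v u := by
  simp only [det2]; ring

theorem rb_continuous_det2 : Continuous fun p : (ℝ × ℝ) × (ℝ × ℝ) => det2 p.1 p.2 := by
  unfold det2
  fun_prop

theorem rb_nm_dirv (c : ℝ) : nm (dirv c) = 1 := by
  rw [nm, dirv]
  simp only
  rw [Real.cos_sq_add_sin_sq, Real.sqrt_one]

theorem rb_dirv_ne (c : ℝ) : dirv c ≠ 0 := by
  intro h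
  have h1 := rb_nm_dirv c
  rw [h, rb_nm_zero] at h1
  exact zero_ne_one h1

theorem rb_dirv_two_pi (c : ℝ) : dirv (c + 2 * Real.pi) = dirv c := by
  simp [dirv]

/-- every vector has a direction -/
theorem rb_exists_dir (u : ℝ × ℝ) : ∃ φ : ℝ, u = nm u • dirv φ := by
  refine ⟨Complex.arg (⟨u.1, u.2⟩ : ℂ), ?_⟩
  have h1 := Complex.norm_mul_cos_arg (⟨u.1, u.2⟩ : ℂ)
  have h2 := Complex.norm_mul_sin_arg (⟨u.1, u.2⟩ : ℂ)
  rw [← rb_nm_eq_abs] at h1 h2
  ext
  · simpa [dirv] using h1.symm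
  · simpa [dirv] using h2.symm

theorem rb_det2_dirv (φ c : ℝ) : det2 (dirv φ) (dirv c) = Real.sin (c - φ) := by
  rw [Real.sin_sub]
  simp only [det2, dirv]
  ring

/-- a nonzero vector parallel to `dirv c` is a positive or a negative multiple of it -/
theorem rb_parallel {u : ℝ × ℝ} {c : ℝ} (h : det2 u (dirv c) = 0) :
    u = (u.1 * Real.cos c + u.2 * Real.sin c) • dirv c := by
  have h3 := Real.sin_sq_add_cos_sq c
  simp only [det2, dirv] at h
  ext
  · simp only [dirv, Prod.smul_fst, smul_eq_mul]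
    linear_combination Real.sin c * h - u.1 * h3
  · simp only [dirv, Prod.smul_snd, smul_eq_mul]
    linear_combination -Real.cos c * h - u.2 * h3

theorem rb_turn_zero (Y : ℝ × ℝ → ℝ × ℝ) : turn 0 Y = Y := by
  funext w; simp [turn]

theorem rb_turn_turn (a b : ℝ) (Y : ℝ × ℝ → ℝ × ℝ) : turn a (turn b Y) = turn (a + b) Y := by
  funext w
  simp only [turn, Real.cos_add, Real.sin_add]
  ext
  · ring
  · ring

theorem rb_turn_neg (a : ℝ) (Y : ℝ × ℝ → ℝ × ℝ) :
    turn a (fun z => -Y z) = fun z => -turn a Y z := by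
  funext w
  simp only [turn, Prod.fst_neg, Prod.snd_neg]
  ext
  · simp only [Prod.fst_neg]; ring
  · simp only [Prod.snd_neg]; ring

/-- if the turned vector is `ρ` times the turned direction, the vector is `ρ` times the direction -/
theorem dir_of_turn {Y : ℝ × ℝ → ℝ × ℝ} {z : ℝ × ℝ} {a b ρ : ℝ}
    (h : turn a Y z = ρ • dirv (b + a)) : Y z = ρ • dirv b := by
  have h1 := congrArg Prod.fst h
  have h2 := congrArg Prod.snd h
  simp only [turn, dirv, Prod.smul_fst, Prod.smul_snd, smul_eq_mul, Real.cos_add,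
    Real.sin_add] at h1 h2
  have h3 := Real.sin_sq_add_cos_sq a
  ext
  · simp only [dirv, Prod.smul_fst, smul_eq_mul]
    linear_combination Real.cos a * h1 + Real.sin a * h2 + (ρ * Real.cos b - (Y z).1) * h3
  · simp only [dirv, Prod.smul_snd, smul_eq_mul]
    linear_combination Real.cos a * h2 - Real.sin a * h1 + (ρ * Real.sin b - (Y z).2) * h3

end Pool.Agent.Lib.MP_95e7ec_an
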