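import Mathlib
import Pool.Agent.Lib.MP_95e7ec_an.Rb.Defs
import Pool.Agent.Lib.MP_95e7ec_an.Zeros

/-!
# Rb, Time: change of time
-/

set_option autoImplicit false

open Set Filter Topology MeasureTheory
open scoped ContDiff ENNReal

namespace Pool.Agent.Lib.MP_95e7ec_an

/-- a closed orbit of `v` is a closed orbit of `-v` -/
theorem IsClosedOrbit.neg {v : ℝ × ℝ → ℝ × ℝ} {C : Set (ℝ × ℝ)} (hC : IsClosedOrbit v C) :
    IsClosedOrbit (fun z => -v z) C := by
  obtain ⟨γ, T, hT, hγ, hper, ⟨s, t, hst⟩, rfl⟩ := hC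
  refine ⟨fun t => γ (-t), T, hT, fun t => ?_, fun t => ?_, ⟨-s, -t, by simpa using hst⟩, ?_⟩
  · have h := (hγ (-t)).scomp t (hasDerivAt_neg t)
    rw [neg_smul, one_smul] at h
    exact h
  · have h := hper (-t - T)
    rw [sub_add_cancel] at h
    show γ (-(t + T)) = γ (-t)
    rw [h]
    congr 1
    ring
  · ext p
    constructor
    · rintro ⟨s, rfl⟩
      exact ⟨-s, by simp⟩
    · rintro ⟨s, rfl⟩
      exact ⟨-s, rfl⟩

theorem IsClosedOrbit.isPreconnected {v : ℝ × ℝ → ℝ × ℝ} {C : Set (ℝ × ℝ)}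
    (hC : IsClosedOrbit v C) : IsPreconnected C := by
  obtain ⟨γ, T, hT, hγ, hper, -, rfl⟩ := hC
  exact isPreconnected_range (continuous_iff_continuousAt.2 fun t => (hγ t).continuousAt)

/-- If `v = g Y` then a closed orbit of `v` is a closed orbit of `Y` (change of time). -/
theorem IsClosedOrbit.of_smul_field {g : ℝ × ℝ → ℝ} {Y v : ℝ × ℝ → ℝ × ℝ} (hg : Continuous g)
    (hv : ContDiff ℝ 1 v) (h : ∀ z, v z = g z • Y z) {C : Set (ℝ × ℝ)}
    (hC : IsClosedOrbit v C) : IsClosedOrbit Y C := by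
  have hne : ∀ z ∈ C, g z ≠ 0 := by
    intro z hz h0
    apply hC.ne_zero_of_contDiff hv hz
    rw [h z, h0, zero_smul]
  have hconn := hC.isPreconnected
  obtain ⟨p, hp⟩ := hC.nonempty
  have hvg : v = fun z => g z • Y z := funext h
  rcases lt_or_gt_of_ne (hne p hp) with hneg | hpos
  · have hall : ∀ z ∈ C, 0 < -g z := by
      intro z hz
      by_contra hcon
      obtain ⟨w, hw, hw0⟩ := hconn.intermediate_value hp hz hg.continuousOn
        (show (0 : ℝ) ∈ Set.Icc (g p) (g z) from ⟨hneg.le, by linarith⟩)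
      exact hne w hw hw0
    have h1 : IsClosedOrbit (fun z => (-g z) • (-Y z)) C := by
      have : (fun z => (-g z) • (-Y z)) = v := by
        rw [hvg]; funext z; simp
      rw [this]; exact hC
    have h2 := (IsClosedOrbit.of_smul hg.neg h1 hall).neg
    simpa using h2
  · have hall : ∀ z ∈ C, 0 < g z := by
      intro z hz
      by_contra hcon
      obtain ⟨w, hw, hw0⟩ := hconn.intermediate_value hz hp hg.continuousOn
        (show (0 : ℝ) ∈ Set.Icc (g z) (g p) from ⟨by linarith, hpos.le⟩)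
      exact hne w hw hw0
    rw [hvg] at hC
    exact IsClosedOrbit.of_smul hg hC hall

end Pool.Agent.Lib.MP_95e7ec_an
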