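import Mathlib
import Pool.Agent.Lib.MP_95e7ec_an.Rb.Defs
import Pool.Agent.Lib.MP_95e7ec_an.KpCross
import Pool.Agent.Lib.MP_95e7ec_an.SquareTV
import Pool.Agent.Lib.MP_95e7ec_an.Assemble

/-!
# Rb, NearAvg: the mean number of the large closed orbits near a point
-/

set_option autoImplicit false

open Set Filter Topology MeasureTheory
open scoped ContDiff ENNReal

namespace Pool.Agent.Lib.MP_95e7ec_an

private theorem nearAvg_point {n : ℕ} (μ : Pr n) (q : ℝ × ℝ) {L R : ℝ} (hL : 0 < L) (α : ℝ) :
    setSum (nearInd q L R) (vfc μ) Set.univ α ≤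
      crossN (turn α (vfc μ)) q R +
        (ENNReal.ofReal (2 * L))⁻¹ * totalLength (vfc μ) (disc q (2 * R)) α := by
  classical
  unfold crossN setSum totalLength
  set S : Set (Set (ℝ × ℝ)) := {C | IsClosedOrbit (turn α (vfc μ)) C ∧
    (∃ z ∈ C, nm (z - q) ≤ R) ∧ ∃ z ∈ C, 2 * R ≤ nm (z - q)} with hS
  set T : Set (Set (ℝ × ℝ)) := {C | IsClosedOrbit (turn α (vfc μ)) C ∧ C ⊆ univ} with hT
  set U : Set (Set (ℝ × ℝ)) := {C | IsClosedOrbit (turn α (vfc μ)) C ∧ C ⊆ disc q (2 * R)} with hU
  have h1 : ((S.encard : ℕ∞) : ℝ≥0∞) = ∑' C, S.indicator (fun _ => (1 : ℝ≥0∞)) C := by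
    rw [← tsum_subtype, ENNReal.tsum_set_one]
  have h2 : ∑' C : T, nearInd q L R C = ∑' C, T.indicator (nearInd q L R) C := tsum_subtype T _
  have h3 : ∑' C : {C : Set (ℝ × ℝ) // IsClosedOrbit (turn α (vfc μ)) C ∧ C ⊆ univ},
      nearInd q L R C = ∑' C, T.indicator (nearInd q L R) C := h2
  have h4 : ∑' C : U, orbitLength (turn α (vfc μ)) C =
      ∑' C, U.indicator (orbitLength (turn α (vfc μ))) C := tsum_subtype U _
  have h5 : ∑' C : {C : Set (ℝ × ℝ) // IsClosedOrbit (turn α (vfc μ)) C ∧ C ⊆ disc q (2 * R)},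
      orbitLength (turn α (vfc μ)) C =
      ∑' C, U.indicator (orbitLength (turn α (vfc μ))) C := h4
  rw [h1, h3, h5, ← ENNReal.tsum_mul_left, ← ENNReal.tsum_add]
  refine ENNReal.tsum_le_tsum fun C => ?_
  by_cases hC : IsClosedOrbit (turn α (vfc μ)) C
  · have hCT : C ∈ T := ⟨hC, subset_univ _⟩
    rw [Set.indicator_of_mem hCT]
    unfold nearInd
    split_ifs with hn
    · obtain ⟨⟨z, hz, hzR⟩, z1, hz1, z2, hz2, hL12⟩ := hn
      by_cases hc : ∃ z ∈ C, 2 * R ≤ nm (z - q)
      · have hCS : C ∈ S := ⟨hC, ⟨z, hz, hzR⟩, hc⟩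
        rw [Set.indicator_of_mem hCS]
        exact le_self_add
      · push Not at hc
        have hCU : C ∈ U := ⟨hC, fun w hw => mem_disc_of_nm_lt (hc w hw)⟩
        rw [Set.indicator_of_mem hCU]
        have hcont : Continuous (turn α (vfc μ)) := by
          rw [← vfc_rotA]
          exact (vfc_contDiff (rotA μ α) (n := 1)).continuous
        have h6 := two_nm_le_orbitLength hcont hz1 hz2
        have h7 : ENNReal.ofReal (2 * L) ≤ orbitLength (turn α (vfc μ)) C :=
          (ENNReal.ofReal_le_ofReal (by linarith)).trans h6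
        have h8 : ENNReal.ofReal (2 * L) ≠ 0 := (ENNReal.ofReal_pos.2 (by linarith)).ne'
        calc (1 : ℝ≥0∞) = (ENNReal.ofReal (2 * L))⁻¹ * ENNReal.ofReal (2 * L) :=
              (ENNReal.inv_mul_cancel h8 ENNReal.ofReal_ne_top).symm
          _ ≤ (ENNReal.ofReal (2 * L))⁻¹ * orbitLength (turn α (vfc μ)) C := by gcongr
          _ ≤ _ := le_add_self
    · exact zero_le
  · have hCT : C ∉ T := fun h => hC h.1
    rw [Set.indicator_of_notMem hCT]
    exact zero_le

/-- Proof. Let `C` be a closed orbit of `turn α v` with `IsNear q L R C`. Either it has a point `z` with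
`2R ≤ nm (z - q)`: these are counted by `crossN (turn α v) q R` (KpDefs.lean), and `crossing_at`
(KpCross.lean) bounds the integral of this number by
`50/(7R) (∫ over disc q (2R) of argGrad + 3/R)`, at most `50/(7R) (4π n 2R + 48 R)` by `lintegral_square`
(SquareTV.lean; the disc lies in a square of side `4R`). Or `C ⊆ disc q (2R)`, then its length is at
least `2L` (`two_nm_le_orbitLength`), so the number of these is at most `totalLength v (disc q (2R)) α
/ (2L)`, whose integral is at most `4π n 2R / (2L)` by `averaged_meas` (Assemble.lean) and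
`lintegral_square`. Sum of the two with `lintegral_add_left'` (`averaged_meas` gives the
measurability of `totalLength`). The total is at most `540 n R / L` as `R / L ≥ 1`. -/
theorem near_avg {n : ℕ} (hn : 1 ≤ n) (μ : Pr n) (q : ℝ × ℝ) {L R : ℝ} (hL : 0 < L)
    (hLR : L ≤ R) :
    ∫⁻ α in Set.Ioo 0 Real.pi, setSum (nearInd q L R) (vfc μ) Set.univ α ≤
      ENNReal.ofReal (700 * n * R / L) := by
  have hR : 0 < R := hL.trans_le hLR
  have hn1 : (1 : ℝ) ≤ n := by exact_mod_cast hn
  have hpi := Real.pi_pos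
  have hpi4 := Real.pi_lt_d2
  obtain ⟨hm, hint⟩ := averaged_meas μ (isOpen_disc q (2 * R))
  have hsq := disc_subset_square q (ρ := 2 * R) (by linarith)
  have hlin := lintegral_square μ (Ω := disc q (2 * R)) (z0 := q) (R := 2 * R) (by linarith) hsq
  have hvol : volume (disc q (2 * R)) ≤ ENNReal.ofReal (16 * R ^ 2) := by
    calc volume (disc q (2 * R)) ≤ volume (Set.Ioo (q.1 - 2 * R) (q.1 + 2 * R) ×ˢ
          Set.Ioo (q.2 - 2 * R) (q.2 + 2 * R)) := measure_mono hsq
      _ = ENNReal.ofReal (16 * R ^ 2) := by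
        rw [Measure.volume_eq_prod, Measure.prod_prod, Real.volume_Ioo, Real.volume_Ioo,
          ← ENNReal.ofReal_mul (by linarith)]
        congr 1
        ring
  have hcross : ∫⁻ α in Set.Ioo 0 Real.pi, crossN (turn α (vfc μ)) q R ≤
      ENNReal.ofReal (50 / 7 * (8 * Real.pi * n + 48)) := by
    refine (crossing_at μ q hR).trans ?_
    have e1 : ∫⁻ z in disc q (2 * R), (ENNReal.ofReal (argGrad μ z) + ENNReal.ofReal (3 / R)) ≤
        ENNReal.ofReal (R * (8 * Real.pi * n + 48)) := by
      rw [lintegral_add_right _ measurable_const, setLIntegral_const]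
      calc _ ≤ ENNReal.ofReal (4 * Real.pi * n * (2 * R)) +
            ENNReal.ofReal (3 / R) * ENNReal.ofReal (16 * R ^ 2) := by gcongr
        _ = ENNReal.ofReal (R * (8 * Real.pi * n + 48)) := by
          rw [← ENNReal.ofReal_mul (by positivity), ← ENNReal.ofReal_add (by positivity)
            (by positivity)]
          congr 1
          field_simp
          ring
    calc _ ≤ (ENNReal.ofReal (7 / 50 * R))⁻¹ * ENNReal.ofReal (R * (8 * Real.pi * n + 48)) := by
          gcongr
      _ = ENNReal.ofReal (50 / 7 * (8 * Real.pi * n + 48)) := by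
          rw [← ENNReal.ofReal_inv_of_pos (by positivity), ← ENNReal.ofReal_mul (by positivity)]
          congr 1
          field_simp
  have hlen : ∫⁻ α in Set.Ioo 0 Real.pi, (ENNReal.ofReal (2 * L))⁻¹ *
      totalLength (vfc μ) (disc q (2 * R)) α ≤ ENNReal.ofReal (4 * Real.pi * n * R / L) := by
    rw [lintegral_const_mul'' _ hm]
    calc _ ≤ (ENNReal.ofReal (2 * L))⁻¹ * ENNReal.ofReal (4 * Real.pi * n * (2 * R)) := by
          gcongr
          exact hint.trans hlin
      _ = ENNReal.ofReal (4 * Real.pi * n * R / L) := by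
          rw [← ENNReal.ofReal_inv_of_pos (by positivity), ← ENNReal.ofReal_mul (by positivity)]
          congr 1
          field_simp
          try ring
  calc ∫⁻ α in Set.Ioo 0 Real.pi, setSum (nearInd q L R) (vfc μ) Set.univ α
      ≤ ∫⁻ α in Set.Ioo 0 Real.pi, (crossN (turn α (vfc μ)) q R +
        (ENNReal.ofReal (2 * L))⁻¹ * totalLength (vfc μ) (disc q (2 * R)) α) :=
        lintegral_mono fun α => nearAvg_point μ q hL α
    _ = (∫⁻ α in Set.Ioo 0 Real.pi, crossN (turn α (vfc μ)) q R) +
        ∫⁻ α in Set.Ioo 0 Real.pi, (ENNReal.ofReal (2 * L))⁻¹ *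
          totalLength (vfc μ) (disc q (2 * R)) α :=
        lintegral_add_right' _ (hm.const_mul _)
    _ ≤ ENNReal.ofReal (50 / 7 * (8 * Real.pi * n + 48)) +
        ENNReal.ofReal (4 * Real.pi * n * R / L) := add_le_add hcross hlen
    _ = ENNReal.ofReal (50 / 7 * (8 * Real.pi * n + 48) + 4 * Real.pi * n * R / L) := by
        rw [← ENNReal.ofReal_add (by positivity) (by positivity)]
    _ ≤ ENNReal.ofReal (700 * n * R / L) := by
        apply ENNReal.ofReal_le_ofReal
        have hq1 : 1 ≤ R / L := by rw [le_div_iff₀ hL]; linarith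
        have e1 : 4 * Real.pi * n * R / L = 4 * Real.pi * n * (R / L) := by ring
        have e2 : 700 * (n : ℝ) * R / L = 700 * n * (R / L) := by ring
        rw [e1, e2]
        have e3 : Real.pi * n ≤ 3.15 * n := by nlinarith
        have e4 : 50 / 7 * (8 * Real.pi * n + 48) ≤ 530 * n := by nlinarith
        have e5 : (n : ℝ) ≤ n * (R / L) := by nlinarith
        have e6 : Real.pi * n * (R / L) ≤ 3.15 * (n * (R / L)) := by
          have : Real.pi * n * (R / L) ≤ 3.15 * n * (R / L) :=
            mul_le_mul_of_nonneg_right e3 (by linarith)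
          linarith
        nlinarith

end Pool.Agent.Lib.MP_95e7ec_an
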