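import Mathlib
import Pool.Agent.Lib.MP_95e7ec_an.Rb.Defs
import Pool.Agent.Lib.MP_95e7ec_an.LineTV
import Pool.Agent.Lib.MP_95e7ec_an.SquareTV

/-!
# Rb, RadInt: the radial variation of the argument
-/

set_option autoImplicit false

open Set Filter Topology MeasureTheory
open scoped ContDiff ENNReal

namespace Pool.Agent.Lib.MP_95e7ec_an

/-- the restriction of an array to the ray from `q` in the direction `(u, v)` -/
private noncomputable def radInt_pol {n : ℕ} (c : Co n) (q : ℝ × ℝ) (u v : ℝ) : Polynomial ℝ :=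
  ∑ a : Fin (n + 1), ∑ b : Fin (n + 1), Polynomial.C (c a b) *
    ((Polynomial.C q.1 + Polynomial.C u * Polynomial.X) ^ (a : ℕ) *
      (Polynomial.C q.2 + Polynomial.C v * Polynomial.X) ^ (b : ℕ))

private theorem radInt_eval {n : ℕ} (c : Co n) (q : ℝ × ℝ) (u v r : ℝ) :
    (radInt_pol c q u v).eval r = pe c (q.1 + u * r) (q.2 + v * r) := by
  simp only [radInt_pol, pe, Polynomial.eval_finsetSum, Polynomial.eval_mul, Polynomial.eval_C,
    Polynomial.eval_pow, Polynomial.eval_X, Polynomial.eval_add, smul_eq_mul]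

private theorem radInt_eval' {n : ℕ} (c : Co n) (q : ℝ × ℝ) (u v r : ℝ) :
    (radInt_pol c q u v).derivative.eval r =
      pex c (q.1 + u * r) (q.2 + v * r) * u + pey c (q.1 + u * r) (q.2 + v * r) * v := by
  simp only [radInt_pol, pex, pey, Polynomial.derivative_sum, Polynomial.eval_finsetSum,
    Polynomial.derivative_mul, Polynomial.derivative_C, zero_mul, zero_add,
    Polynomial.derivative_pow, Polynomial.derivative_add, Polynomial.derivative_X,
    Polynomial.eval_mul, Polynomial.eval_C, Polynomial.eval_add, Polynomial.eval_natCast,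
    Polynomial.eval_pow, Polynomial.eval_X, smul_eq_mul, mul_one, Polynomial.eval_one,
    Polynomial.eval_zero]
  rw [Finset.sum_mul, Finset.sum_mul, ← Finset.sum_add_distrib]
  refine Finset.sum_congr rfl fun a _ => ?_
  rw [Finset.sum_mul, Finset.sum_mul, ← Finset.sum_add_distrib]
  refine Finset.sum_congr rfl fun b _ => ?_
  ring

private theorem radInt_deg {n : ℕ} (c : Co n) (q : ℝ × ℝ) (u v : ℝ) :
    (radInt_pol c q u v).natDegree ≤ 2 * n := by
  have h1 : ∀ s t : ℝ, (Polynomial.C s + Polynomial.C t * Polynomial.X).natDegree ≤ 1 := by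
    intro s t
    refine (Polynomial.natDegree_add_le _ _).trans (max_le ?_ ?_)
    · simp
    · simpa using Polynomial.natDegree_C_mul_X_pow_le t 1
  apply Polynomial.natDegree_sum_le_of_forall_le
  intro a _
  apply Polynomial.natDegree_sum_le_of_forall_le
  intro b _
  refine (Polynomial.natDegree_C_mul_le _ _).trans ?_
  refine Polynomial.natDegree_mul_le.trans ?_
  have ha : ((Polynomial.C q.1 + Polynomial.C u * Polynomial.X) ^ (a : ℕ)).natDegree ≤ n := by
    refine Polynomial.natDegree_pow_le.trans ?_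
    have := h1 q.1 u
    calc (a : ℕ) * _ ≤ (a : ℕ) * 1 := Nat.mul_le_mul_left _ this
      _ ≤ n := by omega
  have hb : ((Polynomial.C q.2 + Polynomial.C v * Polynomial.X) ^ (b : ℕ)).natDegree ≤ n := by
    refine Polynomial.natDegree_pow_le.trans ?_
    have := h1 q.2 v
    calc (b : ℕ) * _ ≤ (b : ℕ) * 1 := Nat.mul_le_mul_left _ this
      _ ≤ n := by omega
  omega

/-- the variation density along the ray -/
private noncomputable def radInt_G {n : ℕ} (μ : Pr n) (q : ℝ × ℝ) (r φ : ℝ) : ℝ :=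
  |pe μ.1 (q.1 + Real.cos φ * r) (q.2 + Real.sin φ * r) *
      (pex μ.2 (q.1 + Real.cos φ * r) (q.2 + Real.sin φ * r) * Real.cos φ +
        pey μ.2 (q.1 + Real.cos φ * r) (q.2 + Real.sin φ * r) * Real.sin φ) -
    pe μ.2 (q.1 + Real.cos φ * r) (q.2 + Real.sin φ * r) *
      (pex μ.1 (q.1 + Real.cos φ * r) (q.2 + Real.sin φ * r) * Real.cos φ +
        pey μ.1 (q.1 + Real.cos φ * r) (q.2 + Real.sin φ * r) * Real.sin φ)| /
    (pe μ.1 (q.1 + Real.cos φ * r) (q.2 + Real.sin φ * r) ^ 2 +
      pe μ.2 (q.1 + Real.cos φ * r) (q.2 + Real.sin φ * r) ^ 2)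

private theorem radInt_line {n : ℕ} (μ : Pr n) (q : ℝ × ℝ) (φ : ℝ) :
    ∫⁻ r : ℝ, ENNReal.ofReal (radInt_G μ q r φ) ≤ ENNReal.ofReal (2 * n * Real.pi) := by
  by_cases h : radInt_pol μ.1 q (Real.cos φ) (Real.sin φ) ≠ 0 ∨
      radInt_pol μ.2 q (Real.cos φ) (Real.sin φ) ≠ 0
  · have := lintegral_line (n := 2 * n) _ _ (radInt_deg _ _ _ _) (radInt_deg _ _ _ _) h
    push_cast at this
    simpa only [radInt_eval, radInt_eval', radInt_G] using this
  · push Not at h
    have h0 : ∀ r, radInt_G μ q r φ = 0 := by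
      intro r
      have e1 : pe μ.1 (q.1 + Real.cos φ * r) (q.2 + Real.sin φ * r) = 0 := by
        rw [← radInt_eval, h.1, Polynomial.eval_zero]
      have e2 : pe μ.2 (q.1 + Real.cos φ * r) (q.2 + Real.sin φ * r) = 0 := by
        rw [← radInt_eval, h.2, Polynomial.eval_zero]
      simp [radInt_G, e1, e2]
    simp only [h0, ENNReal.ofReal_zero, lintegral_const, zero_mul]
    simp

private theorem radInt_meas {n : ℕ} (μ : Pr n) (q : ℝ × ℝ) :
    Measurable fun p : ℝ × ℝ => radInt_G μ q p.1 p.2 := by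
  have h1 : ∀ c : Co n, Continuous fun p : ℝ × ℝ =>
      pe c (q.1 + Real.cos p.2 * p.1) (q.2 + Real.sin p.2 * p.1) := fun c => by
    unfold pe; fun_prop
  have h2 : ∀ c : Co n, Continuous fun p : ℝ × ℝ =>
      pex c (q.1 + Real.cos p.2 * p.1) (q.2 + Real.sin p.2 * p.1) := fun c => by
    unfold pex; fun_prop
  have h3 : ∀ c : Co n, Continuous fun p : ℝ × ℝ =>
      pey c (q.1 + Real.cos p.2 * p.1) (q.2 + Real.sin p.2 * p.1) := fun c => by
    unfold pey; fun_prop
  have hc : Continuous fun p : ℝ × ℝ => Real.cos p.2 := by fun_prop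
  have hs : Continuous fun p : ℝ × ℝ => Real.sin p.2 := by fun_prop
  unfold radInt_G
  apply Measurable.div
  · exact (((h1 _).mul (((h2 _).mul hc).add ((h3 _).mul hs))).sub
      ((h1 _).mul (((h2 _).mul hc).add ((h3 _).mul hs)))).abs.measurable
  · exact (((h1 _).pow 2).add ((h1 _).pow 2)).measurable

private theorem radInt_eq {n : ℕ} (μ : Pr n) (q : ℝ × ℝ) {r : ℝ} (hr : 0 < r) (φ : ℝ) :
    r * radG μ q ((r * Real.cos φ, r * Real.sin φ) + q) = radInt_G μ q r φ := by
  have e1 : ((r * Real.cos φ, r * Real.sin φ) + q).1 = q.1 + Real.cos φ * r := by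
    simp only [Prod.fst_add]; ring
  have e2 : ((r * Real.cos φ, r * Real.sin φ) + q).2 = q.2 + Real.sin φ * r := by
    simp only [Prod.snd_add]; ring
  have e3 : nm ((r * Real.cos φ, r * Real.sin φ) + q - q) ^ 2 = r ^ 2 := by
    rw [add_sub_cancel_right, nm, Real.sq_sqrt (by positivity)]
    have := Real.sin_sq_add_cos_sq φ
    simp only
    linear_combination r ^ 2 * this
  unfold radG radInt_G
  rw [e3, e1, e2]
  set a := pe μ.1 (q.1 + Real.cos φ * r) (q.2 + Real.sin φ * r)
  set b := pe μ.2 (q.1 + Real.cos φ * r) (q.2 + Real.sin φ * r)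
  have e4 : q.1 + Real.cos φ * r - q.1 = Real.cos φ * r := by ring
  have e5 : q.2 + Real.sin φ * r - q.2 = Real.sin φ * r := by ring
  rw [e4, e5]
  have e6 : ∀ x y x' y' : ℝ, a * (x * (Real.cos φ * r) + y * (Real.sin φ * r)) -
      b * (x' * (Real.cos φ * r) + y' * (Real.sin φ * r)) =
      r * (a * (x * Real.cos φ + y * Real.sin φ) - b * (x' * Real.cos φ + y' * Real.sin φ)) := by
    intro x y x' y'; ring
  rw [e6, abs_mul, abs_of_pos hr]
  by_cases h : a ^ 2 + b ^ 2 = 0
  · rw [h]; simp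
  · field_simp

/-- Proof: polar coordinates about `q` (translate by `q`, then `lintegral_comp_polarCoord_symm`).
For `z = q + r u`, `u = dirv φ`, the polynomials `p r = pe μ.1 (q.1 + r u.1) (q.2 + r u.2)` and `p₂`
(with `μ.2`) have degree at most `2n` in `r`, and `radG μ q z * r = |p p₂' - p₂ p'| / (p² + p₂²)` for
`r > 0`. `lintegral_line` gives `2 n π` for the integral over all `r` if `p ≠ 0 ∨ p₂ ≠ 0` (if both
are zero the integrand is zero), and the angle varies over an interval of length `2π`. -/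
theorem lintegral_radG {n : ℕ} (μ : Pr n) (q : ℝ × ℝ) :
    ∫⁻ z : ℝ × ℝ, ENNReal.ofReal (radG μ q z) ≤ ENNReal.ofReal (4 * Real.pi ^ 2 * n) := by
  have hpi := Real.pi_pos
  rw [← lintegral_add_right_eq_self (fun z : ℝ × ℝ => ENNReal.ofReal (radG μ q z)) q,
    ← lintegral_comp_polarCoord_symm]
  have hm : MeasurableSet polarCoord.target := by
    rw [polarCoord_target]
    exact measurableSet_Ioi.prod measurableSet_Ioo
  calc ∫⁻ p : ℝ × ℝ in polarCoord.target,
        ENNReal.ofReal p.1 • ENNReal.ofReal (radG μ q (polarCoord.symm p + q))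
      = ∫⁻ p : ℝ × ℝ in polarCoord.target, ENNReal.ofReal (radInt_G μ q p.1 p.2) := by
        apply setLIntegral_congr_fun hm
        rintro ⟨r, φ⟩ hp
        rw [polarCoord_target] at hp
        have hr : 0 < r := hp.1
        simp only [smul_eq_mul, polarCoord_symm_apply]
        rw [← ENNReal.ofReal_mul hr.le, radInt_eq μ q hr φ]
    _ ≤ ∫⁻ p : ℝ × ℝ in Set.univ ×ˢ Set.Ioo (-Real.pi) Real.pi,
          ENNReal.ofReal (radInt_G μ q p.1 p.2) := by
        apply lintegral_mono_set
        rw [polarCoord_target]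
        exact Set.prod_mono (Set.subset_univ _) subset_rfl
    _ = ∫⁻ φ in Set.Ioo (-Real.pi) Real.pi, ∫⁻ r in Set.univ,
          ENNReal.ofReal (radInt_G μ q r φ) := by
        rw [Measure.volume_eq_prod]
        exact setLIntegral_prod_symm _ (radInt_meas μ q).ennreal_ofReal.aemeasurable
    _ ≤ ∫⁻ φ in Set.Ioo (-Real.pi) Real.pi, ENNReal.ofReal (2 * n * Real.pi) := by
        apply lintegral_mono
        intro φ
        rw [Measure.restrict_univ]
        exact radInt_line μ q φ
    _ = ENNReal.ofReal (4 * Real.pi ^ 2 * n) := by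
        rw [setLIntegral_const, Real.volume_Ioo, mul_comm, ← ENNReal.ofReal_mul (by linarith)]
        congr 1
        ring

end Pool.Agent.Lib.MP_95e7ec_an
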