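import Mathlib
import Pool.Agent.Lib.MP_95e7ec_an.Rb.StarIneq

/-!
# Rb, StarFam: the star inequality for the families, measurability
-/

set_option autoImplicit false

open Set Filter Topology MeasureTheory
open scoped ContDiff ENNReal

namespace Pool.Agent.Lib.MP_95e7ec_an

/-- `radG` is invariant under turning -/
theorem radG_rotA {D : ℕ} (μ : Pr D) (α : ℝ) (q z : ℝ × ℝ) : radG (rotA μ α) q z = radG μ q z := by
  have h := Real.sin_sq_add_cos_sq α
  unfold radG
  rw [avb_rotA_fst, avb_rotA_snd]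
  simp only [avb_pe_add, avb_pe_smul, avb_pex_add, avb_pex_smul, avb_pey_add, avb_pey_smul,
    smul_eq_mul]
  congr 1
  · congr 1
    linear_combination (pe μ.1 z.1 z.2 * (pex μ.2 z.1 z.2 * (z.1 - q.1) +
      pey μ.2 z.1 z.2 * (z.2 - q.2)) - pe μ.2 z.1 z.2 * (pex μ.1 z.1 z.2 * (z.1 - q.1) +
      pey μ.1 z.1 z.2 * (z.2 - q.2))) * h
  · linear_combination ((pe μ.1 z.1 z.2 ^ 2 + pe μ.2 z.1 z.2 ^ 2) * nm (z - q) ^ 2) * h

theorem measurable_radG {D : ℕ} (μ : Pr D) (q : ℝ × ℝ) : Measurable (radG μ q) := by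
  unfold radG
  have h1 := (avb_continuous_pe μ.1).measurable
  have h2 := (avb_continuous_pe μ.2).measurable
  have h3 := (avb_continuous_pex μ.1).measurable
  have h4 := (avb_continuous_pex μ.2).measurable
  have h5 := (avb_continuous_pey μ.1).measurable
  have h6 := (avb_continuous_pey μ.2).measurable
  have h7 : Measurable fun z : ℝ × ℝ => z.1 - q.1 := measurable_fst.sub_const _
  have h8 : Measurable fun z : ℝ × ℝ => z.2 - q.2 := measurable_snd.sub_const _
  have h9 : Measurable fun z : ℝ × ℝ => nm (z - q) :=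
    (continuous_nm.comp (continuous_id.sub continuous_const)).measurable
  have abs_meas : ∀ f : ℝ × ℝ → ℝ, Measurable f → Measurable fun z => |f z| :=
    fun f hf => continuous_abs.measurable.comp hf
  exact (abs_meas _ ((h1.mul ((h4.mul h7).add (h6.mul h8))).sub
    (h2.mul ((h3.mul h7).add (h5.mul h8))))).div
    (((h1.pow_const 2).add (h2.pow_const 2)).mul (h9.pow_const 2))

private theorem starFam_continuousAt_radG {D : ℕ} (μ : Pr D) {q z : ℝ × ℝ} (hz : vfc μ z ≠ 0)
    (hq : z ≠ q) : ContinuousAt (radG μ q) z := by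
  unfold radG
  have h1 := (avb_continuous_pe μ.1).continuousAt (x := z)
  have h2 := (avb_continuous_pe μ.2).continuousAt (x := z)
  have h3 := (avb_continuous_pex μ.1).continuousAt (x := z)
  have h4 := (avb_continuous_pex μ.2).continuousAt (x := z)
  have h5 := (avb_continuous_pey μ.1).continuousAt (x := z)
  have h6 := (avb_continuous_pey μ.2).continuousAt (x := z)
  have h7 : ContinuousAt (fun z : ℝ × ℝ => z.1 - q.1) z :=
    (continuous_fst.sub continuous_const).continuousAt
  have h8 : ContinuousAt (fun z : ℝ × ℝ => z.2 - q.2) z :=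
    (continuous_snd.sub continuous_const).continuousAt
  have h9 : ContinuousAt (fun z : ℝ × ℝ => nm (z - q)) z :=
    (continuous_nm.comp (continuous_id.sub continuous_const)).continuousAt
  have hne : (pe μ.1 z.1 z.2 ^ 2 + pe μ.2 z.1 z.2 ^ 2) * nm (z - q) ^ 2 ≠ 0 := by
    have e1 := nm_pos hz
    have e2 := nm_sq (vfc μ z)
    have e3 : (vfc μ z).1 ^ 2 + (vfc μ z).2 ^ 2 = pe μ.1 z.1 z.2 ^ 2 + pe μ.2 z.1 z.2 ^ 2 := rfl
    have e4 := nm_pos (sub_ne_zero.2 hq)
    rw [← e3, ← e2]
    positivity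
  exact ((h1.mul ((h4.mul h7).add (h6.mul h8))).sub
    (h2.mul ((h3.mul h7).add (h5.mul h8)))).abs.div
    (((h1.pow 2).add (h2.pow 2)).mul (h9.pow 2)) hne

private theorem starFam_radG_nonneg {D : ℕ} (μ : Pr D) (q z : ℝ × ℝ) : 0 ≤ radG μ q z := by
  unfold radG
  positivity

/-- `IsStar` for the orbits of a family: the angle in the definition is `F.a s` (if
`IsClosedOrbit (turn α v) C` and `IsClosedOrbit (turn β v) C`, `α β ∈ (0,π)`, then `α = β`:
`orbit_eq_of_meet` in ExistsFam.lean, `vfc_rotA`, `Fam.isClosedOrbit` in FamGeom1.lean). -/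
theorem isStar_orb_iff {D : ℕ} {μ : Pr D} (F : Fam μ Set.univ) {s : ℝ} (hs : s ∈ F.J)
    (q : ℝ × ℝ) (κ : ℝ) : IsStar (vfc μ) q κ (F.orb s) ↔ q ∉ F.orb s ∧ ∀ z ∈ F.orb s,
      κ * nm (z - q) * nm (vfc (rotA μ (F.a s)) z) ≤
        |det2 (z - q) (vfc (rotA μ (F.a s)) z)| := by
  constructor
  · rintro ⟨hq, α, hα, hC, h⟩
    rw [← vfc_rotA] at hC
    have hm := (orbit_eq_of_meet (F.a_mem s hs) hα (F.isClosedOrbit hs) hC
      (z := at' (F.Z s) 0) ⟨0, rfl⟩ ⟨0, rfl⟩).1
    refine ⟨hq, ?_⟩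
    rw [vfc_rotA, hm]
    exact h
  · rintro ⟨hq, h⟩
    have hC := F.isClosedOrbit hs
    rw [vfc_rotA] at hC h
    exact ⟨hq, F.a s, F.a_mem s hs, hC, h⟩

/-- Proof: `isStar_orb_iff`, `star_le_of` for the field `rotA μ (F.a s)` (as in the proof of the
length inequality for families, see the use of `length_le_of` in the library), `radG_rotA`,
`Fam.jac`; the case `starInd = 0` is trivial. Convert the interval integral of a nonnegative continuous
function into a lintegral over `Ioo 0 1`. -/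
theorem Fam.star_le {D : ℕ} {μ : Pr D} (F : Fam μ Set.univ) {q : ℝ × ℝ} {κ : ℝ} (hκ : 0 < κ)
    {s : ℝ} (hs : s ∈ F.J) :
    ENNReal.ofReal |F.a' s| * starInd (vfc μ) q κ (F.orb s) ≤
      ∫⁻ t in Set.Ioo (0 : ℝ) 1, ENNReal.ofReal (F.jac s t) *
        (ENNReal.ofReal (1 / (2 * Real.pi * κ ^ 2)) *
          ENNReal.ofReal (radG μ q (pth (F.Z s) t))) := by
  classical
  by_cases hst : IsStar (vfc μ) q κ (F.orb s)
  swap
  · rw [starInd, if_neg hst, mul_zero]
    exact bot_le
  rw [starInd, if_pos hst, mul_one]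
  obtain ⟨hq0, hstar⟩ := (isStar_orb_iff F hs q κ).1 hst
  have hne : ∀ t, vfc (rotA μ (F.a s)) (at' (F.Z s) t) ≠ 0 := by
    intro t h0
    have := F.jac_pos s hs t
    rw [h0] at this
    simp [det2] at this
  have hneμ : ∀ t, vfc μ (at' (F.Z s) t) ≠ 0 := by
    intro t h0
    apply hne t
    rw [vfc_rotA]
    exact turn_eq_zero.2 h0
  have hqt : ∀ t, at' (F.Z s) t ≠ q := by
    intro t h0
    exact hq0 ⟨t, h0⟩
  have key := star_le_of (rotA μ (F.a s)) (F.τ s) (F.τ' s) (F.a' s) (F.tau_pos s hs)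
    (at' (F.Z s) 0) (at' (F.Y s) 0) (F.Z s) (F.Y s) (F.sol s hs) (F.closed s hs) rfl
    (F.closedY s hs) hne (F.lin1 s hs) (F.lin2 s hs) hκ hqt (fun t => hstar _ ⟨t, rfl⟩)
  have hpth : ∀ (t : ℝ) (ht : t ∈ Set.Icc (0 : ℝ) 1) (z : A × A),
      pth z t = at' z ⟨t, ht.1, ht.2⟩ := by
    intro t ht z
    have := pth_coe z ⟨t, ht.1, ht.2⟩
    exact this
  have hjac : ∀ t ∈ Set.Icc (0 : ℝ) 1,
      F.τ s * |det2 (vfc (rotA μ (F.a s)) (pth (F.Z s) t)) (pth (F.Y s) t)| *
        radG (rotA μ (F.a s)) q (pth (F.Z s) t) = F.jac s t * radG μ q (pth (F.Z s) t) := by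
    intro t ht
    have hpos := F.jac_pos s hs ⟨t, ht.1, ht.2⟩
    rw [radG_rotA, Fam.jac]
    rw [hpth t ht, hpth t ht, abs_of_pos hpos]
  have hcont : ContinuousOn (fun t => F.jac s t * radG μ q (pth (F.Z s) t)) (Set.Icc 0 1) := by
    apply ContinuousOn.mul
    · unfold Fam.jac det2
      have h1 := continuous_pth (F.Z s)
      have h2 := continuous_pth (F.Y s)
      have h3 := (continuous_vfc_AS (rotA μ (F.a s))).comp h1
      apply Continuous.continuousOn
      have h31 := continuous_fst.comp h3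
      have h32 := continuous_snd.comp h3
      have h21 := continuous_fst.comp h2
      have h22 := continuous_snd.comp h2
      exact continuous_const.mul ((h31.mul h22).sub (h32.mul h21))
    · intro t ht
      have h1 := (continuous_pth (F.Z s)).continuousAt (x := t)
      have h2 : ContinuousAt (radG μ q) (pth (F.Z s) t) := by
        rw [hpth t ht]
        exact starFam_continuousAt_radG μ (hneμ _) (hqt _)
      exact (ContinuousAt.comp (f := pth (F.Z s)) h2 h1).continuousWithinAt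
  have hnn : ∀ t ∈ Set.Icc (0 : ℝ) 1, 0 ≤ F.jac s t * radG μ q (pth (F.Z s) t) := by
    intro t ht
    have hpos := F.jac_pos s hs ⟨t, ht.1, ht.2⟩
    apply mul_nonneg _ (starFam_radG_nonneg _ _ _)
    rw [Fam.jac, hpth t ht, hpth t ht]
    exact mul_nonneg (F.tau_pos s hs).le hpos.le
  have hI : (∫ t in (0 : ℝ)..1,
      F.τ s * |det2 (vfc (rotA μ (F.a s)) (pth (F.Z s) t)) (pth (F.Y s) t)| *
        radG (rotA μ (F.a s)) q (pth (F.Z s) t)) =
      ∫ t in Set.Ioo (0 : ℝ) 1, F.jac s t * radG μ q (pth (F.Z s) t) := by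
    rw [intervalIntegral.integral_of_le zero_le_one, integral_Ioc_eq_integral_Ioo]
    apply setIntegral_congr_fun measurableSet_Ioo
    intro t ht
    exact hjac t (Ioo_subset_Icc_self ht)
  rw [hI] at key
  have hpi := Real.pi_pos
  have key2 : |F.a' s| ≤ 1 / (2 * Real.pi * κ ^ 2) *
      ∫ t in Set.Ioo (0 : ℝ) 1, F.jac s t * radG μ q (pth (F.Z s) t) := by
    have h1 : 1 / (2 * Real.pi * κ ^ 2) *
        (∫ t in Set.Ioo (0 : ℝ) 1, F.jac s t * radG μ q (pth (F.Z s) t)) =
        (1 / κ ^ 2 * ∫ t in Set.Ioo (0 : ℝ) 1, F.jac s t * radG μ q (pth (F.Z s) t)) /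
          (2 * Real.pi) := by
      field_simp
    rw [h1, le_div_iff₀ (by positivity)]
    exact key
  refine (ENNReal.ofReal_le_ofReal key2).trans ?_
  rw [ENNReal.ofReal_mul (by positivity)]
  rw [ofReal_integral_eq_lintegral_ofReal]
  · have hm : Measurable fun t => ENNReal.ofReal (F.jac s t * radG μ q (pth (F.Z s) t)) := by
      apply Measurable.ennreal_ofReal
      apply Measurable.mul
      · unfold Fam.jac det2
        have h1 := continuous_pth (F.Z s)
        have h2 := continuous_pth (F.Y s)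
        have h3 := (continuous_vfc_AS (rotA μ (F.a s))).comp h1
        have h31 := continuous_fst.comp h3
        have h32 := continuous_snd.comp h3
        have h21 := continuous_fst.comp h2
        have h22 := continuous_snd.comp h2
        exact (continuous_const.mul ((h31.mul h22).sub (h32.mul h21))).measurable
      · exact (measurable_radG μ q).comp (continuous_pth (F.Z s)).measurable
    rw [← lintegral_const_mul _ hm]
    apply le_of_eq
    apply setLIntegral_congr_fun measurableSet_Ioo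
    intro t ht
    have ht' := Ioo_subset_Icc_self ht
    have hpos := F.jac_pos s hs ⟨t, ht'.1, ht'.2⟩
    simp only
    rw [ENNReal.ofReal_mul]
    · ring
    · rw [Fam.jac, hpth t ht', hpth t ht']
      exact mul_nonneg (F.tau_pos s hs).le hpos.le
  · exact (hcont.integrableOn_Icc).mono_set Ioo_subset_Icc_self
  · rw [Filter.EventuallyLE, ae_restrict_iff' measurableSet_Ioo]
    exact Eventually.of_forall fun t ht => hnn t (Ioo_subset_Icc_self ht)

private theorem starFam_open {D : ℕ} {μ : Pr D} {Ω : Set (ℝ × ℝ)} (F : Fam μ Ω)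
    {U : Set (ℝ × ℝ)} (hU : IsOpen U) : IsOpen {s | s ∈ F.J ∧ F.orb s ⊆ U} := by
  rw [isOpen_iff_mem_nhds]
  rintro s ⟨hs, hsub⟩
  have h1 : ContinuousAt F.Z s := (F.deriv_Z s hs).continuousAt
  filter_upwards [F.isOpen_J.mem_nhds hs, h1.eventually (eventually_range_subset hU hsub)]
    with s' hs' hm
  exact ⟨hs', hm⟩

/-- the set of the parameters where the margin fails is open -/
private theorem starFam_open_fail {D : ℕ} {μ : Pr D} {Ω : Set (ℝ × ℝ)} (F : Fam μ Ω)
    (q : ℝ × ℝ) (κ : ℝ) : IsOpen {s | s ∈ F.J ∧ ∃ z ∈ F.orb s,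
      |det2 (z - q) (vfc (rotA μ (F.a s)) z)| <
        κ * nm (z - q) * nm (vfc (rotA μ (F.a s)) z)} := by
  have heq : {s | s ∈ F.J ∧ ∃ z ∈ F.orb s,
      |det2 (z - q) (vfc (rotA μ (F.a s)) z)| <
        κ * nm (z - q) * nm (vfc (rotA μ (F.a s)) z)} =
      ⋃ t : unitInterval, F.J ∩ (fun s =>
        κ * nm (at' (F.Z s) t - q) * nm (vfc (rotA μ (F.a s)) (at' (F.Z s) t)) -
        |det2 (at' (F.Z s) t - q) (vfc (rotA μ (F.a s)) (at' (F.Z s) t))|) ⁻¹' Set.Ioi 0 := by
    ext s
    simp only [mem_ofPred_eq, mem_iUnion, mem_inter_iff, mem_preimage, mem_Ioi, sub_pos]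
    constructor
    · rintro ⟨hs, _, ⟨t, rfl⟩, h⟩
      exact ⟨t, hs, h⟩
    · rintro ⟨t, hs, h⟩
      exact ⟨hs, _, ⟨t, rfl⟩, h⟩
  rw [heq]
  refine isOpen_iUnion fun t => ?_
  apply ContinuousOn.isOpen_inter_preimage _ F.isOpen_J isOpen_Ioi
  have hZ : ContinuousOn (fun s => at' (F.Z s) t) F.J := by
    have h1 : Continuous fun z : A × A => at' z t := by
      unfold at'
      fun_prop
    exact h1.comp_continuousOn F.Z_cont
  have ha : ContinuousOn F.a F.J := fun s hs => (F.deriv_a s hs).continuousAt.continuousWithinAt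
  have hv : ContinuousOn (fun s => vfc μ (at' (F.Z s) t)) F.J :=
    (continuous_vfc_AS μ).comp_continuousOn hZ
  have hT : ContinuousOn (fun s => vfc (rotA μ (F.a s)) (at' (F.Z s) t)) F.J := by
    simp only [vfc_rotA, turn]
    have h1 := hv.fst
    have h2 := hv.snd
    have hc : ContinuousOn (fun s => Real.cos (F.a s)) F.J := Real.continuous_cos.comp_continuousOn ha
    have hsn : ContinuousOn (fun s => Real.sin (F.a s)) F.J := Real.continuous_sin.comp_continuousOn ha
    exact ((hc.mul h1).sub (hsn.mul h2)).prodMk ((hsn.mul h1).add (hc.mul h2))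
  have hZq : ContinuousOn (fun s => at' (F.Z s) t - q) F.J := hZ.sub continuousOn_const
  have hn1 : ContinuousOn (fun s => nm (at' (F.Z s) t - q)) F.J :=
    continuous_nm.comp_continuousOn hZq
  have hn2 : ContinuousOn (fun s => nm (vfc (rotA μ (F.a s)) (at' (F.Z s) t))) F.J :=
    continuous_nm.comp_continuousOn hT
  have hd : ContinuousOn (fun s => |det2 (at' (F.Z s) t - q)
      (vfc (rotA μ (F.a s)) (at' (F.Z s) t))|) F.J := by
    unfold det2
    exact ((hZq.fst.mul hT.snd).sub (hZq.snd.mul hT.fst)).abs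
  exact ((continuousOn_const.mul hn1).mul hn2).sub hd

/-- Proof (compare `crossInd_measurable` in SetSum.lean): by `isStar_orb_iff` the set of the `s ∈ F.J`
with `IsStar` is the intersection of the open set `{s ∈ J | F.orb s ⊆ {q}ᶜ}` (`ss_open`-type
argument) with a relatively closed subset of the open set `J` (all the functions are continuous in
`(s, t)`: the complement in `J`, `{s ∈ J | ∃ t, ... > ...}`, is open). -/
theorem starInd_measurable {D : ℕ} {μ : Pr D} (q : ℝ × ℝ) (κ : ℝ) (F : Fam μ Set.univ) :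
    ∃ L : ℝ → ℝ≥0∞, Measurable L ∧ ∀ s ∈ F.J, starInd (vfc μ) q κ (F.orb s) = L s := by
  classical
  set S : Set ℝ := {s | s ∈ F.J ∧ F.orb s ⊆ {q}ᶜ} \ {s | s ∈ F.J ∧ ∃ z ∈ F.orb s,
      |det2 (z - q) (vfc (rotA μ (F.a s)) z)| <
        κ * nm (z - q) * nm (vfc (rotA μ (F.a s)) z)} with hS
  have hSm : MeasurableSet S :=
    (starFam_open F isOpen_compl_singleton).measurableSet.diff
      (starFam_open_fail F q κ).measurableSet
  refine ⟨S.indicator fun _ => 1, measurable_const.indicator hSm, fun s hs => ?_⟩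
  have h3 : s ∈ S ↔ IsStar (vfc μ) q κ (F.orb s) := by
    rw [isStar_orb_iff F hs q κ, hS]
    simp only [Set.mem_sdiff, mem_ofPred_eq, not_and, not_exists, not_lt]
    constructor
    · rintro ⟨⟨_, h4⟩, h5⟩
      exact ⟨fun h6 => h4 h6 rfl, h5 hs⟩
    · rintro ⟨h4, h5⟩
      exact ⟨⟨hs, fun z hz h6 => h4 (h6 ▸ hz)⟩, fun _ => h5⟩
  unfold starInd
  by_cases h : s ∈ S
  · rw [if_pos (h3.1 h), Set.indicator_of_mem h]
  · rw [if_neg (fun h4 => h (h3.2 h4)), Set.indicator_of_notMem h]

end Pool.Agent.Lib.MP_95e7ec_an
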