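import Mathlib
import Pool.Agent.Lib.MP_95e7ec_an.Rb.StarFam
import Pool.Agent.Lib.MP_95e7ec_an.Rb.RadInt
import Pool.Agent.Lib.MP_95e7ec_an.SetSum

/-!
# Rb, StarAvg: the mean number of the star-shaped closed orbits
-/

set_option autoImplicit false

open Set Filter Topology MeasureTheory
open scoped ContDiff ENNReal

namespace Pool.Agent.Lib.MP_95e7ec_an

/-- Proof: `setSum_le` (SetSum.lean) with `Ω = univ`, `f = starInd (vfc μ) q κ`,
`g z = ofReal (1/(2πκ²)) * ofReal (radG μ q z)`, `starInd_measurable`, `measurable_radG`,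
`Fam.star_le`; then `lintegral_radG`. -/
theorem star_avg {n : ℕ} (μ : Pr n) (q : ℝ × ℝ) {κ : ℝ} (hκ : 0 < κ) :
    ∫⁻ α in Set.Ioo 0 Real.pi, setSum (starInd (vfc μ) q κ) (vfc μ) Set.univ α ≤
      ENNReal.ofReal (2 * Real.pi * n / κ ^ 2) := by
  have hpi := Real.pi_pos
  have hm : Measurable fun z : ℝ × ℝ => ENNReal.ofReal (radG μ q z) :=
    (measurable_radG μ q).ennreal_ofReal
  refine (setSum_le μ isOpen_univ (fun F => starInd_measurable q κ F)
    (g := fun z => ENNReal.ofReal (1 / (2 * Real.pi * κ ^ 2)) * ENNReal.ofReal (radG μ q z))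
    (hm.const_mul _) (fun F s hs => F.star_le hκ hs)).trans ?_
  rw [Measure.restrict_univ, lintegral_const_mul _ hm]
  calc _ ≤ ENNReal.ofReal (1 / (2 * Real.pi * κ ^ 2)) *
        ENNReal.ofReal (4 * Real.pi ^ 2 * n) := by
        gcongr
        exact lintegral_radG μ q
    _ = ENNReal.ofReal (2 * Real.pi * n / κ ^ 2) := by
        rw [← ENNReal.ofReal_mul (by positivity)]
        congr 1
        field_simp
        ring

end Pool.Agent.Lib.MP_95e7ec_an
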