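import Mathlib
import Pool.Agent.Lib.MP_95e7ec_an.Rb.Defs
import Pool.Agent.Lib.MP_95e7ec_an.GenAssemble
import Pool.Agent.Lib.MP_95e7ec_an.Persist

/-!
# Rb, SumMeas: measurability of the sum of a functional over the closed orbits
-/

set_option autoImplicit false

open Set Filter Topology MeasureTheory
open scoped ContDiff ENNReal

namespace Pool.Agent.Lib.MP_95e7ec_an

/-- all closed orbits, numbered by the families -/
private theorem sm_eq {D : ℕ} {μ : Pr D} {Ω : Set (ℝ × ℝ)} {f : Set (ℝ × ℝ) → ℝ≥0∞}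
    (F : ℕ → Fam μ Ω)
    (L : ℕ → ℝ → ℝ≥0∞) (hL : ∀ k, ∀ s ∈ (F k).J, f ((F k).orb s) = L k s) (hΩ : IsOpen Ω)
    (hF : ∀ G : Fam μ Ω, G.img G.J ⊆ ⋃ k, (F k).img (F k).J) {α : ℝ}
    (hα : α ∈ Set.Ioo 0 Real.pi) :
    setSum f (vfc μ) Ω α =
      ∑' k, ∑' s : {s : ℝ // s ∈ newPar F k ∧ (F k).a s = α}, L k s := by
  rw [setSum, ← ENNReal.tsum_sigma' (fun q : Σ k, {s : ℝ // s ∈ newPar F k ∧
    (F k).a s = α} => L q.1 q.2)]
  rw [← (Equiv.ofBijective _ (cover_bijective F hΩ hF hα)).tsum_eq]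
  apply tsum_congr
  rintro ⟨k, s, hs, has⟩
  exact hL k s hs.1

theorem setSum_aemeasurable {D : ℕ} (μ : Pr D) {Ω : Set (ℝ × ℝ)} (hΩ : IsOpen Ω)
    {f : Set (ℝ × ℝ) → ℝ≥0∞}
    (hf : ∀ F : Fam μ Ω, ∃ L : ℝ → ℝ≥0∞, Measurable L ∧ ∀ s ∈ F.J, f (F.orb s) = L s) :
    AEMeasurable (setSum f (vfc μ) Ω) (volume.restrict (Set.Ioo 0 Real.pi)) := by
  choose L hLm hLf using hf
  obtain ⟨T, hT, hTU⟩ := TopologicalSpace.isOpen_iUnion_countable
    (fun G : Fam μ Ω => G.img G.J) (fun G => G.isOpen_img G.isOpen_J subset_rfl)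
  rcases T.eq_empty_or_nonempty with hemp | hne
  · have h0 : ∀ α ∈ Set.Ioo 0 Real.pi, setSum f (vfc μ) Ω α = 0 := by
      intro α hα
      have : IsEmpty {C : Set (ℝ × ℝ) // IsClosedOrbit (turn α (vfc μ)) C ∧ C ⊆ Ω} := by
        refine ⟨fun ⟨C, hC, hCΩ⟩ => ?_⟩
        have hC' : IsClosedOrbit (vfc (rotA μ α)) C := by rw [vfc_rotA]; exact hC
        obtain ⟨G, s0, hs0, hGa, hGC⟩ := exists_fam μ hΩ hα hC' hCΩ
        have h1 : at' (G.Z s0) half ∈ ⋃ G : Fam μ Ω, G.img G.J :=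
          mem_iUnion.2 ⟨G, G.mid_mem hs0⟩
        rw [← hTU, hemp] at h1
        simp at h1
      rw [setSum, tsum_empty]
    refine (aemeasurable_const (b := (0 : ℝ≥0∞))).congr ?_
    filter_upwards [ae_restrict_mem measurableSet_Ioo] with α hα
    rw [h0 α hα]
  · obtain ⟨F, hFr⟩ := hT.exists_eq_range hne
    have hF : ∀ G : Fam μ Ω, G.img G.J ⊆ ⋃ k, (F k).img (F k).J := by
      intro G z hz
      have h1 : z ∈ ⋃ G : Fam μ Ω, G.img G.J := mem_iUnion.2 ⟨G, hz⟩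
      rw [← hTU, hFr] at h1
      simpa using h1
    have hone := fun k => one_dim (F k).isOpen_J (measurableSet_newPar F k) (newPar_subset F k)
      (F k).deriv_a (F k).cont_a' (hLm (F k))
    have hm : AEMeasurable (fun α : ℝ => ∑' k, ∑' s : {s : ℝ // s ∈ newPar F k ∧
        (F k).a s = α}, L (F k) s) (volume.restrict (Set.Ioo 0 Real.pi)) :=
      (AEMeasurable.ennreal_tsum fun k => (hone k).1).mono_measure Measure.restrict_le_self
    refine hm.congr ?_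
    filter_upwards [ae_restrict_mem measurableSet_Ioo] with α hα
    exact (sm_eq F (fun k => L (F k)) (fun k => hLf (F k)) hΩ hF hα).symm

end Pool.Agent.Lib.MP_95e7ec_an
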