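import Mathlib
import Pool.Agent.Lib.MP_95e7ec_an.Rb.Defs
import Pool.Agent.Lib.MP_95e7ec_an.Rb.Basic

/-!
# Rb, WndInt: the winding number is an integer, locally constant, and zero far away
-/

set_option autoImplicit false

open Set Filter Topology MeasureTheory
open scoped ContDiff ENNReal

namespace Pool.Agent.Lib.MP_95e7ec_an

private lemma wndInt_im (u v : ℝ × ℝ) :
    ((⟨v.1, v.2⟩ : ℂ) / (⟨u.1, u.2⟩ : ℂ)).im = det2 u v / nm u ^ 2 := by
  rw [Complex.div_im, nm_sq, Complex.normSq_mk, det2]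
  simp only [sq]
  rw [← sub_div]
  congr 1
  ring

private lemma wndInt_cont_nm {X : Type*} [TopologicalSpace X] {f : X → ℝ × ℝ} (hf : Continuous f) :
    Continuous fun x => nm (f x) := by
  unfold nm
  fun_prop

private lemma wndInt_cont_det {X : Type*} [TopologicalSpace X] {f g : X → ℝ × ℝ}
    (hf : Continuous f) (hg : Continuous g) :
    Continuous fun x => det2 (f x) (g x) := by
  unfold det2
  fun_prop

/-- The winding number is an integer. Proof: put `f t = (γ t - y)` as a complex number,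
`I t = ∫₀ᵗ f'/f`; then `f t * exp (-I t)` is constant, so `exp (I T) = 1`, `I T = 2 π i m`, and the
imaginary part of `f'/f` is `det2 (γ - y) γ' / |γ - y|²`. -/
theorem wnd_int {γ γ' : ℝ → ℝ × ℝ} {T : ℝ} (hγ : ∀ t, HasDerivAt γ (γ' t) t)
    (hc : Continuous γ') (hT : γ T = γ 0) {y : ℝ × ℝ} (hy : y ∉ Set.range γ) :
    ∃ m : ℤ, wnd γ γ' T y = m := by
  have hγc : Continuous γ := continuous_iff_continuousAt.2 fun t => (hγ t).continuousAt
  have hne : ∀ t, γ t - y ≠ 0 := fun t h => hy ⟨t, sub_eq_zero.1 h⟩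
  set f : ℝ → ℂ := fun t => ((((γ t - y).1 : ℝ) : ℂ) + (((γ t - y).2 : ℝ) : ℂ) * Complex.I) with hf
  set f' : ℝ → ℂ := fun t => ((((γ' t).1 : ℝ) : ℂ) + (((γ' t).2 : ℝ) : ℂ) * Complex.I) with hf'
  have hmk : ∀ a b : ℝ, ((a : ℂ) + (b : ℂ) * Complex.I) = (⟨a, b⟩ : ℂ) := by
    intro a b
    exact (Complex.mk_eq_add_mul_I a b).symm
  have hfne : ∀ t, f t ≠ 0 := by
    intro t h
    apply hne t
    rw [hf] at h
    simp only at h
    rw [hmk] at h
    have h1 := congrArg Complex.re h
    have h2 := congrArg Complex.im h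
    simp only [Complex.zero_re, Complex.zero_im] at h1 h2
    exact Prod.ext h1 h2
  have hfd : ∀ t, HasDerivAt f (f' t) t := by
    intro t
    have h0 : HasDerivAt (fun t => γ t - y) (γ' t) t := (hγ t).sub_const y
    have h1 : HasDerivAt (fun t => (γ t - y).1) (γ' t).1 t := by
      have h := (ContinuousLinearMap.fst ℝ ℝ ℝ).hasFDerivAt.comp_hasDerivAt t h0
      exact h
    have h2 : HasDerivAt (fun t => (γ t - y).2) (γ' t).2 t := by
      have h := (ContinuousLinearMap.snd ℝ ℝ ℝ).hasFDerivAt.comp_hasDerivAt t h0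
      exact h
    exact h1.ofReal_comp.add (h2.ofReal_comp.mul_const Complex.I)
  have hfc : Continuous f := continuous_iff_continuousAt.2 fun t => (hfd t).continuousAt
  have hfc' : Continuous f' := by
    rw [hf']
    fun_prop
  have hqc : Continuous fun t => f' t / f t := hfc'.div hfc hfne
  set J : ℝ → ℂ := fun t => ∫ s in (0 : ℝ)..t, f' s / f s with hJ
  have hJd : ∀ t, HasDerivAt J (f' t / f t) t := by
    intro t
    exact intervalIntegral.integral_hasDerivAt_right (hqc.intervalIntegrable _ _)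
      (hqc.stronglyMeasurableAtFilter _ _) hqc.continuousAt
  have hg : ∀ t, HasDerivAt (fun t => f t * Complex.exp (-J t)) 0 t := by
    intro t
    have h1 := (hfd t).mul ((hJd t).neg.cexp)
    have h2 : f' t * Complex.exp ((-J) t) + f t * (Complex.exp ((-J) t) * -(f' t / f t)) = 0 := by
      have h3 := hfne t
      field_simp
      ring
    rw [h2] at h1
    exact h1
  have hconst : f T * Complex.exp (-J T) = f 0 * Complex.exp (-J 0) :=
    is_const_of_deriv_eq_zero (fun t => (hg t).differentiableAt) (fun t => (hg t).deriv) T 0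
  have hJ0 : J 0 = 0 := by simp [hJ]
  have hfT : f T = f 0 := by
    simp only [hf, hT]
  rw [hfT, hJ0, neg_zero, Complex.exp_zero] at hconst
  have hexp : Complex.exp (-J T) = 1 := mul_left_cancel₀ (hfne 0) hconst
  rw [Complex.exp_eq_one_iff] at hexp
  obtain ⟨m, hm⟩ := hexp
  have him : (J T).im = ∫ t in (0 : ℝ)..T, det2 (γ t - y) (γ' t) / nm (γ t - y) ^ 2 := by
    have h1 : (J T).im = ∫ t in (0 : ℝ)..T, (f' t / f t).im := by
      have := (Complex.imCLM.intervalIntegral_comp_comm (hqc.intervalIntegrable (μ := volume) 0 T))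
      simpa using this.symm
    rw [h1]
    apply intervalIntegral.integral_congr
    intro t _
    simp only [hf, hf']
    rw [hmk, hmk, wndInt_im]
  refine ⟨-m, ?_⟩
  rw [wnd, ← him]
  have h3 : J T = -(m * (2 * Real.pi * Complex.I)) := by
    rw [← hm, neg_neg]
  rw [h3]
  have h4 : (-((m : ℂ) * (2 * (Real.pi : ℂ) * Complex.I))).im = -(m * (2 * Real.pi)) := by
    have : ((m : ℂ) * (2 * (Real.pi : ℂ) * Complex.I)) = ((m * (2 * Real.pi) : ℝ) : ℂ) * Complex.I := by
      push_cast
      ring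
    rw [this, Complex.neg_im, Complex.im_ofReal_mul, Complex.I_im, mul_one]
  rw [h4]
  push_cast
  field_simp

/-- The winding number is constant near every point off the curve. Proof: it is continuous there
(parametric integral on `[0,T]`, the denominator is bounded below near `y` since `γ '' [0,T]` is
compact; here only `γ '' [0,T]` matters) and it takes integer values. -/
theorem wnd_locally_const {γ γ' : ℝ → ℝ × ℝ} {T : ℝ} (hT0 : 0 ≤ T)
    (hγ : ∀ t, HasDerivAt γ (γ' t) t) (hc : Continuous γ') (hT : ∀ t, γ (t + T) = γ t)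
    {y : ℝ × ℝ} (hy : y ∉ Set.range γ) (hcl : IsClosed (Set.range γ)) :
    ∀ᶠ w in 𝓝 y, w ∉ Set.range γ ∧ wnd γ γ' T w = wnd γ γ' T y := by
  have _ := hT0
  have hγc : Continuous γ := continuous_iff_continuousAt.2 fun t => (hγ t).continuousAt
  have hT' : γ T = γ 0 := by simpa using hT 0
  obtain ⟨r, hr, hball⟩ := Metric.isOpen_iff.1 hcl.isOpen_compl y hy
  have hlow : ∀ w ∈ Metric.ball y (r / 2), ∀ t, (r / 2) ^ 2 ≤ nm (γ t - w) ^ 2 := by
    intro w hw t
    have h1 : r / 2 ≤ ‖γ t - w‖ := by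
      by_contra h
      push Not at h
      have h2 : dist (γ t) y < r := by
        have h3 : dist (γ t) y ≤ dist (γ t) w + dist w y := dist_triangle _ _ _
        rw [dist_eq_norm (γ t) w] at h3
        have h4 : dist w y < r / 2 := hw
        linarith
      exact hball h2 ⟨t, rfl⟩
    have h5 := rb_norm_le_nm (γ t - w)
    have h6 : 0 < r / 2 := by positivity
    exact pow_le_pow_left₀ h6.le (h1.trans h5) 2
  set F : ℝ × ℝ → ℝ → ℝ := fun w t =>
    det2 (γ t - w) (γ' t) / max ((r / 2) ^ 2) (nm (γ t - w) ^ 2) with hF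
  have hpos : 0 < (r / 2) ^ 2 := by positivity
  have hFc : Continuous (Function.uncurry F) := by
    rw [hF]
    have h1 : Continuous fun p : (ℝ × ℝ) × ℝ => γ p.2 - p.1 :=
      (hγc.comp continuous_snd).sub continuous_fst
    have h2 : Continuous fun p : (ℝ × ℝ) × ℝ => γ' p.2 := hc.comp continuous_snd
    have h3 : Continuous fun p : (ℝ × ℝ) × ℝ => det2 (γ p.2 - p.1) (γ' p.2) :=
      wndInt_cont_det h1 h2
    have h4 : Continuous fun p : (ℝ × ℝ) × ℝ => max ((r / 2) ^ 2) (nm (γ p.2 - p.1) ^ 2) :=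
      continuous_const.max ((wndInt_cont_nm h1).pow 2)
    exact h3.div h4 fun p => (lt_of_lt_of_le hpos (le_max_left _ _)).ne'
  have hGc : Continuous fun w => (∫ t in (0 : ℝ)..T, F w t) / (2 * Real.pi) :=
    (intervalIntegral.continuous_parametric_intervalIntegral_of_continuous' hFc 0 T).div_const _
  have heq : ∀ w ∈ Metric.ball y (r / 2),
      wnd γ γ' T w = (∫ t in (0 : ℝ)..T, F w t) / (2 * Real.pi) := by
    intro w hw
    rw [wnd]
    congr 1
    apply intervalIntegral.integral_congr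
    intro t _
    simp only [hF]
    rw [max_eq_right (hlow w hw t)]
  have hyb : y ∈ Metric.ball y (r / 2) := Metric.mem_ball_self (by positivity)
  have hnot : ∀ w ∈ Metric.ball y (r / 2), w ∉ Set.range γ := by
    intro w hw
    apply hball
    exact Metric.ball_subset_ball (by linarith) hw
  have hev : ∀ᶠ w in 𝓝 y, |(∫ t in (0 : ℝ)..T, F w t) / (2 * Real.pi) -
      (∫ t in (0 : ℝ)..T, F y t) / (2 * Real.pi)| < 1 := by
    have h1 := hGc.continuousAt (x := y)
    have h2 := Metric.tendsto_nhds.1 h1 1 one_pos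
    simpa [Real.dist_eq] using h2
  filter_upwards [hev, Metric.ball_mem_nhds y (by positivity : 0 < r / 2)] with w hw1 hw2
  refine ⟨hnot w hw2, ?_⟩
  obtain ⟨m, hm⟩ := wnd_int hγ hc hT' (hnot w hw2)
  obtain ⟨m', hm'⟩ := wnd_int hγ hc hT' hy
  rw [← heq w hw2, ← heq y hyb, hm, hm'] at hw1
  have h3 : |m - m'| < 1 := by exact_mod_cast hw1
  rw [hm, hm']
  have h4 : m - m' = 0 := Int.abs_lt_one_iff.1 h3
  have h5 : m = m' := by omega
  rw [h5]

/-- The winding number about far points is zero. Proof: `|det2 (γ-y) γ'| / |γ-y|² ≤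
|γ'| / |γ-y|` is small on `[0,T]` when `y` is far away, and an integer of absolute value less than
`1` is zero. -/
theorem wnd_far {γ γ' : ℝ → ℝ × ℝ} {T : ℝ} (hT0 : 0 ≤ T) (hγ : ∀ t, HasDerivAt γ (γ' t) t)
    (hc : Continuous γ') (hT : ∀ t, γ (t + T) = γ t) (hb : Bornology.IsBounded (Set.range γ)) :
    ∃ R : ℝ, ∀ y : ℝ × ℝ, R ≤ nm y → y ∉ Set.range γ ∧ wnd γ γ' T y = 0 := by
  have hγc : Continuous γ := continuous_iff_continuousAt.2 fun t => (hγ t).continuousAt
  have hT' : γ T = γ 0 := by simpa using hT 0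
  obtain ⟨B, hB⟩ := hb.exists_norm_le
  have hB' : ∀ t, nm (γ t) ≤ 2 * B := by
    intro t
    have h1 := hB (γ t) ⟨t, rfl⟩
    have h2 := rb_nm_le_norm (γ t)
    linarith
  obtain ⟨M, hM⟩ := isCompact_Icc.exists_bound_of_continuousOn (s := Set.Icc (0 : ℝ) T)
    (wndInt_cont_nm hc).continuousOn
  have hM0 : 0 ≤ M := by
    have h1 := hM 0 ⟨le_rfl, hT0⟩
    exact (norm_nonneg _).trans h1
  refine ⟨2 * B + (M * T + 1), fun y hy => ?_⟩
  have hd0 : 0 < M * T + 1 := by positivity
  have hfar : ∀ t, M * T + 1 ≤ nm (γ t - y) := by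
    intro t
    have h1 : nm y ≤ nm (γ t) + nm (γ t - y) := by
      have h2 := rb_nm_sub_le (γ t) (γ t - y)
      rwa [sub_sub_cancel] at h2
    have h3 := hB' t
    linarith
  have hynot : y ∉ Set.range γ := by
    rintro ⟨t, ht⟩
    have h1 := hfar t
    rw [ht, sub_self, rb_nm_zero] at h1
    linarith
  refine ⟨hynot, ?_⟩
  obtain ⟨m, hm⟩ := wnd_int hγ hc hT' hynot
  have hint : |∫ t in (0 : ℝ)..T, det2 (γ t - y) (γ' t) / nm (γ t - y) ^ 2| ≤
      M / (M * T + 1) * |T - 0| := by
    rw [← Real.norm_eq_abs]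
    apply intervalIntegral.norm_integral_le_of_norm_le_const
    intro t ht
    rw [Set.uIoc_of_le hT0] at ht
    have h1 := hM t ⟨ht.1.le, ht.2⟩
    have h2 := hfar t
    have h3 : 0 < nm (γ t - y) := lt_of_lt_of_le hd0 h2
    have h4 := rb_det2_le (γ t - y) (γ' t)
    have h5 : nm (γ' t) ≤ M := by
      rw [Real.norm_eq_abs] at h1
      exact (le_abs_self _).trans h1
    rw [Real.norm_eq_abs, abs_div, abs_of_pos (pow_pos h3 2)]
    rw [div_le_div_iff₀ (pow_pos h3 2) hd0]
    have h6 : |det2 (γ t - y) (γ' t)| * (M * T + 1) ≤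
        (nm (γ t - y) * nm (γ' t)) * (M * T + 1) :=
      mul_le_mul_of_nonneg_right h4 hd0.le
    have h7 : (nm (γ t - y) * nm (γ' t)) * (M * T + 1) ≤ (nm (γ t - y) * M) * nm (γ t - y) := by
      apply mul_le_mul (mul_le_mul_of_nonneg_left h5 h3.le) h2 hd0.le
      positivity
    calc _ ≤ _ := h6
      _ ≤ _ := h7
      _ = _ := by ring
  have hlt : |∫ t in (0 : ℝ)..T, det2 (γ t - y) (γ' t) / nm (γ t - y) ^ 2| < 1 := by
    refine lt_of_le_of_lt hint ?_
    rw [sub_zero, abs_of_nonneg hT0, div_mul_eq_mul_div, div_lt_one hd0]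
    linarith
  have hw : |wnd γ γ' T y| < 1 := by
    rw [wnd, abs_div, abs_of_pos (by positivity : 0 < 2 * Real.pi),
      div_lt_one (by positivity)]
    have := Real.pi_gt_three
    linarith
  rw [hm] at hw
  have h3 : |m| < 1 := by exact_mod_cast hw
  rw [hm, Int.abs_lt_one_iff.1 h3]
  simp

end Pool.Agent.Lib.MP_95e7ec_an
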