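import Mathlib
import Pool.Agent.Lib.MP_95e7ec_an.Rb.WndInt
import Pool.Agent.Lib.MP_95e7ec_an.GenAssemble
import Pool.Agent.Lib.MP_95e7ec_an.Rb.Basic

/-!
# Rb, Jump: the winding number jumps by one across a simple closed curve
-/

set_option autoImplicit false

open Set Filter Topology MeasureTheory
open scoped ContDiff ENNReal

namespace Pool.Agent.Lib.MP_95e7ec_an

theorem jump_arg_I {z : ℂ} (hz : 0 < z.re) :
    Complex.arg (Complex.I * z) = Complex.arg z + Real.pi / 2 := by
  have hz0 : z ≠ 0 := by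
    rintro rfl
    simp at hz
  have h1 := abs_lt.1 (Complex.abs_arg_lt_pi_div_two_iff.2 (Or.inl hz))
  have h2 := (Complex.arg_mul_eq_add_arg_iff Complex.I_ne_zero hz0).2 (by
    rw [Complex.arg_I]
    constructor <;> linarith [Real.pi_pos])
  rw [h2, Complex.arg_I]
  ring

theorem jump_arg_neg_I {z : ℂ} (hz : 0 < z.re) :
    Complex.arg (-Complex.I * z) = Complex.arg z - Real.pi / 2 := by
  have hz0 : z ≠ 0 := by
    rintro rfl
    simp at hz
  have h1 := abs_lt.1 (Complex.abs_arg_lt_pi_div_two_iff.2 (Or.inl hz))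
  have h2 := (Complex.arg_mul_eq_add_arg_iff (neg_ne_zero.2 Complex.I_ne_zero) hz0).2 (by
    rw [Complex.arg_neg_I]
    constructor <;> linarith [Real.pi_pos])
  rw [h2, Complex.arg_neg_I]
  ring

theorem jump_ftc {f f' : ℝ → ℂ} {α β : ℝ} (hαβ : α ≤ β) {c : ℂ} (hc : c ≠ 0)
    (hf : ∀ t, HasDerivAt f (f' t) t) (hc' : Continuous f')
    (hs : ∀ t ∈ Set.Icc α β, c * f t ∈ Complex.slitPlane) :
    ∫ t in α..β, (f' t / f t).im = Complex.arg (c * f β) - Complex.arg (c * f α) := by
  have hfc : Continuous f := continuous_iff_continuousAt.2 fun t => (hf t).continuousAt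
  have hne : ∀ t ∈ Set.Icc α β, f t ≠ 0 := by
    intro t ht h
    have := hs t ht
    rw [h, mul_zero] at this
    exact Complex.zero_notMem_slitPlane this
  have hd : ∀ t ∈ Set.uIcc α β,
      HasDerivAt (fun t => (Complex.log (c * f t)).im) ((f' t / f t).im) t := by
    intro t ht
    rw [Set.uIcc_of_le hαβ] at ht
    have h1 : HasDerivAt (fun t => c * f t) (c * f' t) t := (hf t).const_mul c
    have h2 := h1.clog_real (hs t ht)
    rw [mul_div_mul_left _ _ hc] at h2
    exact Complex.imCLM.hasFDerivAt.comp_hasDerivAt t h2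
  have hint : IntervalIntegrable (fun t => (f' t / f t).im) volume α β := by
    apply ContinuousOn.intervalIntegrable
    rw [Set.uIcc_of_le hαβ]
    apply Complex.continuous_im.comp_continuousOn
    exact hc'.continuousOn.div hfc.continuousOn hne
  rw [intervalIntegral.integral_eq_sub_of_hasDerivAt hd hint]
  simp only [Complex.log_im]

/-- near `0` the curve `q` is close to the real line -/
theorem jump_near {q q' : ℝ → ℂ} {η : ℝ} (hq : ∀ t, HasDerivAt q (q' t) t)
    (hb : ∀ t, |t| ≤ η → ‖q' t - 1‖ ≤ 1 / 4) {s t : ℝ} (hs : |s| ≤ η) (ht : |t| ≤ η)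
    (hst : s ≤ t) : 3 / 4 * (t - s) ≤ (q t - q s).re := by
  have hd : ∀ x ∈ Set.Icc (-η) η,
      HasDerivWithinAt (fun x : ℝ => q x - (x : ℂ)) (q' x - 1) (Set.Icc (-η) η) x := by
    intro x _
    exact ((hq x).sub (Complex.ofRealCLM.hasDerivAt (x := x))).hasDerivWithinAt
  have h := (convex_Icc (-η) η).norm_image_sub_le_of_norm_hasDerivWithin_le (C := 1 / 4) hd
    (fun x hx => hb x (abs_le.2 hx)) (abs_le.1 hs) (abs_le.1 ht)
  have h2 : |(q t - t - (q s - s)).re| ≤ 1 / 4 * ‖t - s‖ := (Complex.abs_re_le_norm _).trans h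
  rw [Real.norm_eq_abs, abs_of_nonneg (sub_nonneg.2 hst)] at h2
  have h3 := (abs_le.1 h2).1
  simp only [Complex.sub_re, Complex.ofReal_re] at h3 ⊢
  linarith

/-- quadratic estimate near `0` -/
theorem jump_quad {q q' : ℝ → ℂ} {η K : ℝ} (hK0 : 0 ≤ K) (hq : ∀ t, HasDerivAt q (q' t) t)
    (h0 : q 0 = 0)
    (hb : ∀ t, |t| ≤ η → ‖q' t - 1‖ ≤ K * |t|) {t : ℝ} (ht : |t| ≤ η) :
    |(q t).im| ≤ K * t ^ 2 := by
  have hd : ∀ x ∈ Set.uIcc 0 t,
      HasDerivWithinAt (fun x : ℝ => q x - (x : ℂ)) (q' x - 1) (Set.uIcc 0 t) x := by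
    intro x _
    exact ((hq x).sub (Complex.ofRealCLM.hasDerivAt (x := x))).hasDerivWithinAt
  have hx : ∀ x ∈ Set.uIcc 0 t, |x| ≤ |t| := by
    intro x hx
    have := Set.abs_sub_left_of_mem_uIcc hx
    simpa using this
  have h := (convex_uIcc 0 t).norm_image_sub_le_of_norm_hasDerivWithin_le (C := K * |t|) hd
    (fun x hx' => (hb x ((hx x hx').trans ht)).trans (mul_le_mul_of_nonneg_left (hx x hx') hK0))
    Set.left_mem_uIcc Set.right_mem_uIcc
  have h2 := (Complex.abs_im_le_norm _).trans h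
  simp only [h0, Complex.ofReal_zero, sub_zero, Complex.sub_im, Complex.ofReal_im,
    Real.norm_eq_abs] at h2
  calc |(q t).im| ≤ K * |t| * |t| := h2
    _ = K * t ^ 2 := by rw [mul_assoc, ← sq, sq_abs]

/-- the distance of a periodic curve from `0`, away from the parameter `0` -/
theorem jump_dist {q : ℝ → ℂ} {T η : ℝ} (hq : Continuous q) (hη0 : 0 < η) (hη : η ≤ T / 4)
    (hinj : ∀ t ∈ Set.Ioo 0 T, q t ≠ 0) :
    ∃ d : ℝ, 0 < d ∧ ∀ t ∈ Set.Icc η (T - η), d ≤ ‖q t‖ := by
  have hne : (Set.Icc η (T - η)).Nonempty := Set.nonempty_Icc.2 (by linarith)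
  obtain ⟨t1, ht1, hmin⟩ := isCompact_Icc.exists_isMinOn hne (hq.norm.continuousOn)
  refine ⟨‖q t1‖, norm_pos_iff.2 (hinj t1 ⟨?_, ?_⟩), fun t ht => hmin ht⟩
  · linarith [ht1.1]
  · linarith [ht1.2]

/-- the far part of the integral is continuous at `a = 0` -/
theorem jump_far {q q' : ℝ → ℂ} {α β d : ℝ} (hαβ : α ≤ β) (hq : Continuous q)
    (hc : Continuous q') (hd0 : 0 < d) (hd : ∀ t ∈ Set.Icc α β, d ≤ ‖q t‖) :
    ContinuousAt (fun a : ℂ => ∫ t in α..β, (q' t / (q t - a)).im) 0 := by
  obtain ⟨C, hC⟩ := isCompact_Icc.exists_bound_of_continuousOn (s := Set.Icc α β) (f := q')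
    hc.continuousOn
  have hC' : ∀ t ∈ Set.Icc α β, ‖q' t‖ ≤ max C 0 := fun t ht => (hC t ht).trans (le_max_left _ _)
  apply intervalIntegral.continuousAt_of_dominated_interval (bound := fun _ => max C 0 / (d / 2))
  · refine Eventually.of_forall fun a => ?_
    exact (Complex.measurable_im.comp (hc.measurable.div
      (hq.measurable.sub_const a))).aestronglyMeasurable
  · have h1 : ∀ᶠ a : ℂ in 𝓝 0, ‖a‖ < d / 2 := by
      have := Metric.ball_mem_nhds (0 : ℂ) (half_pos hd0)
      filter_upwards [this] with a ha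
      simpa using ha
    filter_upwards [h1] with a ha
    refine Eventually.of_forall fun t ht => ?_
    rw [Set.uIoc_of_le hαβ] at ht
    have ht' : t ∈ Set.Icc α β := ⟨ht.1.le, ht.2⟩
    have h2 : d / 2 ≤ ‖q t - a‖ := by
      have := norm_sub_norm_le (q t) a
      linarith [hd t ht']
    calc ‖(q' t / (q t - a)).im‖ ≤ ‖q' t / (q t - a)‖ := Complex.abs_im_le_norm _
      _ = ‖q' t‖ / ‖q t - a‖ := norm_div _ _
      _ ≤ max C 0 / (d / 2) := div_le_div₀ (le_max_right _ _) (hC' t ht') (half_pos hd0) h2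
  · exact intervalIntegrable_const
  · refine Eventually.of_forall fun t ht => ?_
    rw [Set.uIoc_of_le hαβ] at ht
    have ht' : t ∈ Set.Icc α β := ⟨ht.1.le, ht.2⟩
    have h3 : q t ≠ 0 := by
      intro h
      have := hd t ht'
      rw [h, norm_zero] at this
      linarith
    apply Complex.continuous_im.continuousAt.comp
    apply ContinuousAt.div continuousAt_const (continuousAt_const.sub continuousAt_id)
    simpa using h3

/-- the complex form of the jump theorem -/
theorem jump_core {q q' : ℝ → ℂ} {T K : ℝ} (hT0 : 0 < T) (hq : ∀ t, HasDerivAt q (q' t) t)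
    (hc : Continuous q') (hper : ∀ t, q (t + T) = q t) (hper' : ∀ t, q' (t + T) = q' t)
    (h0 : q 0 = 0) (hK0 : 0 ≤ K)
    (hK : ∀ᶠ t in 𝓝 (0 : ℝ), ‖q' t - 1‖ ≤ K * |t|) (hinj : ∀ t ∈ Set.Ioo 0 T, q t ≠ 0) :
    ∃ (s M r : ℝ), 0 ≤ M ∧ 0 < r ∧ ∀ a : ℂ, ‖a‖ < r →
      ∃ y : ℝ, |a.im + y| ≤ M * ‖a‖ ^ 2 ∧ (y = 0 ↔ a ∈ Set.range q) ∧
      (0 < y → |(∫ t in (0 : ℝ)..T, (q' t / (q t - a)).im) + Real.pi - s| < 1) ∧
      (y < 0 → |(∫ t in (0 : ℝ)..T, (q' t / (q t - a)).im) - Real.pi - s| < 1) := by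
  have hqc : Continuous q := continuous_iff_continuousAt.2 fun t => (hq t).continuousAt
  obtain ⟨η, hη0, hηT, hηK, hη4⟩ : ∃ η : ℝ, 0 < η ∧ η ≤ T / 4 ∧
      (∀ t, |t| ≤ η → ‖q' t - 1‖ ≤ K * |t|) ∧ (∀ t, |t| ≤ η → ‖q' t - 1‖ ≤ 1 / 4) := by
    obtain ⟨δ, hδ0, hδ⟩ := Metric.eventually_nhds_iff.1 hK
    have hK1 : 0 < 1 / (4 * (K + 1)) := by positivity
    refine ⟨min (δ / 2) (min (T / 4) (1 / (4 * (K + 1)))), by positivity,
      (min_le_right _ _).trans (min_le_left _ _), ?_, ?_⟩
    · intro t ht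
      apply hδ
      rw [dist_zero_right, Real.norm_eq_abs]
      have := ht.trans (min_le_left _ _)
      linarith
    · intro t ht
      have h1 : ‖q' t - 1‖ ≤ K * |t| := by
        apply hδ
        rw [dist_zero_right, Real.norm_eq_abs]
        have := ht.trans (min_le_left _ _)
        linarith
      have h2 : |t| ≤ 1 / (4 * (K + 1)) :=
        ht.trans ((min_le_right _ _).trans (min_le_right _ _))
      refine h1.trans ((mul_le_mul_of_nonneg_left h2 hK0).trans ?_)
      rw [mul_one_div, div_le_iff₀ (by positivity)]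
      linarith
  obtain ⟨d, hd0, hd⟩ := jump_dist hqc hη0 hηT hinj
  have habsη : |η| ≤ η := (abs_of_pos hη0).le
  have habsη' : |(-η)| ≤ η := by rw [abs_neg]; exact habsη
  have habs0 : |(0 : ℝ)| ≤ η := by simpa using hη0.le
  have hre1 : 3 / 4 * η ≤ (q η).re := by
    have := jump_near hq hη4 habs0 habsη hη0.le
    simpa [h0] using this
  have hre2 : (q (-η)).re ≤ -(3 / 4 * η) := by
    have := jump_near hq hη4 habsη' habs0 (by linarith : -η ≤ 0)
    simp only [h0, zero_sub, Complex.neg_re, neg_neg] at this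
    linarith
  -- the function `S`
  set S : ℂ → ℝ := fun a => (∫ t in η..(T - η), (q' t / (q t - a)).im) +
    Complex.arg (q η - a) - Complex.arg (a - q (-η)) with hS
  have hSc : ContinuousAt S 0 := by
    have h1 := jump_far (by linarith : η ≤ T - η) hqc hc hd0 hd
    have h2 : ContinuousAt (fun a : ℂ => Complex.arg (q η - a)) 0 := by
      apply ContinuousAt.comp (g := Complex.arg) (f := fun a : ℂ => q η - a)
      · apply Complex.continuousAt_arg
        left
        simp only [sub_zero]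
        nlinarith
      · exact continuousAt_const.sub continuousAt_id
    have h3 : ContinuousAt (fun a : ℂ => Complex.arg (a - q (-η))) 0 := by
      apply ContinuousAt.comp (g := Complex.arg) (f := fun a : ℂ => a - q (-η))
      · apply Complex.continuousAt_arg
        left
        simp only [zero_sub, Complex.neg_re]
        nlinarith
      · exact continuousAt_id.sub continuousAt_const
    exact (h1.add h2).sub h3
  obtain ⟨r1, hr10, hr1⟩ := Metric.continuousAt_iff.1 hSc 1 one_pos
  refine ⟨S 0, 2 * K, min r1 (min d (η / 2)), by positivity, by positivity, fun a ha => ?_⟩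
  have ha1 : ‖a‖ < r1 := ha.trans_le (min_le_left _ _)
  have ha2 : ‖a‖ < d := ha.trans_le ((min_le_right _ _).trans (min_le_left _ _))
  have ha3 : ‖a‖ < η / 2 := ha.trans_le ((min_le_right _ _).trans (min_le_right _ _))
  have hSa : |S a - S 0| < 1 := by
    have := hr1 (x := a) (by simpa using ha1)
    rwa [Real.dist_eq] at this
  have hare : |a.re| ≤ ‖a‖ := Complex.abs_re_le_norm a
  have hare' := abs_le.1 hare
  obtain ⟨t0, ht0, ht0a⟩ : ∃ t0 ∈ Set.Icc (-η) η, (q t0).re = a.re := by
    have h1 := intermediate_value_Icc (by linarith : -η ≤ η)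
      ((Complex.continuous_re.comp hqc).continuousOn (s := Set.Icc (-η) η))
    have h2 : a.re ∈ Set.Icc ((Complex.re ∘ q) (-η)) ((Complex.re ∘ q) η) := by
      simp only [Function.comp_apply]
      constructor <;> linarith
    obtain ⟨t0, ht0, h3⟩ := h1 h2
    exact ⟨t0, ht0, h3⟩
  have ht0' : |t0| ≤ η := abs_le.2 ht0
  -- `t0` is the only parameter
  have huniq : ∀ t, |t| ≤ η → (q t).re = a.re → t = t0 := by
    intro t ht hta
    rcases le_total t t0 with h | h
    · have := jump_near hq hη4 ht ht0' h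
      rw [Complex.sub_re, hta, ht0a] at this
      linarith
    · have := jump_near hq hη4 ht0' ht h
      rw [Complex.sub_re, hta, ht0a] at this
      linarith
  have ht0sq : t0 ^ 2 ≤ 2 * ‖a‖ ^ 2 := by
    have h1 : 3 / 4 * |t0| ≤ |a.re| := by
      rcases le_total 0 t0 with h | h
      · have := jump_near hq hη4 habs0 ht0' h
        rw [Complex.sub_re, h0, ht0a] at this
        rw [abs_of_nonneg h]
        simp only [sub_zero, Complex.zero_re] at this
        exact this.trans (le_abs_self _)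
      · have := jump_near hq hη4 ht0' habs0 h
        rw [Complex.sub_re, h0, ht0a] at this
        rw [abs_of_nonpos h]
        simp only [zero_sub, Complex.zero_re] at this
        exact this.trans (neg_le_abs _)
    have h2 : 3 / 4 * |t0| ≤ ‖a‖ := h1.trans hare
    have h3 := abs_nonneg t0
    rw [← sq_abs t0]
    nlinarith
  have hquad := jump_quad hK0 hq h0 hηK ht0'
  have hrange : (q t0).im - a.im = 0 ↔ a ∈ Set.range q := by
    constructor
    · intro h
      exact ⟨t0, Complex.ext ht0a (sub_eq_zero.1 h)⟩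
    · rintro ⟨t, rfl⟩
      have hp : Function.Periodic q T := hper
      obtain ⟨t', ht', htt'⟩ := hp.exists_mem_Ico hT0 t (-η)
      rw [htt'] at ha2 ht0a ⊢
      have h1 : |t'| ≤ η := by
        rw [abs_le]
        refine ⟨ht'.1, ?_⟩
        by_contra h
        have := hd t' ⟨(not_le.1 h).le, by linarith [ht'.2]⟩
        linarith
      have h2 : t' = t0 := by
        apply huniq t' h1
        rw [htt']
      rw [h2, sub_self]
  refine ⟨(q t0).im - a.im, ?_, hrange, ?_, ?_⟩
  · have : a.im + ((q t0).im - a.im) = (q t0).im := by ring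
    rw [this]
    calc |(q t0).im| ≤ K * t0 ^ 2 := hquad
      _ ≤ K * (2 * ‖a‖ ^ 2) := mul_le_mul_of_nonneg_left ht0sq hK0
      _ = 2 * K * ‖a‖ ^ 2 := by ring
  all_goals
    intro hy
    have hoff : ∀ t, q t - a ≠ 0 := by
      intro t ht
      have := hrange.2 ⟨t, sub_eq_zero.1 ht⟩
      linarith
    have hgc : Continuous fun t => (q' t / (q t - a)).im :=
      Complex.continuous_im.comp (hc.div (hqc.sub continuous_const) hoff)
    have hgp : Function.Periodic (fun t => (q' t / (q t - a)).im) T := by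
      intro t
      simp only [hper, hper']
    have hsplit : (∫ t in (0 : ℝ)..T, (q' t / (q t - a)).im) =
        (∫ t in (-η)..η, (q' t / (q t - a)).im) + ∫ t in η..(T - η), (q' t / (q t - a)).im := by
      have h1 := hgp.intervalIntegral_add_eq 0 (-η)
      rw [zero_add] at h1
      rw [h1, intervalIntegral.integral_add_adjacent_intervals (hgc.intervalIntegrable _ _)
        (hgc.intervalIntegrable _ _), neg_add_eq_sub]
    have hpos1 : 0 < (q η - a).re := by
      rw [Complex.sub_re]
      linarith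
    have hpos2 : 0 < (a - q (-η)).re := by
      rw [Complex.sub_re]
      linarith
  · have hs : ∀ t ∈ Set.Icc (-η) η, -Complex.I * (q t - a) ∈ Complex.slitPlane := by
      intro t ht
      rw [Complex.mem_slitPlane_iff]
      by_cases h : (q t).re = a.re
      · left
        rw [huniq t (abs_le.2 ht) h]
        simpa using hy
      · right
        simpa [sub_eq_zero, eq_comm] using h
    have h2 := jump_ftc (f := fun t => q t - a) (by linarith : -η ≤ η)
      (neg_ne_zero.2 Complex.I_ne_zero) (fun t => (hq t).sub_const a) hc hs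
    have h3 : Complex.arg (-Complex.I * (q (-η) - a)) =
        Complex.arg (a - q (-η)) + Real.pi / 2 := by
      rw [← jump_arg_I hpos2]
      congr 1
      ring
    rw [hsplit, h2, jump_arg_neg_I hpos1, h3]
    have h4 : Complex.arg (q η - a) - Real.pi / 2 - (Complex.arg (a - q (-η)) + Real.pi / 2) +
        (∫ t in η..(T - η), (q' t / (q t - a)).im) + Real.pi - S 0 = S a - S 0 := by
      rw [hS]
      ring
    rw [h4]
    exact hSa
  · have hs : ∀ t ∈ Set.Icc (-η) η, Complex.I * (q t - a) ∈ Complex.slitPlane := by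
      intro t ht
      rw [Complex.mem_slitPlane_iff]
      by_cases h : (q t).re = a.re
      · left
        rw [huniq t (abs_le.2 ht) h]
        simpa using hy
      · right
        simpa [sub_eq_zero] using h
    have h2 := jump_ftc (f := fun t => q t - a) (by linarith : -η ≤ η)
      Complex.I_ne_zero (fun t => (hq t).sub_const a) hc hs
    have h3 : Complex.arg (Complex.I * (q (-η) - a)) =
        Complex.arg (a - q (-η)) - Real.pi / 2 := by
      rw [← jump_arg_neg_I hpos2]
      congr 1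
      ring
    rw [hsplit, h2, jump_arg_I hpos1, h3]
    have h4 : Complex.arg (q η - a) + Real.pi / 2 - (Complex.arg (a - q (-η)) - Real.pi / 2) +
        (∫ t in η..(T - η), (q' t / (q t - a)).im) - Real.pi - S 0 = S a - S 0 := by
      rw [hS]
      ring
    rw [h4]
    exact hSa

/-- Jump of the winding number at the point `p = γ 0` of a simple closed `C¹` curve (period `T`,
`γ t ≠ p` for `0 < t < T`) with `γ' 0 = V ≠ 0`. Near `p` the points off the curve have winding number
`k` or `k - 1`; on the left of `V` (quadratic error) it is `k`, on the right it is `k - 1`.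

Proof. Here `γ' = v ∘ γ` with `v` of class `C¹`, so `|γ t - p - t V| ≤ M₀ t²` near `0`. Choose `η > 0`
small. Write plane vectors as complex numbers, `N = iV` (left normal). For `|t| ≤ η` the vectors
`γ' t` are close to `V`, so `γ` restricted to `[-η, η]` is a graph over the line `ℝ V`. Let `w` be near
`p`, not on the curve. Its position relative to the graph (above or below; above means on the side of
`N`) decides: if `w` is above the graph, then `γ t - w` is never a nonnegative multiple of `N` for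
`|t| ≤ η`, so `t ↦ Complex.log ((γ t - w) / (-N))` is `C¹` on `[-η, η]` with derivative
`γ' / (γ - w)`; if `w` is below the graph use `Complex.log ((γ t - w) / N)`. So on `[-η, η]` the
integral of `det2 (γ-w) γ' / |γ-w|²` is the difference of two arguments, which is a continuous
function `G_L` (resp. `G_R`) of `w` near `p`; on `[η, T - η]` the integral is continuous in `w` near
`p` since `γ` avoids `p` there. (Integrate over `[-η, T - η]` instead of `[0, T]` by periodicity.)
Hence `wnd w = A_L w` (above) and `wnd w = A_R w` (below) with `A_L`, `A_R` continuous at `p` and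
`A_L p - A_R p = 1` (arguments of `e⁺ = γ η - p ≈ η V` and of `e⁻ = γ (-η) - p ≈ -η V`).
As `wnd` is an integer (`wnd_int`), `wnd w = k` above and `k - 1` below, near `p`. Finally a point
with `det2 (w - p) V < - M |w - p|²` is above the graph and not on it, a point with
`M |w - p|² < det2 (w-p) V` is below. -/
theorem wnd_jump {v : ℝ × ℝ → ℝ × ℝ} (hv : ContDiff ℝ 1 v) {γ : ℝ → ℝ × ℝ} {T : ℝ} (hT0 : 0 < T)
    (hγ : ∀ t, HasDerivAt γ (v (γ t)) t) (hT : ∀ t, γ (t + T) = γ t) {p : ℝ × ℝ}
    (h0 : γ 0 = p) (hp : v p ≠ 0) (hinj : ∀ t ∈ Set.Ioo 0 T, γ t ≠ p) :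
    ∃ (k : ℤ) (M r : ℝ), 0 ≤ M ∧ 0 < r ∧ ∀ w : ℝ × ℝ, nm (w - p) < r →
      (w ∉ Set.range γ → wnd γ (fun t => v (γ t)) T w = k ∨
        wnd γ (fun t => v (γ t)) T w = k - 1) ∧
      (M * nm (w - p) ^ 2 < det2 (w - p) (v p) →
        w ∉ Set.range γ ∧ wnd γ (fun t => v (γ t)) T w = k - 1) ∧
      (det2 (w - p) (v p) < -(M * nm (w - p) ^ 2) →
        w ∉ Set.range γ ∧ wnd γ (fun t => v (γ t)) T w = k) := by
  have hV0 : 0 < nm (v p) := nm_pos hp
  have hV2 : 0 < nm (v p) ^ 2 := by positivity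
  set L := Complex.equivRealProdCLM.symm with hL
  have hLre : ∀ u : ℝ × ℝ, (L u).re = u.1 := fun u => by simp [hL]
  have hLim : ∀ u : ℝ × ℝ, (L u).im = u.2 := fun u => by simp [hL]
  have hLn : ∀ u : ℝ × ℝ, ‖L u‖ = nm u := fun u => by
    rw [rb_nm_eq_abs]
    congr 1
  have hVc : L (v p) ≠ 0 := by
    rw [← norm_pos_iff, hLn]
    exact hV0
  have hγc : Continuous γ := continuous_iff_continuousAt.2 fun t => (hγ t).continuousAt
  have hvc : Continuous v := hv.continuous
  set q : ℝ → ℂ := fun t => (L (γ t) - L p) / L (v p) with hq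
  set q' : ℝ → ℂ := fun t => L (v (γ t)) / L (v p) with hq'
  have hqd : ∀ t, HasDerivAt q (q' t) t := fun t =>
    ((L.hasFDerivAt.comp_hasDerivAt t (hγ t)).sub_const _).div_const _
  have hq'c : Continuous q' := (L.continuous.comp (hvc.comp hγc)).div_const _
  have hper : ∀ t, q (t + T) = q t := fun t => by simp only [hq, hT]
  have hper' : ∀ t, q' (t + T) = q' t := fun t => by simp only [hq', hT]
  have hq0 : q 0 = 0 := by simp only [hq, h0, sub_self, zero_div]
  have hq'0 : q' 0 = 1 := by simp only [hq', h0, div_self hVc]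
  obtain ⟨K, hK0, hK⟩ : ∃ K : ℝ, 0 ≤ K ∧ ∀ᶠ t in 𝓝 (0 : ℝ), ‖q' t - 1‖ ≤ K * |t| := by
    have hd : HasDerivAt q' (L (fderiv ℝ v (γ 0) (v (γ 0))) / L (v p)) 0 := by
      have h1 : HasFDerivAt v (fderiv ℝ v (γ 0)) (γ 0) :=
        ((hv.differentiable one_ne_zero) (γ 0)).hasFDerivAt
      have h2 := h1.comp_hasDerivAt (0 : ℝ) (hγ 0)
      exact (L.hasFDerivAt.comp_hasDerivAt (0 : ℝ) h2).div_const _
    obtain ⟨K, hK0, hK⟩ := hd.isBigO_sub.exists_nonneg
    refine ⟨K, hK0, ?_⟩
    filter_upwards [hK.bound] with t ht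
    rw [hq'0, sub_zero, Real.norm_eq_abs] at ht
    exact ht
  have hqinj : ∀ t ∈ Set.Ioo 0 T, q t ≠ 0 := by
    intro t ht h
    rw [hq] at h
    simp only [div_eq_zero_iff, hVc, or_false, sub_eq_zero] at h
    exact hinj t ht (L.injective h)
  obtain ⟨s, M, r, hM0, hr0, hcore⟩ := jump_core hT0 hqd hq'c hper hper' hq0 hK0 hK hqinj
  have hpi := Real.pi_pos
  refine ⟨round ((s + Real.pi) / (2 * Real.pi)), M, r * nm (v p), hM0, by positivity,
    fun w hw => ?_⟩
  set a : ℂ := (L w - L p) / L (v p) with ha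
  have hna : ‖a‖ = nm (w - p) / nm (v p) := by
    rw [ha, ← map_sub, norm_div, hLn, hLn]
  have hna' : ‖a‖ < r := by
    rw [hna, div_lt_iff₀ hV0]
    exact hw
  have hnsq : nm (w - p) ^ 2 = ‖a‖ ^ 2 * nm (v p) ^ 2 := by
    rw [hna, div_pow, div_mul_cancel₀ _ hV2.ne']
  have hdet : det2 (w - p) (v p) = -a.im * nm (v p) ^ 2 := by
    have h1 : Complex.normSq (L (v p)) = nm (v p) ^ 2 := by
      rw [Complex.normSq_eq_norm_sq, hLn]
    have h2 : a.im = (w - p).2 * (v p).1 / nm (v p) ^ 2 - (w - p).1 * (v p).2 / nm (v p) ^ 2 := by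
      rw [ha, ← map_sub, Complex.div_im, h1, hLre, hLim, hLre, hLim]
    rw [h2, det2]
    field_simp
    ring
  have hrange : a ∈ Set.range q ↔ w ∈ Set.range γ := by
    constructor
    · rintro ⟨t, ht⟩
      refine ⟨t, ?_⟩
      rw [hq, ha] at ht
      simp only [div_left_inj' hVc, sub_left_inj] at ht
      exact L.injective ht
    · rintro ⟨t, rfl⟩
      exact ⟨t, rfl⟩
  have hW : (∫ t in (0 : ℝ)..T, (q' t / (q t - a)).im) =
      2 * Real.pi * wnd γ (fun t => v (γ t)) T w := by
    rw [wnd, mul_div_cancel₀ _ (by positivity : (2 * Real.pi) ≠ 0)]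
    congr 1
    funext t
    have h1 : q' t / (q t - a) = L (v (γ t)) / L (γ t - w) := by
      rw [hq, hq', ha]
      simp only
      rw [← sub_div, sub_sub_sub_cancel_right, ← map_sub, div_div_div_cancel_right₀ hVc]
    rw [h1, Complex.div_im, hLre, hLim, hLre, hLim, Complex.normSq_eq_norm_sq, hLn, det2]
    ring
  obtain ⟨y, hy1, hy2, hy3, hy4⟩ := hcore a hna'
  rw [hW] at hy3 hy4
  have hround : ∀ m : ℤ, |2 * Real.pi * (m : ℝ) - Real.pi - s| < 1 →
      m = round ((s + Real.pi) / (2 * Real.pi)) := by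
    intro m hm
    have h1 : |(m : ℝ) - (s + Real.pi) / (2 * Real.pi)| < 1 / 2 := by
      have h2 : (m : ℝ) - (s + Real.pi) / (2 * Real.pi) =
          (2 * Real.pi * (m : ℝ) - Real.pi - s) / (2 * Real.pi) := by
        field_simp
        ring
      rw [h2, abs_div, abs_of_pos (by positivity : 0 < 2 * Real.pi),
        div_lt_iff₀ (by positivity)]
      nlinarith [Real.pi_gt_three]
    have h3 := abs_sub_round ((s + Real.pi) / (2 * Real.pi))
    have h4 : |((m - round ((s + Real.pi) / (2 * Real.pi)) : ℤ) : ℝ)| < 1 := by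
      push_cast
      rw [abs_lt] at h1 ⊢
      rw [abs_le] at h3
      constructor <;> linarith [h1.1, h1.2, h3.1, h3.2]
    rw [← Int.cast_abs, ← Int.cast_one, Int.cast_lt, Int.abs_lt_one_iff, sub_eq_zero] at h4
    exact h4
  have hint : w ∉ Set.range γ → ∃ m : ℤ, wnd γ (fun t => v (γ t)) T w = m := fun h =>
    wnd_int hγ (hvc.comp hγc) (by simpa using hT 0) h
  have hright : 0 < y → w ∉ Set.range γ ∧
      wnd γ (fun t => v (γ t)) T w = (round ((s + Real.pi) / (2 * Real.pi)) : ℤ) - 1 := by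
    intro hy
    have h1 : w ∉ Set.range γ := fun h => hy.ne' (hy2.2 (hrange.2 h))
    refine ⟨h1, ?_⟩
    obtain ⟨m, hm⟩ := hint h1
    have h2 := hy3 hy
    rw [hm] at h2 ⊢
    have h3 := hround (m + 1) (by
      have h4 : 2 * Real.pi * ((m + 1 : ℤ) : ℝ) - Real.pi - s =
          2 * Real.pi * (m : ℝ) + Real.pi - s := by
        push_cast
        ring
      rw [h4]
      exact h2)
    rw [← h3]
    push_cast
    ring
  have hleft : y < 0 → w ∉ Set.range γ ∧
      wnd γ (fun t => v (γ t)) T w = (round ((s + Real.pi) / (2 * Real.pi)) : ℤ) := by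
    intro hy
    have h1 : w ∉ Set.range γ := fun h => hy.ne (hy2.2 (hrange.2 h))
    refine ⟨h1, ?_⟩
    obtain ⟨m, hm⟩ := hint h1
    have h2 := hy4 hy
    rw [hm] at h2 ⊢
    rw [← hround m h2]
  have hy1' := abs_le.1 hy1
  refine ⟨fun h => ?_, fun h => ?_, fun h => ?_⟩
  · rcases lt_trichotomy y 0 with hy | hy | hy
    · exact Or.inl (hleft hy).2
    · exact absurd (hrange.1 (hy2.1 hy)) h
    · exact Or.inr (hright hy).2
  · apply hright
    rw [hnsq, hdet, ← mul_assoc, mul_lt_mul_iff_left₀ hV2] at h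
    linarith [hy1'.2]
  · apply hleft
    rw [hnsq, hdet, ← mul_assoc, ← neg_mul, mul_lt_mul_iff_left₀ hV2] at h
    linarith [hy1'.1]

end Pool.Agent.Lib.MP_95e7ec_an

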