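import Mathlib
import Pool.Agent.Lib.MP_95e7ec_an.Rb.Jump
import Pool.Agent.Lib.MP_95e7ec_an.Rb.Basic

/-!
# Rb, Barrier: the inside of a closed orbit
-/

set_option autoImplicit false

open Set Filter Topology MeasureTheory
open scoped ContDiff ENNReal

namespace Pool.Agent.Lib.MP_95e7ec_an

/-! ### auxiliary facts -/

private theorem barrier_hasDerivAt_shift {v : ℝ × ℝ → ℝ × ℝ} {γ : ℝ → ℝ × ℝ}
    (hγ : ∀ t, HasDerivAt γ (v (γ t)) t) (a t : ℝ) :
    HasDerivAt (fun s => γ (s + a)) (v ((fun s => γ (s + a)) t)) t :=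
  (hγ (t + a)).comp_add_const t a

/-- the winding number does not change if the starting point is shifted -/
private theorem barrier_shift {v : ℝ × ℝ → ℝ × ℝ} {γ : ℝ → ℝ × ℝ} {T : ℝ}
    (hT : ∀ t, γ (t + T) = γ t) (a : ℝ) (y : ℝ × ℝ) :
    wnd (fun s => γ (s + a)) (fun t => v ((fun s => γ (s + a)) t)) T y =
      wnd γ (fun t => v (γ t)) T y := by
  unfold wnd
  congr 1
  have hper : Function.Periodic
      (fun t => det2 (γ t - y) (v (γ t)) / nm (γ t - y) ^ 2) T := by
    intro t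
    simp only [hT t]
  have h1 := hper.intervalIntegral_add_eq a 0
  have h2 := intervalIntegral.integral_comp_add_right (a := (0 : ℝ)) (b := T)
    (fun t => det2 (γ t - y) (v (γ t)) / nm (γ t - y) ^ 2) a
  simp only [zero_add] at h1 h2
  rw [h2, add_comm T a, h1]

/-- winding number over a multiple of the period -/
private theorem barrier_mult {v : ℝ × ℝ → ℝ × ℝ} (hv : Continuous v) {γ : ℝ → ℝ × ℝ} {T : ℝ}
    (hc : Continuous γ) (hT : ∀ t, γ (t + T) = γ t) (m : ℤ) {y : ℝ × ℝ}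
    (hy : y ∉ Set.range γ) :
    wnd γ (fun t => v (γ t)) (m * T) y = m * wnd γ (fun t => v (γ t)) T y := by
  have hper : Function.Periodic
      (fun t => det2 (γ t - y) (v (γ t)) / nm (γ t - y) ^ 2) T := by
    intro t
    simp only [hT t]
  have hcont : Continuous (fun t => det2 (γ t - y) (v (γ t)) / nm (γ t - y) ^ 2) := by
    apply Continuous.div
    · exact rb_continuous_det2.comp ((hc.sub continuous_const).prodMk (hv.comp hc))
    · exact (continuous_nm.comp (hc.sub continuous_const)).pow 2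
    · intro t
      have h1 : γ t - y ≠ 0 := by
        intro h0
        exact hy ⟨t, by rw [sub_eq_zero] at h0; exact h0⟩
      exact pow_ne_zero 2 (nm_pos h1).ne'
  have h1 := hper.intervalIntegral_add_zsmul_eq m 0 (fun a b => hcont.intervalIntegrable a b)
  simp only [zero_add, zsmul_eq_mul] at h1
  unfold wnd
  rw [h1, mul_div_assoc]

/-- the local picture at a point of the curve -/
private def BarrierLoc (v : ℝ × ℝ → ℝ × ℝ) (C : Set (ℝ × ℝ)) (W : ℝ × ℝ → ℝ) (p : ℝ × ℝ)
    (k : ℤ) (M r : ℝ) : Prop :=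
  0 ≤ M ∧ 0 < r ∧ ∀ w : ℝ × ℝ, nm (w - p) < r →
      (w ∉ C → W w = k ∨ W w = k - 1) ∧
      (M * nm (w - p) ^ 2 < det2 (w - p) (v p) → w ∉ C ∧ W w = k - 1) ∧
      (det2 (w - p) (v p) < -(M * nm (w - p) ^ 2) → w ∉ C ∧ W w = k)

/-- points on the left and on the right of the field, as close as we wish -/
private theorem barrier_sides {v : ℝ × ℝ → ℝ × ℝ} {p : ℝ × ℝ} (hp : v p ≠ 0) (M δ : ℝ)
    (hδ : 0 < δ) :
    (∃ w : ℝ × ℝ, nm (w - p) < δ ∧ det2 (w - p) (v p) < -(M * nm (w - p) ^ 2)) ∧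
    (∃ w : ℝ × ℝ, nm (w - p) < δ ∧ M * nm (w - p) ^ 2 < det2 (w - p) (v p)) := by
  have hn : 0 < nm (v p) := nm_pos hp
  set s : ℝ := min (1 / (|M| + 1)) (δ / nm (v p)) / 2 with hs
  have hM1 : 0 < |M| + 1 := by positivity
  have hs0 : 0 < s := by
    have h1 : 0 < min (1 / (|M| + 1)) (δ / nm (v p)) := lt_min (by positivity) (by positivity)
    rw [hs]; linarith
  have hs1 : s * (|M| + 1) < 1 := by
    have h1 : 2 * s ≤ 1 / (|M| + 1) := by
      rw [hs]
      have := min_le_left (1 / (|M| + 1)) (δ / nm (v p))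
      linarith
    have h2 : 2 * s * (|M| + 1) ≤ 1 := by
      rwa [le_div_iff₀ hM1] at h1
    nlinarith
  have hs2 : s * nm (v p) < δ := by
    have h1 : 2 * s ≤ δ / nm (v p) := by
      rw [hs]
      have := min_le_right (1 / (|M| + 1)) (δ / nm (v p))
      linarith
    have h2 : 2 * s * nm (v p) ≤ δ := by
      rwa [le_div_iff₀ hn] at h1
    nlinarith
  have hMs : M * s < 1 := by nlinarith [le_abs_self M]
  have hsq := nm_sq (v p)
  set N : ℝ × ℝ := (-(v p).2, (v p).1) with hN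
  have hNn : nm N = nm (v p) := by
    simp only [nm, hN]
    congr 1
    ring
  have hNd : det2 N (v p) = -(nm (v p) ^ 2) := by
    rw [hsq]
    simp only [det2, hN]
    ring
  refine ⟨⟨p + s • N, ?_, ?_⟩, ⟨p + (-s) • N, ?_, ?_⟩⟩
  · rw [add_sub_cancel_left, rb_nm_smul, hNn, abs_of_pos hs0]
    exact hs2
  · rw [add_sub_cancel_left, rb_nm_smul, hNn, abs_of_pos hs0, rb_det2_smul_left, hNd]
    have h1 : 0 < s * nm (v p) ^ 2 := by positivity
    nlinarith
  · rw [add_sub_cancel_left, rb_nm_smul, hNn, abs_neg, abs_of_pos hs0]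
    exact hs2
  · rw [add_sub_cancel_left, rb_nm_smul, hNn, abs_neg, abs_of_pos hs0, rb_det2_smul_left, hNd]
    have h1 : 0 < s * nm (v p) ^ 2 := by positivity
    nlinarith

/-- the number `k` is the same at close points -/
private theorem barrier_loc_eq {v : ℝ × ℝ → ℝ × ℝ} {C : Set (ℝ × ℝ)} {W : ℝ × ℝ → ℝ}
    {p p' : ℝ × ℝ} {k k' : ℤ} {M M' r r' : ℝ} (h : BarrierLoc v C W p k M r)
    (h' : BarrierLoc v C W p' k' M' r') (hp' : v p' ≠ 0) (hd : nm (p' - p) < r) : k' = k := by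
  obtain ⟨-, hr, hw⟩ := h
  obtain ⟨-, hr', hw'⟩ := h'
  have hδ : 0 < min r' (r - nm (p' - p)) := lt_min hr' (by linarith)
  obtain ⟨⟨w, hw1, hw2⟩, ⟨u, hu1, hu2⟩⟩ := barrier_sides hp' M' _ hδ
  have key : ∀ w : ℝ × ℝ, nm (w - p') < min r' (r - nm (p' - p)) → nm (w - p) < r := by
    intro w hw
    have h1 := rb_nm_tri w p' p
    have h2 := lt_of_lt_of_le hw (min_le_right _ _)
    linarith
  obtain ⟨hwC, hwW⟩ := (hw' w (lt_of_lt_of_le hw1 (min_le_left _ _))).2.2 hw2
  obtain ⟨huC, huW⟩ := (hw' u (lt_of_lt_of_le hu1 (min_le_left _ _))).2.1 hu2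
  have h1 := (hw w (key w hw1)).1 hwC
  have h2 := (hw u (key u hu1)).1 huC
  rw [hwW] at h1
  rw [huW] at h2
  have h3 : (k' : ℝ) = k := by
    rcases h1 with h1 | h1
    · exact h1
    · rcases h2 with h2 | h2
      · linarith
      · linarith
  exact_mod_cast h3

/-- the values of the winding number off the curve -/
private theorem barrier_values {C : Set (ℝ × ℝ)} {W : ℝ × ℝ → ℝ} {k : ℤ}
    (hcl : IsClosed C) (hne : C.Nonempty)
    (hloc : ∀ y, y ∉ C → ∀ᶠ w in 𝓝 y, w ∉ C ∧ W w = W y)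
    (hk : ∀ p ∈ C, ∃ r : ℝ, 0 < r ∧ ∀ w : ℝ × ℝ, nm (w - p) < r → w ∉ C → W w = k ∨ W w = k - 1)
    {y : ℝ × ℝ} (hy : y ∉ C) : W y = k ∨ W y = k - 1 := by
  obtain ⟨p, hp⟩ := hne
  set σ : ℝ → ℝ × ℝ := fun s => y + s • (p - y) with hσ
  have hσc : Continuous σ := by rw [hσ]; fun_prop
  have hσ0 : σ 0 = y := by simp [hσ]
  have hσ1 : σ 1 = p := by simp [hσ]
  set S : Set ℝ := Set.Icc 0 1 ∩ σ ⁻¹' C with hS
  have hScl : IsClosed S := isClosed_Icc.inter (hcl.preimage hσc)
  have hSne : S.Nonempty := ⟨1, ⟨by norm_num, by norm_num⟩, by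
    show σ 1 ∈ C
    rw [hσ1]; exact hp⟩
  have hSb : BddBelow S := ⟨0, fun s hs => hs.1.1⟩
  have hmem : sInf S ∈ S := hScl.csInf_mem hSne hSb
  set q := sInf S with hq
  have hq0 : 0 < q := by
    rcases lt_or_eq_of_le hmem.1.1 with h | h
    · exact h
    · exfalso
      apply hy
      have h2 : σ q ∈ C := hmem.2
      rw [← h, hσ0] at h2
      exact h2
  have hoff : ∀ s, 0 ≤ s → s < q → σ s ∉ C := by
    intro s hs0 hsq hsC
    have h1 : s ∈ S := ⟨⟨hs0, hsq.le.trans hmem.1.2⟩, hsC⟩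
    exact absurd (csInf_le hSb h1) (not_le.2 hsq)
  have hconst : ∀ b, 0 ≤ b → b < q → W (σ b) = W y := by
    intro b hb0 hbq
    have hev : ∀ x ∈ Set.Icc 0 b, ∀ᶠ s in 𝓝 x, W (σ s) = W (σ x) := by
      intro x hx
      have h1 := hloc (σ x) (hoff x hx.1 (lt_of_le_of_lt hx.2 hbq))
      have h2 := (hσc.tendsto x).eventually h1
      exact h2.mono fun s hs => hs.2
    have h1 : ContinuousOn (fun s => W (σ s)) (Set.Icc 0 b) := by
      intro x hx
      apply ContinuousAt.continuousWithinAt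
      have h2 : (fun s => W (σ s)) =ᶠ[𝓝 x] fun _ => W (σ x) := hev x hx
      exact continuousAt_const.congr h2.symm
    have h2 : ∀ x ∈ Set.Ico 0 b, HasDerivWithinAt (fun s => W (σ s)) 0 (Set.Ici x) x := by
      intro x hx
      have h3 : (fun s => W (σ s)) =ᶠ[𝓝 x] fun _ => W (σ x) := hev x (Set.Ico_subset_Icc_self hx)
      exact ((hasDerivAt_const x (W (σ x))).congr_of_eventuallyEq h3).hasDerivWithinAt
    have h3 := constant_of_has_deriv_right_zero h1 h2 b ⟨hb0, le_refl b⟩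
    simp only [hσ0] at h3
    exact h3
  obtain ⟨r, hr, hkr⟩ := hk (σ q) hmem.2
  have hnear : ∀ᶠ s in 𝓝 q, nm (σ s - σ q) < r := by
    have h1 : Continuous fun s => nm (σ s - σ q) :=
      continuous_nm.comp (hσc.sub continuous_const)
    have h2 : (fun s => nm (σ s - σ q)) q < r := by
      simp only [sub_self, rb_nm_zero]
      exact hr
    exact (h1.tendsto q).eventually (gt_mem_nhds h2)
  have h4 : ∀ᶠ s in 𝓝[<] q, nm (σ s - σ q) < r ∧ 0 ≤ s ∧ s < q := by
    have h5 : ∀ᶠ s in 𝓝[<] q, (0 : ℝ) ≤ s :=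
      (eventually_nhdsWithin_of_eventually_nhds (lt_mem_nhds hq0)).mono fun s hs => hs.le
    have h6 : ∀ᶠ s in 𝓝[<] q, s < q := eventually_mem_nhdsWithin
    have h7 : ∀ᶠ s in 𝓝[<] q, nm (σ s - σ q) < r :=
      eventually_nhdsWithin_of_eventually_nhds hnear
    filter_upwards [h5, h6, h7] with s a b c
    exact ⟨c, a, b⟩
  obtain ⟨b, hb1, hb2, hb3⟩ := h4.exists
  have h8 := hkr (σ b) hb1 (hoff b hb2 hb3)
  rwa [hconst b hb2 hb3] at h8

/-- A closed orbit has an inside, which lies on one side of the field. Here `T` is any period.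

Proof. By `IsClosedOrbit.exists_param_of_contDiff` (Orbits.lean) at the point `p = γ₀ 0` there is the
solution `γ₁` with least period `T₁` and the same range; by `curve_unique_of_contDiff` `γ₀` is `γ₁`
up to a shift, `T = m T₁` with an integer `m ≥ 1`, and `wnd γ₀ _ T y = m * wnd γ₁ _ T₁ y`, also the
winding number does not change if the starting point is shifted (periodic integrand:
`Function.Periodic.intervalIntegral_add_eq`). Apply `wnd_jump` at every point of the curve (shifted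
parametrisations): get `k p`. `k` is locally constant on the curve `C`: near `p` take `p' ∈ C`; the
left points of `p'` close to `p'` are close to `p` and off `C`, so `k p' ∈ {k p, k p - 1}`, the right
points give `k p' - 1 ∈ {k p, k p - 1}`, so `k p' = k p`. `C` is connected, so `k` is constant.
Every point `y` off `C` has winding number (for `γ₁`) `k`, `k - 1` or `0`: on the segment from `y` to
some point of `C` let `q` be the first point of `C`; the winding number is constant on the part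
before `q` (`wnd_locally_const`) and equals `k` or `k-1` near `q`. Far points have winding number
`0` (`wnd_far`), so by the same argument `0 ∈ {k, k - 1}`, i.e. `k = 1` or `k = 0`. If `k = 1`
take `ε = 1`: the left points have winding number `1`; if `k = 0` take `ε = -1`: the right
points have winding number `-1`. `D` is the set of the points off `C` with nonzero winding number;
`D` is open (`wnd_locally_const`), bounded (`wnd_far`), and `D ∪ C` is closed since its complement
is open (`wnd_locally_const`). -/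
theorem exists_barrier {v : ℝ × ℝ → ℝ × ℝ} (hv : ContDiff ℝ 1 v) {γ : ℝ → ℝ × ℝ} {T : ℝ}
    (hT0 : 0 < T) (hγ : ∀ t, HasDerivAt γ (v (γ t)) t) (hT : ∀ t, γ (t + T) = γ t)
    (hne : ∃ s t : ℝ, γ s ≠ γ t) :
    ∃ ε : ℝ, (ε = 1 ∨ ε = -1) ∧
      JP (Set.range γ) {y | y ∉ Set.range γ ∧ wnd γ (fun t => v (γ t)) T y ≠ 0} ∧
      Side (fun z => ε • v z) (Set.range γ)
        {y | y ∉ Set.range γ ∧ wnd γ (fun t => v (γ t)) T y ≠ 0} ∧
      ∀ y, y ∉ Set.range γ → 0 ≤ ε * wnd γ (fun t => v (γ t)) T y := by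
  have hvc : Continuous v := hv.continuous
  have hγc : Continuous γ := continuous_iff_continuousAt.2 fun t => (hγ t).continuousAt
  have hγ'c : Continuous (fun t => v (γ t)) := hvc.comp hγc
  have hCO : IsClosedOrbit v (Set.range γ) := ⟨γ, T, hT0, hγ, hT, hne, rfl⟩
  have hcpt : IsCompact (Set.range γ) := hCO.isCompact
  have hcl : IsClosed (Set.range γ) := hcpt.isClosed
  have hvne : ∀ p ∈ Set.range γ, v p ≠ 0 := fun p hp => hCO.ne_zero_of_contDiff hv hp
  -- the least period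
  obtain ⟨γ₁, T₁, hT₁, hγ₁, hper₁, h10, -, hmin⟩ :=
    hCO.exists_param_of_contDiff hv (p := γ 0) ⟨0, rfl⟩
  have hEq : γ₁ = γ := curve_unique_of_contDiff hv hγ₁ hγ h10
  subst hEq
  -- `T` is a multiple of `T₁`
  obtain ⟨m, hm0, hTm⟩ : ∃ m : ℤ, 1 ≤ m ∧ T = m * T₁ := by
    set m : ℤ := ⌊T / T₁⌋ with hm
    have h1 : (m : ℝ) * T₁ ≤ T := by
      have := Int.floor_le (T / T₁)
      rwa [le_div_iff₀ hT₁] at this
    have h2 : T < ((m : ℝ) + 1) * T₁ := by
      have := Int.lt_floor_add_one (T / T₁)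
      rwa [div_lt_iff₀ hT₁] at this
    have hp1 : Function.Periodic γ₁ T₁ := hper₁
    have h3 : γ₁ (T - m * T₁) = γ₁ 0 := by
      have h4 := hp1.sub_zsmul_eq (x := T) m
      rw [zsmul_eq_mul] at h4
      rw [h4]
      have := hT 0
      rwa [zero_add] at this
    have h5 : T - m * T₁ = 0 := by
      by_contra hne0
      have h6 : 0 < T - m * T₁ := lt_of_le_of_ne (by linarith) (Ne.symm hne0)
      exact hmin _ ⟨h6, by linarith⟩ h3
    refine ⟨m, ?_, by linarith⟩
    by_contra hlt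
    have h6 : m ≤ 0 := by omega
    have h7 : (m : ℝ) ≤ 0 := by exact_mod_cast h6
    nlinarith
  set C := Set.range γ₁ with hC
  set W : ℝ × ℝ → ℝ := fun y => wnd γ₁ (fun t => v (γ₁ t)) T₁ y with hW
  have hWm : ∀ y, y ∉ C → wnd γ₁ (fun t => v (γ₁ t)) T y = m * W y := by
    intro y hy
    rw [hTm]
    exact barrier_mult hvc hγc hper₁ m hy
  -- the local picture
  have hloc : ∀ a : ℝ, ∃ k : ℤ, ∃ M r : ℝ, BarrierLoc v C W (γ₁ a) k M r := by
    intro a
    have hinj : ∀ t ∈ Set.Ioo 0 T₁, (fun s => γ₁ (s + a)) t ≠ γ₁ a := by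
      intro t ht h
      apply hmin t ht
      have h1 := curve_unique_of_contDiff hv
        (γ := fun s => γ₁ (s + (t + a))) (γ' := fun s => γ₁ (s + a))
        (barrier_hasDerivAt_shift hγ (t + a)) (barrier_hasDerivAt_shift hγ a)
        (by simp only [zero_add]; exact h)
      have h2 := congrFun h1 (-a)
      rw [neg_add_cancel, show -a + (t + a) = t by ring] at h2
      exact h2
    obtain ⟨k, M, r, hM, hr, hw⟩ := wnd_jump hv (γ := fun s => γ₁ (s + a)) (p := γ₁ a) hT₁
      (barrier_hasDerivAt_shift hγ a)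
      (by
        intro t
        show γ₁ (t + T₁ + a) = γ₁ (t + a)
        rw [show t + T₁ + a = (t + a) + T₁ by ring]
        exact hper₁ _)
      (by simp) (hvne _ ⟨a, rfl⟩) hinj
    rw [range_shift γ₁ a] at hw
    refine ⟨k, M, r, hM, hr, fun w hwr => ?_⟩
    have h1 := hw w hwr
    rw [barrier_shift hper₁ a w] at h1
    exact h1
  choose κ M r hκ using hloc
  have hlc : IsLocallyConstant κ := by
    rw [IsLocallyConstant.iff_eventually_eq]
    intro t
    have h1 : Continuous fun s => nm (γ₁ s - γ₁ t) := continuous_nm.comp (hγc.sub continuous_const)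
    have h2 : (fun s => nm (γ₁ s - γ₁ t)) t < r t := by
      simp only [sub_self, rb_nm_zero]
      exact (hκ t).2.1
    filter_upwards [(h1.tendsto t).eventually (gt_mem_nhds h2)] with s hs
    exact barrier_loc_eq (hκ t) (hκ s) (hvne _ ⟨s, rfl⟩) hs
  have hκc : ∀ t, κ t = κ 0 := fun t => hlc.apply_eq_of_preconnectedSpace t 0
  set k := κ 0 with hk
  have hlocW : ∀ y, y ∉ C → ∀ᶠ w in 𝓝 y, w ∉ C ∧ W w = W y := fun y hy =>
    wnd_locally_const hT₁.le hγ hγ'c hper₁ hy hcl
  have hvals : ∀ y, y ∉ C → W y = k ∨ W y = k - 1 := by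
    intro y hy
    apply barrier_values hcl ⟨γ₁ 0, 0, rfl⟩ hlocW _ hy
    rintro p ⟨t, rfl⟩
    refine ⟨r t, (hκ t).2.1, fun w hw hwC => ?_⟩
    have h1 := ((hκ t).2.2 w hw).1 hwC
    rw [hκc t] at h1
    exact h1
  -- far points
  obtain ⟨R, hR⟩ := wnd_far hT0.le hγ hγ'c hT hcpt.isBounded
  obtain ⟨R₁, hR₁⟩ := wnd_far hT₁.le hγ hγ'c hper₁ hcpt.isBounded
  have hk01 : k = 1 ∨ k = 0 := by
    have h1 : nm ((|R₁| : ℝ), (0 : ℝ)) = |R₁| := by
      simp only [nm]
      rw [show |R₁| ^ 2 + (0 : ℝ) ^ 2 = |R₁| ^ 2 by ring, Real.sqrt_sq (abs_nonneg _)]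
    obtain ⟨h2, h3⟩ := hR₁ ((|R₁| : ℝ), (0 : ℝ)) (by rw [h1]; exact le_abs_self _)
    rcases hvals _ h2 with h4 | h4
    · right
      have h5 : (k : ℝ) = 0 := by rw [← h4]; exact h3
      exact_mod_cast h5
    · left
      have h5 : (k : ℝ) - 1 = 0 := by rw [← h4]; exact h3
      have h6 : (k : ℝ) = 1 := by linarith
      exact_mod_cast h6
  have hmR : (1 : ℝ) ≤ m := by exact_mod_cast hm0
  have hWne : ∀ y, y ∉ C → (wnd γ₁ (fun t => v (γ₁ t)) T y ≠ 0 ↔ W y ≠ 0) := by
    intro y hy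
    rw [hWm y hy]
    constructor
    · intro h h0
      rw [h0, mul_zero] at h
      exact h rfl
    · intro h
      exact mul_ne_zero (by positivity) h
  -- the sign
  obtain ⟨ε, hε, hside, hsign⟩ : ∃ ε : ℝ, (ε = 1 ∨ ε = -1) ∧
      Side (fun z => ε • v z) C {y | y ∉ C ∧ wnd γ₁ (fun t => v (γ₁ t)) T y ≠ 0} ∧
      ∀ y, y ∉ C → 0 ≤ ε * W y := by
    rcases hk01 with h1 | h1
    · refine ⟨1, Or.inl rfl, ?_, ?_⟩
      · rintro p ⟨t, rfl⟩
        refine ⟨by simpa using hvne _ ⟨t, rfl⟩, M t, r t, (hκ t).1, (hκ t).2.1, ?_⟩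
        intro w hw
        have hh := (hκ t).2.2 w hw
        rw [hκc t, h1] at hh
        simp only [one_smul]
        constructor
        · intro h2
          obtain ⟨h3, h4⟩ := hh.2.1 h2
          rintro (h5 | h5)
          · exact (hWne w h3).1 h5.2 (by rw [h4]; norm_num)
          · exact h3 h5
        · intro h2
          obtain ⟨h3, h4⟩ := hh.2.2 h2
          exact ⟨h3, (hWne w h3).2 (by rw [h4]; norm_num)⟩
      · intro y hy
        rcases hvals y hy with h2 | h2
        · rw [h2, h1]; norm_num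
        · rw [h2, h1]; norm_num
    · refine ⟨-1, Or.inr rfl, ?_, ?_⟩
      · rintro p ⟨t, rfl⟩
        refine ⟨by simpa using hvne _ ⟨t, rfl⟩, M t, r t, (hκ t).1, (hκ t).2.1, ?_⟩
        intro w hw
        have hh := (hκ t).2.2 w hw
        rw [hκc t, h1] at hh
        simp only [rb_det2_smul_right]
        constructor
        · intro h2
          obtain ⟨h3, h4⟩ := hh.2.2 (by linarith)
          rintro (h5 | h5)
          · exact (hWne w h3).1 h5.2 (by rw [h4]; norm_num)
          · exact h3 h5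
        · intro h2
          obtain ⟨h3, h4⟩ := hh.2.1 (by linarith)
          exact ⟨h3, (hWne w h3).2 (by rw [h4]; norm_num)⟩
      · intro y hy
        rcases hvals y hy with h2 | h2
        · rw [h2, h1]; norm_num
        · rw [h2, h1]; norm_num
  refine ⟨ε, hε, ?_, hside, ?_⟩
  · -- the pair of the curve and its inside
    have hlocT : ∀ y, y ∉ C → ∀ᶠ w in 𝓝 y, w ∉ C ∧
        wnd γ₁ (fun t => v (γ₁ t)) T w = wnd γ₁ (fun t => v (γ₁ t)) T y := fun y hy =>
      wnd_locally_const hT0.le hγ hγ'c hT hy hcl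
    have hop : IsOpen {y | y ∉ C ∧ wnd γ₁ (fun t => v (γ₁ t)) T y ≠ 0} := by
      rw [isOpen_iff_mem_nhds]
      rintro y ⟨hy, hy0⟩
      filter_upwards [hlocT y hy] with w hw
      exact ⟨hw.1, by rw [hw.2]; exact hy0⟩
    refine ⟨isPreconnected_range hγc, ⟨γ₁ 0, 0, rfl⟩, ?_, hop, ?_, hcpt, ?_⟩
    · obtain ⟨hv0, M', r', hM', hr', hw'⟩ := hside (γ₁ 0) ⟨0, rfl⟩
      obtain ⟨⟨w, hw1, hw2⟩, -⟩ :=
        barrier_sides (v := fun z => ε • v z) (p := γ₁ 0) hv0 M' r' hr'
      exact ⟨w, (hw' w hw1).2 hw2⟩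
    · rw [Set.disjoint_left]
      rintro y ⟨hy, -⟩ hyC
      exact hy hyC
    · have hcl2 : IsClosed ({y | y ∉ C ∧ wnd γ₁ (fun t => v (γ₁ t)) T y ≠ 0} ∪ C) := by
        rw [← isOpen_compl_iff, isOpen_iff_mem_nhds]
        intro y hy
        have hyC : y ∉ C := fun h => hy (Or.inr h)
        have hy0 : wnd γ₁ (fun t => v (γ₁ t)) T y = 0 := by
          by_contra h
          exact hy (Or.inl ⟨hyC, h⟩)
        filter_upwards [hlocT y hyC] with w hw
        rintro (h | h)
        · exact h.2 (by rw [hw.2]; exact hy0)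
        · exact hw.1 h
      have hbd : Bornology.IsBounded
          ({y | y ∉ C ∧ wnd γ₁ (fun t => v (γ₁ t)) T y ≠ 0} ∪ C) := by
        apply Bornology.IsBounded.union _ hcpt.isBounded
        apply (Metric.isBounded_closedBall (x := (0 : ℝ × ℝ)) (r := R)).subset
        rintro y ⟨-, hy0⟩
        rw [mem_closedBall_zero_iff]
        by_contra hlt
        push Not at hlt
        exact hy0 (hR y (hlt.le.trans (rb_norm_le_nm y))).2
      exact Metric.isCompact_of_isClosed_isBounded hcl2 hbd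
  · intro y hy
    rw [hWm y hy]
    have h1 := hsign y hy
    have h2 : ε * (m * W y) = m * (ε * W y) := by ring
    rw [h2]
    exact mul_nonneg (by linarith) h1

end Pool.Agent.Lib.MP_95e7ec_an
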