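import Mathlib
import Pool.Agent.Lib.MP_95e7ec_an.Rb.Defs
import Pool.Agent.Lib.MP_95e7ec_an.Rb.Basic

/-!
# Rb, SideLem: elementary facts on sides
-/

set_option autoImplicit false

open Set Filter Topology MeasureTheory
open scoped ContDiff ENNReal

namespace Pool.Agent.Lib.MP_95e7ec_an

/-- eventually `ε * A < B` as `ε → 0+`, if `B` is positive -/
theorem SideLem_small (A B : ℝ) (hB : 0 < B) : ∀ᶠ ε in 𝓝[>] (0 : ℝ), ε * A < B := by
  have h1 : Tendsto (fun ε : ℝ => ε * A) (𝓝[>] (0 : ℝ)) (𝓝 (0 * A)) :=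
    ((continuous_id.mul continuous_const).tendsto 0).mono_left nhdsWithin_le_nhds
  rw [zero_mul] at h1
  exact h1.eventually (gt_mem_nhds hB)

/-- the displacement is small -/
theorem SideLem_nm {p u w : ℝ × ℝ} {η ε : ℝ} (hε : 0 < ε) (hw : nm (w - p - ε • u) ≤ η * ε) :
    nm (w - p) ≤ ε * (nm u + η) := by
  have h1 : w - p = (w - p - ε • u) + ε • u := by abel
  have h2 := rb_nm_add_le (w - p - ε • u) (ε • u)
  rw [← h1, rb_nm_smul, abs_of_pos hε] at h2
  linarith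

/-- the determinant of the displacement -/
theorem SideLem_det {p u w e : ℝ × ℝ} {η ε : ℝ}
    (hw : nm (w - p - ε • u) ≤ η * ε) :
    |det2 (w - p) e - ε * det2 u e| ≤ η * ε * nm e := by
  have h1 : det2 (w - p) e - ε * det2 u e = det2 (w - p - ε • u) e := by
    rw [rb_det2_sub_left (w - p) (ε • u), rb_det2_smul_left]
  rw [h1]
  exact (rb_det2_le _ _).trans (mul_le_mul_of_nonneg_right hw (rb_nm_nonneg e))

/-- `Side` depends only on the direction of the field on `C`. -/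
theorem Side.smul {v u : ℝ × ℝ → ℝ × ℝ} {C D : Set (ℝ × ℝ)} (h : Side v C D)
    (hu : ∀ p ∈ C, ∃ ρ : ℝ, 0 < ρ ∧ u p = ρ • v p) : Side u C D := by
  intro p hp
  obtain ⟨hv, M, r, hM, hr, hw⟩ := h p hp
  obtain ⟨ρ, hρ, hup⟩ := hu p hp
  refine ⟨?_, ρ * M, r, by positivity, hr, fun w hwr => ?_⟩
  · rw [hup]
    exact smul_ne_zero hρ.ne' hv
  · obtain ⟨h1, h2⟩ := hw w hwr
    rw [hup, rb_det2_smul_right]
    constructor
    · intro h3
      apply h1
      have h4 : ρ * (M * nm (w - p) ^ 2) < ρ * det2 (w - p) (v p) := by linarith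
      exact lt_of_mul_lt_mul_left h4 hρ.le
    · intro h3
      apply h2
      have h4 : ρ * det2 (w - p) (v p) < ρ * (-(M * nm (w - p) ^ 2)) := by linarith
      exact lt_of_mul_lt_mul_left h4 hρ.le

/-- the common estimate of `Side.into` and `Side.out` -/
theorem SideLem_aux {p u V : ℝ × ℝ} {δ M r : ℝ} (hδ : 0 < δ) (hM : 0 ≤ M) (hr : 0 < r) :
    ∃ η : ℝ, 0 < η ∧ ∀ᶠ ε in 𝓝[>] (0 : ℝ), ∀ w : ℝ × ℝ, nm (w - p - ε • u) ≤ η * ε →
      nm (w - p) < r ∧ M * nm (w - p) ^ 2 + |det2 (w - p) V - ε * det2 u V| < ε * δ := by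
  have hV := rb_nm_nonneg V
  have hu := rb_nm_nonneg u
  refine ⟨δ / (2 * (nm V + 1)), by positivity, ?_⟩
  set η : ℝ := δ / (2 * (nm V + 1)) with hη
  have hη0 : 0 < η := by positivity
  have hη1 : η * nm V ≤ δ / 2 := by
    have h1 : η * (2 * (nm V + 1)) = δ := by
      rw [hη]; field_simp
    nlinarith
  filter_upwards [SideLem_small (nm u + η) r hr,
    SideLem_small (M * (nm u + η) ^ 2) (δ / 2) (by positivity), self_mem_nhdsWithin]
    with ε h1 h2 hε w hw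
  have hε : 0 < ε := hε
  have h3 := SideLem_nm hε hw
  have h4 := SideLem_det (e := V) hw
  have h5 := rb_nm_nonneg (w - p)
  refine ⟨lt_of_le_of_lt h3 h1, ?_⟩
  have h6 : nm (w - p) ^ 2 ≤ (ε * (nm u + η)) ^ 2 := pow_le_pow_left₀ h5 h3 2
  have h7 : M * nm (w - p) ^ 2 ≤ M * (ε * (nm u + η)) ^ 2 := mul_le_mul_of_nonneg_left h6 hM
  have h8 : M * (ε * (nm u + η)) ^ 2 = ε * (ε * (M * (nm u + η) ^ 2)) := by ring
  have h9 : ε * (ε * (M * (nm u + η) ^ 2)) < ε * (δ / 2) := mul_lt_mul_of_pos_left h2 hε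
  have h10 : η * ε * nm V ≤ ε * (δ / 2) := by
    have := mul_le_mul_of_nonneg_left hη1 hε.le
    linarith
  linarith

/-- A point of `C`, moved to the left of `v` (`det2 u (v p) < 0`) with a small relative error, is
inside. -/
theorem Side.into {v : ℝ × ℝ → ℝ × ℝ} {C D : Set (ℝ × ℝ)} (h : Side v C D) {p u : ℝ × ℝ}
    (hp : p ∈ C) (hu : det2 u (v p) < 0) :
    ∃ η : ℝ, 0 < η ∧ ∀ᶠ ε in 𝓝[>] (0 : ℝ), ∀ w : ℝ × ℝ, nm (w - p - ε • u) ≤ η * ε → w ∈ D := by
  obtain ⟨-, M, r, hM, hr, hw⟩ := h p hp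
  obtain ⟨η, hη, hev⟩ := SideLem_aux (p := p) (u := u) (V := v p) (neg_pos.2 hu) hM hr
  refine ⟨η, hη, hev.mono fun ε hε w hwε => ?_⟩
  obtain ⟨h1, h2⟩ := hε w hwε
  apply (hw w h1).2
  have h3 := le_abs_self (det2 (w - p) (v p) - ε * det2 u (v p))
  linarith

/-- A point of `C`, moved to the right of `v` with a small relative error, is outside. -/
theorem Side.out {v : ℝ × ℝ → ℝ × ℝ} {C D : Set (ℝ × ℝ)} (h : Side v C D) {p u : ℝ × ℝ}
    (hp : p ∈ C) (hu : 0 < det2 u (v p)) :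
    ∃ η : ℝ, 0 < η ∧ ∀ᶠ ε in 𝓝[>] (0 : ℝ), ∀ w : ℝ × ℝ, nm (w - p - ε • u) ≤ η * ε →
      w ∉ D ∪ C := by
  obtain ⟨-, M, r, hM, hr, hw⟩ := h p hp
  obtain ⟨η, hη, hev⟩ := SideLem_aux (p := p) (u := u) (V := v p) hu hM hr
  refine ⟨η, hη, hev.mono fun ε hε w hwε => ?_⟩
  obtain ⟨h1, h2⟩ := hε w hwε
  apply (hw w h1).1
  have h3 := neg_abs_le (det2 (w - p) (v p) - ε * det2 u (v p))
  linarith

/-- small moves stay in an open set -/
theorem move_open {U : Set (ℝ × ℝ)} (hU : IsOpen U) {p : ℝ × ℝ} (hp : p ∈ U) (u : ℝ × ℝ) :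
    ∃ η : ℝ, 0 < η ∧ ∀ᶠ ε in 𝓝[>] (0 : ℝ), ∀ w : ℝ × ℝ, nm (w - p - ε • u) ≤ η * ε → w ∈ U := by
  obtain ⟨r, hr, hU'⟩ := Metric.isOpen_iff.1 hU p hp
  refine ⟨1, one_pos, ?_⟩
  filter_upwards [SideLem_small (nm u + 1) r hr, self_mem_nhdsWithin] with ε h1 hε w hw
  have h3 := SideLem_nm hε hw
  apply hU'
  rw [Metric.mem_ball, dist_eq_norm]
  exact lt_of_le_of_lt (rb_norm_le_nm _) (lt_of_le_of_lt h3 h1)

/-- small moves in a direction on the left of `e` stay on the left -/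
theorem move_det {p u e : ℝ × ℝ} (hu : det2 u e < 0) :
    ∃ η : ℝ, 0 < η ∧ ∀ᶠ ε in 𝓝[>] (0 : ℝ), ∀ w : ℝ × ℝ, nm (w - p - ε • u) ≤ η * ε →
      det2 (w - p) e < 0 := by
  obtain ⟨η, hη, hev⟩ := SideLem_aux (p := p) (u := u) (V := e) (M := 0) (r := 1)
    (neg_pos.2 hu) le_rfl one_pos
  refine ⟨η, hη, hev.mono fun ε hε w hwε => ?_⟩
  obtain ⟨-, h2⟩ := hε w hwε
  have h3 := le_abs_self (det2 (w - p) e - ε * det2 u e)
  linarith

/-- The field has the direction `e` at a highest point of a filled curve: if `det2 w e` is maximal on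
`D ∪ C` at `p ∈ C` then `v p` is a positive multiple of `e`. Proof: a direction `u` with
`det2 u (v p) < 0` satisfies `det2 u e ≤ 0` by `Side.into`; apply this to `u = ± v p + small multiple
of the left normal of `v p`` to get `det2 (v p) e = 0`, and to the left normal for the sign. -/
theorem Side.dir_of_max {v : ℝ × ℝ → ℝ × ℝ} {C D : Set (ℝ × ℝ)} (h : Side v C D) {p e : ℝ × ℝ}
    (he : e ≠ 0) (hp : p ∈ C) (hmax : ∀ w ∈ D, det2 w e ≤ det2 p e) :
    ∃ ρ : ℝ, 0 < ρ ∧ v p = ρ • e := by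
  have hv : v p ≠ 0 := (h p hp).1
  have key : ∀ u : ℝ × ℝ, det2 u (v p) < 0 → det2 u e ≤ 0 := by
    intro u hu
    obtain ⟨η, hη, hev⟩ := h.into hp hu
    obtain ⟨ε, hε, hε0⟩ := (hev.and self_mem_nhdsWithin).exists
    have hε0 : 0 < ε := hε0
    have h1 : p + ε • u ∈ D := by
      apply hε
      have h2 : p + ε • u - p - ε • u = 0 := by abel
      rw [h2, rb_nm_zero]
      positivity
    have h3 := hmax _ h1
    rw [rb_det2_add_left, rb_det2_smul_left] at h3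
    by_contra h4
    push Not at h4
    nlinarith [mul_pos hε0 h4]
  set V := v p with hV
  have hn2 : 0 < V.1 ^ 2 + V.2 ^ 2 := by
    have h1 := nm_pos hv
    rw [← nm_sq]; positivity
  have hnd : det2 ((-V.2, V.1) : ℝ × ℝ) V = -(V.1 ^ 2 + V.2 ^ 2) := by
    simp only [det2]; ring
  have hne : det2 ((-V.2, V.1) : ℝ × ℝ) e = -(V.1 * e.1 + V.2 * e.2) := by
    simp only [det2]; ring
  have hpos : 0 ≤ V.1 * e.1 + V.2 * e.2 := by
    have h1 := key (-V.2, V.1) (by rw [hnd]; linarith)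
    rw [hne] at h1
    linarith
  have hpar : det2 V e = 0 := by
    by_contra hne0
    have hA : ∀ s : ℝ, 0 < s → |det2 V e| + s * det2 ((-V.2, V.1) : ℝ × ℝ) e ≤ 0 := by
      intro s hs
      have hd : ∀ σ : ℝ, det2 (σ • V + s • ((-V.2, V.1) : ℝ × ℝ)) V < 0 := by
        intro σ
        rw [rb_det2_add_left, rb_det2_smul_left, rb_det2_smul_left, rb_det2_self, hnd]
        nlinarith
      have h1 := key _ (hd 1)
      have h2 := key _ (hd (-1))
      rw [rb_det2_add_left, rb_det2_smul_left, rb_det2_smul_left] at h1 h2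
      rcases abs_cases (det2 V e) with ⟨h3, -⟩ | ⟨h3, -⟩ <;> rw [h3] <;> linarith
    have ha : 0 < |det2 V e| := abs_pos.2 hne0
    have h1 := hA (|det2 V e| / (2 * ((V.1 * e.1 + V.2 * e.2) + 1))) (by positivity)
    rw [hne] at h1
    have h2 : |det2 V e| / (2 * ((V.1 * e.1 + V.2 * e.2) + 1)) * (V.1 * e.1 + V.2 * e.2)
        ≤ |det2 V e| / 2 := by
      rw [div_mul_eq_mul_div, div_le_div_iff₀ (by positivity) (by positivity)]
      nlinarith
    linarith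
  have he2 : 0 < e.1 ^ 2 + e.2 ^ 2 := by
    have h1 := nm_pos he
    rw [← nm_sq]; positivity
  have hdet : V.1 * e.2 - V.2 * e.1 = 0 := by
    simpa only [det2] using hpar
  have hVe : V = ((V.1 * e.1 + V.2 * e.2) / (e.1 ^ 2 + e.2 ^ 2)) • e := by
    ext
    · rw [Prod.smul_fst, smul_eq_mul, div_mul_eq_mul_div, eq_div_iff he2.ne']
      linear_combination e.2 * hdet
    · rw [Prod.smul_snd, smul_eq_mul, div_mul_eq_mul_div, eq_div_iff he2.ne']
      linear_combination -e.1 * hdet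
  refine ⟨(V.1 * e.1 + V.2 * e.2) / (e.1 ^ 2 + e.2 ^ 2), ?_, hVe⟩
  rcases (div_nonneg hpos he2.le).lt_or_eq with h1 | h1
  · exact h1
  · exfalso
    rw [← h1, zero_smul] at hVe
    exact hv hVe

end Pool.Agent.Lib.MP_95e7ec_an
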