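import Mathlib
import Pool.Agent.Lib.MP_95e7ec_an.Rb.SideLem
import Pool.Agent.Lib.MP_95e7ec_an.AvgBasic

/-!
# Rb, Move: moving along the level set of the direction
-/

set_option autoImplicit false

open Set Filter Topology MeasureTheory
open scoped ContDiff ENNReal

namespace Pool.Agent.Lib.MP_95e7ec_an

/-- a function with positive derivative at a zero is positive on the right of it -/
theorem Move_pos {F : ℝ → ℝ} {d : ℝ} (hF : HasDerivAt F d 0) (h0 : F 0 = 0) (hd : 0 < d) :
    ∀ᶠ ε in 𝓝[>] (0 : ℝ), 0 < F ε := by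
  have h1 := hF.tendsto_slope_zero_right
  filter_upwards [h1.eventually (lt_mem_nhds hd), self_mem_nhdsWithin] with ε h2 hε
  have hε : 0 < ε := hε
  rw [zero_add, h0, sub_zero, smul_eq_mul] at h2
  exact (mul_pos_iff_of_pos_left (inv_pos.2 hε)).1 h2

/-- the derivative along a line of `det2 (Y ·) e` -/
theorem Move_deriv {Y : ℝ × ℝ → ℝ × ℝ} {w : ℝ × ℝ} (hY : DifferentiableAt ℝ Y w)
    (u e : ℝ × ℝ) :
    HasDerivAt (fun ε : ℝ => det2 (Y (w + ε • u)) e) (det2 (fderiv ℝ Y w u) e) 0 := by
  have h1 : HasDerivAt (fun ε : ℝ => w + ε • u) u 0 := by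
    have h2 := ((hasDerivAt_id (0 : ℝ)).smul_const u).const_add w
    simpa using h2
  have h3 : HasFDerivAt Y (fderiv ℝ Y w) (w + (0 : ℝ) • u) := by
    rw [zero_smul, add_zero]
    exact hY.hasFDerivAt
  have h4 : HasDerivAt (fun ε : ℝ => Y (w + ε • u)) (fderiv ℝ Y w u) 0 :=
    h3.comp_hasDerivAt (0 : ℝ) h1
  have h5 : HasDerivAt (fun ε : ℝ => (Y (w + ε • u)).1) (fderiv ℝ Y w u).1 0 :=
    (ContinuousLinearMap.fst ℝ ℝ ℝ).hasFDerivAt.comp_hasDerivAt (0 : ℝ) h4
  have h6 : HasDerivAt (fun ε : ℝ => (Y (w + ε • u)).2) (fderiv ℝ Y w u).2 0 :=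
    (ContinuousLinearMap.snd ℝ ℝ ℝ).hasFDerivAt.comp_hasDerivAt (0 : ℝ) h4
  simp only [det2]
  exact (h5.mul_const e.2).sub (h6.mul_const e.1)

/-- Let `Y w = ρ e`, `e = dirv c`, `ρ > 0`, and let the linear functional
`ℓ u = det2 (DY(w) u) e` satisfy `ℓ e ≠ 0`. There is a vector `v` with `det2 v e = -1` and `ℓ v = 0`
(`v = nrm e + s e` with `nrm e = (-e.2, e.1)`), and the set where `Y` is a positive multiple of `e`
contains points `w + ε v + o(ε)`.

Proof of the last part: on the segment `s ↦ w + ε v + s ε e`, `|s| ≤ η`, the function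
`f = det2 (Y ·) e` is `ε s ℓ e + o(ε)` (`f w = 0`, `f` is differentiable at `w`), so for small `ε` it has
opposite signs at `s = ± η`: intermediate value theorem (continuity of `Y`). At the zero `w'` of
`f`, `Y w'` is a multiple of `e`, and close to `ρ e`, so a positive multiple. The identity: `u = α v + β e`
with `β = - det2 u v...`; both sides are linear in `u` and agree for `u = v` and `u = e`
(`v`, `e` are a basis since `det2 v e = -1`). -/
theorem move_exists {Y : ℝ × ℝ → ℝ × ℝ} (hY : ContDiff ℝ 1 Y) {w : ℝ × ℝ} {c ρ : ℝ}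
    (hρ : 0 < ρ) (hw : Y w = ρ • dirv c)
    (h1 : det2 (fderiv ℝ Y w (dirv c)) (dirv c) ≠ 0) :
    ∃ v : ℝ × ℝ, det2 v (dirv c) = -1 ∧
      (∀ u : ℝ × ℝ, det2 v u * det2 (fderiv ℝ Y w (dirv c)) (dirv c) =
        -det2 (fderiv ℝ Y w u) (dirv c)) ∧
      ∀ η : ℝ, 0 < η → ∀ᶠ ε in 𝓝[>] (0 : ℝ), ∃ w' : ℝ × ℝ,
        (∃ ρ' : ℝ, 0 < ρ' ∧ Y w' = ρ' • dirv c) ∧ nm (w' - w - ε • v) ≤ η * ε := by
  have hd : DifferentiableAt ℝ Y w := (hY.differentiable one_ne_zero).differentiableAt
  set e : ℝ × ℝ := dirv c with he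
  have hen : e.1 ^ 2 + e.2 ^ 2 = 1 := by
    rw [he]; simp only [dirv]; exact Real.cos_sq_add_sin_sq c
  set L : ℝ × ℝ → ℝ := fun u => det2 (fderiv ℝ Y w u) e with hL
  have hLadd : ∀ u u' : ℝ × ℝ, L (u + u') = L u + L u' := by
    intro u u'
    simp only [hL, map_add, rb_det2_add_left]
  have hLsmul : ∀ (t : ℝ) (u : ℝ × ℝ), L (t • u) = t * L u := by
    intro t u
    simp only [hL, map_smul, rb_det2_smul_left]
  have hLe : L e ≠ 0 := h1
  set nr : ℝ × ℝ := (-e.2, e.1) with hnr
  set v : ℝ × ℝ := nr + (-(L nr) / L e) • e with hv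
  have hve : det2 v e = -1 := by
    rw [hv, rb_det2_add_left, rb_det2_smul_left, rb_det2_self]
    simp only [hnr, det2]
    linarith
  have hLv : L v = 0 := by
    rw [hv, hLadd, hLsmul, div_mul_cancel₀ _ hLe]
    ring
  refine ⟨v, hve, ?_, ?_⟩
  · intro u
    have hu : u = (-(det2 u e)) • v + (-(det2 v u)) • e := by
      have h2 : v.1 * e.2 - v.2 * e.1 = -1 := by simpa only [det2] using hve
      ext
      · simp only [det2, Prod.fst_add, Prod.smul_fst, smul_eq_mul]
        linear_combination u.1 * h2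
      · simp only [det2, Prod.snd_add, Prod.smul_snd, smul_eq_mul]
        linear_combination u.2 * h2
    have h2 : L u = -(det2 v u) * L e := by
      conv_lhs => rw [hu]
      rw [hLadd, hLsmul, hLsmul, hLv]
      ring
    change det2 v u * L e = -L u
    rw [h2]; ring
  · intro η hη
    -- values of `f` at the end points
    have hf0 : det2 (Y w) e = 0 := by
      rw [hw, rb_det2_smul_left, rb_det2_self, mul_zero]
    have hends : ∀ s : ℝ, HasDerivAt (fun ε : ℝ => det2 (Y (w + ε • (v + s • e))) e) (s * L e) 0 := by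
      intro s
      have h2 := Move_deriv hd (v + s • e) e
      have h3 : det2 (fderiv ℝ Y w (v + s • e)) e = s * L e := by
        change L (v + s • e) = _
        rw [hLadd, hLsmul, hLv, zero_add]
      rwa [h3] at h2
    have hzero : ∀ s : ℝ, (fun ε : ℝ => det2 (Y (w + ε • (v + s • e))) e) 0 = 0 := by
      intro s
      simp only [zero_smul, add_zero]
      exact hf0
    have hsign : ∀ᶠ ε in 𝓝[>] (0 : ℝ), (0 : ℝ) ∈ Set.uIcc
        (det2 (Y (w + ε • (v + (-η) • e))) e) (det2 (Y (w + ε • (v + η • e))) e) := by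
      rcases lt_or_gt_of_ne hLe with hneg | hpos
      · have h2 := Move_pos (hends (-η)) (hzero (-η)) (by nlinarith)
        have h3 := Move_pos (hends η).neg (by simpa using hzero η) (by nlinarith)
        filter_upwards [h2, h3] with ε h4 h5
        simp only [Pi.neg_apply] at h5
        rw [Set.mem_uIcc]
        right
        constructor <;> linarith
      · have h2 := Move_pos (hends η) (hzero η) (by positivity)
        have h3 := Move_pos (hends (-η)).neg (by simpa using hzero (-η)) (by nlinarith)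
        filter_upwards [h2, h3] with ε h4 h5
        simp only [Pi.neg_apply] at h5
        rw [Set.mem_uIcc]
        left
        constructor <;> linarith
    -- positivity of the inner product near `w`
    have hcont : Continuous fun z : ℝ × ℝ => (Y z).1 * Real.cos c + (Y z).2 * Real.sin c := by
      have := hY.continuous
      fun_prop
    have hpos0 : 0 < (Y w).1 * Real.cos c + (Y w).2 * Real.sin c := by
      have h2 : (Y w).1 * Real.cos c + (Y w).2 * Real.sin c = ρ := by
        rw [hw, he]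
        simp only [dirv, Prod.smul_fst, Prod.smul_snd, smul_eq_mul]
        have h3 := Real.sin_sq_add_cos_sq c
        linear_combination ρ * h3
      rw [h2]; exact hρ
    have hU : IsOpen {z : ℝ × ℝ | 0 < (Y z).1 * Real.cos c + (Y z).2 * Real.sin c} :=
      isOpen_lt continuous_const hcont
    obtain ⟨r, hr, hrU⟩ := Metric.isOpen_iff.1 hU w hpos0
    filter_upwards [hsign, SideLem_small (nm v + η) r hr, self_mem_nhdsWithin] with ε h2 h3 hε
    have hε : 0 < ε := hε
    have hc2 : ContinuousOn (fun s : ℝ => det2 (Y (w + ε • (v + s • e))) e)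
        (Set.uIcc (-η) η) := by
      have := hY.continuous
      have h4 : Continuous fun s : ℝ => Y (w + ε • (v + s • e)) := by fun_prop
      have h5 : Continuous fun s : ℝ => det2 (Y (w + ε • (v + s • e))) e := by
        simp only [det2]
        fun_prop
      exact h5.continuousOn
    obtain ⟨s, hs, hs0⟩ := intermediate_value_uIcc hc2 h2
    have hs' : |s| ≤ η := by
      rw [Set.uIcc_of_le (by linarith)] at hs
      exact abs_le.2 hs
    have hnm : nm (w + ε • (v + s • e) - w - ε • v) ≤ η * ε := by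
      have h4 : w + ε • (v + s • e) - w - ε • v = (ε * s) • e := by
        rw [smul_add, smul_smul]
        abel
      rw [h4, rb_nm_smul, he, rb_nm_dirv, mul_one, abs_mul, abs_of_pos hε]
      nlinarith
    refine ⟨w + ε • (v + s • e), ⟨(Y (w + ε • (v + s • e))).1 * Real.cos c +
      (Y (w + ε • (v + s • e))).2 * Real.sin c, ?_, rb_parallel hs0⟩, hnm⟩
    have h5 := SideLem_nm hε hnm
    have h6 : w + ε • (v + s • e) ∈ Metric.ball w r := by
      rw [Metric.mem_ball, dist_eq_norm]
      exact lt_of_le_of_lt (rb_norm_le_nm _) (lt_of_le_of_lt h5 h3)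
    exact hrU h6

/-- the curvature determinants at a point where `Y w = ρ e` -/
theorem cur_of_dir {Y : ℝ × ℝ → ℝ × ℝ} {w : ℝ × ℝ} {c ρ ψ : ℝ} (hw : Y w = ρ • dirv c) :
    turn ψ Y w = ρ • dirv (c + ψ) ∧
      cur Y ψ w = ρ ^ 2 * det2 (fderiv ℝ Y w (dirv (c + ψ))) (dirv c) := by
  have h1 : turn ψ Y w = ρ • dirv (c + ψ) := by
    rw [turn, hw]
    simp only [dirv, Prod.smul_fst, Prod.smul_snd, smul_eq_mul, Real.cos_add, Real.sin_add]
    ext
    · simp only [Prod.smul_fst, smul_eq_mul]; ring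
    · simp only [Prod.smul_snd, smul_eq_mul]; ring
  refine ⟨h1, ?_⟩
  rw [cur, h1, hw, map_smul, rb_det2_smul_left, rb_det2_smul_right]
  ring

/-- the curvature determinant of a turned field -/
theorem cur_turn {Y : ℝ × ℝ → ℝ × ℝ} (hY : ContDiff ℝ 1 Y) (δ : ℝ) (w : ℝ × ℝ) :
    cur (turn δ Y) 0 w = cur Y δ w := by
  have hd : HasFDerivAt Y (fderiv ℝ Y w) w :=
    (hY.differentiable one_ne_zero).differentiableAt.hasFDerivAt
  have h1 := hd.fst
  have h2 := hd.snd
  have h3 : HasFDerivAt (turn δ Y) _ w :=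
    ((h1.const_mul (Real.cos δ)).sub (h2.const_mul (Real.sin δ))).prodMk
      ((h1.const_mul (Real.sin δ)).add (h2.const_mul (Real.cos δ)))
  rw [cur, cur, rb_turn_zero, h3.fderiv]
  have h4 := Real.sin_sq_add_cos_sq δ
  simp only [det2, ContinuousLinearMap.prod_apply, FunLike.coe_sub, Pi.sub_apply,
    FunLike.coe_smul, Pi.smul_apply, ContinuousLinearMap.coe_comp,
    Function.comp_apply, ContinuousLinearMap.coe_fst', ContinuousLinearMap.coe_snd',
    add_apply, smul_eq_mul]
  generalize (fderiv ℝ Y w) (turn δ Y w) = g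
  simp only [turn]
  linear_combination (g.1 * (Y w).2 - g.2 * (Y w).1) * h4

theorem det2_turn_dirv (Y : ℝ × ℝ → ℝ × ℝ) (δ c : ℝ) (w : ℝ × ℝ) :
    det2 (turn δ Y w) (dirv (c + δ)) = det2 (Y w) (dirv c) := by
  have h4 := Real.sin_sq_add_cos_sq δ
  simp only [det2, turn, dirv, Real.cos_add, Real.sin_add]
  linear_combination ((Y w).1 * Real.sin c - (Y w).2 * Real.cos c) * h4

end Pool.Agent.Lib.MP_95e7ec_an
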