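import Mathlib
import Pool.Agent.Lib.MP_95e7ec_an.Rb.Move
import Pool.Agent.Lib.MP_95e7ec_an.Rb.Basic

/-!
# Rb, TypeA: the sign of the curvature product between two barriers
-/

set_option autoImplicit false

open Set Filter Topology MeasureTheory
open scoped ContDiff ENNReal

namespace Pool.Agent.Lib.MP_95e7ec_an

private theorem typeA_cont_turn {Y : ℝ × ℝ → ℝ × ℝ} (hY : Continuous Y) (ψ : ℝ) :
    Continuous (turn ψ Y) := by
  unfold turn
  fun_prop

private theorem typeA_cont_cur {Y : ℝ × ℝ → ℝ × ℝ} (hY : ContDiff ℝ 1 Y) (ψ : ℝ) :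
    Continuous (cur Y ψ) := by
  have h1 : Continuous fun z => fderiv ℝ Y z (turn ψ Y z) :=
    (hY.continuous_fderiv one_ne_zero).clm_apply (typeA_cont_turn hY.continuous ψ)
  exact rb_continuous_det2.comp (h1.prodMk hY.continuous)

private theorem typeA_cur_zero {Y : ℝ × ℝ → ℝ × ℝ} {ψ : ℝ} {w : ℝ × ℝ} (h : Y w = 0) :
    cur Y ψ w = 0 := by
  simp only [cur, det2, h, Prod.fst_zero, Prod.snd_zero]
  ring

/-- Between the inner barrier `(C₂, D₂)` of `turn δ Y` and the outer barrier `(C₁, D₁)` of `Y`, with no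
special point of direction `c`, the product of the curvature determinants is positive wherever `Y`
has the direction `c`.

Proof. Write `e = dirv c`, `e' = dirv (c+δ)`, `ℓ u = det2 (DY(w) u) e`. By `cur_of_dir` the product at `w`
is `ρ⁴ ℓ e ℓ e'`. Let `B` be the set of the `w ∈ (D₁ ∪ C₁) \ D₂` with `Y w = ρ e`, `ρ > 0`, and
negative product (by `hS` it is the same to ask `≤ 0`; and `Y w ≠ 0` where `det2 (Y w) e = 0`, since at
a zero of `Y` the product is `0`, so `B` is compact: `Y w = ρ e` with `ρ ≥ 0` is a closed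
condition). If `B` is not empty take `w` in `B` with minimal `det2 w e`. `move_exists` gives `v`
with `det2 v e = -1`, and `det2 v e' * ℓ e = -ℓ e'`, so `det2 v e' > 0`. The points `w'` of
`move_exists` (`ε` small) satisfy `det2 w' e < det2 w e` (`move_det`), have negative product
(continuity of `cur`), and lie in `(D₁ ∪ C₁) \ D₂`: if `w ∈ C₁` then `w' ∈ D₁` by `Side.into`
(`det2 v (Y w) = -ρ < 0`), if `w ∈ C₂` then `w' ∉ D₂ ∪ C₂` by `Side.out` for `turn δ Y`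
(`det2 v (turn δ Y w) = ρ det2 v e' > 0`), otherwise and for the other set use `move_open`
(`D₁` and the complement of `D₂ ∪ C₂` are open). Contradiction with the minimality. -/
theorem type_pos {Y : ℝ × ℝ → ℝ × ℝ} (hY : ContDiff ℝ 1 Y) {δ c : ℝ}
    {C₁ D₁ C₂ D₂ : Set (ℝ × ℝ)} (h₁ : JP C₁ D₁) (h₂ : JP C₂ D₂) (s₁ : Side Y C₁ D₁)
    (s₂ : Side (turn δ Y) C₂ D₂) (h21 : D₂ ∪ C₂ ⊆ D₁)
    (hS : ∀ w ∈ (D₁ ∪ C₁) \ D₂, det2 (Y w) (dirv c) = 0 → cur Y 0 w * cur Y δ w ≠ 0) :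
    ∀ w ∈ (D₁ ∪ C₁) \ D₂, (∃ ρ : ℝ, 0 < ρ ∧ Y w = ρ • dirv c) → 0 < cur Y 0 w * cur Y δ w := by
  intro w₀ hw₀ hdir₀
  by_contra hneg₀
  have hYc := hY.continuous
  have hg : Continuous fun w => cur Y 0 w * cur Y δ w :=
    (typeA_cont_cur hY 0).mul (typeA_cont_cur hY δ)
  have hdet : Continuous fun w : ℝ × ℝ => det2 w (dirv c) :=
    rb_continuous_det2.comp (continuous_id.prodMk continuous_const)
  set B : Set (ℝ × ℝ) := {w | w ∈ (D₁ ∪ C₁) \ D₂ ∧ det2 (Y w) (dirv c) = 0 ∧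
    0 ≤ (Y w).1 * Real.cos c + (Y w).2 * Real.sin c ∧ cur Y 0 w * cur Y δ w ≤ 0} with hB
  have hBc : IsCompact B := by
    have k1 : IsCompact ((D₁ ∪ C₁) \ D₂) := h₁.cpt.diff h₂.op
    have k2 : IsClosed {w : ℝ × ℝ | det2 (Y w) (dirv c) = 0 ∧
        0 ≤ (Y w).1 * Real.cos c + (Y w).2 * Real.sin c ∧ cur Y 0 w * cur Y δ w ≤ 0} := by
      have c1 : Continuous fun w => det2 (Y w) (dirv c) := hdet.comp hYc
      have c2 : Continuous fun w => (Y w).1 * Real.cos c + (Y w).2 * Real.sin c := by fun_prop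
      exact (isClosed_eq c1 continuous_const).inter
        ((isClosed_le continuous_const c2).inter (isClosed_le hg continuous_const))
    exact k1.inter_right k2
  have hdirdet : ∀ w, (∃ ρ : ℝ, 0 < ρ ∧ Y w = ρ • dirv c) → det2 (Y w) (dirv c) = 0 ∧
      0 ≤ (Y w).1 * Real.cos c + (Y w).2 * Real.sin c := by
    rintro w ⟨ρ, hρ, hw⟩
    have h3 := Real.sin_sq_add_cos_sq c
    constructor
    · rw [hw, rb_det2_smul_left, rb_det2_self, mul_zero]
    · rw [hw]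
      simp only [dirv, Prod.smul_fst, Prod.smul_snd, smul_eq_mul]
      have : ρ * Real.cos c * Real.cos c + ρ * Real.sin c * Real.sin c = ρ := by
        linear_combination ρ * h3
      rw [this]
      exact hρ.le
  have hB₀ : w₀ ∈ B := by
    obtain ⟨k1, k2⟩ := hdirdet w₀ hdir₀
    exact ⟨hw₀, k1, k2, not_lt.mp hneg₀⟩
  obtain ⟨w, hwB, hmin⟩ := hBc.exists_isMinOn ⟨w₀, hB₀⟩ hdet.continuousOn
  obtain ⟨hwS, hw0, hwpos, hwneg⟩ := hwB
  have hne := hS w hwS hw0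
  have hlt : cur Y 0 w * cur Y δ w < 0 := lt_of_le_of_ne hwneg hne
  have hpar := rb_parallel hw0
  set ρ := (Y w).1 * Real.cos c + (Y w).2 * Real.sin c with hρdef
  have hρ : 0 < ρ := by
    rcases hwpos.lt_or_eq with h | h
    · exact h
    · exfalso
      apply hne
      rw [← h, zero_smul] at hpar
      rw [typeA_cur_zero hpar, zero_mul]
  -- the signs
  obtain ⟨-, hc0⟩ := cur_of_dir (ψ := 0) hpar
  obtain ⟨hturn, hcδ⟩ := cur_of_dir (ψ := δ) hpar
  rw [add_zero] at hc0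
  have hprod : det2 (fderiv ℝ Y w (dirv c)) (dirv c) *
      det2 (fderiv ℝ Y w (dirv (c + δ))) (dirv c) < 0 := by
    rw [hc0, hcδ] at hlt
    have h4 : 0 < ρ ^ 4 := by positivity
    have h5 : ρ ^ 4 * (det2 (fderiv ℝ Y w (dirv c)) (dirv c) *
      det2 (fderiv ℝ Y w (dirv (c + δ))) (dirv c)) < 0 := by
      calc _ = ρ ^ 2 * det2 (fderiv ℝ Y w (dirv c)) (dirv c) *
            (ρ ^ 2 * det2 (fderiv ℝ Y w (dirv (c + δ))) (dirv c)) := by ring
        _ < 0 := hlt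
    by_contra hcon
    exact absurd h5 (not_lt.mpr (mul_nonneg h4.le (not_lt.mp hcon)))
  have hℓ : det2 (fderiv ℝ Y w (dirv c)) (dirv c) ≠ 0 := by
    intro h0
    rw [h0, zero_mul] at hprod
    exact lt_irrefl _ hprod
  obtain ⟨v, hv1, hv2, hv3⟩ := move_exists hY hρ hpar hℓ
  have hve : 0 < det2 v (dirv (c + δ)) := by
    have h6 := hv2 (dirv (c + δ))
    have h7 : 0 < det2 v (dirv (c + δ)) * det2 (fderiv ℝ Y w (dirv c)) (dirv c) ^ 2 := by
      calc (0 : ℝ) < -(det2 (fderiv ℝ Y w (dirv c)) (dirv c) *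
            det2 (fderiv ℝ Y w (dirv (c + δ))) (dirv c)) := by linarith
        _ = _ := by linear_combination (-det2 (fderiv ℝ Y w (dirv c)) (dirv c)) * h6
    exact pos_of_mul_pos_left h7 (sq_nonneg _)
  -- the four conditions
  obtain ⟨η₁, hη₁, k₁⟩ : ∃ η : ℝ, 0 < η ∧ ∀ᶠ ε in 𝓝[>] (0 : ℝ), ∀ w' : ℝ × ℝ,
      nm (w' - w - ε • v) ≤ η * ε → w' ∈ D₁ := by
    rcases hwS.1 with h | h
    · exact move_open h₁.op h v
    · apply s₁.into h
      rw [hpar, rb_det2_smul_right, hv1]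
      linarith
  obtain ⟨η₂, hη₂, k₂⟩ : ∃ η : ℝ, 0 < η ∧ ∀ᶠ ε in 𝓝[>] (0 : ℝ), ∀ w' : ℝ × ℝ,
      nm (w' - w - ε • v) ≤ η * ε → w' ∉ D₂ ∪ C₂ := by
    by_cases h : w ∈ C₂
    · apply s₂.out h
      rw [hturn, rb_det2_smul_right]
      exact mul_pos hρ hve
    · exact move_open h₂.cpt.isClosed.isOpen_compl (fun h' => h'.elim hwS.2 h) v
  obtain ⟨η₃, hη₃, k₃⟩ := move_det (p := w) (u := v) (e := dirv c) (by rw [hv1]; norm_num)
  obtain ⟨η₄, hη₄, k₄⟩ := move_open (isOpen_lt hg continuous_const) (p := w) hlt v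
  set η := min (min η₁ η₂) (min η₃ η₄) with hη
  have hη0 : 0 < η := lt_min (lt_min hη₁ hη₂) (lt_min hη₃ hη₄)
  have hpos : ∀ᶠ ε in 𝓝[>] (0 : ℝ), (0 : ℝ) < ε := self_mem_nhdsWithin
  obtain ⟨ε, e1, e2, e3, e4, ⟨w', hw'dir, hw'nm⟩, hε⟩ :=
    (k₁.and (k₂.and (k₃.and (k₄.and ((hv3 η hη0).and hpos))))).exists
  have m1 : nm (w' - w - ε • v) ≤ η₁ * ε := hw'nm.trans (mul_le_mul_of_nonneg_right
    ((min_le_left _ _).trans (min_le_left _ _)) hε.le)
  have m2 : nm (w' - w - ε • v) ≤ η₂ * ε := hw'nm.trans (mul_le_mul_of_nonneg_right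
    ((min_le_left _ _).trans (min_le_right _ _)) hε.le)
  have m3 : nm (w' - w - ε • v) ≤ η₃ * ε := hw'nm.trans (mul_le_mul_of_nonneg_right
    ((min_le_right _ _).trans (min_le_left _ _)) hε.le)
  have m4 : nm (w' - w - ε • v) ≤ η₄ * ε := hw'nm.trans (mul_le_mul_of_nonneg_right
    ((min_le_right _ _).trans (min_le_right _ _)) hε.le)
  obtain ⟨n1, n2⟩ := hdirdet w' hw'dir
  have hw'B : w' ∈ B :=
    ⟨⟨Or.inl (e1 w' m1), fun h => e2 w' m2 (Or.inl h)⟩, n1, n2, le_of_lt (e4 w' m4)⟩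
  have q1 : det2 w (dirv c) ≤ det2 w' (dirv c) := hmin hw'B
  have q2 := e3 w' m3
  rw [rb_det2_sub_left] at q2
  linarith

end Pool.Agent.Lib.MP_95e7ec_an
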