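import Mathlib
import Pool.Agent.Lib.MP_95e7ec_an.Rb.TypeA
import Pool.Agent.Lib.MP_95e7ec_an.Rb.Basic

/-!
# Rb, Cone: the points of direction `c` are in a cone with vertex on the inner curve
-/

set_option autoImplicit false

open Set Filter Topology MeasureTheory
open scoped ContDiff ENNReal

namespace Pool.Agent.Lib.MP_95e7ec_an

private theorem cone_cont_det {Y : ℝ × ℝ → ℝ × ℝ} (hY : Continuous Y) (e : ℝ × ℝ) :
    Continuous fun w => det2 (Y w) e := by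
  unfold det2
  fun_prop

private theorem cone_cont_dot {Y : ℝ × ℝ → ℝ × ℝ} (hY : Continuous Y) (c : ℝ) :
    Continuous fun w => (Y w).1 * Real.cos c + (Y w).2 * Real.sin c := by
  fun_prop

private theorem cone_dot_smul (ρ c : ℝ) :
    (ρ • dirv c).1 * Real.cos c + (ρ • dirv c).2 * Real.sin c = ρ := by
  have h3 := Real.sin_sq_add_cos_sq c
  simp only [dirv, Prod.smul_fst, Prod.smul_snd, smul_eq_mul]
  linear_combination ρ * h3

/-- one step of the descent -/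
private theorem cone_step {Y : ℝ × ℝ → ℝ × ℝ} (hY : ContDiff ℝ 1 Y) {δ c : ℝ}
    {C₁ D₁ C₂ D₂ C₃ D₃ : Set (ℝ × ℝ)} (h₁ : JP C₁ D₁) (h₂ : JP C₂ D₂) (h₃ : JP C₃ D₃)
    (s₁ : Side Y C₁ D₁) (s₂ : Side (turn δ Y) C₂ D₂) (h23 : D₂ ∪ C₂ ⊆ D₃) (h31 : D₃ ∪ C₃ ⊆ D₁)
    (hS : ∀ w ∈ (D₁ ∪ C₁) \ D₂, det2 (Y w) (dirv c) = 0 → cur Y 0 w * cur Y δ w ≠ 0)
    {w : ℝ × ℝ} (hw : w ∈ (D₁ ∪ C₁) \ D₃) (hw3 : w ∉ C₃)
    (hwc : ∃ ρ : ℝ, 0 < ρ ∧ Y w = ρ • dirv c) :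
    ∃ w' ∈ (D₁ ∪ C₁) \ D₃, (∃ ρ : ℝ, 0 < ρ ∧ Y w' = ρ • dirv c) ∧
      det2 (w' - w) (dirv c) < 0 ∧ det2 (w' - w) (dirv (c + δ)) < 0 := by
  obtain ⟨ρ, hρ, hYw⟩ := hwc
  have hD23 : D₂ ⊆ D₃ := fun x hx => h23 (Or.inl hx)
  have h21 : D₂ ∪ C₂ ⊆ D₁ := fun x hx => h31 (Or.inl (h23 hx))
  have hw2 : w ∈ (D₁ ∪ C₁) \ D₂ := ⟨hw.1, fun h => hw.2 (hD23 h)⟩
  have hpos := type_pos hY h₁ h₂ s₁ s₂ h21 hS w hw2 ⟨ρ, hρ, hYw⟩
  have hc0 := (cur_of_dir (ψ := 0) hYw).2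
  have hcδ := (cur_of_dir (ψ := δ) hYw).2
  rw [add_zero] at hc0
  rw [hc0, hcδ] at hpos
  set l : ℝ := det2 (fderiv ℝ Y w (dirv c)) (dirv c) with hl
  set l' : ℝ := det2 (fderiv ℝ Y w (dirv (c + δ))) (dirv c) with hl'
  have hρ2 : 0 < ρ ^ 2 := by positivity
  have hll : 0 < l * l' := by
    have h4 : 0 < (ρ ^ 2 * ρ ^ 2) * (l * l') := by
      calc 0 < ρ ^ 2 * l * (ρ ^ 2 * l') := hpos
        _ = (ρ ^ 2 * ρ ^ 2) * (l * l') := by ring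
    exact (pos_iff_pos_of_mul_pos h4).1 (by positivity)
  have hl0 : l ≠ 0 := by
    intro h; rw [h, zero_mul] at hll; exact lt_irrefl _ hll
  obtain ⟨v, hv, hvu, hmove⟩ := move_exists hY hρ hYw hl0
  have hve' : det2 v (dirv (c + δ)) < 0 := by
    have h := hvu (dirv (c + δ))
    rw [← hl, ← hl'] at h
    by_contra hcon
    push Not at hcon
    have h5 : det2 v (dirv (c + δ)) * (l * l) = -(l * l') := by
      calc det2 v (dirv (c + δ)) * (l * l) = (det2 v (dirv (c + δ)) * l) * l := by ring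
        _ = -l' * l := by rw [h]
        _ = -(l * l') := by ring
    have h6 : 0 ≤ det2 v (dirv (c + δ)) * (l * l) := mul_nonneg hcon (mul_self_nonneg l)
    linarith
  have hve : det2 v (dirv c) < 0 := by rw [hv]; norm_num
  -- the four conditions
  obtain ⟨η1, hη1, hE1⟩ := move_det (p := w) hve
  obtain ⟨η2, hη2, hE2⟩ := move_det (p := w) hve'
  have hD1 : ∃ η : ℝ, 0 < η ∧ ∀ᶠ ε in 𝓝[>] (0 : ℝ), ∀ w' : ℝ × ℝ,
      nm (w' - w - ε • v) ≤ η * ε → w' ∈ D₁ := by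
    rcases hw.1 with h | h
    · exact move_open h₁.op h v
    · refine Side.into s₁ h ?_
      rw [hYw, rb_det2_smul_right, hv]
      linarith
  obtain ⟨η3, hη3, hE3⟩ := hD1
  have hopen : IsOpen (D₃ ∪ C₃)ᶜ := h₃.cpt.isClosed.isOpen_compl
  have hwm : w ∈ (D₃ ∪ C₃)ᶜ := by
    intro h
    rcases h with h | h
    · exact hw.2 h
    · exact hw3 h
  obtain ⟨η4, hη4, hE4⟩ := move_open hopen hwm v
  set η := min (min η1 η2) (min η3 η4) with hη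
  have hηp : 0 < η := lt_min (lt_min hη1 hη2) (lt_min hη3 hη4)
  have hev := hmove η hηp
  have hgt : ∀ᶠ ε in 𝓝[>] (0 : ℝ), 0 < ε := by
    filter_upwards [self_mem_nhdsWithin] with ε hε using hε
  obtain ⟨ε, ⟨⟨⟨⟨⟨w', hw', hn⟩, e1⟩, e2⟩, e3⟩, e4⟩, hε⟩ :=
    (((((hev.and hE1).and hE2).and hE3).and hE4).and hgt).exists
  have b1 : η ≤ η1 := (min_le_left _ _).trans (min_le_left _ _)
  have b2 : η ≤ η2 := (min_le_left _ _).trans (min_le_right _ _)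
  have b3 : η ≤ η3 := (min_le_right _ _).trans (min_le_left _ _)
  have b4 : η ≤ η4 := (min_le_right _ _).trans (min_le_right _ _)
  have c1 := e1 w' (hn.trans (mul_le_mul_of_nonneg_right b1 hε.le))
  have c2 := e2 w' (hn.trans (mul_le_mul_of_nonneg_right b2 hε.le))
  have c3 := e3 w' (hn.trans (mul_le_mul_of_nonneg_right b3 hε.le))
  have c4 := e4 w' (hn.trans (mul_le_mul_of_nonneg_right b4 hε.le))
  exact ⟨w', ⟨Or.inl c3, fun h => c4 (Or.inl h)⟩, hw', c1, c2⟩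

/-- Let moreover `(C₃, D₃)` be nested between the two barriers. A point `z` of
`(D₁ ∪ C₁) \ D₃` where `Y` has the direction `c` is to the right of `dirv c` and of `dirv (c + δ)`
seen from some point `p` of `C₃`.

Proof. Write `e = dirv c`, `e' = dirv (c+δ)`. Let `G` be the set of the `w ∈ (D₁ ∪ C₁) \ D₃` with
`Y w = ρ e`, `ρ > 0`, `det2 (z - w) e ≥ 0`, `det2 (z - w) e' ≥ 0`. It contains `z`, it is compact (on
`(D₁ ∪ C₁) \ D₂`, which contains it, `Y w ≠ 0` when `det2 (Y w) e = 0`, by `hS`). Take `w ∈ G` with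
minimal `det2 w e`. If `w ∈ C₃` we are done (`p = w`). Otherwise `w ∉ D₃ ∪ C₃`. By `type_pos` the
product `ρ⁴ ℓ e ℓ e'` is positive (`w ∉ D₂` since `D₂ ⊆ D₃`), so for the `v` of `move_exists`
`det2 v e = -1` and `det2 v e' < 0`. The moved points `w'` satisfy `det2 (w' - w) e < 0` and
`det2 (w' - w) e' < 0` (`move_det`), are in `D₁` (`move_open`, or `Side.into` if `w ∈ C₁`) and not
in `D₃` (`move_open`). So `w' ∈ G`, a contradiction. -/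
theorem cone_reach {Y : ℝ × ℝ → ℝ × ℝ} (hY : ContDiff ℝ 1 Y) {δ c : ℝ}
    {C₁ D₁ C₂ D₂ C₃ D₃ : Set (ℝ × ℝ)} (h₁ : JP C₁ D₁) (h₂ : JP C₂ D₂) (h₃ : JP C₃ D₃)
    (s₁ : Side Y C₁ D₁) (s₂ : Side (turn δ Y) C₂ D₂) (h23 : D₂ ∪ C₂ ⊆ D₃) (h31 : D₃ ∪ C₃ ⊆ D₁)
    (hS : ∀ w ∈ (D₁ ∪ C₁) \ D₂, det2 (Y w) (dirv c) = 0 → cur Y 0 w * cur Y δ w ≠ 0)
    {z : ℝ × ℝ} (hz : z ∈ (D₁ ∪ C₁) \ D₃) (hzc : ∃ ρ : ℝ, 0 < ρ ∧ Y z = ρ • dirv c) :
    ∃ p ∈ C₃, 0 ≤ det2 (z - p) (dirv c) ∧ 0 ≤ det2 (z - p) (dirv (c + δ)) := by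
  have hYc : Continuous Y := hY.continuous
  have hD23 : D₂ ⊆ D₃ := fun x hx => h23 (Or.inl hx)
  set e := dirv c with he
  set e' := dirv (c + δ) with he'
  let G : Set (ℝ × ℝ) := {w | w ∈ (D₁ ∪ C₁) \ D₃ ∧ (det2 (Y w) e = 0 ∧
    0 ≤ (Y w).1 * Real.cos c + (Y w).2 * Real.sin c) ∧
    0 ≤ det2 (z - w) e ∧ 0 ≤ det2 (z - w) e'}
  have hGdir : ∀ w ∈ (D₁ ∪ C₁) \ D₃, (det2 (Y w) e = 0 ∧
      0 ≤ (Y w).1 * Real.cos c + (Y w).2 * Real.sin c) → ∃ ρ : ℝ, 0 < ρ ∧ Y w = ρ • e := by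
    intro w hw h
    have hpar := rb_parallel h.1
    refine ⟨_, lt_of_le_of_ne h.2 ?_, hpar⟩
    intro h0
    rw [← h0, zero_smul] at hpar
    apply hS w ⟨hw.1, fun h' => hw.2 (hD23 h')⟩ h.1
    have : cur Y 0 w = 0 := by
      rw [cur, hpar]; simp [det2]
    rw [this, zero_mul]
  have hdirG : ∀ w : ℝ × ℝ, (∃ ρ : ℝ, 0 < ρ ∧ Y w = ρ • e) → (det2 (Y w) e = 0 ∧
      0 ≤ (Y w).1 * Real.cos c + (Y w).2 * Real.sin c) := by
    rintro w ⟨ρ, hρ, hYw⟩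
    constructor
    · rw [hYw, rb_det2_smul_left, rb_det2_self, mul_zero]
    · rw [hYw, he, cone_dot_smul]; exact hρ.le
  have hzG : z ∈ G := by
    refine ⟨hz, hdirG z hzc, ?_, ?_⟩
    · rw [sub_self]; simp [det2]
    · rw [sub_self]; simp [det2]
  have hcpt : IsCompact G := by
    have hcl : IsClosed (D₃ᶜ ∩ ({w : ℝ × ℝ | det2 (Y w) e = 0} ∩
        {w : ℝ × ℝ | 0 ≤ (Y w).1 * Real.cos c + (Y w).2 * Real.sin c} ∩
        ({w : ℝ × ℝ | 0 ≤ det2 (z - w) e} ∩ {w : ℝ × ℝ | 0 ≤ det2 (z - w) e'}))) := by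
      refine h₃.op.isClosed_compl.inter (IsClosed.inter (IsClosed.inter ?_ ?_)
        (IsClosed.inter ?_ ?_))
      · exact isClosed_eq (cone_cont_det hYc e) continuous_const
      · exact isClosed_le continuous_const (cone_cont_dot hYc c)
      · exact isClosed_le continuous_const
          (cone_cont_det (continuous_const.sub continuous_id) e)
      · exact isClosed_le continuous_const
          (cone_cont_det (continuous_const.sub continuous_id) e')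
    have h := h₁.cpt.inter_right hcl
    convert h using 1
    ext w
    constructor
    · rintro ⟨⟨a, b⟩, ⟨d1, d2⟩, d3, d4⟩
      exact ⟨a, b, ⟨d1, d2⟩, d3, d4⟩
    · rintro ⟨a, b, ⟨d1, d2⟩, d3, d4⟩
      exact ⟨⟨a, b⟩, ⟨d1, d2⟩, d3, d4⟩
  obtain ⟨w, hwG, hmin⟩ := hcpt.exists_isMinOn ⟨z, hzG⟩
    (cone_cont_det (continuous_id (X := ℝ × ℝ)) e).continuousOn
  by_cases hw3 : w ∈ C₃
  · exact ⟨w, hw3, hwG.2.2.1, hwG.2.2.2⟩
  · exfalso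
    obtain ⟨w', hw', hdir', d1, d2⟩ := cone_step hY h₁ h₂ h₃ s₁ s₂ h23 h31 hS hwG.1 hw3
      (hGdir w hwG.1 hwG.2.1)
    have hw'G : w' ∈ G := by
      refine ⟨hw', hdirG w' hdir', ?_, ?_⟩
      · have h := hwG.2.2.1
        rw [rb_det2_sub_left] at h d1 ⊢
        linarith
      · have h := hwG.2.2.2
        rw [rb_det2_sub_left] at h d2 ⊢
        linarith
    have h := hmin hw'G
    simp only [id_eq] at h
    rw [rb_det2_sub_left] at d1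
    have h2 : det2 w e ≤ det2 w' e := h
    linarith

end Pool.Agent.Lib.MP_95e7ec_an
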