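import Mathlib
import Pool.Agent.Lib.MP_95e7ec_an.Rb.Defs
import Pool.Agent.Lib.MP_95e7ec_an.Zeros

/-!
# Rb, CurPoly: the curvature determinant is a polynomial
-/

set_option autoImplicit false

open Set Filter Topology MeasureTheory
open scoped ContDiff ENNReal

namespace Pool.Agent.Lib.MP_95e7ec_an

private theorem curPoly_degree_pderiv (F : MvPolynomial (Fin 2) ℝ) (i : Fin 2) :
    (MvPolynomial.pderiv i F).totalDegree ≤ F.totalDegree := by
  classical
  by_cases h : MvPolynomial.pderiv i F = 0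
  · rw [h]; simp
  have hne : (MvPolynomial.pderiv i F).support.Nonempty := MvPolynomial.support_nonempty.mpr h
  obtain ⟨m, hm, hmd⟩ := Finset.exists_mem_eq_sup _ hne (fun s : Fin 2 →₀ ℕ => s.sum fun _ e => e)
  have h1 : (MvPolynomial.pderiv i F).totalDegree = m.sum fun _ e => e := hmd
  rw [h1]
  have h2 : m + Finsupp.single i 1 ∈ F.support := by
    rw [MvPolynomial.mem_support_iff] at hm ⊢
    rw [MvPolynomial.coeff_pderiv] at hm
    exact left_ne_zero_of_mul hm
  have h3 := MvPolynomial.le_totalDegree h2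
  rw [Finsupp.sum_add_index' (fun _ => rfl) (fun _ _ _ => rfl)] at h3
  have h4 : (Finsupp.single i 1).sum (fun (_ : Fin 2) (e : ℕ) => e) = 1 := by simp
  omega

private theorem curPoly_hasFDerivAt (P : MvPolynomial (Fin 2) ℝ) (z : ℝ × ℝ) :
    HasFDerivAt (fun z : ℝ × ℝ => MvPolynomial.eval ![z.1, z.2] P)
      (MvPolynomial.eval ![z.1, z.2] (MvPolynomial.pderiv 0 P) • ContinuousLinearMap.fst ℝ ℝ ℝ +
        MvPolynomial.eval ![z.1, z.2] (MvPolynomial.pderiv 1 P) •
          ContinuousLinearMap.snd ℝ ℝ ℝ) z := by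
  induction P using MvPolynomial.induction_on with
  | C a =>
    simpa using hasFDerivAt_const (𝕜 := ℝ) a z
  | add p q hp hq =>
    have h := hp.add hq
    simp only [map_add]
    refine h.congr_fderiv ?_
    ext <;> simp
  | mul_X p i hp =>
    simp only [map_mul, MvPolynomial.eval_X]
    have hi : HasFDerivAt (fun z : ℝ × ℝ => (![z.1, z.2] : Fin 2 → ℝ) i)
        (if i = 0 then ContinuousLinearMap.fst ℝ ℝ ℝ else ContinuousLinearMap.snd ℝ ℝ ℝ) z := by
      fin_cases i
      · simpa using (hasFDerivAt_fst (𝕜 := ℝ) (p := z))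
      · simpa using (hasFDerivAt_snd (𝕜 := ℝ) (p := z))
    have h := hp.mul hi
    refine h.congr_fderiv ?_
    fin_cases i
    · ext <;> simp [Derivation.leibniz, MvPolynomial.pderiv_X]
    · ext <;> simp [Derivation.leibniz, MvPolynomial.pderiv_X]

/-- Proof: the derivative of `z ↦ eval ![z.1, z.2] P` in the direction `u` is
`u.1 * eval (pderiv 0 P) + u.2 * eval (pderiv 1 P)` (induction on the polynomial as in `contDiff_eval`
of Zeros.lean, or an existing lemma of the library), and `pderiv` does not increase the total degree.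
`turn ψ (vf P Q)` has the components `cos ψ P - sin ψ Q`, `sin ψ P + cos ψ Q`. -/
theorem exists_cur_poly {n : ℕ} {P Q : MvPolynomial (Fin 2) ℝ} (hP : P.totalDegree ≤ n)
    (hQ : Q.totalDegree ≤ n) (ψ : ℝ) :
    ∃ E : MvPolynomial (Fin 2) ℝ, E.totalDegree ≤ 3 * n ∧
      ∀ z : ℝ × ℝ, MvPolynomial.eval ![z.1, z.2] E = cur (vf P Q) ψ z := by
  classical
  set A : MvPolynomial (Fin 2) ℝ :=
    MvPolynomial.C (Real.cos ψ) * P - MvPolynomial.C (Real.sin ψ) * Q with hA
  set B : MvPolynomial (Fin 2) ℝ :=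
    MvPolynomial.C (Real.sin ψ) * P + MvPolynomial.C (Real.cos ψ) * Q with hB
  have hC : ∀ (c : ℝ) {R : MvPolynomial (Fin 2) ℝ}, R.totalDegree ≤ n →
      (MvPolynomial.C c * R).totalDegree ≤ n := by
    intro c R hR
    refine (MvPolynomial.totalDegree_mul _ _).trans ?_
    rw [MvPolynomial.totalDegree_C]; omega
  have hAd : A.totalDegree ≤ n :=
    (MvPolynomial.totalDegree_sub _ _).trans (max_le (hC _ hP) (hC _ hQ))
  have hBd : B.totalDegree ≤ n :=
    (MvPolynomial.totalDegree_add _ _).trans (max_le (hC _ hP) (hC _ hQ))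
  have h3 : ∀ {R S W : MvPolynomial (Fin 2) ℝ}, R.totalDegree ≤ n → S.totalDegree ≤ n →
      W.totalDegree ≤ n → (R * S * W).totalDegree ≤ 3 * n := by
    intro R S W hR hS hW
    have h1 := MvPolynomial.totalDegree_mul (R * S) W
    have h2 := MvPolynomial.totalDegree_mul R S
    omega
  have hPd : ∀ i, (MvPolynomial.pderiv i P).totalDegree ≤ n := fun i =>
    (curPoly_degree_pderiv P i).trans hP
  have hQd : ∀ i, (MvPolynomial.pderiv i Q).totalDegree ≤ n := fun i =>
    (curPoly_degree_pderiv Q i).trans hQ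
  refine ⟨(A * MvPolynomial.pderiv 0 P * Q + B * MvPolynomial.pderiv 1 P * Q) -
    (A * MvPolynomial.pderiv 0 Q * P + B * MvPolynomial.pderiv 1 Q * P), ?_, ?_⟩
  · refine (MvPolynomial.totalDegree_sub _ _).trans (max_le ?_ ?_)
    · exact (MvPolynomial.totalDegree_add _ _).trans
        (max_le (h3 hAd (hPd 0) hQ) (h3 hBd (hPd 1) hQ))
    · exact (MvPolynomial.totalDegree_add _ _).trans
        (max_le (h3 hAd (hQd 0) hP) (h3 hBd (hQd 1) hP))
  · intro z
    have hf : HasFDerivAt (vf P Q) _ z :=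
      (curPoly_hasFDerivAt P z).prodMk (curPoly_hasFDerivAt Q z)
    rw [cur, hf.fderiv]
    simp only [det2, turn, vf, hA, hB, map_sub, map_add, map_mul, MvPolynomial.eval_C,
      ContinuousLinearMap.prod_apply, ContinuousLinearMap.add_apply,
      ContinuousLinearMap.smul_apply, ContinuousLinearMap.coe_fst', ContinuousLinearMap.coe_snd',
      smul_eq_mul]
    ring

end Pool.Agent.Lib.MP_95e7ec_an
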