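import Mathlib
import Pool.Agent.Lib.MP_95e7ec_an.Rb.Defs

/-!
# Rb, Nest: nesting of curves with insides
-/

set_option autoImplicit false

open Set Filter Topology MeasureTheory
open scoped ContDiff ENNReal

namespace Pool.Agent.Lib.MP_95e7ec_an

/-- A compact open subset of the plane is empty. -/
private theorem nest_empty {S : Set (ℝ × ℝ)} (ho : IsOpen S) (hc : IsCompact S) : S = ∅ := by
  rcases isClopen_iff.1 ⟨hc.isClosed, ho⟩ with h | h
  · exact h
  · exfalso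
    rw [h] at hc
    exact noncompact_univ (ℝ × ℝ) hc

/-- A connected set which misses `C` is inside or outside. (`D` and the complement of the compact
set `D ∪ C` are open, disjoint, and cover `K`.) -/
theorem JP.dich {C D : Set (ℝ × ℝ)} (h : JP C D) {K : Set (ℝ × ℝ)} (hK : IsPreconnected K)
    (hd : Disjoint K C) : K ⊆ D ∨ Disjoint K D := by
  have h1 : K ⊆ D ∪ (D ∪ C)ᶜ := by
    intro x hx
    by_cases hxD : x ∈ D
    · exact Or.inl hxD
    · refine Or.inr ?_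
      rintro (h' | h')
      · exact hxD h'
      · exact Set.disjoint_left.1 hd hx h'
  have h2 : Disjoint D (D ∪ C)ᶜ := by
    rw [Set.disjoint_left]
    intro x hx hx'
    exact hx' (Or.inl hx)
  rcases IsPreconnected.subset_or_subset h.op h.cpt.isClosed.isOpen_compl h2 h1 hK with h3 | h3
  · exact Or.inl h3
  · refine Or.inr ?_
    rw [Set.disjoint_left]
    intro x hx hx'
    exact h3 hx (Or.inl hx')

/-- A ray which starts inside meets the curve. (`D ∪ C` is compact, the ray is connected and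
unbounded; use `JP.dich` with the ray, if it misses `C` it is contained in the bounded set `D`.) -/
theorem JP.ray {C D : Set (ℝ × ℝ)} (h : JP C D) {z e : ℝ × ℝ} (hz : z ∈ D) (he : e ≠ 0) :
    ∃ t : ℝ, 0 ≤ t ∧ z + t • e ∈ C := by
  by_contra hcon
  push Not at hcon
  have hK : IsPreconnected ((fun t : ℝ => z + t • e) '' Set.Ici 0) := by
    refine isPreconnected_Ici.image _ ?_
    exact (Continuous.continuousOn (by fun_prop))
  have hd : Disjoint ((fun t : ℝ => z + t • e) '' Set.Ici 0) C := by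
    rw [Set.disjoint_left]
    rintro x ⟨t, ht, rfl⟩ hx
    exact hcon t ht hx
  have hz0 : z ∈ ((fun t : ℝ => z + t • e) '' Set.Ici 0) := ⟨0, by simp, by simp⟩
  rcases h.dich hK hd with h1 | h1
  · obtain ⟨R, hR⟩ := (h.cpt.isBounded).exists_norm_le
    have he' : 0 < ‖e‖ := norm_pos_iff.2 he
    have hR0 : 0 ≤ R := le_trans (norm_nonneg z) (hR z (Or.inl hz))
    have ht0 : 0 ≤ (R + ‖z‖ + 1) / ‖e‖ := by positivity
    have h2 : z + ((R + ‖z‖ + 1) / ‖e‖) • e ∈ D := h1 ⟨_, ht0, rfl⟩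
    have h3 := hR _ (Or.inl h2)
    have h4 : ‖((R + ‖z‖ + 1) / ‖e‖) • e‖ = R + ‖z‖ + 1 := by
      rw [norm_smul, Real.norm_of_nonneg ht0, div_mul_cancel₀ _ he'.ne']
    have h5 : ‖((R + ‖z‖ + 1) / ‖e‖) • e‖ ≤ ‖z + ((R + ‖z‖ + 1) / ‖e‖) • e‖ + ‖z‖ := by
      calc ‖((R + ‖z‖ + 1) / ‖e‖) • e‖
          = ‖(z + ((R + ‖z‖ + 1) / ‖e‖) • e) - z‖ := by rw [add_sub_cancel_left]
        _ ≤ _ := norm_sub_le _ _
    linarith
  · exact Set.disjoint_left.1 h1 hz0 hz

/-- If the curve `C₂` lies inside `C₁` then its inside does too. Proof: `C₁` is connected and misses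
`C₂`. If `C₁` misses `D₂` then `D₂ \ D₁ = D₂ \ (D₁ ∪ C₁)` is open and `= (D₂ ∪ C₂) \ D₁` is
compact, hence empty. If `C₁ ⊆ D₂` then `D₁ ∪ D₂` is open and equals the compact set
`D₁ ∪ C₁ ∪ D₂ ∪ C₂`, impossible in the plane since it is nonempty. (A subset of the plane which is
open and compact is empty: `isClopen_iff` and `noncompact_univ`.) -/
theorem JP.nest {C₁ D₁ C₂ D₂ : Set (ℝ × ℝ)} (h₁ : JP C₁ D₁) (h₂ : JP C₂ D₂)
    (hd : Disjoint C₁ C₂) (hs : C₂ ⊆ D₁) : D₂ ∪ C₂ ⊆ D₁ := by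
  rcases h₂.dich h₁.conn hd with h3 | h3
  · exfalso
    have h4 : D₁ ∪ D₂ = (D₁ ∪ C₁) ∪ (D₂ ∪ C₂) := by
      ext x
      constructor
      · rintro (h | h)
        · exact Or.inl (Or.inl h)
        · exact Or.inr (Or.inl h)
      · rintro ((h | h) | (h | h))
        · exact Or.inl h
        · exact Or.inr (h3 h)
        · exact Or.inr h
        · exact Or.inl (hs h)
    have h5 : D₁ ∪ D₂ = ∅ := nest_empty (h₁.op.union h₂.op) (by
      rw [h4]
      exact h₁.cpt.union h₂.cpt)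
    obtain ⟨x, hx⟩ := h₁.neD
    have : x ∈ D₁ ∪ D₂ := Or.inl hx
    rw [h5] at this
    exact this
  · have h4 : D₂ \ D₁ = D₂ \ (D₁ ∪ C₁) := by
      ext x
      constructor
      · rintro ⟨h, h'⟩
        refine ⟨h, ?_⟩
        rintro (h'' | h'')
        · exact h' h''
        · exact Set.disjoint_left.1 h3 h'' h
      · rintro ⟨h, h'⟩
        exact ⟨h, fun h'' => h' (Or.inl h'')⟩
    have h5 : D₂ \ D₁ = (D₂ ∪ C₂) \ D₁ := by
      ext x
      constructor
      · rintro ⟨h, h'⟩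
        exact ⟨Or.inl h, h'⟩
      · rintro ⟨h | h, h'⟩
        · exact ⟨h, h'⟩
        · exact absurd (hs h) h'
    have h6 : IsOpen (D₂ \ D₁) := by
      rw [h4, Set.sdiff_eq]
      exact h₂.op.inter h₁.cpt.isClosed.isOpen_compl
    have h7 : IsCompact (D₂ \ D₁) := by
      rw [h5, Set.sdiff_eq]
      exact h₂.cpt.inter_right h₁.op.isClosed_compl
    have h8 := nest_empty h6 h7
    rw [Set.sdiff_eq_empty] at h8
    exact Set.union_subset h8 hs

/-- Two disjoint curves whose filled sets meet are nested. Proof: by `JP.dich`, if neither curve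
lies inside the other one, then `C₂ ∩ D₁ = ∅ = C₁ ∩ D₂` and `(D₁ ∪ C₁) ∩ (D₂ ∪ C₂) = D₁ ∩ D₂` is
open, compact and nonempty, impossible. -/
theorem JP.meet {C₁ D₁ C₂ D₂ : Set (ℝ × ℝ)} (h₁ : JP C₁ D₁) (h₂ : JP C₂ D₂)
    (hd : Disjoint C₁ C₂) (hm : ((D₁ ∪ C₁) ∩ (D₂ ∪ C₂)).Nonempty) :
    D₂ ∪ C₂ ⊆ D₁ ∨ D₁ ∪ C₁ ⊆ D₂ := by
  rcases h₁.dich h₂.conn hd.symm with h3 | h3
  · exact Or.inl (h₁.nest h₂ hd h3)
  rcases h₂.dich h₁.conn hd with h4 | h4
  · exact Or.inr (h₂.nest h₁ hd.symm h4)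
  exfalso
  have h5 : (D₁ ∪ C₁) ∩ (D₂ ∪ C₂) = D₁ ∩ D₂ := by
    ext x
    constructor
    · rintro ⟨h | h, h' | h'⟩
      · exact ⟨h, h'⟩
      · exact absurd h (Set.disjoint_left.1 h3 h')
      · exact absurd h' (Set.disjoint_left.1 h4 h)
      · exact absurd h' (Set.disjoint_left.1 hd h)
    · rintro ⟨h, h'⟩
      exact ⟨Or.inl h, Or.inl h'⟩
  have h6 : IsCompact (D₁ ∩ D₂) := by
    rw [← h5]
    exact h₁.cpt.inter h₂.cpt
  have h7 := nest_empty (h₁.op.inter h₂.op) h6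
  rw [h5, h7] at hm
  exact Set.not_nonempty_empty hm

end Pool.Agent.Lib.MP_95e7ec_an
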