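import Mathlib
import Pool.Agent.Lib.MP_95e7ec_an.Rb.SideLem
import Pool.Agent.Lib.MP_95e7ec_an.Rb.Nest
import Pool.Agent.Lib.MP_95e7ec_an.Rb.Basic
import Pool.Agent.Lib.MP_95e7ec_an.Duff

/-!
# Rb, Uniq: the inside is unique; different families are disjoint
-/

set_option autoImplicit false

open Set Filter Topology MeasureTheory
open scoped ContDiff ENNReal

namespace Pool.Agent.Lib.MP_95e7ec_an

private theorem uniq_subset {v : ℝ × ℝ → ℝ × ℝ} {C D D' : Set (ℝ × ℝ)} (hC : IsClosedOrbit v C)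
    (h : JP C D) (h' : JP C D') (hs : Side v C D) (hs' : Side v C D') : D ⊆ D' := by
  intro y hy
  by_contra hy'
  have hyC : y ∉ C := fun hyC => Set.disjoint_left.1 h.disj hy hyC
  have hcf : Continuous fun z : ℝ × ℝ => (z.1 - y.1) ^ 2 + (z.2 - y.2) ^ 2 := by fun_prop
  obtain ⟨p, hp, hmin⟩ := h.cptC.exists_isMinOn h.ne hcf.continuousOn
  have hmin' : ∀ z ∈ C, (p.1 - y.1) ^ 2 + (p.2 - y.2) ^ 2 ≤ (z.1 - y.1) ^ 2 + (z.2 - y.2) ^ 2 :=
    fun z hz => hmin hz
  have hpy : p ≠ y := fun e => hyC (e ▸ hp)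
  have hpy2 : 0 < (p.1 - y.1) ^ 2 + (p.2 - y.2) ^ 2 := by
    by_contra hcon
    push Not at hcon
    have e1 : p.1 - y.1 = 0 := by nlinarith [sq_nonneg (p.1 - y.1), sq_nonneg (p.2 - y.2)]
    have e2 : p.2 - y.2 = 0 := by nlinarith [sq_nonneg (p.1 - y.1), sq_nonneg (p.2 - y.2)]
    exact hpy (Prod.ext (sub_eq_zero.1 e1) (sub_eq_zero.1 e2))
  -- the scalar product vanishes
  obtain ⟨γ, T, -, hγ, -, -, hrange⟩ := hC
  have hp0 := hp
  rw [hrange] at hp0
  obtain ⟨t0, ht0⟩ := hp0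
  have hdot : (p.1 - y.1) * (v p).1 + (p.2 - y.2) * (v p).2 = 0 := by
    have hx : HasDerivAt (fun t => (γ t).1) (v (γ t0)).1 t0 :=
      (hasFDerivAt_fst (𝕜 := ℝ) (p := γ t0)).comp_hasDerivAt t0 (hγ t0)
    have hx2 : HasDerivAt (fun t => (γ t).2) (v (γ t0)).2 t0 :=
      (hasFDerivAt_snd (𝕜 := ℝ) (p := γ t0)).comp_hasDerivAt t0 (hγ t0)
    have hd := ((hx.sub_const y.1).pow 2).add ((hx2.sub_const y.2).pow 2)
    have hloc : IsLocalMin (fun t => ((γ t).1 - y.1) ^ 2 + ((γ t).2 - y.2) ^ 2) t0 := by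
      refine Filter.Eventually.of_forall fun t => ?_
      have h1 := hmin' (γ t) (by rw [hrange]; exact ⟨t, rfl⟩)
      simp only [ht0]
      exact h1
    have h0 := hloc.hasDerivAt_eq_zero hd
    rw [ht0] at h0
    simp only [Nat.cast_ofNat] at h0
    have : 2 * ((p.1 - y.1) * (v p).1 + (p.2 - y.2) * (v p).2) = 0 := by
      rw [← h0]; ring
    linarith
  obtain ⟨hv0, M, r, hM, hr, hside⟩ := hs p hp
  obtain ⟨-, M', r', hM', hr', hside'⟩ := hs' p hp
  have hv2 : 0 < (v p).1 ^ 2 + (v p).2 ^ 2 := by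
    by_contra hcon
    push Not at hcon
    have e1 : (v p).1 = 0 := by nlinarith [sq_nonneg (v p).1, sq_nonneg (v p).2]
    have e2 : (v p).2 = 0 := by nlinarith [sq_nonneg (v p).1, sq_nonneg (v p).2]
    exact hv0 (Prod.ext e1 e2)
  set d : ℝ := det2 (y - p) (v p) with hd
  have hd0 : d ≠ 0 := by
    intro h0
    have e1 : d ^ 2 + ((p.1 - y.1) * (v p).1 + (p.2 - y.2) * (v p).2) ^ 2 =
        ((p.1 - y.1) ^ 2 + (p.2 - y.2) ^ 2) * ((v p).1 ^ 2 + (v p).2 ^ 2) := by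
      simp only [hd, det2, Prod.fst_sub, Prod.snd_sub]
      ring
    rw [h0, hdot] at e1
    have e2 := mul_pos hpy2 hv2
    rw [← e1] at e2
    norm_num at e2
  -- the half-open segment
  set K : Set (ℝ × ℝ) := (fun s : ℝ => p + s • (y - p)) '' Set.Ioc 0 1 with hK
  have hKc : IsPreconnected K :=
    isPreconnected_Ioc.image _ (Continuous.continuousOn (by fun_prop))
  have hKC : Disjoint K C := by
    rw [Set.disjoint_left]
    rintro x ⟨s, ⟨hs0, hs1⟩, rfl⟩ hx
    have h1 := hmin' _ hx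
    simp only [Prod.fst_add, Prod.snd_add, Prod.smul_fst, Prod.smul_snd, Prod.fst_sub,
      Prod.snd_sub, smul_eq_mul] at h1
    have h2 : (p.1 + s * (y.1 - p.1) - y.1) ^ 2 + (p.2 + s * (y.2 - p.2) - y.2) ^ 2 =
        (1 - s) ^ 2 * ((p.1 - y.1) ^ 2 + (p.2 - y.2) ^ 2) := by ring
    rw [h2] at h1
    have h3 : (1 - s) ^ 2 < 1 := by nlinarith
    have h4 := mul_lt_mul_of_pos_right h3 hpy2
    linarith
  have hyK : y ∈ K := ⟨1, ⟨one_pos, le_refl _⟩, by simp⟩
  have hKD : K ⊆ D := by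
    rcases h.dich hKc hKC with h1 | h1
    · exact h1
    · exact absurd hy (Set.disjoint_left.1 h1 hyK)
  have hKD' : Disjoint K D' := by
    rcases h'.dich hKc hKC with h1 | h1
    · exact absurd (h1 hyK) hy'
    · exact h1
  -- small points of the segment
  have hnm : 0 < nm (y - p) := nm_pos (sub_ne_zero.2 hpy.symm)
  have small : ∀ (M r : ℝ), 0 ≤ M → 0 < r → ∃ s : ℝ, 0 < s ∧ s ≤ 1 ∧ s * nm (y - p) < r ∧
      M * (s * nm (y - p)) ^ 2 < s * |d| := by
    intro M r hM hr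
    have hdp : 0 < |d| := abs_pos.2 hd0
    set s : ℝ := min 1 (min (r / (2 * nm (y - p))) (|d| / (2 * (M * nm (y - p) ^ 2 + 1)))) with hsdef
    have hs0 : 0 < s := by
      rw [hsdef]
      refine lt_min one_pos (lt_min (by positivity) (by positivity))
    have hs1 : s ≤ 1 := min_le_left _ _
    have hs2 : s ≤ r / (2 * nm (y - p)) := le_trans (min_le_right _ _) (min_le_left _ _)
    have hs3 : s ≤ |d| / (2 * (M * nm (y - p) ^ 2 + 1)) :=
      le_trans (min_le_right _ _) (min_le_right _ _)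
    refine ⟨s, hs0, hs1, ?_, ?_⟩
    · rw [le_div_iff₀ (by positivity)] at hs2
      nlinarith
    · rw [le_div_iff₀ (by positivity)] at hs3
      have h1 : M * (s * nm (y - p)) ^ 2 = s * (s * (M * nm (y - p) ^ 2)) := by ring
      rw [h1]
      refine mul_lt_mul_of_pos_left ?_ hs0
      nlinarith [mul_nonneg hM (sq_nonneg (nm (y - p)))]
  have hw : ∀ s : ℝ, 0 < s → nm (p + s • (y - p) - p) = s * nm (y - p) ∧
      det2 (p + s • (y - p) - p) (v p) = s * d := by
    intro s hs0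
    rw [add_sub_cancel_left, rb_nm_smul, abs_of_pos hs0, rb_det2_smul_left]
    exact ⟨rfl, rfl⟩
  rcases lt_or_gt_of_ne hd0 with hneg | hpos
  · obtain ⟨s, hs0, hs1, hs2, hs3⟩ := small M' r' hM' hr'
    obtain ⟨e1, e2⟩ := hw s hs0
    have h1 := (hside' (p + s • (y - p)) (by rw [e1]; exact hs2)).2 (by
      rw [e1, e2]
      rw [abs_of_neg hneg] at hs3
      linarith)
    exact Set.disjoint_left.1 hKD' ⟨s, ⟨hs0, hs1⟩, rfl⟩ h1
  · obtain ⟨s, hs0, hs1, hs2, hs3⟩ := small M r hM hr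
    obtain ⟨e1, e2⟩ := hw s hs0
    have h1 := (hside (p + s • (y - p)) (by rw [e1]; exact hs2)).1 (by
      rw [e1, e2]
      rw [abs_of_pos hpos] at hs3
      linarith)
    exact h1 (Or.inl (hKD ⟨s, ⟨hs0, hs1⟩, rfl⟩))

/-- The inside of a closed orbit is unique. Proof: let `y ∈ D \ D'`, so `y ∉ D' ∪ C`. Let `p` be the
point of `C` closest to `y` (Euclidean distance `nm`); the curve is differentiable with derivative
`v p` at `p`, so the scalar product of `y - p` and `v p` is zero, so `det2 (y - p) (v p) ≠ 0`. The half-open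
segment from `y` to `p` misses `C`, so (JP.dich) it is contained in `D` and disjoint from `D'`. If
`det2 (y - p) (v p) > 0` the points `p + s (y - p)`, `s > 0` small, are outside `D` by `Side v C D`; if
it is negative they are in `D'` by `Side v C D'`. Contradiction. -/
theorem JP.unique {v : ℝ × ℝ → ℝ × ℝ} {C D D' : Set (ℝ × ℝ)} (hC : IsClosedOrbit v C)
    (h : JP C D) (h' : JP C D') (hs : Side v C D) (hs' : Side v C D') : D = D' :=
  Set.Subset.antisymm (uniq_subset hC h h' hs hs') (uniq_subset hC h' h hs' hs)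

/-- closed orbits of families with different angles are disjoint (`closedOrbit_disjoint`) -/
theorem Fml.disj {Y : ℝ × ℝ → ℝ × ℝ} (hY : ContDiff ℝ 1 Y) {δ : ℝ} (hδ : δ ≤ 1)
    (F F' : Fml Y δ) {a b : ℝ} (ha : a ∈ Set.Icc 0 δ) (hb : b ∈ Set.Icc 0 δ) (hab : a ≠ b) :
    Disjoint (F.C a) (F'.C b) := by
  refine closedOrbit_disjoint hY ?_ (F.orb a ha) (F'.orb b hb)
  have h1 : -1 ≤ b - a := by linarith [ha.2, hb.1]
  have h2 : b - a ≤ 1 := by linarith [ha.1, hb.2]
  have hpi := Real.pi_gt_three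
  rcases lt_or_gt_of_ne (sub_ne_zero.2 hab.symm) with h | h
  · exact (Real.sin_neg_of_neg_of_neg_pi_lt h (by linarith)).ne
  · exact (Real.sin_pos_of_pos_of_lt_pi h (by linarith)).ne'

/-- restriction of a family to a smaller range of angles -/
def Fml.restrict {Y : ℝ × ℝ → ℝ × ℝ} {δ δ' : ℝ} (F : Fml Y δ) (h : δ' ≤ δ) : Fml Y δ' where
  C := F.C
  D := F.D
  orb := fun a ha => F.orb a ⟨ha.1, ha.2.trans h⟩
  jp := fun a ha => F.jp a ⟨ha.1, ha.2.trans h⟩
  side := fun a ha => F.side a ⟨ha.1, ha.2.trans h⟩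
  sweep := fun α β h1 h2 h3 => F.sweep α β h1 h2 (h3.trans h)
  usc := fun a ha U hU hs => by
    obtain ⟨η, h1, h2⟩ := F.usc a ⟨ha.1, ha.2.trans h⟩ U hU hs
    exact ⟨η, h1, fun b hb => h2 b ⟨hb.1, hb.2.trans h⟩⟩
  cpt := fun α β h1 h2 h3 => F.cpt α β h1 h2 (h3.trans h)
  conn := fun α β h1 h2 h3 => F.conn α β h1 h2 (h3.trans h)

end Pool.Agent.Lib.MP_95e7ec_an
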