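import Mathlib
import Pool.Agent.Lib.MP_95e7ec_an.Rb.Uniq

/-!
# Rb, Distinct: families which are different at the angle 0 stay different
-/

set_option autoImplicit false

open Set Filter Topology MeasureTheory
open scoped ContDiff ENNReal

namespace Pool.Agent.Lib.MP_95e7ec_an

private theorem distinct_aux {Y : ℝ × ℝ → ℝ × ℝ} (hY : ContDiff ℝ 1 Y) {δ : ℝ} (hδ : δ ≤ 1)
    (F F' : Fml Y δ) {a₀ a' : ℝ} (h0 : 0 ≤ a₀) (h1 : a₀ < a') (h2 : a' < δ)
    (hC : F.C a' = F'.C a') (hD : F.D a' = F'.D a') (hdis : Disjoint (F.C a₀) (F'.C a₀))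
    {y : ℝ × ℝ} (hy : y ∈ F.D a') (hy' : y ∈ F'.D a₀)
    (hsub : F.D a₀ ∪ F.C a₀ ⊆ F'.D a₀) : False := by
  have m0 : a₀ ∈ Icc 0 δ := ⟨h0, by linarith⟩
  have m1 : a' ∈ Icc 0 δ := ⟨by linarith, by linarith⟩
  have mem : ∀ c ∈ Icc a₀ a', c ∈ Icc 0 δ := fun c hc => ⟨h0.trans hc.1, hc.2.trans h2.le⟩
  -- (i)
  have hi : F.C a₀ ⊆ F'.D a' := by
    intro w hw
    refine (F'.sweep a₀ a' h0 h1.le h2.le w ?_).1 (hsub (Or.inr hw))
    intro c hc hwc
    rcases eq_or_ne a₀ c with rfl | hne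
    · exact Set.disjoint_left.1 hdis hw hwc
    · exact Set.disjoint_left.1 (Fml.disj hY hδ F F' m0 (mem c hc) hne) hw hwc
  -- (ii)
  have hii : ∀ w ∈ F'.C a₀, w ∉ F.D a' := by
    intro w hw hwD
    have h3 : w ∈ F.D a₀ := by
      refine (F.sweep a₀ a' h0 h1.le h2.le w ?_).2 hwD
      intro c hc hwc
      rcases eq_or_ne a₀ c with rfl | hne
      · exact Set.disjoint_left.1 hdis hwc hw
      · exact Set.disjoint_left.1 (Fml.disj hY hδ F' F m0 (mem c hc) hne) hw hwc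
    exact Set.disjoint_left.1 (F'.jp a₀ m0).disj (hsub (Or.inl h3)) hw
  -- (iii)
  have hdC : Disjoint (F'.C a₀) (F'.C a') := Fml.disj hY hδ F' F' m0 m1 h1.ne
  have hiii : F'.D a' ∪ F'.C a' ⊆ F'.D a₀ := by
    rcases JP.meet (F'.jp a₀ m0) (F'.jp a' m1) hdC
      ⟨y, Or.inl hy', Or.inl (hD ▸ hy)⟩ with h3 | h3
    · exact h3
    · exfalso
      obtain ⟨w, hw⟩ := (F'.jp a₀ m0).ne
      exact hii w hw (hD ▸ h3 (Or.inr hw))
  -- (iv)
  have hdC' : Disjoint (F'.C a') (F.C a₀) := Fml.disj hY hδ F' F m1 m0 h1.ne'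
  have hiv : F.D a₀ ∪ F.C a₀ ⊆ F'.D a' := JP.nest (F'.jp a' m1) (F.jp a₀ m0) hdC' hi
  have hUo : IsOpen (F'.D a₀ \ (F.D a₀ ∪ F.C a₀)) :=
    (F'.jp a₀ m0).op.sdiff (F.jp a₀ m0).cpt.isClosed
  have hUs : F.C a' ⊆ F'.D a₀ \ (F.D a₀ ∪ F.C a₀) := by
    intro w hw
    rw [hC] at hw
    exact ⟨hiii (Or.inr hw), fun h3 => Set.disjoint_left.1 (F'.jp a' m1).disj (hiv h3) hw⟩
  -- (v)
  obtain ⟨η, hη, hb⟩ := F.usc a' m1 _ hUo hUs
  obtain ⟨b, hb0, hb1, hb2⟩ : ∃ b : ℝ, a' < b ∧ b ≤ δ ∧ |b - a'| < η := by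
    refine ⟨min δ (a' + η / 2), lt_min h2 (by linarith), min_le_left _ _, ?_⟩
    rw [abs_of_nonneg]
    · have := min_le_right δ (a' + η / 2)
      linarith
    · have : a' < min δ (a' + η / 2) := lt_min h2 (by linarith)
      linarith
  have mb : b ∈ Icc 0 δ := ⟨by linarith, hb1⟩
  obtain ⟨w, hw⟩ := (F.jp b mb).ne
  have hwU := hb b mb hb2 hw
  by_cases hwD : w ∈ F.D a'
  · apply hwU.2
    left
    refine (F.sweep a₀ a' h0 h1.le h2.le w ?_).2 hwD
    intro c hc hwc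
    exact Set.disjoint_left.1 (Fml.disj hY hδ F F mb (mem c hc) (hc.2.trans_lt hb0).ne') hw hwc
  · apply hwD
    rw [hD]
    refine (F'.sweep a₀ a' h0 h1.le h2.le w ?_).1 hwU.1
    intro c hc hwc
    exact Set.disjoint_left.1 (Fml.disj hY hδ F F' mb (mem c hc) (hc.2.trans_lt hb0).ne') hw hwc

private theorem distinct_miss {Y : ℝ × ℝ → ℝ × ℝ} {δ : ℝ} (F : Fml Y δ) {a' : ℝ}
    (m : a' ∈ Icc 0 δ) {y : ℝ × ℝ} (hy : y ∈ F.D a') :
    ∃ η : ℝ, 0 < η ∧ ∀ b ∈ Icc 0 δ, |b - a'| < η → y ∉ F.C b := by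
  have h1 : F.C a' ⊆ {y}ᶜ := by
    intro w hw hwy
    rw [mem_singleton_iff] at hwy
    rw [hwy] at hw
    exact Set.disjoint_left.1 (F.jp a' m).disj hy hw
  obtain ⟨η, hη, h2⟩ := F.usc a' m _ isOpen_compl_singleton h1
  exact ⟨η, hη, fun b hb hlt hyb => h2 b hb hlt hyb rfl⟩

/-- Two families for the same `Y` with `F.C 0 ≠ F'.C 0` have disjoint curves for all `a < δ`.

Proof. Curves of the same field `turn a Y` are equal or disjoint
(`IsClosedOrbit.eq_of_mem_of_contDiff`), curves of different angles are disjoint (`Fml.disj`).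
Suppose `F.C a₁ = F'.C a₁` for some `a₁ < δ`. Let `E = {a ∈ [0, δ] | F.C a = F'.C a}`. `E` is closed:
if `a ∉ E` then `F.C a`, `F'.C a` are disjoint compact sets, separate them by disjoint open sets and
use `usc`. So `E` has a least element `a' = sInf E`, `0 < a' ≤ a₁ < δ`. Write `C' = F.C a' = F'.C a'`,
and `D' = F.D a' = F'.D a'` (`JP.unique`). Fix `y ∈ D'`. By `usc` and `sweep` there is `a₀ < a'` such
that for `a ∈ [a₀, a']` the curves of `F` and `F'` miss `y`, so `y ∈ F.D a₀ ∩ F'.D a₀`. By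
`JP.meet` (the curves `F.C a₀`, `F'.C a₀` are disjoint) we may assume `F.D a₀ ∪ F.C a₀ ⊆ F'.D a₀` (the
other case is symmetric). `F.C a₀` misses all `F'.C a`, `a ∈ [a₀, a']` (for `a = a₀` by the
choice of `a'`, else Duff), so `sweep` for `F'` gives `F.C a₀ ⊆ F'.D a' = D'`. In the same way the
points of `F'.C a₀` are not in `F.D a₀` and miss all `F.C a`, so they are not in `F.D a' = D'`.
(1) So every `w ∈ D'` with `w ∉ F.D a₀ ∪ F.C a₀` lies on some `F.C a`, `a₀ < a < a'` (`sweep` for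
`F` between `a₀` and `a'`), and every `w ∈ F'.D a₀`, `w ∉ D' ∪ C'` lies on some `F'.C a`,
`a₀ < a < a'`. (2) Take `b ∈ (a', δ]` close to `a'`: the curve `F.C b` is close to `C'`: it is contained
in the open set `F'.D a₀ \ (F.D a₀ ∪ F.C a₀)` (this open set contains `C'`: by `JP.nest`/`JP.meet`
applied to `F.C a₀ ⊆ D'` and to `F'.C a₀`, `C'`, note `C' ⊆ F'.D a₀` since `D' ∪ C'` and
`F'.D a₀ ∪ F'.C a₀` both contain `y` and `F'.C a₀` is not inside `D'`). A point `w` of `F.C b` is not in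
`C'` (Duff), so it is in `D'` or not in `D' ∪ C'`; by (1) it lies on a curve `F.C a` or `F'.C a` with
`a < a' < b`, contradicting Duff. -/
theorem fml_distinct {Y : ℝ × ℝ → ℝ × ℝ} (hY : ContDiff ℝ 1 Y) {δ : ℝ} (hδ : δ ≤ 1)
    (F F' : Fml Y δ) (h : F.C 0 ≠ F'.C 0) {a : ℝ} (ha : 0 ≤ a) (haδ : a < δ) :
    Disjoint (F.C a) (F'.C a) := by
  classical
  have dich : ∀ b ∈ Icc 0 δ, F.C b = F'.C b ∨ Disjoint (F.C b) (F'.C b) := by
    intro b hb
    by_cases hd : Disjoint (F.C b) (F'.C b)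
    · exact Or.inr hd
    · left
      rw [Set.not_disjoint_iff] at hd
      obtain ⟨p, hp, hp'⟩ := hd
      exact (F.orb b hb).eq_of_mem_of_contDiff (contDiff_turn hY b) (F'.orb b hb) hp hp'
  rcases dich a ⟨ha, haδ.le⟩ with heq | hd
  swap
  · exact hd
  exfalso
  set E : Set ℝ := {b | b ∈ Icc 0 δ ∧ F.C b = F'.C b} with hE
  have haE : a ∈ E := ⟨⟨ha, haδ.le⟩, heq⟩
  have hbdd : BddBelow E := ⟨0, fun b hb => hb.1.1⟩
  set a' := sInf E with ha'
  have hle : a' ≤ a := csInf_le hbdd haE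
  have hge : 0 ≤ a' := le_csInf ⟨a, haE⟩ fun b hb => hb.1.1
  have ma' : a' ∈ Icc 0 δ := ⟨hge, hle.trans haδ.le⟩
  have hlt : ∀ b, 0 ≤ b → b < a' → Disjoint (F.C b) (F'.C b) := by
    intro b hb0 hb1
    have mb : b ∈ Icc 0 δ := ⟨hb0, hb1.le.trans ma'.2⟩
    rcases dich b mb with h1 | h1
    · exact absurd (csInf_le hbdd (show b ∈ E from ⟨mb, h1⟩)) (not_le.2 hb1)
    · exact h1
  -- `a' ∈ E`
  have hC : F.C a' = F'.C a' := by
    rcases dich a' ma' with h1 | h1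
    · exact h1
    · exfalso
      obtain ⟨U, V, hU, hV, hUs, hVs, hUV⟩ :=
        SeparatedNhds.of_isCompact_isCompact (F.jp a' ma').cptC (F'.jp a' ma').cptC h1
      obtain ⟨η, hη, h2⟩ := F.usc a' ma' U hU hUs
      obtain ⟨η', hη', h3⟩ := F'.usc a' ma' V hV hVs
      obtain ⟨b, hbE, hb1⟩ := exists_lt_of_csInf_lt ⟨a, haE⟩
        (show sInf E < a' + min η η' by rw [← ha']; linarith [lt_min hη hη'])
      have hb0 : a' ≤ b := csInf_le hbdd hbE
      have hb2 : |b - a'| < min η η' := by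
        rw [abs_of_nonneg (by linarith)]
        linarith
      obtain ⟨w, hw⟩ := (F.jp b hbE.1).ne
      have h4 := h2 b hbE.1 (hb2.trans_le (min_le_left _ _)) hw
      have h5 := h3 b hbE.1 (hb2.trans_le (min_le_right _ _)) (hbE.2 ▸ hw)
      exact Set.disjoint_left.1 hUV h4 h5
  have hpos : 0 < a' := by
    rcases hge.lt_or_eq with h1 | h1
    · exact h1
    · exfalso
      rw [← h1] at hC
      exact h hC
  have hD : F.D a' = F'.D a' := by
    have j' := F'.jp a' ma'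
    have s' := F'.side a' ma'
    rw [← hC] at j' s'
    exact JP.unique (F.orb a' ma') (F.jp a' ma') j' (F.side a' ma') s'
  obtain ⟨y, hy⟩ := (F.jp a' ma').neD
  have hy' : y ∈ F'.D a' := hD ▸ hy
  obtain ⟨η, hη, h1⟩ := distinct_miss F ma' hy
  obtain ⟨η', hη', h2⟩ := distinct_miss F' ma' hy'
  have hm : 0 < min a' (min η η') := lt_min hpos (lt_min hη hη')
  have hm1 : min a' (min η η') ≤ a' := min_le_left _ _
  have hm2 : min a' (min η η') ≤ η := (min_le_right _ _).trans (min_le_left _ _)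
  have hm3 : min a' (min η η') ≤ η' := (min_le_right _ _).trans (min_le_right _ _)
  set m := min a' (min η η') with hmdef
  set a₀ := a' - m / 2 with ha₀
  have h00 : 0 ≤ a₀ := by rw [ha₀]; linarith
  have h01 : a₀ < a' := by rw [ha₀]; linarith
  have m0 : a₀ ∈ Icc 0 δ := ⟨h00, h01.le.trans ma'.2⟩
  have hyD : y ∈ F.D a₀ := by
    refine (F.sweep a₀ a' h00 h01.le ma'.2 y ?_).2 hy
    intro c hc
    refine h1 c ⟨h00.trans hc.1, hc.2.trans ma'.2⟩ ?_
    rw [abs_sub_comm, abs_of_nonneg (by linarith [hc.2])]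
    have := hc.1
    rw [ha₀] at this
    linarith
  have hyD' : y ∈ F'.D a₀ := by
    refine (F'.sweep a₀ a' h00 h01.le ma'.2 y ?_).2 hy'
    intro c hc
    refine h2 c ⟨h00.trans hc.1, hc.2.trans ma'.2⟩ ?_
    rw [abs_sub_comm, abs_of_nonneg (by linarith [hc.2])]
    have := hc.1
    rw [ha₀] at this
    linarith
  have hdis := hlt a₀ h00 h01
  rcases JP.meet (F.jp a₀ m0) (F'.jp a₀ m0) hdis ⟨y, Or.inl hyD, Or.inl hyD'⟩ with h3 | h3
  · exact distinct_aux hY hδ F' F h00 h01 (hle.trans_lt haδ) hC.symm hD.symm hdis.symm hy' hyD h3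
  · exact distinct_aux hY hδ F F' h00 h01 (hle.trans_lt haδ) hC hD hdis hy hyD' h3

end Pool.Agent.Lib.MP_95e7ec_an
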