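import Mathlib
import Pool.Agent.Lib.MP_95e7ec_an.Rb.Defs

/-!
# Rb, FamTop: topology of a continuous family of periodic curves
-/

set_option autoImplicit false

open Set Filter Topology MeasureTheory
open scoped ContDiff ENNReal

namespace Pool.Agent.Lib.MP_95e7ec_an

/-- a continuous function on `[α, β]` is bounded above -/
private theorem famTop_bound {T : ℝ → ℝ} {α β : ℝ} (hT : ContinuousOn T (Set.Icc α β)) :
    ∃ M : ℝ, ∀ a ∈ Set.Icc α β, T a ≤ M := by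
  obtain ⟨M, hM⟩ := (isCompact_Icc.image_of_continuousOn hT).bddAbove
  exact ⟨M, fun a ha => hM (Set.mem_image_of_mem T ha)⟩

/-- the range of a periodic curve is the image of `[0, M]`, for `M` at least the period -/
private theorem famTop_range {g : ℝ → ℝ × ℝ} {c M : ℝ} (hc : 0 < c) (hcM : c ≤ M)
    (hg : ∀ t, g (t + c) = g t) (t : ℝ) : ∃ s ∈ Set.Icc 0 M, g s = g t := by
  have hper : Function.Periodic g c := hg
  obtain ⟨s, hs, hst⟩ := hper.exists_mem_Ico₀ hc t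
  exact ⟨s, ⟨hs.1, hs.2.le.trans hcM⟩, hst.symm⟩

/-- the curves of a continuous family are upper semicontinuous. Proof: `T` is bounded by some `M` on
the compact `[0, δ]`, `range (z b) = z b '' [0, M]`, and `z` is uniformly continuous on
`[0, δ] × [0, M]`; the compact set `range (z a)` has a positive distance from the complement of
`U`. -/
theorem family_usc {z : ℝ → ℝ → ℝ × ℝ} {T : ℝ → ℝ} {δ : ℝ}
    (hz : ContinuousOn (fun p : ℝ × ℝ => z p.1 p.2) (Set.Icc 0 δ ×ˢ Set.univ))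
    (hT : ContinuousOn T (Set.Icc 0 δ)) (hT0 : ∀ a ∈ Set.Icc 0 δ, 0 < T a)
    (hp : ∀ a ∈ Set.Icc 0 δ, ∀ t, z a (t + T a) = z a t) :
    ∀ a ∈ Set.Icc 0 δ, ∀ U : Set (ℝ × ℝ), IsOpen U → Set.range (z a) ⊆ U →
      ∃ η : ℝ, 0 < η ∧ ∀ b ∈ Set.Icc 0 δ, |b - a| < η → Set.range (z b) ⊆ U := by
  intro a ha U hU haU
  obtain ⟨M, hM⟩ := famTop_bound hT
  obtain ⟨V, hV, hVeq⟩ := continuousOn_iff'.1 hz U hU
  have hsub : ({a} : Set ℝ) ×ˢ Set.Icc 0 M ⊆ V := by
    rintro ⟨x, t⟩ ⟨hx, _⟩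
    have hx' : x = a := hx
    subst hx'
    have hmem : (x, t) ∈ (fun p : ℝ × ℝ => z p.1 p.2) ⁻¹' U ∩ Set.Icc 0 δ ×ˢ Set.univ :=
      ⟨haU (Set.mem_range_self t), ha, Set.mem_univ _⟩
    rw [hVeq] at hmem
    exact hmem.1
  obtain ⟨u, v, hu, _, hau, hMv, huv⟩ :=
    generalized_tube_lemma isCompact_singleton isCompact_Icc hV hsub
  obtain ⟨η, hη, hball⟩ := Metric.isOpen_iff.1 hu a (hau rfl)
  refine ⟨η, hη, fun b hb hba => ?_⟩
  rintro _ ⟨t, rfl⟩
  obtain ⟨s, hs, hst⟩ := famTop_range (hT0 b hb) (hM b hb) (hp b hb) t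
  have hbu : b ∈ u := hball (by rw [Metric.mem_ball, Real.dist_eq]; exact hba)
  have hmem : (b, s) ∈ V ∩ Set.Icc 0 δ ×ˢ Set.univ :=
    ⟨huv ⟨hbu, hMv hs⟩, hb, Set.mem_univ _⟩
  rw [← hVeq] at hmem
  rw [← hst]
  exact hmem.1

/-- the union of the curves of a continuous family is compact (image of `[α, β] × [0, M]`) -/
theorem family_cpt {z : ℝ → ℝ → ℝ × ℝ} {T : ℝ → ℝ} {α β : ℝ}
    (hz : ContinuousOn (fun p : ℝ × ℝ => z p.1 p.2) (Set.Icc α β ×ˢ Set.univ))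
    (hT : ContinuousOn T (Set.Icc α β)) (hT0 : ∀ a ∈ Set.Icc α β, 0 < T a)
    (hp : ∀ a ∈ Set.Icc α β, ∀ t, z a (t + T a) = z a t) :
    IsCompact (⋃ a ∈ Set.Icc α β, Set.range (z a)) := by
  obtain ⟨M, hM⟩ := famTop_bound hT
  have heq : (⋃ a ∈ Set.Icc α β, Set.range (z a)) =
      (fun p : ℝ × ℝ => z p.1 p.2) '' (Set.Icc α β ×ˢ Set.Icc 0 M) := by
    ext y
    simp only [Set.mem_iUnion, Set.mem_range, Set.mem_image, Set.mem_prod, Prod.exists,
      exists_prop]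
    constructor
    · rintro ⟨a, ha, t, rfl⟩
      obtain ⟨s, hs, hst⟩ := famTop_range (hT0 a ha) (hM a ha) (hp a ha) t
      exact ⟨a, s, ⟨ha, hs⟩, hst⟩
    · rintro ⟨a, s, ⟨ha, _⟩, rfl⟩
      exact ⟨a, ha, s, rfl⟩
  rw [heq]
  exact (isCompact_Icc.prod isCompact_Icc).image_of_continuousOn
    (hz.mono (Set.prod_mono_right (Set.subset_univ _)))

/-- the union of the curves of a continuous family is connected (image of `[α, β] × ℝ`) -/
theorem family_conn {z : ℝ → ℝ → ℝ × ℝ} {α β : ℝ}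
    (hz : ContinuousOn (fun p : ℝ × ℝ => z p.1 p.2) (Set.Icc α β ×ˢ Set.univ)) :
    IsPreconnected (⋃ a ∈ Set.Icc α β, Set.range (z a)) := by
  have heq : (⋃ a ∈ Set.Icc α β, Set.range (z a)) =
      (fun p : ℝ × ℝ => z p.1 p.2) '' (Set.Icc α β ×ˢ Set.univ) := by
    ext y
    simp only [Set.mem_iUnion, Set.mem_range, Set.mem_image, Set.mem_prod, Prod.exists,
      exists_prop, Set.mem_univ, and_true]
    constructor
    · rintro ⟨a, ha, t, rfl⟩
      exact ⟨a, t, ha, rfl⟩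
    · rintro ⟨a, t, ha, rfl⟩
      exact ⟨a, ha, t, rfl⟩
  rw [heq]
  exact (isPreconnected_Icc.prod isPreconnected_univ).image _ hz

end Pool.Agent.Lib.MP_95e7ec_an
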