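import Mathlib
import Pool.Agent.Lib.MP_95e7ec_an.Rb.Defs
import Pool.Agent.Lib.MP_95e7ec_an.Rb.Basic

/-!
# Rb, Interp: from the listed directions to all directions
-/

set_option autoImplicit false

open Set Filter Topology MeasureTheory
open scoped ContDiff ENNReal

namespace Pool.Agent.Lib.MP_95e7ec_an

/-- the scalar product -/
private def ipdot (u w : ℝ × ℝ) : ℝ := u.1 * w.1 + u.2 * w.2

private theorem ip_dot_le (u w : ℝ × ℝ) (hw : nm w = 1) : |ipdot u w| ≤ nm u := by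
  have h1 := nm_sq u
  have h2 := nm_sq w
  rw [hw, one_pow] at h2
  apply abs_le_of_sq_le_sq _ (rb_nm_nonneg u)
  rw [h1, ipdot]
  nlinarith [sq_nonneg (u.1 * w.2 - u.2 * w.1)]

/-- decomposition in the frame `dirv c`, `dirv (c + θ)` -/
private theorem ip_decomp (c θ : ℝ) (hθ : Real.sin θ ≠ 0) (w : ℝ × ℝ) :
    w = (det2 w (dirv (c + θ)) / Real.sin θ) • dirv c +
      (det2 (dirv c) w / Real.sin θ) • dirv (c + θ) := by
  have h3 := Real.sin_sq_add_cos_sq c
  ext
  · simp only [det2, dirv, Prod.fst_add, Prod.smul_fst, smul_eq_mul, Real.cos_add, Real.sin_add]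
    field_simp
    linear_combination -w.1 * Real.sin θ * h3
  · simp only [det2, dirv, Prod.snd_add, Prod.smul_snd, smul_eq_mul, Real.cos_add, Real.sin_add]
    field_simp
    linear_combination -w.2 * Real.sin θ * h3

private theorem ip_dot_decomp (c θ : ℝ) (w : ℝ × ℝ) (a b : ℝ)
    (h : w = a • dirv c + b • dirv (c + θ)) : ipdot w (dirv c) = a + b * Real.cos θ := by
  have h3 := Real.sin_sq_add_cos_sq c
  rw [h]
  simp only [ipdot, dirv, Prod.fst_add, Prod.snd_add, Prod.smul_fst, Prod.smul_snd, smul_eq_mul,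
    Real.cos_add, Real.sin_add]
  linear_combination (a + b * Real.cos θ) * h3

private theorem ip_nm_dirv_sub (c θ : ℝ) (hθ : 0 ≤ θ) : nm (dirv (c + θ) - dirv c) ≤ θ := by
  rw [nm]
  apply Real.sqrt_le_iff.2
  refine ⟨hθ, ?_⟩
  have h1 : (dirv (c + θ) - dirv c).1 ^ 2 + (dirv (c + θ) - dirv c).2 ^ 2 =
      2 - 2 * Real.cos θ := by
    have h3 := Real.sin_sq_add_cos_sq c
    have h4 := Real.sin_sq_add_cos_sq θ
    simp only [dirv, Prod.fst_sub, Prod.snd_sub, Real.cos_add, Real.sin_add]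
    linear_combination (2 - 2 * Real.cos θ + (Real.sin θ ^ 2 + Real.cos θ ^ 2 - 1)) * h3 + h4
  rw [h1]
  have := Real.one_sub_sq_div_two_le_cos (x := θ)
  linarith

/-- exit time to the right: on the maximal interval where two continuous functions are positive -/
private theorem ip_exit {A B : ℝ → ℝ} (hA : Continuous A) (hB : Continuous B) {t T : ℝ}
    (h0 : 0 < A t ∧ 0 < B t) (_hT : t < T) (hTn : ¬ ∀ s ∈ Icc t T, 0 < A s ∧ 0 < B s) :
    ∃ t' ∈ Ioc t T, (∀ s ∈ Icc t t', 0 ≤ A s ∧ 0 ≤ B s) ∧ (A t' = 0 ∨ B t' = 0) := by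
  set S : Set ℝ := {s | s ∈ Icc t T ∧ (A s ≤ 0 ∨ B s ≤ 0)} with hS
  have hne : S.Nonempty := by
    push Not at hTn
    obtain ⟨s, hs, h⟩ := hTn
    refine ⟨s, hs, ?_⟩
    by_cases hA0 : A s ≤ 0
    · exact Or.inl hA0
    · exact Or.inr (h (not_le.1 hA0))
  have hcl : IsClosed S := by
    have e : S = Icc t T ∩ (A ⁻¹' Iic 0 ∪ B ⁻¹' Iic 0) := by
      ext s
      simp [hS]
    rw [e]
    exact isClosed_Icc.inter ((isClosed_Iic.preimage hA).union (isClosed_Iic.preimage hB))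
  have hbdd : BddBelow S := ⟨t, fun s hs => hs.1.1⟩
  have hmem : sInf S ∈ S := hcl.csInf_mem hne hbdd
  set t' := sInf S with ht'
  have htt' : t < t' := by
    refine lt_of_le_of_ne hmem.1.1 fun h => ?_
    rw [← h] at hmem
    rcases hmem.2 with h1 | h1
    · exact absurd h0.1 (not_lt.2 h1)
    · exact absurd h0.2 (not_lt.2 h1)
  have hbefore : ∀ s ∈ Ico t t', 0 < A s ∧ 0 < B s := by
    intro s hs
    by_contra hcon
    have hsS : s ∈ S := by
      refine ⟨⟨hs.1, hs.2.le.trans hmem.1.2⟩, ?_⟩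
      by_cases hA0 : A s ≤ 0
      · exact Or.inl hA0
      · right
        by_contra hB0
        exact hcon ⟨not_le.1 hA0, not_le.1 hB0⟩
    exact absurd (csInf_le hbdd hsS) (not_le.2 hs.2)
  have hcl' : ∀ s ∈ Icc t t', 0 ≤ A s ∧ 0 ≤ B s := by
    have hsub : Icc t t' ⊆ A ⁻¹' Ici 0 ∩ B ⁻¹' Ici 0 := by
      rw [← closure_Ico htt'.ne]
      refine closure_minimal (fun s hs => ⟨(hbefore s hs).1.le, (hbefore s hs).2.le⟩) ?_
      exact (isClosed_Ici.preimage hA).inter (isClosed_Ici.preimage hB)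
    intro s hs
    exact hsub hs
  refine ⟨t', ⟨htt', hmem.1.2⟩, hcl', ?_⟩
  have h1 := hcl' t' ⟨htt'.le, le_rfl⟩
  rcases hmem.2 with h2 | h2
  · exact Or.inl (le_antisymm h2 h1.1)
  · exact Or.inr (le_antisymm h2 h1.2)

/-- exit time to the left -/
private theorem ip_exit_left {A B : ℝ → ℝ} (hA : Continuous A) (hB : Continuous B) {t T : ℝ}
    (h0 : 0 < A t ∧ 0 < B t) (hT : T < t) (hTn : ¬ ∀ s ∈ Icc T t, 0 < A s ∧ 0 < B s) :
    ∃ t' ∈ Ico T t, (∀ s ∈ Icc t' t, 0 ≤ A s ∧ 0 ≤ B s) ∧ (A t' = 0 ∨ B t' = 0) := by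
  obtain ⟨t', ht', h1, h2⟩ := ip_exit (A := fun s => A (-s)) (B := fun s => B (-s))
    (hA.comp continuous_neg) (hB.comp continuous_neg) (t := -t) (T := -T)
    (by simpa using h0) (by linarith) (by
      intro h
      refine hTn fun s hs => ?_
      have := h (-s) ⟨by linarith [hs.2], by linarith [hs.1]⟩
      simpa using this)
  refine ⟨-t', ⟨by linarith [ht'.2], by linarith [ht'.1]⟩, fun s hs => ?_, h2⟩
  have := h1 (-s) ⟨by linarith [hs.2], by linarith [hs.1]⟩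
  simpa using this

private theorem ip_mono {f f' : ℝ → ℝ} (hf : ∀ s, HasDerivAt f (f' s) s) {a b : ℝ} (hab : a ≤ b)
    (h : ∀ s ∈ Icc a b, 0 ≤ f' s) : f a ≤ f b := by
  have hm : MonotoneOn f (Icc a b) := by
    refine monotoneOn_of_deriv_nonneg (convex_Icc a b)
      (fun s _ => (hf s).continuousAt.continuousWithinAt)
      (fun s _ => (hf s).differentiableAt.differentiableWithinAt) fun s hs => ?_
    rw [(hf s).deriv]
    rw [interior_Icc] at hs
    exact h s ⟨hs.1.le, hs.2.le⟩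
  exact hm ⟨le_rfl, hab⟩ ⟨hab, le_rfl⟩ hab

private theorem ip_strict {f f' : ℝ → ℝ} (hf : ∀ s, HasDerivAt f (f' s) s) {a b : ℝ} (hab : a < b)
    (h : ∀ s ∈ Icc a b, 0 < f' s) : f a < f b := by
  have hm : StrictMonoOn f (Icc a b) := by
    refine strictMonoOn_of_deriv_pos (convex_Icc a b)
      (fun s _ => (hf s).continuousAt.continuousWithinAt) fun s hs => ?_
    rw [(hf s).deriv]
    rw [interior_Icc] at hs
    exact h s ⟨hs.1.le, hs.2.le⟩
  exact hm ⟨le_rfl, hab.le⟩ ⟨hab.le, le_rfl⟩ hab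

private theorem ip_nm_le (u : ℝ × ℝ) (c : ℝ) :
    nm u ≤ |ipdot u (dirv c)| + |det2 u (dirv c)| := by
  have h1 := nm_sq u
  have h3 := Real.sin_sq_add_cos_sq c
  have h2 : nm u ^ 2 = ipdot u (dirv c) ^ 2 + det2 u (dirv c) ^ 2 := by
    rw [h1]
    simp only [ipdot, det2, dirv]
    linear_combination -(u.1 ^ 2 + u.2 ^ 2) * h3
  refine abs_le_of_sq_le_sq' ?_ (by positivity) |>.2
  rw [h2]
  nlinarith [abs_nonneg (ipdot u (dirv c)), abs_nonneg (det2 u (dirv c)),
    sq_abs (ipdot u (dirv c)), sq_abs (det2 u (dirv c)),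
    mul_nonneg (abs_nonneg (ipdot u (dirv c))) (abs_nonneg (det2 u (dirv c)))]

/-- the bound at one point whose direction is strictly between two listed ones -/
private theorem ip_main {v : ℝ × ℝ → ℝ × ℝ} (hv : Continuous v) {γ : ℝ → ℝ × ℝ} {T : ℝ}
    (hT : 0 < T) (hγ : ∀ t, HasDerivAt γ (v (γ t)) t) (hper : ∀ t, γ (t + T) = γ t)
    (hne : ∀ t, v (γ t) ≠ 0) {q : ℝ × ℝ} {κ η c θ : ℝ} (hθ0 : 0 < θ) (hθ : θ ≤ η)
    (hη1 : η ≤ 1 / 10) (hκ : 5 * η ≤ κ) (hκ1 : κ ≤ 1)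
    (h0 : ∀ t, (∃ ρ : ℝ, 0 < ρ ∧ v (γ t) = ρ • dirv c) →
      κ * nm (γ t - q) ≤ det2 (γ t - q) (dirv c))
    (h1 : ∀ t, (∃ ρ : ℝ, 0 < ρ ∧ v (γ t) = ρ • dirv (c + θ)) →
      κ * nm (γ t - q) ≤ det2 (γ t - q) (dirv (c + θ)))
    {t : ℝ} (hA : 0 < det2 (dirv c) (v (γ t))) (hB : 0 < det2 (v (γ t)) (dirv (c + θ))) :
    (κ - 5 * η) / 5 * nm (γ t - q) * nm (v (γ t)) ≤ det2 (γ t - q) (v (γ t)) := by
  have hγc : Continuous γ := continuous_iff_continuousAt.2 fun s => (hγ s).continuousAt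
  have hsin : 0 < Real.sin θ := Real.sin_pos_of_pos_of_lt_pi hθ0 (by linarith [Real.pi_gt_three])
  have hsinle : Real.sin θ ≤ θ := Real.sin_le hθ0.le
  have hcos : 0.995 ≤ Real.cos θ := by
    have := Real.one_sub_sq_div_two_le_cos (x := θ)
    nlinarith
  have hη0 : 0 < η := lt_of_lt_of_le hθ0 hθ
  set A : ℝ → ℝ := fun s => det2 (dirv c) (v (γ s)) with hAdef
  set B : ℝ → ℝ := fun s => det2 (v (γ s)) (dirv (c + θ)) with hBdef
  have hvγ : Continuous fun s => v (γ s) := hv.comp hγc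
  have hAc : Continuous A := by
    simp only [hAdef, det2]
    fun_prop
  have hBc : Continuous B := by
    simp only [hBdef, det2]
    fun_prop
  set x : ℝ → ℝ := fun s => ipdot (γ s - q) (dirv c) with hx
  set y : ℝ → ℝ := fun s => det2 (γ s - q) (dirv c) with hy
  have hg1 : ∀ s, HasDerivAt (fun s => (γ s).1) (v (γ s)).1 s := fun s =>
    (ContinuousLinearMap.fst ℝ ℝ ℝ).hasFDerivAt.comp_hasDerivAt s (hγ s)
  have hg2 : ∀ s, HasDerivAt (fun s => (γ s).2) (v (γ s)).2 s := fun s =>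
    (ContinuousLinearMap.snd ℝ ℝ ℝ).hasFDerivAt.comp_hasDerivAt s (hγ s)
  have hxd : ∀ s, HasDerivAt x (ipdot (v (γ s)) (dirv c)) s := fun s =>
    (((hg1 s).sub_const q.1).mul_const _).add (((hg2 s).sub_const q.2).mul_const _)
  have hyd : ∀ s, HasDerivAt y (det2 (v (γ s)) (dirv c)) s := fun s =>
    (((hg1 s).sub_const q.1).mul_const _).sub (((hg2 s).sub_const q.2).mul_const _)
  have hdec : ∀ s, v (γ s) = (B s / Real.sin θ) • dirv c + (A s / Real.sin θ) • dirv (c + θ) :=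
    fun s => ip_decomp c θ hsin.ne' (v (γ s))
  have hxval : ∀ s, ipdot (v (γ s)) (dirv c) =
      B s / Real.sin θ + A s / Real.sin θ * Real.cos θ := fun s =>
    ip_dot_decomp c θ _ _ _ (hdec s)
  have hyval : ∀ s, det2 (v (γ s)) (dirv c) = -A s := fun s => rb_det2_swap _ _
  have hxnn : ∀ s, 0 ≤ A s → 0 ≤ B s → 0 ≤ ipdot (v (γ s)) (dirv c) := by
    intro s h2 h3
    rw [hxval]
    have : 0 ≤ Real.cos θ := by linarith
    positivity
  have hxpos : ∀ s, 0 < A s → 0 < B s → 0 < ipdot (v (γ s)) (dirv c) := by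
    intro s h2 h3
    rw [hxval]
    have : 0 ≤ Real.cos θ := by linarith
    positivity
  have hyx : ∀ s, 0 ≤ A s → 0 ≤ B s → A s ≤ 1.01 * η * ipdot (v (γ s)) (dirv c) := by
    intro s h2 h3
    rw [hxval]
    set b := A s / Real.sin θ with hb
    set a := B s / Real.sin θ with ha
    have hb0 : 0 ≤ b := by positivity
    have ha0 : 0 ≤ a := by positivity
    have e : A s = b * Real.sin θ := by
      rw [hb]; field_simp
    rw [e]
    have k1 : b * Real.sin θ ≤ b * θ := mul_le_mul_of_nonneg_left hsinle hb0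
    have k2 : b * θ ≤ b * η := mul_le_mul_of_nonneg_left hθ hb0
    have k3 : b * η ≤ 1.01 * η * (b * Real.cos θ) := by
      have : 0 ≤ b * η := by positivity
      nlinarith
    have k4 : 0 ≤ 1.01 * η * a := by positivity
    linarith
  have hlist : ∀ s, 0 ≤ A s → 0 ≤ B s → (A s = 0 ∨ B s = 0) →
      (κ - η) * nm (γ s - q) ≤ y s := by
    intro s h2 h3 h4
    have hn0 := rb_nm_nonneg (γ s - q)
    rcases h4 with h4 | h4
    · have e := hdec s
      rw [h4, zero_div, zero_smul, add_zero] at e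
      have hpos : 0 < B s / Real.sin θ := by
        refine lt_of_le_of_ne (by positivity) fun h => hne s ?_
        rw [e, ← h, zero_smul]
      have := h0 s ⟨_, hpos, e⟩
      have k : 0 ≤ η * nm (γ s - q) := by positivity
      show (κ - η) * nm (γ s - q) ≤ det2 (γ s - q) (dirv c)
      linarith
    · have e := hdec s
      rw [h4, zero_div, zero_smul, zero_add] at e
      have hpos : 0 < A s / Real.sin θ := by
        refine lt_of_le_of_ne (by positivity) fun h => hne s ?_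
        rw [e, ← h, zero_smul]
      have k1 := h1 s ⟨_, hpos, e⟩
      have k2 : det2 (γ s - q) (dirv (c + θ)) = det2 (γ s - q) (dirv c) +
          det2 (γ s - q) (dirv (c + θ) - dirv c) := by
        rw [rb_det2_sub_right]; ring
      have k3 := (le_abs_self _).trans (rb_det2_le (γ s - q) (dirv (c + θ) - dirv c))
      have k4 := (ip_nm_dirv_sub c θ hθ0.le).trans hθ
      have k5 : nm (γ s - q) * nm (dirv (c + θ) - dirv c) ≤ nm (γ s - q) * η :=
        mul_le_mul_of_nonneg_left k4 hn0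
      show (κ - η) * nm (γ s - q) ≤ det2 (γ s - q) (dirv c)
      linarith
  -- the two exit times
  obtain ⟨t2, ht2, hc2, he2⟩ := ip_exit hAc hBc (t := t) (T := t + T) ⟨hA, hB⟩ (by linarith) (by
    intro h
    have k := ip_strict hxd (a := t) (b := t + T) (by linarith)
      fun s hs => hxpos s (h s hs).1 (h s hs).2
    have e : x (t + T) = x t := by simp only [hx, hper]
    rw [e] at k
    exact lt_irrefl _ k)
  obtain ⟨t1, ht1, hc1, he1⟩ := ip_exit_left hAc hBc (t := t) (T := t - T) ⟨hA, hB⟩ (by linarith)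
    (by
      intro h
      have k := ip_strict hxd (a := t - T) (b := t) (by linarith)
        fun s hs => hxpos s (h s hs).1 (h s hs).2
      have e : x t = x (t - T) := by
        have := hper (t - T)
        rw [sub_add_cancel] at this
        simp only [hx, this]
      rw [e] at k
      exact lt_irrefl _ k)
  have hx2 : x t ≤ x t2 := ip_mono hxd ht2.1.le fun s hs => hxnn s (hc2 s hs).1 (hc2 s hs).2
  have hy2 : y t2 ≤ y t := by
    have := ip_mono (fun s => (hyd s).fun_neg) ht2.1.le fun s hs => by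
      rw [hyval, neg_neg]; exact (hc2 s hs).1
    linarith
  have hx1 : x t1 ≤ x t := ip_mono hxd ht1.2.le fun s hs => hxnn s (hc1 s hs).1 (hc1 s hs).2
  have hy1 : y t1 + 1.01 * η * x t1 ≤ y t + 1.01 * η * x t :=
    ip_mono (fun s => (hyd s).fun_add ((hxd s).const_mul (1.01 * η))) ht1.2.le fun s hs => by
      rw [hyval]
      have := hyx s (hc1 s hs).1 (hc1 s hs).2
      linarith
  have hl2 := hlist t2 (hc2 t2 ⟨ht2.1.le, le_rfl⟩).1 (hc2 t2 ⟨ht2.1.le, le_rfl⟩).2 he2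
  have hl1 := hlist t1 (hc1 t1 ⟨le_rfl, ht1.2.le⟩).1 (hc1 t1 ⟨le_rfl, ht1.2.le⟩).2 he1
  have hX2 : x t2 ≤ nm (γ t2 - q) :=
    (le_abs_self _).trans (ip_dot_le (γ t2 - q) (dirv c) (rb_nm_dirv c))
  have hX1 : -x t1 ≤ nm (γ t1 - q) :=
    (neg_le_abs _).trans (ip_dot_le (γ t1 - q) (dirv c) (rb_nm_dirv c))
  have hn := ip_nm_le (γ t - q) c
  have hn0 := rb_nm_nonneg (γ t - q)
  have hn1 := rb_nm_nonneg (γ t1 - q)
  have hn2 := rb_nm_nonneg (γ t2 - q)
  have hn' : nm (γ t - q) ≤ |x t| + |y t| := hn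
  have hY : (κ - 2.01 * η) * nm (γ t - q) ≤ 2 * y t := by
    have hm0 : 0 ≤ κ - 2.01 * η := by linarith
    have hm1 : κ - 2.01 * η ≤ 1 := by linarith
    rcases le_or_gt 0 (x t) with hx0 | hx0
    · have k1 : (κ - 2.01 * η) * nm (γ t2 - q) ≤ y t := by
        have : 0 ≤ 1.01 * η * nm (γ t2 - q) := by positivity
        linarith
      have k2 : 0 ≤ y t := le_trans (by positivity) k1
      rw [abs_of_nonneg hx0, abs_of_nonneg k2] at hn'
      have k3 : nm (γ t - q) ≤ nm (γ t2 - q) + y t := by linarith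
      have k4 := mul_le_mul_of_nonneg_left k3 hm0
      have k5 : (κ - 2.01 * η) * y t ≤ 1 * y t := mul_le_mul_of_nonneg_right hm1 k2
      linarith
    · have k0 : 1.01 * η * (x t - x t1) ≤ 1.01 * η * nm (γ t1 - q) :=
        mul_le_mul_of_nonneg_left (by linarith) (by positivity)
      have k1 : (κ - 2.01 * η) * nm (γ t1 - q) ≤ y t := by linarith
      have k2 : 0 ≤ y t := le_trans (by positivity) k1
      rw [abs_of_neg hx0, abs_of_nonneg k2] at hn'
      have k3 : nm (γ t - q) ≤ nm (γ t1 - q) + y t := by linarith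
      have k4 := mul_le_mul_of_nonneg_left k3 hm0
      have k5 : (κ - 2.01 * η) * y t ≤ 1 * y t := mul_le_mul_of_nonneg_right hm1 k2
      linarith
  -- conclusion
  set b := A t / Real.sin θ with hb
  set a := B t / Real.sin θ with ha
  have hb0 : 0 ≤ b := by have : 0 < A t := hA; positivity
  have ha0 : 0 ≤ a := by have : 0 < B t := hB; positivity
  have e := hdec t
  have hnv : nm (v (γ t)) ≤ a + b := by
    rw [e]
    refine (rb_nm_add_le _ _).trans ?_
    rw [rb_nm_smul, rb_nm_smul, rb_nm_dirv, rb_nm_dirv, abs_of_nonneg ha0, abs_of_nonneg hb0]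
    linarith
  have hdet : det2 (γ t - q) (v (γ t)) = a * y t + b * det2 (γ t - q) (dirv (c + θ)) := by
    conv_lhs => rw [e]
    rw [rb_det2_add_right, rb_det2_smul_right, rb_det2_smul_right]
  have k2 : det2 (γ t - q) (dirv (c + θ)) = y t +
      det2 (γ t - q) (dirv (c + θ) - dirv c) := by
    rw [rb_det2_sub_right]; simp only [hy]; ring
  have k3 := (neg_abs_le _).trans' (neg_le_neg (rb_det2_le (γ t - q) (dirv (c + θ) - dirv c)))
  have k4 := (ip_nm_dirv_sub c θ hθ0.le).trans hθ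
  have k5 : nm (γ t - q) * nm (dirv (c + θ) - dirv c) ≤ nm (γ t - q) * η :=
    mul_le_mul_of_nonneg_left k4 hn0
  have k6 : y t - η * nm (γ t - q) ≤ det2 (γ t - q) (dirv (c + θ)) := by
    rw [k2]; linarith
  have k7 : (κ - 5 * η) / 5 * nm (γ t - q) ≤ y t - η * nm (γ t - q) := by
    have : 0 ≤ (κ - 5 * η) * nm (γ t - q) := mul_nonneg (by linarith) hn0
    have : 0 ≤ η * nm (γ t - q) := by positivity
    nlinarith
  have k8 : 0 ≤ (κ - 5 * η) / 5 * nm (γ t - q) := mul_nonneg (by linarith) hn0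
  have k9 : (κ - 5 * η) / 5 * nm (γ t - q) * nm (v (γ t)) ≤
      (κ - 5 * η) / 5 * nm (γ t - q) * (a + b) := mul_le_mul_of_nonneg_left hnv k8
  have k10 : (κ - 5 * η) / 5 * nm (γ t - q) * a ≤ y t * a := by
    refine mul_le_mul_of_nonneg_right ?_ ha0
    have : 0 ≤ η * nm (γ t - q) := by positivity
    linarith
  have k11 : (κ - 5 * η) / 5 * nm (γ t - q) * b ≤ det2 (γ t - q) (dirv (c + θ)) * b :=
    mul_le_mul_of_nonneg_right (k7.trans k6) hb0
  rw [hdet]
  linarith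

/-- Let `C` be a closed orbit of `v`, and suppose that at the points `z` of `C` where `v z` has one of
the `N` equally spaced directions `t₀ + 2πk/N` the point `q` is on the left with margin `κ`:
`κ |z - q| ≤ det2 (z - q) (dirv _)`. If `2π/N ≤ η ≤ 1/10` and `5 η ≤ κ` then at every point
`(κ - 5η)/5 |z - q| |v z| ≤ det2 (z - q) (v z)`. -/
theorem star_interp {v : ℝ × ℝ → ℝ × ℝ} (hv : ContDiff ℝ 1 v) {C : Set (ℝ × ℝ)}
    (hC : IsClosedOrbit v C) {q : ℝ × ℝ} {κ η t₀ : ℝ} {N : ℕ} (hN : 0 < N)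
    (hη : 2 * Real.pi / N ≤ η) (hη1 : η ≤ 1 / 10) (hκ : 5 * η ≤ κ) (hκ1 : κ ≤ 1)
    (h : ∀ z ∈ C, ∀ k < N, (∃ ρ : ℝ, 0 < ρ ∧ v z = ρ • dirv (t₀ + k * (2 * Real.pi / N))) →
      κ * nm (z - q) ≤ det2 (z - q) (dirv (t₀ + k * (2 * Real.pi / N)))) :
    ∀ z ∈ C, (κ - 5 * η) / 5 * nm (z - q) * nm (v z) ≤ det2 (z - q) (v z) := by
  intro z hz
  have hnz : ∀ z ∈ C, v z ≠ 0 := fun z hz => hC.ne_zero_of_contDiff hv hz
  have hNR : (0 : ℝ) < N := by exact_mod_cast hN
  set θ : ℝ := 2 * Real.pi / N with hθ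
  have hθ0 : 0 < θ := by have := Real.pi_pos; positivity
  have hNθ : (N : ℝ) * θ = 2 * Real.pi := by rw [hθ]; field_simp
  have hη0 : 0 < η := lt_of_lt_of_le hθ0 hη
  -- the hypothesis for all integers
  have hdper : ∀ k : ℤ, dirv (t₀ + k * θ) = dirv (t₀ + ((k % N).toNat : ℕ) * θ) := by
    intro k
    have h1 : (((k % N).toNat : ℕ) : ℤ) = k % N :=
      Int.toNat_of_nonneg (Int.emod_nonneg _ (by exact_mod_cast hN.ne'))
    have h2 : (((k % N).toNat : ℕ) : ℝ) = ((k % N : ℤ) : ℝ) := by rw [← h1]; push_cast; rfl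
    have h3 : (k : ℝ) = ((k % N : ℤ) : ℝ) + N * ((k / N : ℤ) : ℝ) := by
      have := Int.emod_add_mul_ediv k N
      exact_mod_cast this.symm
    have h4 : t₀ + k * θ = t₀ + ((k % N : ℤ) : ℝ) * θ + ((k / N : ℤ) : ℝ) * (2 * Real.pi) := by
      rw [h3, ← hNθ]; ring
    rw [h2, h4]
    simp only [dirv, Real.cos_add_int_mul_two_pi, Real.sin_add_int_mul_two_pi]
  have hint : ∀ z ∈ C, ∀ k : ℤ, (∃ ρ : ℝ, 0 < ρ ∧ v z = ρ • dirv (t₀ + k * θ)) →
      κ * nm (z - q) ≤ det2 (z - q) (dirv (t₀ + k * θ)) := by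
    intro z hz k hk
    rw [hdper k] at hk ⊢
    refine h z hz _ ?_ hk
    have h1 : (((k % N).toNat : ℕ) : ℤ) = k % N :=
      Int.toNat_of_nonneg (Int.emod_nonneg _ (by exact_mod_cast hN.ne'))
    have h2 : k % N < N := Int.emod_lt_of_pos _ (by exact_mod_cast hN)
    omega
  obtain ⟨φ, hφ⟩ := rb_exists_dir (v z)
  have hρ : 0 < nm (v z) := nm_pos (hnz z hz)
  set k : ℤ := ⌊(φ - t₀) / θ⌋ with hk
  have hk1 : (k : ℝ) * θ ≤ φ - t₀ := by
    have := Int.floor_le ((φ - t₀) / θ)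
    rwa [le_div_iff₀ hθ0] at this
  have hk2 : φ - t₀ < ((k : ℝ) + 1) * θ := by
    have := Int.lt_floor_add_one ((φ - t₀) / θ)
    rwa [div_lt_iff₀ hθ0] at this
  rcases eq_or_lt_of_le hk1 with heq | hlt
  · have e : φ = t₀ + k * θ := by linarith
    rw [e] at hφ
    have h1 := hint z hz k ⟨_, hρ, hφ⟩
    have h2 : det2 (z - q) (v z) = nm (v z) * det2 (z - q) (dirv (t₀ + k * θ)) := by
      conv_lhs => rw [hφ]
      rw [rb_det2_smul_right]
    rw [h2]
    have hn0 := rb_nm_nonneg (z - q)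
    have h3 : (κ - 5 * η) / 5 * nm (z - q) ≤ κ * nm (z - q) :=
      mul_le_mul_of_nonneg_right (by linarith) hn0
    have h4 := mul_le_mul_of_nonneg_right (h3.trans h1) hρ.le
    linarith
  · obtain ⟨γ, T, hT, hγ, hper, -, hCr⟩ := hC
    have hzr := hz
    rw [hCr] at hzr
    obtain ⟨t, rfl⟩ := hzr
    have hmem : ∀ s, γ s ∈ C := fun s => by rw [hCr]; exact ⟨s, rfl⟩
    have hadd : t₀ + k * θ + θ = t₀ + ((k + 1 : ℤ) : ℝ) * θ := by push_cast; ring
    refine ip_main hv.continuous hT hγ hper (fun s => hnz _ (hmem s)) (c := t₀ + k * θ) hθ0 hη hη1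
      hκ hκ1 (fun s hs => hint _ (hmem s) k hs) (fun s hs => ?_) ?_ ?_
    · rw [hadd] at hs ⊢
      exact hint _ (hmem s) (k + 1) hs
    · rw [hφ, rb_det2_smul_right, rb_det2_dirv]
      refine mul_pos hρ (Real.sin_pos_of_pos_of_lt_pi (by linarith) ?_)
      have := Real.pi_gt_three
      linarith
    · rw [hφ, rb_det2_smul_left, rb_det2_dirv]
      refine mul_pos hρ (Real.sin_pos_of_pos_of_lt_pi (by linarith) ?_)
      have := Real.pi_gt_three
      linarith

end Pool.Agent.Lib.MP_95e7ec_an
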