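import Mathlib
import Pool.Agent.Lib.MP_95e7ec_an.Rb.Defs
import Pool.Agent.Lib.MP_95e7ec_an.Rb.Basic

/-!
# Rb, ListStar: the cone condition gives the star condition for the listed directions
-/

set_option autoImplicit false

open Set Filter Topology MeasureTheory
open scoped ContDiff ENNReal

namespace Pool.Agent.Lib.MP_95e7ec_an

/-- Proof. Write `z - p = r (cos φ, sin φ)`, `r ≥ 0`. Then `det2 (z-p) (dirv c) = r sin (c - φ) ≥ 0` and
`r sin (c + δ - φ) ≥ 0`; choosing `φ` modulo `2π` with `c - φ ∈ (-π, π]`: (if `r > 0`) `c - φ ∈ [0, π - δ]`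
or `c - φ = π`... in all cases `sin (c + a - φ) ≥ min (sin a) (sin (δ - a)) ≥ sin (δ/4) ≥ δ / (2π)`
(Jordan's inequality). A clean way: `sin (δ) sin (c+a-φ) = sin (δ - a) sin (c - φ) + sin a sin (c+δ-φ)` and
`|dirv|`-estimates: the two nonnegative numbers `A = sin (c-φ)`, `B = sin (c+δ-φ)` satisfy
`A² + B² - 2AB cos δ = sin² δ`, so `A + B ≥ sin δ`, hence `sin δ sin (c+a-φ) ≥ sin (δ/4) (A + B) ≥
sin (δ/4) sin δ`. So `det2 (z-p) (dirv (c+a)) ≥ δ/(2π) nm (z-p)`, and
`det2 (z-q) (dirv (c+a)) ≥ δ/(2π) (nm (z-q) - L) - L ≥ δ/(4π) nm (z-q)`. -/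
theorem star_listed {δ a c L : ℝ} (hδ : 0 < δ) (hδ1 : δ ≤ 1) (ha : a ∈ Set.Icc (δ / 4) (3 * δ / 4))
    {z p q : ℝ × ℝ} (h0 : 0 ≤ det2 (z - p) (dirv c)) (h1 : 0 ≤ det2 (z - p) (dirv (c + δ)))
    (hL : nm (p - q) ≤ L) (hz : 8 * Real.pi * L / δ ≤ nm (z - q)) :
    δ / (4 * Real.pi) * nm (z - q) ≤ det2 (z - q) (dirv (c + a)) := by
  obtain ⟨ha1, ha2⟩ := ha
  have hpi := Real.pi_gt_three
  have hpi0 : 0 < Real.pi := Real.pi_pos
  have hL0 : 0 ≤ L := le_trans (rb_nm_nonneg _) hL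
  have hs : 0 < Real.sin δ := Real.sin_pos_of_pos_of_lt_pi hδ (by linarith)
  have hs4 : δ / (2 * Real.pi) ≤ Real.sin (δ / 4) := by
    have h := Real.mul_le_sin (x := δ / 4) (by linarith) (by linarith)
    calc δ / (2 * Real.pi) = 2 / Real.pi * (δ / 4) := by field_simp; ring
      _ ≤ _ := h
  have hs40 : 0 ≤ Real.sin (δ / 4) := le_trans (by positivity) hs4
  have hm1 : Real.sin (δ / 4) ≤ Real.sin a :=
    Real.sin_le_sin_of_le_of_le_pi_div_two (by linarith) (by linarith) ha1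
  have hm2 : Real.sin (δ / 4) ≤ Real.sin (δ - a) :=
    Real.sin_le_sin_of_le_of_le_pi_div_two (by linarith) (by linarith) (by linarith)
  set u := z - p with hu
  set A := det2 u (dirv c) with hA
  set B := det2 u (dirv (c + δ)) with hB
  have hid : Real.sin δ * det2 u (dirv (c + a)) = Real.sin (δ - a) * A + Real.sin a * B := by
    rw [hA, hB]
    simp only [det2, dirv, Real.sin_add, Real.cos_add, Real.sin_sub]
    have h1 := Real.sin_sq_add_cos_sq c
    have h2 := Real.sin_sq_add_cos_sq a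
    have h3 := Real.sin_sq_add_cos_sq δ
    ring
  have hquad : A ^ 2 + B ^ 2 - 2 * A * B * Real.cos δ = Real.sin δ ^ 2 * nm u ^ 2 := by
    rw [nm_sq, hA, hB]
    simp only [det2, dirv, Real.sin_add, Real.cos_add]
    have h1 := Real.sin_sq_add_cos_sq c
    have h3 := Real.sin_sq_add_cos_sq δ
    have e1 : Real.cos c ^ 2 = 1 - Real.sin c ^ 2 := by linarith
    have e3 : Real.cos δ ^ 2 = 1 - Real.sin δ ^ 2 := by linarith
    ring_nf
    simp only [e1, e3]
    ring_nf
  have hr0 := rb_nm_nonneg u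
  have hAB : Real.sin δ * nm u ≤ A + B := by
    have hc : -1 ≤ Real.cos δ := Real.neg_one_le_cos δ
    apply le_of_sq_le_sq _ (by positivity)
    nlinarith [mul_nonneg h0 h1]
  have hdet : δ / (2 * Real.pi) * nm u ≤ det2 u (dirv (c + a)) := by
    have h1' : Real.sin δ * (Real.sin (δ / 4) * nm u) ≤ Real.sin δ * det2 u (dirv (c + a)) := by
      rw [hid]
      have e1 := mul_le_mul_of_nonneg_right hm2 h0
      have e2 := mul_le_mul_of_nonneg_right hm1 h1
      have e3 := mul_le_mul_of_nonneg_left hAB hs40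
      calc Real.sin δ * (Real.sin (δ / 4) * nm u) = Real.sin (δ / 4) * (Real.sin δ * nm u) := by ring
        _ ≤ Real.sin (δ / 4) * (A + B) := e3
        _ = Real.sin (δ / 4) * A + Real.sin (δ / 4) * B := by ring
        _ ≤ _ := add_le_add e1 e2
    have h2' := le_of_mul_le_mul_left h1' hs
    exact le_trans (mul_le_mul_of_nonneg_right hs4 hr0) h2'
  have hsplit : det2 (z - q) (dirv (c + a)) = det2 u (dirv (c + a)) + det2 (p - q) (dirv (c + a)) := by
    rw [← rb_det2_add_left, hu]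
    congr 1
    abel
  have hpq : -L ≤ det2 (p - q) (dirv (c + a)) := by
    have h := rb_det2_le (p - q) (dirv (c + a))
    rw [rb_nm_dirv, mul_one] at h
    have := neg_abs_le (det2 (p - q) (dirv (c + a)))
    linarith
  have htri : nm (z - q) ≤ nm u + nm (p - q) := rb_nm_tri z p q
  have hzL : 2 * L ≤ δ / (4 * Real.pi) * nm (z - q) := by
    calc 2 * L = δ / (4 * Real.pi) * (8 * Real.pi * L / δ) := by field_simp; ring
      _ ≤ _ := mul_le_mul_of_nonneg_left hz (by positivity)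
  have hdpi : δ / (2 * Real.pi) ≤ 1 := by
    rw [div_le_one (by positivity)]
    linarith
  have hdpi0 : 0 ≤ δ / (2 * Real.pi) := by positivity
  have e4 : δ / (4 * Real.pi) * nm (z - q) * 2 = δ / (2 * Real.pi) * nm (z - q) := by
    field_simp; ring
  have e5 : δ / (2 * Real.pi) * (nm (z - q) - L) ≤ δ / (2 * Real.pi) * nm u :=
    mul_le_mul_of_nonneg_left (by linarith) hdpi0
  have e6 : δ / (2 * Real.pi) * L ≤ L := by
    have := mul_le_mul_of_nonneg_right hdpi hL0
    linarith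
  rw [hsplit]
  nlinarith

end Pool.Agent.Lib.MP_95e7ec_an
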