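import Mathlib
import Pool.Agent.Lib.MP_95e7ec_an.Rb.Defs

/-!
# Rb, Order: the order of the families
-/

set_option autoImplicit false

open Set Filter Topology MeasureTheory
open scoped ContDiff ENNReal

namespace Pool.Agent.Lib.MP_95e7ec_an

/-- a finite set with a transitive total relation has a least element -/
theorem exists_bottom {ι : Type*} [DecidableEq ι] (r : ι → ι → Prop) (s : Finset ι)
    (hne : s.Nonempty) (htot : ∀ i ∈ s, ∀ j ∈ s, i ≠ j → r i j ∨ r j i)
    (htr : ∀ i j k, r i j → r j k → r i k) : ∃ b ∈ s, ∀ i ∈ s, i ≠ b → r b i := by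
  induction s using Finset.induction_on with
  | empty => simp at hne
  | insert x s hx ih =>
    rcases s.eq_empty_or_nonempty with hs | hs
    · subst hs
      exact ⟨x, by simp, by simp⟩
    · obtain ⟨b, hb, hbs⟩ := ih hs fun i hi j hj => htot i (Finset.mem_insert_of_mem hi) j
        (Finset.mem_insert_of_mem hj)
      have hxb : x ≠ b := fun h => hx (h ▸ hb)
      rcases htot x (Finset.mem_insert_self x s) b (Finset.mem_insert_of_mem hb) hxb with h | h
      · refine ⟨x, Finset.mem_insert_self x s, fun i hi hix => ?_⟩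
        rcases Finset.mem_insert.1 hi with rfl | hi
        · exact absurd rfl hix
        · rcases eq_or_ne i b with rfl | hib
          · exact h
          · exact htr _ _ _ h (hbs i hi hib)
      · refine ⟨b, Finset.mem_insert_of_mem hb, fun i hi hib => ?_⟩
        rcases Finset.mem_insert.1 hi with rfl | hi
        · exact h
        · exact hbs i hi hib

variable {δ : ℝ}

/-- `F` is inside `F'` -/
def Fml.Below {Y : ℝ × ℝ → ℝ × ℝ} {δ : ℝ} (F F' : Fml Y δ) : Prop :=
  ∀ a ∈ Set.Icc 0 δ, ∀ b ∈ Set.Icc 0 δ, F.D a ∪ F.C a ⊆ F'.D b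

theorem Fml.Below.trans {Y : ℝ × ℝ → ℝ × ℝ} {δ : ℝ} (hδ : 0 ≤ δ) {F F' F'' : Fml Y δ}
    (h : F.Below F') (h' : F'.Below F'') : F.Below F'' := by
  intro a ha b hb
  have h0 : (0 : ℝ) ∈ Set.Icc 0 δ := ⟨le_rfl, hδ⟩
  exact (h a ha 0 h0).trans (subset_union_left.trans (h' 0 h0 b hb))

end Pool.Agent.Lib.MP_95e7ec_an
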