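import Mathlib
import Pool.Agent.Lib.MP_95e7ec_an.Rb.Uniq

/-!
# Rb, Rel: relative position of two families
-/

set_option autoImplicit false

open Set Filter Topology MeasureTheory
open scoped ContDiff ENNReal

namespace Pool.Agent.Lib.MP_95e7ec_an

private theorem rel_out {Y : ℝ × ℝ → ℝ × ℝ} {δ : ℝ} (hδ0 : 0 ≤ δ) (F F' : Fml Y δ)
    (hd : ∀ a ∈ Set.Icc 0 δ, ∀ b ∈ Set.Icc 0 δ, Disjoint (F.C a) (F'.C b))
    {x : ℝ × ℝ} (hx : x ∈ F.C 0) {b : ℝ} (hb : b ∈ Set.Icc 0 δ) :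
    x ∈ F'.D 0 ↔ x ∈ F'.D b := by
  refine F'.sweep 0 b le_rfl hb.1 hb.2 x ?_
  intro c hc hxc
  exact Set.disjoint_left.1 (hd 0 ⟨le_rfl, hδ0⟩ c ⟨hc.1, hc.2.trans hb.2⟩) hx hxc

private theorem rel_dich {Y : ℝ × ℝ → ℝ × ℝ} {δ : ℝ} (F F' : Fml Y δ) (hδ0 : 0 ≤ δ)
    (hd : ∀ a ∈ Set.Icc 0 δ, ∀ b ∈ Set.Icc 0 δ, Disjoint (F.C a) (F'.C b))
    {b : ℝ} (hb : b ∈ Set.Icc 0 δ) :
    (∀ a ∈ Set.Icc 0 δ, F.C a ⊆ F'.D b) ∨ (∀ a ∈ Set.Icc 0 δ, Disjoint (F.C a) (F'.D b)) := by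
  have hR := F.conn 0 δ le_rfl hδ0 le_rfl
  have hRd : Disjoint (⋃ a ∈ Set.Icc 0 δ, F.C a) (F'.C b) := by
    rw [Set.disjoint_left]
    intro x hx hx'
    simp only [Set.mem_iUnion] at hx
    obtain ⟨a, ha, hxa⟩ := hx
    exact Set.disjoint_left.1 (hd a ha b hb) hxa hx'
  have hsub : ∀ a ∈ Set.Icc 0 δ, F.C a ⊆ ⋃ a ∈ Set.Icc 0 δ, F.C a := by
    intro a ha x hx
    simp only [Set.mem_iUnion]
    exact ⟨a, ha, hx⟩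
  rcases (F'.jp b hb).dich hR hRd with h | h
  · exact Or.inl fun a ha => (hsub a ha).trans h
  · exact Or.inr fun a ha => Disjoint.mono_left (hsub a ha) h

private theorem rel_nest {Y : ℝ × ℝ → ℝ × ℝ} {δ : ℝ} (hδ0 : 0 ≤ δ) (F F' : Fml Y δ)
    (hd : ∀ a ∈ Set.Icc 0 δ, ∀ b ∈ Set.Icc 0 δ, Disjoint (F.C a) (F'.C b))
    (h0 : F.D 0 ∪ F.C 0 ⊆ F'.D 0) :
    ∀ a ∈ Set.Icc 0 δ, ∀ b ∈ Set.Icc 0 δ, F.D a ∪ F.C a ⊆ F'.D b := by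
  intro a ha b hb
  have h00 : (0 : ℝ) ∈ Set.Icc 0 δ := ⟨le_rfl, hδ0⟩
  obtain ⟨x, hx⟩ := (F.jp 0 h00).ne
  have hxb : x ∈ F'.D b := (rel_out hδ0 F F' hd hx hb).1 (h0 (Or.inr hx))
  refine (F'.jp b hb).nest (F.jp a ha) (hd a ha b hb).symm ?_
  rcases rel_dich F F' hδ0 hd hb with h | h
  · exact h a ha
  · exact absurd hxb (Set.disjoint_left.1 (h 0 h00) hx)

private theorem rel_sep {Y : ℝ × ℝ → ℝ × ℝ} {δ : ℝ} (hδ0 : 0 ≤ δ) (F F' : Fml Y δ)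
    (hd : ∀ a ∈ Set.Icc 0 δ, ∀ b ∈ Set.Icc 0 δ, Disjoint (F.C a) (F'.C b))
    (h0 : Disjoint (F.D 0 ∪ F.C 0) (F'.D 0 ∪ F'.C 0)) :
    ∀ a ∈ Set.Icc 0 δ, ∀ b ∈ Set.Icc 0 δ, Disjoint (F.C a) (F'.D b) := by
  intro a ha b hb
  have h00 : (0 : ℝ) ∈ Set.Icc 0 δ := ⟨le_rfl, hδ0⟩
  obtain ⟨x, hx⟩ := (F.jp 0 h00).ne
  have hxb : x ∉ F'.D b := fun h' =>
    Set.disjoint_left.1 h0 (Or.inr hx) (Or.inl ((rel_out hδ0 F F' hd hx hb).2 h'))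
  rcases rel_dich F F' hδ0 hd hb with h | h
  · exact absurd (h 0 h00 hx) hxb
  · exact h a ha

/-- Two families with disjoint curves are nested or have disjoint filled curves, for all pairs of
angles at the same time.

Proof. All curves of `F` are disjoint from all curves of `F'` (`h` and `Fml.disj`). Let
`R = ⋃ F.C a` (connected), `R' = ⋃ F'.C a`. At the angles `(0, 0)` use `JP.meet`. If
`F.D 0 ∪ F.C 0 ⊆ F'.D 0`: for every `b` the points of `F.C 0` are in `F'.D b` (`sweep`), the connected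
set `R` misses `F'.C b` and meets `F'.D b`, so `R ⊆ F'.D b` (`JP.dich`), and `JP.nest` gives
`F.D a ∪ F.C a ⊆ F'.D b`. If the filled sets are disjoint at `(0,0)`: `F.C 0` is disjoint from `F'.D b`
for all `b` by `sweep`, hence so is `R`; likewise `R'` and all `F.D a`; by `JP.meet` the filled sets are
disjoint. -/
theorem fml_rel {Y : ℝ × ℝ → ℝ × ℝ} (hY : ContDiff ℝ 1 Y) {δ : ℝ} (hδ0 : 0 ≤ δ) (hδ : δ ≤ 1)
    (F F' : Fml Y δ) (h : ∀ a ∈ Set.Icc 0 δ, Disjoint (F.C a) (F'.C a)) :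
    (∀ a ∈ Set.Icc 0 δ, ∀ b ∈ Set.Icc 0 δ, F.D a ∪ F.C a ⊆ F'.D b) ∨
    (∀ a ∈ Set.Icc 0 δ, ∀ b ∈ Set.Icc 0 δ, F'.D a ∪ F'.C a ⊆ F.D b) ∨
    (∀ a ∈ Set.Icc 0 δ, ∀ b ∈ Set.Icc 0 δ, Disjoint (F.D a ∪ F.C a) (F'.D b ∪ F'.C b)) := by
  have h00 : (0 : ℝ) ∈ Set.Icc 0 δ := ⟨le_rfl, hδ0⟩
  have hd : ∀ a ∈ Set.Icc 0 δ, ∀ b ∈ Set.Icc 0 δ, Disjoint (F.C a) (F'.C b) := by
    intro a ha b hb
    by_cases hab : a = b
    · rw [← hab]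
      exact h a ha
    · exact Fml.disj hY hδ F F' ha hb hab
  have hd' : ∀ a ∈ Set.Icc 0 δ, ∀ b ∈ Set.Icc 0 δ, Disjoint (F'.C a) (F.C b) :=
    fun a ha b hb => (hd b hb a ha).symm
  by_cases hm : ((F.D 0 ∪ F.C 0) ∩ (F'.D 0 ∪ F'.C 0)).Nonempty
  · rcases (F.jp 0 h00).meet (F'.jp 0 h00) (hd 0 h00 0 h00) hm with h1 | h1
    · exact Or.inr (Or.inl (rel_nest hδ0 F' F hd' h1))
    · exact Or.inl (rel_nest hδ0 F F' hd h1)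
  · refine Or.inr (Or.inr ?_)
    have h0 : Disjoint (F.D 0 ∪ F.C 0) (F'.D 0 ∪ F'.C 0) :=
      Set.disjoint_iff_inter_eq_empty.2 (Set.not_nonempty_iff_eq_empty.1 hm)
    intro a ha b hb
    have h1 := rel_sep hδ0 F F' hd h0 a ha b hb
    have h2 := rel_sep hδ0 F' F hd' h0.symm b hb a ha
    by_contra hcon
    have hne : ((F.D a ∪ F.C a) ∩ (F'.D b ∪ F'.C b)).Nonempty := by
      rw [Set.nonempty_iff_ne_empty]
      intro h'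
      exact hcon (Set.disjoint_iff_inter_eq_empty.2 h')
    rcases (F.jp a ha).meet (F'.jp b hb) (hd a ha b hb) hne with h3 | h3
    · obtain ⟨x, hx⟩ := (F'.jp b hb).ne
      exact Set.disjoint_left.1 h2 hx (h3 (Or.inr hx))
    · obtain ⟨x, hx⟩ := (F.jp a ha).ne
      exact Set.disjoint_left.1 h1 hx (h3 (Or.inr hx))

end Pool.Agent.Lib.MP_95e7ec_an
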