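import Mathlib
import Pool.Agent.Lib.MP_95e7ec_an.Rb.Rel
import Pool.Agent.Lib.MP_95e7ec_an.Rb.Order
import Pool.Agent.Lib.MP_95e7ec_an.Rb.Cone
import Pool.Agent.Lib.MP_95e7ec_an.Rb.ListStar
import Pool.Agent.Lib.MP_95e7ec_an.Rb.Interp
import Pool.Agent.Lib.MP_95e7ec_an.Rb.StarAvg
import Pool.Agent.Lib.MP_95e7ec_an.Rb.NearAvg
import Pool.Agent.Lib.MP_95e7ec_an.Rb.SumMeas
import Pool.Agent.Lib.MP_95e7ec_an.Rb.Basic
import Pool.Agent.Lib.MP_95e7ec_an.FatGlue

/-!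
# Rb, Fiber: families with the same special points
-/

set_option autoImplicit false

open Set Filter Topology MeasureTheory
open scoped ContDiff ENNReal

namespace Pool.Agent.Lib.MP_95e7ec_an

theorem sum_le_setSum {f : Set (ℝ × ℝ) → ℝ≥0∞} {v : ℝ × ℝ → ℝ × ℝ} {α : ℝ} {ι : Type*}
    (T : Finset ι) (c : ι → Set (ℝ × ℝ)) (hc : ∀ i ∈ T, IsClosedOrbit (turn α v) (c i))
    (hinj : ∀ i ∈ T, ∀ j ∈ T, c i = c j → i = j) :
    ∑ i ∈ T, f (c i) ≤ setSum f v Set.univ α := by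
  classical
  set e : {i // i ∈ T} → {C : Set (ℝ × ℝ) // IsClosedOrbit (turn α v) C ∧ C ⊆ Set.univ} :=
    fun i => ⟨c i, hc i i.2, subset_univ _⟩ with he
  have hei : Function.Injective e := by
    intro i j hij
    have h1 : c i = c j := congrArg Subtype.val hij
    exact Subtype.ext (hinj i i.2 j j.2 h1)
  have h2 : ∑ i ∈ T, f (c i) = ∑ C ∈ (T.attach).map ⟨e, hei⟩, f (C : Set (ℝ × ℝ)) := by
    rw [Finset.sum_map]
    exact (Finset.sum_attach T fun i => f (c i)).symm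
  rw [h2, setSum]
  exact ENNReal.sum_le_tsum _

theorem continuous_nm_sub (q : ℝ × ℝ) : Continuous fun z : ℝ × ℝ => nm (z - q) :=
  continuous_nm.comp (continuous_id.sub continuous_const)

variable {n : ℕ} {P Q : MvPolynomial (Fin 2) ℝ} {δ : ℝ}

/-- the star or near dichotomy for a tested curve -/
theorem star_or_near (hδ : 0 < δ) (hδ1 : δ ≤ 1) {Y : ℝ × ℝ → ℝ × ℝ} (hY : ContDiff ℝ 1 Y)
    {N : ℕ} (hN : 0 < N) (hNδ : 2 * Real.pi / N ≤ δ / 200) {t₀ : ℝ}
    {S : Set (ℝ × ℝ)}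
    (hS : ∀ k < N, ∀ z : ℝ × ℝ, det2 (Y z) (dirv (t₀ + k * (2 * Real.pi / N))) = 0 →
      cur Y 0 z * cur Y δ z = 0 → z ∈ S)
    {B0 B1 B2 G H : Fml Y δ} (h01 : B0.Below B1) (h12 : B1.Below B2) (h2G : B2.Below G)
    (hGH : G.Below H) (hSS : ∀ z ∈ S, z ∈ H.hull → z ∈ B0.hull)
    {q p₀ : ℝ × ℝ} (hq : q ∈ B2.D 0) (hp₀ : p₀ ∈ B2.C 0)
    (hmax : ∀ p ∈ B2.C 0, nm (p - q) ≤ nm (p₀ - q)) {a : ℝ} (ha : a ∈ Set.Ioo (δ / 4) (3 * δ / 4)) :
    IsStar Y q (δ / 100) (G.C a) ∨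
      IsNear q (nm (p₀ - q)) (8 * Real.pi * nm (p₀ - q) / δ) (G.C a) := by
  have h0 : (0 : ℝ) ∈ Set.Icc 0 δ := ⟨le_rfl, hδ.le⟩
  have h1 : δ ∈ Set.Icc 0 δ := ⟨hδ.le, le_rfl⟩
  have haI : a ∈ Set.Icc 0 δ := ⟨by linarith [ha.1], by linarith [ha.2]⟩
  have h1H : B1.Below H := (h12.trans hδ.le h2G).trans hδ.le hGH
  have h2H : B2.Below H := h2G.trans hδ.le hGH
  have hqp : q ≠ p₀ := by
    rintro rfl
    exact Set.disjoint_left.1 (B2.jp 0 h0).disj hq hp₀
  have hLpos : 0 < nm (p₀ - q) := nm_pos (sub_ne_zero.2 (Ne.symm hqp))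
  by_cases hnear : ∃ z ∈ G.C a, nm (z - q) ≤ 8 * Real.pi * nm (p₀ - q) / δ
  · right
    refine ⟨hnear, ?_⟩
    have hqG : q ∈ G.D a := h2G 0 h0 a haI (Or.inl hq)
    have hpG : p₀ ∈ G.D a := h2G 0 h0 a haI (Or.inr hp₀)
    obtain ⟨t, ht, hzt⟩ := (G.jp a haI).ray hqG (sub_ne_zero.2 hqp)
    obtain ⟨t', ht', hzt'⟩ := (G.jp a haI).ray hpG (sub_ne_zero.2 (Ne.symm hqp))
    refine ⟨_, hzt', _, hzt, ?_⟩
    have e : p₀ + t' • (p₀ - q) - (q + t • (q - p₀)) = (1 + t + t') • (p₀ - q) := by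
      ext
      · simp only [Prod.fst_sub, Prod.fst_add, Prod.smul_fst, smul_eq_mul]; ring
      · simp only [Prod.snd_sub, Prod.snd_add, Prod.smul_snd, smul_eq_mul]; ring
    rw [e, rb_nm_smul, abs_of_nonneg (by linarith)]
    nlinarith
  · left
    push Not at hnear
    have hCG : ∀ z ∈ G.C a, z ∉ B2.D 0 := by
      intro z hz hz2
      exact Set.disjoint_left.1 (G.jp a haI).disj (h2G 0 h0 a haI (Or.inl hz2)) hz
    have hCH : ∀ z ∈ G.C a, z ∈ H.D 0 := fun z hz => hGH a haI 0 h0 (Or.inr hz)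
    refine ⟨fun hq' => hCG q hq' hq, a, ⟨by linarith [ha.1], by
      linarith [ha.2, Real.pi_gt_three]⟩, G.orb a haI, ?_⟩
    have hpi := Real.pi_gt_three
    have hpi4 := Real.pi_lt_d2
    have key := star_interp (v := turn a Y) (contDiff_turn' hY a) (G.orb a haI) (q := q)
      (κ := δ / (4 * Real.pi)) (η := δ / 200) (t₀ := t₀ + a) hN hNδ (by linarith) (by
        rw [le_div_iff₀ (by positivity)]
        nlinarith) (by
        rw [div_le_one (by positivity)]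
        linarith) (by
        intro z hz k hk ⟨ρ, hρ, hzρ⟩
        have e1 : t₀ + a + k * (2 * Real.pi / N) = (t₀ + k * (2 * Real.pi / N)) + a := by ring
        rw [e1] at hzρ ⊢
        have hYz := dir_of_turn hzρ
        obtain ⟨p, hp, hp1, hp2⟩ := cone_reach hY (δ := δ) (c := t₀ + k * (2 * Real.pi / N))
          (H.jp 0 h0) (B1.jp δ h1) (B2.jp 0 h0) (by
            have := H.side 0 h0
            have e : turn 0 Y = Y := by funext w; simp [turn]
            rwa [e] at this) (B1.side δ h1) (h12 δ h1 0 h0) (h2H 0 h0 0 h0) (by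
            intro w hw hdet hcur
            have hwS := hS k hk w hdet hcur
            have hwH : w ∈ H.hull := Set.mem_biUnion h0 hw.1
            have hwB := hSS w hwS hwH
            simp only [Fml.hull, Set.mem_iUnion, exists_prop] at hwB
            obtain ⟨a', ha', hwa⟩ := hwB
            exact hw.2 (h01 a' ha' δ h1 hwa)) (z := z)
          ⟨Or.inl (hCH z hz), hCG z hz⟩ ⟨ρ, hρ, hYz⟩
        exact star_listed hδ hδ1 ⟨ha.1.le, ha.2.le⟩ hp1 hp2 (hmax p hp) (hnear z hz).le)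
    intro z hz
    have h3 := key z hz
    have hn1 : 0 ≤ nm (z - q) := Real.sqrt_nonneg _
    have hn2 : 0 ≤ nm (turn a Y z) := Real.sqrt_nonneg _
    refine le_trans ?_ (le_abs_self _)
    refine le_trans ?_ h3
    have h4 : δ / 100 ≤ (δ / (4 * Real.pi) - 5 * (δ / 200)) / 5 := by
      have h5 : 3 / 40 * δ ≤ δ / (4 * Real.pi) := by
        rw [le_div_iff₀ (by positivity)]
        nlinarith
      linarith
    gcongr

theorem fiber_le (hn : 1 ≤ n) (hP : P.totalDegree ≤ n) (hQ : Q.totalDegree ≤ n)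
    (hδ : 0 < δ) (hδ1 : δ ≤ 1) {ι : Type*} (F : ι → Fml (vf P Q) δ) (s : Finset ι)
    (hdis : ∀ i ∈ s, ∀ j ∈ s, i ≠ j → ∀ a ∈ Set.Icc 0 δ, Disjoint ((F i).C a) ((F j).C a))
    {N : ℕ} (hN : 0 < N) (hNδ : 2 * Real.pi / N ≤ δ / 200) {t₀ : ℝ} {S : Set (ℝ × ℝ)}
    (hS : ∀ k < N, ∀ z : ℝ × ℝ,
      det2 (vf P Q z) (dirv (t₀ + k * (2 * Real.pi / N))) = 0 →
      cur (vf P Q) 0 z * cur (vf P Q) δ z = 0 → z ∈ S)
    {A : Set (ℝ × ℝ)} (hA : A.Nonempty) (hF : ∀ i ∈ s, S ∩ (F i).hull = A) :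
    (s.card : ℝ) ≤ 170000 * n / δ ^ 3 + 4 := by
  classical
  have hY : ContDiff ℝ 1 (vf P Q) := contDiff_vf P Q
  have h0 : (0 : ℝ) ∈ Set.Icc 0 δ := ⟨le_rfl, hδ.le⟩
  have hn1 : (1 : ℝ) ≤ n := by exact_mod_cast hn
  have hpos : 0 ≤ 170000 * (n : ℝ) / δ ^ 3 := by positivity
  by_contra hcon
  push Not at hcon
  have hcard : 4 < s.card := by
    by_contra h
    push Not at h
    have : (s.card : ℝ) ≤ 4 := by exact_mod_cast h
    linarith
  -- the order
  set r : ι → ι → Prop := fun i j => (F i).Below (F j) with hr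
  have htr : ∀ i j k, r i j → r j k → r i k := fun i j k h h' => Fml.Below.trans hδ.le h h'
  have htot : ∀ i ∈ s, ∀ j ∈ s, i ≠ j → r i j ∨ r j i := by
    intro i hi j hj hij
    rcases fml_rel hY hδ.le hδ1 (F i) (F j) (hdis i hi j hj hij) with h | h | h
    · exact Or.inl h
    · exact Or.inr h
    · exfalso
      obtain ⟨z, hz⟩ := hA
      have hzi : z ∈ (F i).hull := by rw [← hF i hi] at hz; exact hz.2
      have hzj : z ∈ (F j).hull := by rw [← hF j hj] at hz; exact hz.2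
      simp only [Fml.hull, Set.mem_iUnion, exists_prop] at hzi hzj
      obtain ⟨a, ha, hza⟩ := hzi
      obtain ⟨b, hb, hzb⟩ := hzj
      exact Set.disjoint_left.1 (h a ha b hb) hza hzb
  obtain ⟨b0, hb0, hb0'⟩ := exists_bottom r s (Finset.card_pos.1 (by omega)) htot htr
  set s1 := s.erase b0 with hs1
  have hc1 : s1.card = s.card - 1 := Finset.card_erase_of_mem hb0
  have hsub1 : ∀ i ∈ s1, i ∈ s := fun i hi => Finset.mem_of_mem_erase hi
  obtain ⟨b1, hb1, hb1'⟩ := exists_bottom r s1 (Finset.card_pos.1 (by omega))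
    (fun i hi j hj => htot i (hsub1 i hi) j (hsub1 j hj)) htr
  set s2 := s1.erase b1 with hs2
  have hc2 : s2.card = s1.card - 1 := Finset.card_erase_of_mem hb1
  have hsub2 : ∀ i ∈ s2, i ∈ s1 := fun i hi => Finset.mem_of_mem_erase hi
  obtain ⟨b2, hb2, hb2'⟩ := exists_bottom r s2 (Finset.card_pos.1 (by omega))
    (fun i hi j hj => htot i (hsub1 i (hsub2 i hi)) j (hsub1 j (hsub2 j hj))) htr
  set s3 := s2.erase b2 with hs3
  have hc3 : s3.card = s2.card - 1 := Finset.card_erase_of_mem hb2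
  have hsub3 : ∀ i ∈ s3, i ∈ s2 := fun i hi => Finset.mem_of_mem_erase hi
  obtain ⟨tt, htt, htt'⟩ := exists_bottom (fun i j => r j i) s3 (Finset.card_pos.1 (by omega))
    (fun i hi j hj hij => (htot i (hsub1 i (hsub2 i (hsub3 i hi))) j
      (hsub1 j (hsub2 j (hsub3 j hj))) hij).symm) (fun i j k h h' => htr _ _ _ h' h)
  set T := s3.erase tt with hT
  have hcT : T.card = s3.card - 1 := Finset.card_erase_of_mem htt
  have hsubT : ∀ i ∈ T, i ∈ s3 := fun i hi => Finset.mem_of_mem_erase hi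
  have hTs : ∀ i ∈ T, i ∈ s := fun i hi => hsub1 i (hsub2 i (hsub3 i (hsubT i hi)))
  have hcardT : T.card + 4 = s.card := by omega
  have h01 : r b0 b1 := hb0' b1 (hsub1 b1 hb1) (Finset.ne_of_mem_erase hb1)
  have h12 : r b1 b2 := hb1' b2 (hsub2 b2 hb2) (Finset.ne_of_mem_erase hb2)
  have hb2T : ∀ i ∈ T, r b2 i := fun i hi =>
    hb2' i (hsub3 i (hsubT i hi)) (Finset.ne_of_mem_erase (hsubT i hi))
  have hTt : ∀ i ∈ T, r i tt := fun i hi => htt' i (hsubT i hi) (Finset.ne_of_mem_erase hi)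
  have htts : tt ∈ s := hsub1 tt (hsub2 tt (hsub3 tt htt))
  -- the centre
  obtain ⟨q, hq⟩ := ((F b2).jp 0 h0).neD
  obtain ⟨p₀, hp₀, hmax⟩ := ((F b2).jp 0 h0).cptC.exists_isMaxOn ((F b2).jp 0 h0).ne
    (continuous_nm_sub q).continuousOn
  have hmax' : ∀ p ∈ (F b2).C 0, nm (p - q) ≤ nm (p₀ - q) := fun p hp => hmax hp
  have hqp : q ≠ p₀ := by
    rintro rfl
    exact Set.disjoint_left.1 ((F b2).jp 0 h0).disj hq hp₀
  set L : ℝ := nm (p₀ - q) with hL
  have hLpos : 0 < L := nm_pos (sub_ne_zero.2 (Ne.symm hqp))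
  set R : ℝ := 8 * Real.pi * L / δ with hR
  have hpi := Real.pi_gt_three
  have hpi4 := Real.pi_lt_d2
  have hLR : L ≤ R := by
    rw [hR, le_div_iff₀ hδ]
    nlinarith
  have hdich : ∀ i ∈ T, ∀ a ∈ Set.Ioo (δ / 4) (3 * δ / 4),
      IsStar (vf P Q) q (δ / 100) ((F i).C a) ∨ IsNear q L R ((F i).C a) := by
    intro i hi a ha
    refine star_or_near hδ hδ1 hY hN hNδ hS (B0 := F b0) (B1 := F b1) (B2 := F b2) (G := F i)
      (H := F tt) h01 h12 (hb2T i hi) (hTt i hi) ?_ hq hp₀ hmax' ha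
    intro z hzS hz
    have h1 : z ∈ A := by rw [← hF tt htts]; exact ⟨hzS, hz⟩
    rw [← hF b0 hb0] at h1
    exact h1.2
  -- the field as an array
  set μ : Pr n := (arr n P, arr n Q) with hμ
  have hv : vf P Q = vfc μ := vf_eq_vfc hP hQ
  have hstar : ∀ C : Set (ℝ × ℝ), IsStar (vf P Q) q (δ / 100) C →
      IsStar (vfc μ) q (δ / 100) C := fun C hC => by rwa [hv] at hC
  set fs : ℝ → ℝ≥0∞ := fun a => setSum (starInd (vfc μ) q (δ / 100)) (vfc μ) Set.univ a with hfs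
  set fn : ℝ → ℝ≥0∞ := fun a => setSum (nearInd q L R) (vfc μ) Set.univ a with hfn
  have hptw : ∀ a ∈ Set.Ioo (δ / 4) (3 * δ / 4), (T.card : ℝ≥0∞) ≤ fs a + fn a := by
    intro a ha
    have haI : a ∈ Set.Icc 0 δ := ⟨by linarith [ha.1], by linarith [ha.2]⟩
    have hc : ∀ i ∈ T, IsClosedOrbit (turn a (vfc μ)) ((F i).C a) := by
      intro i _
      rw [← hv]
      exact (F i).orb a haI
    have hinj : ∀ i ∈ T, ∀ j ∈ T, (F i).C a = (F j).C a → i = j := by
      intro i hi j hj hij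
      by_contra hne
      have h1 := hdis i (hTs i hi) j (hTs j hj) hne a haI
      rw [hij] at h1
      obtain ⟨z, hz⟩ := ((F j).jp a haI).ne
      exact Set.disjoint_left.1 h1 hz hz
    calc (T.card : ℝ≥0∞) = ∑ i ∈ T, (1 : ℝ≥0∞) := by simp
      _ ≤ ∑ i ∈ T, (starInd (vfc μ) q (δ / 100) ((F i).C a) + nearInd q L R ((F i).C a)) := by
          refine Finset.sum_le_sum fun i hi => ?_
          rcases hdich i hi a ha with h | h
          · have h' := hstar _ h
            rw [starInd, if_pos h']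
            exact le_self_add
          · rw [nearInd, if_pos h]
            exact le_add_self
      _ = ∑ i ∈ T, starInd (vfc μ) q (δ / 100) ((F i).C a) +
          ∑ i ∈ T, nearInd q L R ((F i).C a) := Finset.sum_add_distrib
      _ ≤ fs a + fn a := add_le_add (sum_le_setSum T _ hc hinj) (sum_le_setSum T _ hc hinj)
  have hκ : 0 < δ / 100 := by positivity
  have hmeas : AEMeasurable fs (volume.restrict (Set.Ioo 0 Real.pi)) :=
    setSum_aemeasurable μ isOpen_univ fun G => starInd_measurable q (δ / 100) G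
  have hint : ENNReal.ofReal (δ / 2) * T.card ≤
      ENNReal.ofReal (2 * Real.pi * n / (δ / 100) ^ 2) + ENNReal.ofReal (700 * n * R / L) := by
    calc ENNReal.ofReal (δ / 2) * T.card
        = ∫⁻ _ in Set.Ioo (δ / 4) (3 * δ / 4), (T.card : ℝ≥0∞) := by
          rw [setLIntegral_const, Real.volume_Ioo, mul_comm]
          congr 2
          ring
      _ ≤ ∫⁻ a in Set.Ioo (δ / 4) (3 * δ / 4), (fs a + fn a) :=
          setLIntegral_mono' measurableSet_Ioo hptw
      _ ≤ ∫⁻ a in Set.Ioo 0 Real.pi, (fs a + fn a) :=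
          lintegral_mono_set (Set.Ioo_subset_Ioo (by linarith) (by linarith))
      _ = (∫⁻ a in Set.Ioo 0 Real.pi, fs a) + ∫⁻ a in Set.Ioo 0 Real.pi, fn a :=
          lintegral_add_left' hmeas _
      _ ≤ _ := add_le_add (star_avg μ q hκ) (near_avg hn μ q hLpos hLR)
  have e1 : ENNReal.ofReal (δ / 2) * T.card = ENNReal.ofReal (δ / 2 * T.card) := by
    rw [ENNReal.ofReal_mul (by positivity), ENNReal.ofReal_natCast]
  have hRL : 700 * n * R / L = 5600 * Real.pi * n / δ := by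
    rw [hR]
    field_simp
    ring
  rw [e1, ← ENNReal.ofReal_add (by positivity) (by rw [hRL]; positivity),
    ENNReal.ofReal_le_ofReal_iff (by rw [hRL]; positivity), hRL] at hint
  have hTc : (T.card : ℝ) = s.card - 4 := by
    have : (s.card : ℝ) = T.card + 4 := by exact_mod_cast hcardT.symm
    linarith
  have hbig : 170000 * (n : ℝ) / δ ^ 3 < T.card := by rw [hTc]; linarith
  have h5 : δ / 2 * (170000 * (n : ℝ) / δ ^ 3) < δ / 2 * T.card := by
    apply mul_lt_mul_of_pos_left hbig (by positivity)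
  have h6 : δ / 2 * (170000 * (n : ℝ) / δ ^ 3) = 85000 * n / δ ^ 2 := by
    field_simp
    ring
  have h7 : 2 * Real.pi * n / (δ / 100) ^ 2 = 20000 * Real.pi * n / δ ^ 2 := by
    field_simp
    ring
  have h8 : 5600 * Real.pi * n / δ ≤ 5600 * Real.pi * n / δ ^ 2 := by
    apply div_le_div_of_nonneg_left (by positivity) (by positivity)
    nlinarith
  rw [h6] at h5
  rw [h7] at hint
  have h9 : 20000 * Real.pi * n / δ ^ 2 + 5600 * Real.pi * n / δ ^ 2 ≤ 85000 * n / δ ^ 2 := by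
    rw [← add_div]
    apply div_le_div_of_nonneg_right _ (by positivity)
    nlinarith
  linarith

end Pool.Agent.Lib.MP_95e7ec_an
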