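import Mathlib
import Pool.Agent.Lib.MP_95e7ec_an.Rb.WndInt
import Pool.Agent.Lib.MP_95e7ec_an.Rb.Basic

/-!
# Rb, WndFam: the winding number along a continuous family of closed curves
-/

set_option autoImplicit false

open Set Filter Topology MeasureTheory
open scoped ContDiff ENNReal

namespace Pool.Agent.Lib.MP_95e7ec_an

/-- Let `z a`, `a ∈ [α, β]`, be a continuous family of closed curves with continuous derivatives
and periods, none of which passes through `y`. Then the winding number about `y` is constant.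
Proof: `a ↦ wnd (z a) (w a) (T a) y` is continuous on `[α, β]` (parametric integral with a continuous
integrand and a continuous upper limit; extend everything to all real `a` with `Set.projIcc`), it
takes integer values (`wnd_int`), and `[α, β]` is connected. -/
theorem wnd_family {z w : ℝ → ℝ → ℝ × ℝ} {T : ℝ → ℝ} {α β : ℝ} (hαβ : α ≤ β)
    (hz : ContinuousOn (fun p : ℝ × ℝ => z p.1 p.2) (Set.Icc α β ×ˢ Set.univ))
    (hw : ContinuousOn (fun p : ℝ × ℝ => w p.1 p.2) (Set.Icc α β ×ˢ Set.univ))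
    (hT : ContinuousOn T (Set.Icc α β))
    (hd : ∀ a ∈ Set.Icc α β, ∀ t, HasDerivAt (z a) (w a t) t)
    (hp : ∀ a ∈ Set.Icc α β, z a (T a) = z a 0) {y : ℝ × ℝ}
    (hy : ∀ a ∈ Set.Icc α β, y ∉ Set.range (z a)) :
    wnd (z α) (w α) (T α) y = wnd (z β) (w β) (T β) y := by
  obtain ⟨P, hP⟩ : ∃ P : ℝ → ℝ, P = fun a => ((Set.projIcc α β hαβ a : Set.Icc α β) : ℝ) :=
    ⟨_, rfl⟩
  have hPc : Continuous P := by
    rw [hP]
    exact continuous_subtype_val.comp continuous_projIcc
  have hPm : ∀ a, P a ∈ Set.Icc α β := fun a => by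
    rw [hP]
    exact (Set.projIcc α β hαβ a).2
  have hQ : Continuous fun p : ℝ × ℝ => (P p.1, p.2) :=
    (hPc.comp continuous_fst).prodMk continuous_snd
  have hQm : ∀ p : ℝ × ℝ, (P p.1, p.2) ∈ Set.Icc α β ×ˢ (Set.univ : Set ℝ) :=
    fun p => ⟨hPm p.1, Set.mem_univ _⟩
  have hzc : Continuous fun p : ℝ × ℝ => z (P p.1) p.2 := hz.comp_continuous hQ hQm
  have hwc : Continuous fun p : ℝ × ℝ => w (P p.1) p.2 := hw.comp_continuous hQ hQm
  have hTc : Continuous fun a : ℝ => T (P a) := hT.comp_continuous hPc hPm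
  have hne : ∀ p : ℝ × ℝ, nm (z (P p.1) p.2 - y) ^ 2 ≠ 0 := by
    intro p h
    rw [nm_sq] at h
    apply hy (P p.1) (hPm p.1)
    refine ⟨p.2, ?_⟩
    have h1 : (z (P p.1) p.2 - y).1 = 0 := by
      nlinarith [sq_nonneg (z (P p.1) p.2 - y).1, sq_nonneg (z (P p.1) p.2 - y).2]
    have h2 : (z (P p.1) p.2 - y).2 = 0 := by
      nlinarith [sq_nonneg (z (P p.1) p.2 - y).1, sq_nonneg (z (P p.1) p.2 - y).2]
    have h3 : z (P p.1) p.2 - y = 0 := Prod.ext h1 h2
    exact sub_eq_zero.1 h3
  have hzy : Continuous fun p : ℝ × ℝ => z (P p.1) p.2 - y := hzc.sub continuous_const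
  have hg : Continuous fun p : ℝ × ℝ =>
      det2 (z (P p.1) p.2 - y) (w (P p.1) p.2) / nm (z (P p.1) p.2 - y) ^ 2 := by
    refine Continuous.div (rb_continuous_det2.comp (hzy.prodMk hwc)) ?_ hne
    simp only [nm_sq]
    exact ((continuous_fst.comp hzy).pow 2).add ((continuous_snd.comp hzy).pow 2)
  have hW : Continuous fun a : ℝ => wnd (z (P a)) (w (P a)) (T (P a)) y := by
    unfold wnd
    refine Continuous.div_const ?_ _
    exact intervalIntegral.continuous_parametric_intervalIntegral_of_continuous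
      (f := fun a t => det2 (z (P a) t - y) (w (P a) t) / nm (z (P a) t - y) ^ 2) hg hTc
  have hI : ∀ a : ℝ, ∃ m : ℤ, wnd (z (P a)) (w (P a)) (T (P a)) y = m := by
    intro a
    have hwa : Continuous (w (P a)) := by
      have h1 : Continuous fun t : ℝ => ((a, t) : ℝ × ℝ) := by fun_prop
      exact hwc.comp h1
    exact wnd_int (hd _ (hPm a)) hwa (hp _ (hPm a)) (hy _ (hPm a))
  choose h hh using hI
  have hc : Continuous h := by
    rw [Int.isClosedEmbedding_coe_real.isEmbedding.continuous_iff]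
    have : (Int.cast ∘ h : ℝ → ℝ) = fun a : ℝ => wnd (z (P a)) (w (P a)) (T (P a)) y := by
      funext a
      exact (hh a).symm
    rw [this]
    exact hW
  have hk : h α = h β := PreconnectedSpace.constant inferInstance hc
  have h1 := hh α
  have h2 := hh β
  rw [hk, ← h2] at h1
  have e1 : P α = α := by rw [hP]; simp
  have e2 : P β = β := by rw [hP]; simp
  rwa [e1, e2] at h1

end Pool.Agent.Lib.MP_95e7ec_an
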