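import Mathlib
import Pool.Agent.Lib.MP_95e7ec_an.Rb.Barrier
import Pool.Agent.Lib.MP_95e7ec_an.Rb.WndFam
import Pool.Agent.Lib.MP_95e7ec_an.Rb.FamTop
import Pool.Agent.Lib.MP_95e7ec_an.Rb.SideLem
import Pool.Agent.Lib.MP_95e7ec_an.Rb.Time

/-!
# Rb, FmlOf: a persisting closed orbit gives a family
-/

set_option autoImplicit false

open Set Filter Topology MeasureTheory
open scoped ContDiff ENNReal

namespace Pool.Agent.Lib.MP_95e7ec_an

/-- the derivatives of the family are continuous -/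
private theorem fmlOf_wcont {v : ℝ × ℝ → ℝ × ℝ} (hv : Continuous v) {z : ℝ → ℝ → ℝ × ℝ}
    {s : Set ℝ} (hz : ContinuousOn (fun p : ℝ × ℝ => z p.1 p.2) (s ×ˢ Set.univ)) :
    ContinuousOn (fun p : ℝ × ℝ => turn p.1 v (z p.1 p.2)) (s ×ˢ Set.univ) := by
  have h1 : ContinuousOn (fun p : ℝ × ℝ => v (z p.1 p.2)) (s ×ˢ Set.univ) :=
    hv.comp_continuousOn hz
  have h2 : ContinuousOn (fun p : ℝ × ℝ => Real.cos p.1) (s ×ˢ Set.univ) :=
    (Real.continuous_cos.comp continuous_fst).continuousOn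
  have h3 : ContinuousOn (fun p : ℝ × ℝ => Real.sin p.1) (s ×ˢ Set.univ) :=
    (Real.continuous_sin.comp continuous_fst).continuousOn
  unfold turn
  exact ((h2.mul h1.fst).sub (h3.mul h1.snd)).prodMk ((h3.mul h1.fst).add (h2.mul h1.snd))

/-- the winding number about a point which is avoided by the family is constant -/
private theorem fmlOf_wnd {v : ℝ × ℝ → ℝ × ℝ} (hv : Continuous v) {δ : ℝ}
    {z : ℝ → ℝ → ℝ × ℝ} {T : ℝ → ℝ}
    (hz : ContinuousOn (fun p : ℝ × ℝ => z p.1 p.2) (Set.Icc 0 δ ×ˢ Set.univ))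
    (hT : ContinuousOn T (Set.Icc 0 δ))
    (h : ∀ a ∈ Set.Icc 0 δ, 0 < T a ∧ (∀ t : ℝ, HasDerivAt (z a) (turn a v (z a t)) t) ∧
      (∀ t : ℝ, z a (t + T a) = z a t) ∧ ∃ s t : ℝ, z a s ≠ z a t)
    {α β : ℝ} (hα : 0 ≤ α) (hαβ : α ≤ β) (hβ : β ≤ δ) {y : ℝ × ℝ}
    (hy : ∀ a ∈ Set.Icc α β, y ∉ Set.range (z a)) :
    wnd (z α) (fun t => turn α v (z α t)) (T α) y =
      wnd (z β) (fun t => turn β v (z β t)) (T β) y := by
  have hsub : Set.Icc α β ⊆ Set.Icc 0 δ := Set.Icc_subset_Icc hα hβ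
  have hsub2 : Set.Icc α β ×ˢ (Set.univ : Set ℝ) ⊆ Set.Icc 0 δ ×ˢ Set.univ :=
    Set.prod_mono hsub subset_rfl
  exact wnd_family (z := z) (w := fun a t => turn a v (z a t)) hαβ (hz.mono hsub2)
    ((fmlOf_wcont hv hz).mono hsub2) (hT.mono hsub) (fun a ha => (h a (hsub ha)).2.1)
    (fun a ha => by simpa using (h a (hsub ha)).2.2.1 0) hy

/-- a locally constant function with values `1, -1` is constant on an interval -/
private theorem fmlOf_const {δ : ℝ} {ε : ℝ → ℝ} (h1 : ∀ a ∈ Set.Icc 0 δ, ε a = 1 ∨ ε a = -1)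
    (h2 : ∀ a ∈ Set.Icc 0 δ, ∃ η : ℝ, 0 < η ∧ ∀ b ∈ Set.Icc 0 δ, |b - a| < η → ε b = ε a) :
    ∀ a ∈ Set.Icc 0 δ, ∀ b ∈ Set.Icc 0 δ, ε a = ε b := by
  have hc : ContinuousOn ε (Set.Icc 0 δ) := by
    rw [Metric.continuousOn_iff]
    intro a ha e he
    obtain ⟨η, hη, hb⟩ := h2 a ha
    refine ⟨η, hη, fun b hb' hd => ?_⟩
    rw [hb b hb' hd, dist_self]
    exact he
  have key : ∀ a ∈ Set.Icc 0 δ, ∀ b ∈ Set.Icc 0 δ, ε a = 1 → ε b = -1 → False := by
    intro a ha b hb h3 h4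
    obtain ⟨c, hcm, hc0⟩ := isPreconnected_Icc.intermediate_value hb ha hc
      (show (0 : ℝ) ∈ Set.Icc (ε b) (ε a) by rw [h3, h4]; constructor <;> norm_num)
    rcases h1 c hcm with h5 | h5 <;> rw [h5] at hc0 <;> norm_num at hc0
  intro a ha b hb
  rcases h1 a ha with h3 | h3 <;> rcases h1 b hb with h4 | h4
  · rw [h3, h4]
  · exact (key a ha b hb h3 h4).elim
  · exact (key b hb a ha h4 h3).elim
  · rw [h3, h4]

/-- the signs of two winding numbers -/
private theorem fmlOf_sgn {e e' w w' : ℝ} (he : e = 1 ∨ e = -1) (he' : e' = 1 ∨ e' = -1)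
    (hw : w = w') (h0 : w ≠ 0) (h1 : 0 ≤ e * w) (h2 : 0 ≤ e' * w') : e' = e := by
  subst hw
  rcases he with rfl | rfl <;> rcases he' with rfl | rfl
  · rfl
  · exact (h0 (by linarith)).elim
  · exact (h0 (by linarith)).elim
  · rfl

/-- The orientation sign of a continuous family of closed orbits is constant.
Proof: let `ε a` be the sign of `exists_barrier` for the field `turn a v`, it is unique since `ε a` has
the sign of the winding number about any inside point. Fix `a₀` and an inside point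
`y` of `range (z a₀)` (`wnd ≠ 0`). For `a` near `a₀` the curve `range (z a)` avoids `y`
(`family_usc`), so `wnd_family` on `[a₀, a]` or `[a, a₀]` gives the same winding number, so
`ε a = ε a₀`. Hence `ε` is locally constant on the connected `[0, δ]`. -/
theorem family_sign {v : ℝ × ℝ → ℝ × ℝ} (hv : ContDiff ℝ 1 v) {δ : ℝ} (hδ : 0 ≤ δ)
    {z : ℝ → ℝ → ℝ × ℝ} {T : ℝ → ℝ}
    (hz : ContinuousOn (fun p : ℝ × ℝ => z p.1 p.2) (Set.Icc 0 δ ×ˢ Set.univ))
    (hT : ContinuousOn T (Set.Icc 0 δ))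
    (h : ∀ a ∈ Set.Icc 0 δ, 0 < T a ∧ (∀ t : ℝ, HasDerivAt (z a) (turn a v (z a t)) t) ∧
      (∀ t : ℝ, z a (t + T a) = z a t) ∧ ∃ s t : ℝ, z a s ≠ z a t) :
    ∃ ε : ℝ, (ε = 1 ∨ ε = -1) ∧ ∀ a ∈ Set.Icc 0 δ,
      JP (Set.range (z a))
        {y | y ∉ Set.range (z a) ∧ wnd (z a) (fun t => turn a v (z a t)) (T a) y ≠ 0} ∧
      Side (fun p => ε • turn a v p) (Set.range (z a))
        {y | y ∉ Set.range (z a) ∧ wnd (z a) (fun t => turn a v (z a t)) (T a) y ≠ 0} := by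
  have key := fun a (ha : a ∈ Set.Icc 0 δ) => exists_barrier (contDiff_turn hv a) (h a ha).1
    (h a ha).2.1 (h a ha).2.2.1 (h a ha).2.2.2
  choose! ε hε hJP hSide hpos using key
  have hloc : ∀ a ∈ Set.Icc 0 δ, ∃ η : ℝ, 0 < η ∧ ∀ b ∈ Set.Icc 0 δ, |b - a| < η → ε b = ε a := by
    intro a ha
    obtain ⟨y, hy1, hy2⟩ := (hJP a ha).neD
    obtain ⟨η, hη, hU⟩ := family_usc hz hT (fun a ha => (h a ha).1) (fun a ha => (h a ha).2.2.1) a ha
      {y}ᶜ isOpen_compl_singleton (fun q hq hqy => hy1 (by rwa [Set.mem_singleton_iff.1 hqy] at hq))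
    refine ⟨η, hη, fun b hb hba => ?_⟩
    have hoff : ∀ c ∈ Set.Icc 0 δ, |c - a| < η → y ∉ Set.range (z c) := fun c hc hca hyc =>
      hU c hc hca hyc rfl
    have hw : wnd (z a) (fun t => turn a v (z a t)) (T a) y =
        wnd (z b) (fun t => turn b v (z b t)) (T b) y := by
      rcases le_total a b with hab | hab
      · refine fmlOf_wnd hv.continuous hz hT h ha.1 hab hb.2 fun c hc =>
          hoff c ⟨ha.1.trans hc.1, hc.2.trans hb.2⟩ (lt_of_le_of_lt ?_ hba)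
        rw [abs_of_nonneg (by linarith [hc.1]), abs_of_nonneg (by linarith)]
        linarith [hc.2]
      · refine (fmlOf_wnd hv.continuous hz hT h hb.1 hab ha.2 fun c hc =>
          hoff c ⟨hb.1.trans hc.1, hc.2.trans ha.2⟩ (lt_of_le_of_lt ?_ hba)).symm
        rw [abs_of_nonpos (by linarith [hc.2]), abs_of_nonpos (by linarith)]
        linarith [hc.1]
    exact fmlOf_sgn (hε a ha) (hε b hb) hw hy2 (hpos a ha y hy1) (hpos b hb y (hoff b hb hba))
  have h0 : (0 : ℝ) ∈ Set.Icc 0 δ := ⟨le_rfl, hδ⟩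
  refine ⟨ε 0, hε 0 h0, fun a ha => ?_⟩
  have he : ε 0 = ε a := fmlOf_const hε hloc 0 h0 a ha
  rw [he]
  exact ⟨hJP a ha, hSide a ha⟩

/-- construction of the family -/
private theorem fmlOf_build {v W : ℝ × ℝ → ℝ × ℝ} {f : ℝ × ℝ → ℝ} (hv : ContDiff ℝ 1 v)
    (hf : Continuous f) (hvW : ∀ z, v z = f z • W z) {δ : ℝ} {z : ℝ → ℝ → ℝ × ℝ} {T : ℝ → ℝ}
    (hz : ContinuousOn (fun p : ℝ × ℝ => z p.1 p.2) (Set.Icc 0 δ ×ˢ Set.univ))
    (hT : ContinuousOn T (Set.Icc 0 δ))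
    (h : ∀ a ∈ Set.Icc 0 δ, 0 < T a ∧ (∀ t : ℝ, HasDerivAt (z a) (turn a v (z a t)) t) ∧
      (∀ t : ℝ, z a (t + T a) = z a t) ∧ ∃ s t : ℝ, z a s ≠ z a t)
    {ε : ℝ} (hfam : ∀ a ∈ Set.Icc 0 δ,
      JP (Set.range (z a))
        {y | y ∉ Set.range (z a) ∧ wnd (z a) (fun t => turn a v (z a t)) (T a) y ≠ 0} ∧
      Side (fun p => ε • turn a v p) (Set.range (z a))
        {y | y ∉ Set.range (z a) ∧ wnd (z a) (fun t => turn a v (z a t)) (T a) y ≠ 0})
    (hpos : ∀ a ∈ Set.Icc 0 δ, ∀ p ∈ Set.range (z a), 0 < ε * f p) :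
    ∃ F : Fml W δ, F.C 0 = Set.range (z 0) := by
  refine ⟨{ C := fun a => Set.range (z a)
            D := fun a => {y | y ∉ Set.range (z a) ∧
              wnd (z a) (fun t => turn a v (z a t)) (T a) y ≠ 0}
            orb := fun a ha => ?_
            jp := fun a ha => (hfam a ha).1
            side := fun a ha => ?_
            sweep := fun α β hα hαβ hβ y hy => ?_
            usc := ?_
            cpt := fun α β hα hαβ hβ => ?_
            conn := fun α β hα hαβ hβ => ?_ }, rfl⟩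
  · exact IsClosedOrbit.of_smul_field hf (contDiff_turn hv a)
      (fun p => congrFun (turn_smul_field hvW a) p)
      ⟨z a, T a, (h a ha).1, (h a ha).2.1, (h a ha).2.2.1, (h a ha).2.2.2, rfl⟩
  · refine (hfam a ha).2.smul fun p hp => ⟨(ε * f p)⁻¹, inv_pos.2 (hpos a ha p hp), ?_⟩
    have h1 : turn a v p = f p • turn a W p := congrFun (turn_smul_field hvW a) p
    show turn a W p = (ε * f p)⁻¹ • (ε • turn a v p)
    rw [h1, smul_smul, smul_smul, mul_assoc, inv_mul_cancel₀ (hpos a ha p hp).ne', one_smul]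
  · have hw := fmlOf_wnd hv.continuous hz hT h hα hαβ hβ hy
    have h1 := hy α ⟨le_rfl, hαβ⟩
    have h2 := hy β ⟨hαβ, le_rfl⟩
    simp only [Set.mem_ofPred_eq]
    rw [hw]
    tauto
  · exact family_usc hz hT (fun a ha => (h a ha).1) (fun a ha => (h a ha).2.2.1)
  · have hsub : Set.Icc α β ⊆ Set.Icc 0 δ := Set.Icc_subset_Icc hα hβ
    exact family_cpt (hz.mono (Set.prod_mono hsub subset_rfl)) (hT.mono hsub)
      (fun a ha => (h a (hsub ha)).1) (fun a ha => (h a (hsub ha)).2.2.1)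
  · exact family_conn (hz.mono (Set.prod_mono (Set.Icc_subset_Icc hα hβ) subset_rfl))

/-- A persisting closed orbit of `v = g Y` gives a family for `Y` or for `-Y`.
Proof: `C a = range (z a)`, `D a` the points off `C a` with nonzero winding number, `ε` from
`family_sign`; `g` is nonzero on the connected set `⋃ C a` (`family_conn`), so it has a constant sign
`σ` there; the sign of the family is `s = ε σ`. `orb`: `C a` is a closed orbit of `turn a v`, and
`turn a v = g • turn a Y` (`turn_smul_field` in Zeros.lean), so `IsClosedOrbit.of_smul_field`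
(and `IsClosedOrbit.neg`, and `turn a (-Y) = - turn a Y`). `side`: `Side.smul`. `sweep`:
`wnd_family`. `usc`, `cpt`, `conn`: FamTop. -/
theorem exists_fml {v Y : ℝ × ℝ → ℝ × ℝ} {g : ℝ × ℝ → ℝ} (hv : ContDiff ℝ 1 v)
    (hY : ContDiff ℝ 1 Y) (hg : Continuous g) (h : ∀ z, v z = g z • Y z) {δ : ℝ} (hδ : 0 ≤ δ)
    {C : Set (ℝ × ℝ)} (hC : Persists v δ C) :
    (∃ F : Fml Y δ, F.C 0 = C) ∨ ∃ F : Fml (fun z => -Y z) δ, F.C 0 = C := by
  obtain ⟨z, T, hz, hT, hfam, rfl⟩ := hC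
  obtain ⟨ε, hε, hJS⟩ := family_sign hv hδ hz hT hfam
  have hgne : ∀ a ∈ Set.Icc 0 δ, ∀ p ∈ Set.range (z a), g p ≠ 0 := by
    intro a ha p hp h0
    have hco : IsClosedOrbit (turn a v) (Set.range (z a)) :=
      ⟨z a, T a, (hfam a ha).1, (hfam a ha).2.1, (hfam a ha).2.2.1, (hfam a ha).2.2.2, rfl⟩
    apply hco.ne_zero_of_contDiff (contDiff_turn hv a) hp
    have h1 : turn a v p = g p • turn a Y p := congrFun (turn_smul_field h a) p
    rw [h1, h0, zero_smul]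
  have hconn : IsPreconnected (⋃ a ∈ Set.Icc 0 δ, Set.range (z a)) := family_conn hz
  have hgne' : ∀ p ∈ ⋃ a ∈ Set.Icc 0 δ, Set.range (z a), g p ≠ 0 := by
    intro p hp
    obtain ⟨a, ha, hpa⟩ := Set.mem_iUnion₂.1 hp
    exact hgne a ha p hpa
  have h00 : z 0 0 ∈ ⋃ a ∈ Set.Icc 0 δ, Set.range (z a) :=
    Set.mem_iUnion₂.2 ⟨0, ⟨le_rfl, hδ⟩, 0, rfl⟩
  have hsgn : (∀ p ∈ ⋃ a ∈ Set.Icc 0 δ, Set.range (z a), 0 < g p) ∨
      ∀ p ∈ ⋃ a ∈ Set.Icc 0 δ, Set.range (z a), g p < 0 := by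
    rcases lt_or_gt_of_ne (hgne' _ h00) with hneg | hpos
    · right
      intro p hp
      by_contra hcon
      obtain ⟨w, hw, hw0⟩ := hconn.intermediate_value h00 hp hg.continuousOn
        (show (0 : ℝ) ∈ Set.Icc (g (z 0 0)) (g p) from ⟨hneg.le, by linarith⟩)
      exact hgne' w hw hw0
    · left
      intro p hp
      by_contra hcon
      obtain ⟨w, hw, hw0⟩ := hconn.intermediate_value hp h00 hg.continuousOn
        (show (0 : ℝ) ∈ Set.Icc (g p) (g (z 0 0)) from ⟨by linarith, hpos.le⟩)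
      exact hgne' w hw hw0
  have hneg' : ∀ z, v z = (fun p => -g p) z • (fun p => -Y p) z := by
    intro z
    rw [h z]
    simp
  have hmem : ∀ a ∈ Set.Icc 0 δ, ∀ p ∈ Set.range (z a), p ∈ ⋃ a ∈ Set.Icc 0 δ, Set.range (z a) :=
    fun a ha p hp => Set.mem_iUnion₂.2 ⟨a, ha, hp⟩
  rcases hsgn with hsg | hsg <;> rcases hε with rfl | rfl
  · left
    exact fmlOf_build hv hg h hz hT hfam hJS fun a ha p hp => by
      have := hsg p (hmem a ha p hp); linarith
  · right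
    exact fmlOf_build hv hg.neg hneg' hz hT hfam hJS fun a ha p hp => by
      have := hsg p (hmem a ha p hp)
      simp only [Pi.neg_apply]
      linarith
  · right
    exact fmlOf_build hv hg.neg hneg' hz hT hfam hJS fun a ha p hp => by
      have := hsg p (hmem a ha p hp)
      simp only [Pi.neg_apply]
      linarith
  · left
    exact fmlOf_build hv hg h hz hT hfam hJS fun a ha p hp => by
      have := hsg p (hmem a ha p hp); linarith

end Pool.Agent.Lib.MP_95e7ec_an
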