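import Mathlib

/-!
# Rb, Laminar: the size of a laminar family
-/

set_option autoImplicit false

namespace Pool.Agent.Lib.MP_95e7ec_an

/-- two members `A`, `B` without `x` such that also `insert x A`, `insert x B` are members are
nested, in the direction `A ⊆ B`, only if they are equal -/
private theorem laminar_aux {α : Type*} [DecidableEq α] {x : α} {A B A' : Finset α}
    (hxB : x ∉ B) (hA : A.Nonempty) (hA' : insert x A = A')
    (hAB : A ⊆ B) (hlam : A' ⊆ B ∨ B ⊆ A' ∨ Disjoint A' B) : A = B := by
  subst hA'
  rcases hlam with h | h | h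
  · exact absurd (h (Finset.mem_insert_self x A)) hxB
  · refine Finset.Subset.antisymm hAB ?_
    intro y hy
    rcases Finset.mem_insert.1 (h hy) with rfl | h'
    · exact absurd hy hxB
    · exact h'
  · obtain ⟨y, hy⟩ := hA
    exact absurd (hAB hy) (Finset.disjoint_left.1 h (Finset.mem_insert_of_mem hy))

/-- A laminar family of nonempty subsets of `S` has at most `2 |S|` members.

Proof by induction on `S` (`Finset.induction_on`): remove `x` from `insert x S`. The map
`A ↦ A.erase x` sends `𝒜` to a laminar family of subsets of `S`; let `𝒜'` be its nonempty members. Only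
`{x}` is sent to `∅`, and two different `A`, `B` have the same image only if `B = insert x A` or
vice versa. There is at most one `A` with `x ∉ A`, `A ∈ 𝒜`, `insert x A ∈ 𝒜`: for two such `A ≠ B` the
sets `insert x A`, `insert x B` meet in `x`, so say `A ⊆ B`, and then `insert x A` and `B` are
neither nested nor disjoint. So `|𝒜| ≤ |𝒜'| + 2`. -/
theorem laminar_card {α : Type*} [DecidableEq α] (S : Finset α) (𝒜 : Finset (Finset α))
    (hsub : ∀ A ∈ 𝒜, A ⊆ S) (hne : ∀ A ∈ 𝒜, A.Nonempty)
    (hlam : ∀ A ∈ 𝒜, ∀ B ∈ 𝒜, A ⊆ B ∨ B ⊆ A ∨ Disjoint A B) : 𝒜.card ≤ 2 * S.card := by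
  induction S using Finset.induction_on generalizing 𝒜 with
  | empty =>
    have h0 : 𝒜 = ∅ := by
      refine Finset.eq_empty_of_forall_notMem fun A hA => ?_
      obtain ⟨y, hy⟩ := hne A hA
      exact absurd (hsub A hA hy) (Finset.notMem_empty y)
    simp [h0]
  | insert x S hx ih =>
    set B0 : Finset (Finset α) := 𝒜.filter (fun A => x ∉ A) with hB0
    set C0 : Finset (Finset α) := 𝒜.filter (fun A => x ∈ A) with hC0
    set C1 : Finset (Finset α) := C0.image (fun A => A.erase x) with hC1
    have hcard : 𝒜.card = C0.card + B0.card := by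
      rw [hB0, hC0]
      exact (Finset.card_filter_add_card_filter_not (s := 𝒜) (fun A => x ∈ A)).symm
    have hC1card : C1.card = C0.card := by
      rw [hC1]
      refine Finset.card_image_of_injOn ?_
      intro A hA B hB hAB
      have hA' : x ∈ A := by
        have : A ∈ C0 := hA
        rw [hC0, Finset.mem_filter] at this
        exact this.2
      have hB' : x ∈ B := by
        have : B ∈ C0 := hB
        rw [hC0, Finset.mem_filter] at this
        exact this.2
      have h1 : A.erase x = B.erase x := hAB
      rw [← Finset.insert_erase hA', ← Finset.insert_erase hB', h1]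
    -- every member of the new family is the image of a member
    have hmem : ∀ A ∈ B0 ∪ C1, ∃ A' ∈ 𝒜, A = A'.erase x := by
      intro A hA
      rcases Finset.mem_union.1 hA with h | h
      · rw [hB0, Finset.mem_filter] at h
        exact ⟨A, h.1, (Finset.erase_eq_of_notMem h.2).symm⟩
      · rw [hC1, Finset.mem_image] at h
        obtain ⟨A', hA', rfl⟩ := h
        rw [hC0, Finset.mem_filter] at hA'
        exact ⟨A', hA'.1, rfl⟩
    have hinter : (B0 ∩ C1).card ≤ 1 := by
      rw [Finset.card_le_one]
      intro A hA B hB
      have key : ∀ A ∈ B0 ∩ C1, A ∈ 𝒜 ∧ x ∉ A ∧ insert x A ∈ 𝒜 := by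
        intro A hA
        obtain ⟨h1, h2⟩ := Finset.mem_inter.1 hA
        rw [hB0, Finset.mem_filter] at h1
        rw [hC1, Finset.mem_image] at h2
        obtain ⟨A', hA', h3⟩ := h2
        rw [hC0, Finset.mem_filter] at hA'
        refine ⟨h1.1, h1.2, ?_⟩
        rw [← h3, Finset.insert_erase hA'.2]
        exact hA'.1
      obtain ⟨hA1, hA2, hA3⟩ := key A hA
      obtain ⟨hB1, hB2, hB3⟩ := key B hB
      rcases hlam A hA1 B hB1 with h | h | h
      · exact laminar_aux hB2 (hne A hA1) rfl h (hlam _ hA3 _ hB1)
      · exact (laminar_aux hA2 (hne B hB1) rfl h (hlam _ hB3 _ hA1)).symm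
      · exfalso
        have hins : ∀ {A B : Finset α}, x ∉ A → A.Nonempty → Disjoint A B →
            ¬ insert x A ⊆ insert x B := by
          intro A B hxA hA hd hs
          obtain ⟨y, hy⟩ := hA
          rcases Finset.mem_insert.1 (hs (Finset.mem_insert_of_mem hy)) with rfl | h'
          · exact hxA hy
          · exact Finset.disjoint_left.1 hd hy h'
        rcases hlam _ hA3 _ hB3 with h' | h' | h'
        · exact hins hA2 (hne A hA1) h h'
        · exact hins hB2 (hne B hB1) h.symm h'
        · exact Finset.disjoint_left.1 h' (Finset.mem_insert_self x A)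
            (Finset.mem_insert_self x B)
    have hih : ((B0 ∪ C1).erase ∅).card ≤ 2 * S.card := by
      refine ih _ ?_ ?_ ?_
      · intro A hA
        obtain ⟨A', hA', rfl⟩ := hmem A (Finset.mem_of_mem_erase hA)
        intro y hy
        obtain ⟨h1, h2⟩ := Finset.mem_erase.1 hy
        rcases Finset.mem_insert.1 (hsub A' hA' h2) with h | h
        · exact absurd h h1
        · exact h
      · intro A hA
        exact Finset.nonempty_iff_ne_empty.2 (Finset.ne_of_mem_erase hA)
      · intro A hA B hB
        obtain ⟨A', hA', rfl⟩ := hmem A (Finset.mem_of_mem_erase hA)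
        obtain ⟨B', hB', rfl⟩ := hmem B (Finset.mem_of_mem_erase hB)
        rcases hlam A' hA' B' hB' with h | h | h
        · exact Or.inl (Finset.erase_subset_erase x h)
        · exact Or.inr (Or.inl (Finset.erase_subset_erase x h))
        · exact Or.inr (Or.inr (h.mono (Finset.erase_subset x A') (Finset.erase_subset x B')))
    have hun : (B0 ∪ C1).card ≤ ((B0 ∪ C1).erase ∅).card + 1 :=
      Nat.le_add_of_sub_le Finset.pred_card_le_card_erase
    have hui : (B0 ∪ C1).card + (B0 ∩ C1).card = B0.card + C1.card :=
      Finset.card_union_add_card_inter B0 C1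
    rw [Finset.card_insert_of_notMem hx, hcard]
    omega

end Pool.Agent.Lib.MP_95e7ec_an
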