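import Mathlib
import Pool.Agent.Lib.MP_95e7ec_an.Rb.Move
import Pool.Agent.Lib.MP_95e7ec_an.Rb.Basic

/-!
# Rb, SpecIn: every filled curve contains a special point of every direction
-/

set_option autoImplicit false

open Set Filter Topology MeasureTheory
open scoped ContDiff ENNReal

namespace Pool.Agent.Lib.MP_95e7ec_an

/-- `det2 · e` has no maximum on an open set -/
private theorem SpecIn_not_max {D : Set (ℝ × ℝ)} (hD : IsOpen D) {p : ℝ × ℝ} (hp : p ∈ D) (c : ℝ)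
    (hmax : ∀ w ∈ D, det2 w (dirv c) ≤ det2 p (dirv c)) : False := by
  obtain ⟨η, hη, h1⟩ := move_open hD hp (-(-Real.sin c, Real.cos c))
  have h2 : ∀ᶠ ε in 𝓝[>] (0 : ℝ), ε ∈ Set.Ioi (0 : ℝ) := self_mem_nhdsWithin
  obtain ⟨ε, hε1, hε2⟩ := (h1.and h2).exists
  have hε : 0 < ε := hε2
  have h3 := hε1 (p + ε • (-(-Real.sin c, Real.cos c))) (by
    have h4 : p + ε • (-(-Real.sin c, Real.cos c)) - p - ε • (-(-Real.sin c, Real.cos c)) =
        (0 : ℝ × ℝ) := by abel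
    rw [h4, rb_nm_zero]
    positivity)
  have h5 := hmax _ h3
  rw [rb_det2_add_left, rb_det2_smul_left] at h5
  have h6 : det2 (-(-Real.sin c, Real.cos c)) (dirv c) = 1 := by
    simp only [det2, dirv, Prod.neg_mk, neg_neg]
    nlinarith [Real.sin_sq_add_cos_sq c]
  rw [h6] at h5
  linarith

private theorem SpecIn_fst {f : ℝ → ℝ × ℝ} {f' : ℝ × ℝ} {t : ℝ} (h : HasDerivAt f f' t) :
    HasDerivAt (fun s => (f s).1) f'.1 t := by
  have h1 := (ContinuousLinearMap.fst ℝ ℝ ℝ).hasFDerivAt.comp_hasDerivAt t h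
  simpa [Function.comp_def] using h1

private theorem SpecIn_snd {f : ℝ → ℝ × ℝ} {f' : ℝ × ℝ} {t : ℝ} (h : HasDerivAt f f' t) :
    HasDerivAt (fun s => (f s).2) f'.2 t := by
  have h1 := (ContinuousLinearMap.snd ℝ ℝ ℝ).hasFDerivAt.comp_hasDerivAt t h
  simpa [Function.comp_def] using h1

/-- Proof. Suppose not: then for `w ∈ D ∪ C` with `det2 (Y w) e = 0` (`e = dirv c`) one has
`cur Y 0 w ≠ 0`, in particular `Y w ≠ 0` (if `Y w = 0` then `cur Y 0 w = 0`). Let `G` be the set of the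
`w ∈ D ∪ C` with `Y w = ρ e`, `ρ > 0`; it is compact. It is nonempty: the maximum of `det2 w e` over
the compact set `D ∪ C` is attained on `C` (not in the open set `D`), and `Side.dir_of_max` applies.
Take `w ∈ G` with minimal `det2 w e`. By `cur_of_dir` (`ψ = 0`), `ℓ e ≠ 0`, so `move_exists` gives `v`
with `det2 v e = -1` and points `w'` with `Y w' = ρ' e`, `ρ' > 0`, `det2 w' e < det2 w e` (`move_det`),
and `w' ∈ D` (`move_open` if `w ∈ D`, `Side.into` if `w ∈ C` since `det2 v (Y w) = -ρ < 0`).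
Contradiction. -/
theorem special_inside {Y : ℝ × ℝ → ℝ × ℝ} (hY : ContDiff ℝ 1 Y) {C D : Set (ℝ × ℝ)}
    (h : JP C D) (hs : Side Y C D) (c : ℝ) :
    ∃ w ∈ D ∪ C, det2 (Y w) (dirv c) = 0 ∧ cur Y 0 w = 0 := by
  by_contra hno
  push Not at hno
  have hYc : Continuous Y := hY.continuous
  have hlin : Continuous fun w : ℝ × ℝ => det2 w (dirv c) := by
    unfold det2
    fun_prop
  have hY0 : ∀ w ∈ D ∪ C, Y w ≠ 0 := by
    intro w hw h0
    refine hno w hw ?_ ?_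
    · rw [h0]; simp [det2]
    · rw [cur, h0]; simp [det2]
  set G : Set (ℝ × ℝ) := {w | w ∈ D ∪ C ∧ det2 (Y w) (dirv c) = 0 ∧
    0 ≤ (Y w).1 * Real.cos c + (Y w).2 * Real.sin c} with hG
  have hGc : IsCompact G := by
    have h1 : IsClosed {w : ℝ × ℝ | det2 (Y w) (dirv c) = 0 ∧
        0 ≤ (Y w).1 * Real.cos c + (Y w).2 * Real.sin c} := by
      refine IsClosed.and ?_ ?_
      · exact isClosed_eq (hlin.comp hYc) continuous_const
      · exact isClosed_le continuous_const (by fun_prop)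
    exact h.cpt.inter_right h1
  have hGdir : ∀ w ∈ G, ∃ ρ : ℝ, 0 < ρ ∧ Y w = ρ • dirv c := by
    rintro w ⟨hw, h1, h2⟩
    refine ⟨(Y w).1 * Real.cos c + (Y w).2 * Real.sin c, lt_of_le_of_ne h2 ?_, rb_parallel h1⟩
    intro h3
    refine hY0 w hw ?_
    rw [rb_parallel h1, ← h3, zero_smul]
  have hdirG : ∀ w ∈ D ∪ C, (∃ ρ : ℝ, 0 < ρ ∧ Y w = ρ • dirv c) → w ∈ G := by
    rintro w hw ⟨ρ, hρ, h1⟩
    refine ⟨hw, ?_, ?_⟩
    · rw [h1, rb_det2_smul_left, rb_det2_self, mul_zero]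
    · rw [h1]
      simp only [dirv, Prod.smul_fst, Prod.smul_snd, smul_eq_mul]
      nlinarith [Real.sin_sq_add_cos_sq c, mul_pos hρ one_pos]
  have hGne : G.Nonempty := by
    obtain ⟨p, hp, hmax⟩ := h.cpt.exists_isMaxOn (h.ne.mono Set.subset_union_right)
      hlin.continuousOn
    have hmax' : ∀ w ∈ D, det2 w (dirv c) ≤ det2 p (dirv c) := fun w hw =>
      hmax (Or.inl hw)
    rcases hp with hpD | hpC
    · exact (SpecIn_not_max h.op hpD c hmax').elim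
    · exact ⟨p, hdirG p (Or.inr hpC) (hs.dir_of_max (rb_dirv_ne c) hpC hmax')⟩
  obtain ⟨w, hwG, hmin⟩ := hGc.exists_isMinOn hGne hlin.continuousOn
  obtain ⟨ρ, hρ, hw⟩ := hGdir w hwG
  have hcur : det2 (fderiv ℝ Y w (dirv c)) (dirv c) ≠ 0 := by
    intro h0
    have h1 := (cur_of_dir (ψ := 0) hw).2
    rw [add_zero, h0, mul_zero] at h1
    exact hno w hwG.1 hwG.2.1 h1
  obtain ⟨v, hv1, -, hv3⟩ := move_exists hY hρ hw hcur
  obtain ⟨η₁, hη₁, hm1⟩ := move_det (p := w) (u := v) (e := dirv c) (by rw [hv1]; norm_num)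
  have hin : ∃ η : ℝ, 0 < η ∧ ∀ᶠ ε in 𝓝[>] (0 : ℝ), ∀ w' : ℝ × ℝ,
      nm (w' - w - ε • v) ≤ η * ε → w' ∈ D := by
    rcases hwG.1 with hD | hC
    · exact move_open h.op hD v
    · refine hs.into hC ?_
      rw [hw, rb_det2_smul_right, hv1]
      linarith
  obtain ⟨η₂, hη₂, hm2⟩ := hin
  have h2 : ∀ᶠ ε in 𝓝[>] (0 : ℝ), ε ∈ Set.Ioi (0 : ℝ) := self_mem_nhdsWithin
  obtain ⟨ε, ⟨⟨hε1, hε2⟩, hε3⟩, hε4⟩ :=
    (((hv3 (min η₁ η₂) (lt_min hη₁ hη₂)).and hm1).and hm2 |>.and h2).exists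
  have hε : 0 < ε := hε4
  obtain ⟨w', hw'1, hw'2⟩ := hε1
  have h3 : det2 (w' - w) (dirv c) < 0 :=
    hε2 w' (hw'2.trans (mul_le_mul_of_nonneg_right (min_le_left _ _) hε.le))
  have h4 : w' ∈ D :=
    hε3 w' (hw'2.trans (mul_le_mul_of_nonneg_right (min_le_right _ _) hε.le))
  have h5 : det2 w (dirv c) ≤ det2 w' (dirv c) := hmin (hdirG w' (Or.inl h4) hw'1)
  rw [rb_det2_sub_left] at h3
  linarith

/-- The curvature determinant of a field with a closed orbit does not vanish identically.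
Proof: let `γ` be the solution of `γ' = v γ`, `v = turn ψ Y`, and take `t` where `|γ t|²` is maximal
(periodicity). There `dot (γ t) (γ' t) = 0` and `dot (γ' t) (γ' t) + dot (γ t) (γ'' t) ≤ 0` with
`γ'' = Dv(γ) γ'`. If `cur Y ψ (γ t) = 0` then `det2 (γ'' t) (γ' t) = 0` (`cur_turn`), `γ''` is a
multiple of `γ' ≠ 0`, so `dot (γ t) (γ'' t) = 0` and `γ' t = 0`, a contradiction. -/
theorem cur_ne_zero {Y : ℝ × ℝ → ℝ × ℝ} (hY : ContDiff ℝ 1 Y) {ψ : ℝ} {C : Set (ℝ × ℝ)}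
    (hC : IsClosedOrbit (turn ψ Y) C) : ∃ w, cur Y ψ w ≠ 0 := by
  have hv : ContDiff ℝ 1 (turn ψ Y) := contDiff_turn hY ψ
  have hcpt := hC.isCompact
  have hne := hC.nonempty
  have hq : Continuous fun z : ℝ × ℝ => z.1 ^ 2 + z.2 ^ 2 := by fun_prop
  obtain ⟨p, hp, hmax⟩ := hcpt.exists_isMaxOn hne hq.continuousOn
  have hp0 : turn ψ Y p ≠ 0 := IsClosedOrbit.ne_zero_of_contDiff hv hC hp
  refine ⟨p, fun hcur => ?_⟩
  rw [← cur_turn hY, cur, rb_turn_zero] at hcur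
  obtain ⟨γ, T, hT, hγ, hper, -, rfl⟩ := hC
  obtain ⟨t, rfl⟩ := hp
  set v : ℝ × ℝ → ℝ × ℝ := turn ψ Y with hvdef
  -- the derivatives
  have hd1 : ∀ s, HasDerivAt (fun s => (γ s).1 ^ 2 + (γ s).2 ^ 2)
      (2 * ((γ s).1 * (v (γ s)).1 + (γ s).2 * (v (γ s)).2)) s := by
    intro s
    have ha : HasDerivAt (fun s => (γ s).1) (v (γ s)).1 s := SpecIn_fst (hγ s)
    have hb : HasDerivAt (fun s => (γ s).2) (v (γ s)).2 s := SpecIn_snd (hγ s)
    have hc := (ha.pow 2).add (hb.pow 2)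
    refine (hc.congr_deriv ?_)
    simp only [Nat.cast_ofNat]
    ring
  have hvγ : HasDerivAt (fun s => v (γ s)) (fderiv ℝ v (γ t) (v (γ t))) t := by
    have h1 : HasFDerivAt v (fderiv ℝ v (γ t)) (γ t) :=
      (hv.differentiable one_ne_zero (γ t)).hasFDerivAt
    exact h1.comp_hasDerivAt t (hγ t)
  set a : ℝ × ℝ := fderiv ℝ v (γ t) (v (γ t)) with ha
  have hd2 : HasDerivAt (fun s => 2 * ((γ s).1 * (v (γ s)).1 + (γ s).2 * (v (γ s)).2))
      (2 * (((v (γ t)).1 * (v (γ t)).1 + (γ t).1 * a.1) +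
        ((v (γ t)).2 * (v (γ t)).2 + (γ t).2 * a.2))) t := by
    have h1 : HasDerivAt (fun s => (γ s).1) (v (γ t)).1 t := SpecIn_fst (hγ t)
    have h2 : HasDerivAt (fun s => (γ s).2) (v (γ t)).2 t := SpecIn_snd (hγ t)
    have h3 : HasDerivAt (fun s => (v (γ s)).1) a.1 t := SpecIn_fst hvγ
    have h4 : HasDerivAt (fun s => (v (γ s)).2) a.2 t := SpecIn_snd hvγ
    exact ((h1.mul h3).add (h2.mul h4)).const_mul 2
  have hderiv : deriv (fun s => (γ s).1 ^ 2 + (γ s).2 ^ 2) =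
      fun s => 2 * ((γ s).1 * (v (γ s)).1 + (γ s).2 * (v (γ s)).2) := by
    funext s
    exact (hd1 s).deriv
  have hglob : ∀ s, (γ s).1 ^ 2 + (γ s).2 ^ 2 ≤ (γ t).1 ^ 2 + (γ t).2 ^ 2 := fun s =>
    hmax (Set.mem_range_self s)
  have hlmax : IsLocalMax (fun s => (γ s).1 ^ 2 + (γ s).2 ^ 2) t :=
    Filter.Eventually.of_forall hglob
  have hz : 2 * ((γ t).1 * (v (γ t)).1 + (γ t).2 * (v (γ t)).2) = 0 :=
    hlmax.hasDerivAt_eq_zero (hd1 t)
  -- the second derivative is positive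
  have hpos : 0 < 2 * (((v (γ t)).1 * (v (γ t)).1 + (γ t).1 * a.1) +
        ((v (γ t)).2 * (v (γ t)).2 + (γ t).2 * a.2)) := by
    have h1 : 0 < nm (v (γ t)) := nm_pos hp0
    have h2 : 0 < (v (γ t)).1 ^ 2 + (v (γ t)).2 ^ 2 := by
      rw [← nm_sq]; positivity
    have h3 : ((v (γ t)).1 ^ 2 + (v (γ t)).2 ^ 2) * ((γ t).1 * a.1 + (γ t).2 * a.2) = 0 := by
      simp only [det2] at hcur
      have h4 : (γ t).1 * (v (γ t)).1 + (γ t).2 * (v (γ t)).2 = 0 := by linarith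
      linear_combination (a.1 * (v (γ t)).1 + a.2 * (v (γ t)).2) * h4 +
        ((γ t).1 * (v (γ t)).2 - (γ t).2 * (v (γ t)).1) * hcur
    have h5 : (γ t).1 * a.1 + (γ t).2 * a.2 = 0 := by
      rcases mul_eq_zero.1 h3 with h6 | h6
      · exact absurd h6 h2.ne'
      · exact h6
    nlinarith
  have hlmin : IsLocalMin (fun s => (γ s).1 ^ 2 + (γ s).2 ^ 2) t := by
    apply isLocalMin_of_deriv_deriv_pos
    · rw [hderiv, hd2.deriv]
      exact hpos
    · rw [hderiv]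
      exact hz
    · exact (hd1 t).continuousAt
  have hev : (fun s => 2 * ((γ s).1 * (v (γ s)).1 + (γ s).2 * (v (γ s)).2)) =ᶠ[𝓝 t]
      fun _ => (0 : ℝ) := by
    have h1 : (fun s => (γ s).1 ^ 2 + (γ s).2 ^ 2) =ᶠ[𝓝 t]
        fun _ => (γ t).1 ^ 2 + (γ t).2 ^ 2 := by
      filter_upwards [hlmin] with s hs
      exact le_antisymm (hglob s) hs
    have h2 := h1.deriv
    rw [hderiv] at h2
    simpa using h2
  have h7 := hev.deriv_eq
  rw [hd2.deriv] at h7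
  simp only [deriv_const] at h7
  exact hpos.ne' h7

end Pool.Agent.Lib.MP_95e7ec_an
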