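import Mathlib
import Pool.Agent.Lib.MP_95e7ec_an.Rb.Defs
import Pool.Agent.Lib.MP_60829e_nt.Bezout

/-!
# Rb, Special: the special points
-/

set_option autoImplicit false

open Set Filter Topology MeasureTheory
open scoped ContDiff ENNReal

namespace Pool.Agent.Lib.MP_95e7ec_an

/-- the combination `sin c P - cos c Q` -/
private noncomputable def special_f (P Q : MvPolynomial (Fin 2) ℝ) (c : ℝ) :
    MvPolynomial (Fin 2) ℝ := Real.sin c • P - Real.cos c • Q

private theorem special_eval (P Q : MvPolynomial (Fin 2) ℝ) (c : ℝ) (z : ℝ × ℝ) :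
    det2 (vf P Q z) (dirv c) = MvPolynomial.eval ![z.1, z.2] (special_f P Q c) := by
  simp only [special_f, det2, vf, dirv, map_sub, MvPolynomial.smul_eval]
  ring

private theorem special_deg {n : ℕ} {P Q : MvPolynomial (Fin 2) ℝ} (hP : P.totalDegree ≤ n)
    (hQ : Q.totalDegree ≤ n) (c : ℝ) : (special_f P Q c).totalDegree ≤ n := by
  refine le_trans (MvPolynomial.totalDegree_sub _ _) (max_le ?_ ?_)
  · exact le_trans (MvPolynomial.totalDegree_smul_le _ _) hP
  · exact le_trans (MvPolynomial.totalDegree_smul_le _ _) hQ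

private theorem special_dvd {P Q q : MvPolynomial (Fin 2) ℝ} {c c' : ℝ}
    (h : q ∣ special_f P Q c) (h' : q ∣ special_f P Q c') (hs : Real.sin (c - c') ≠ 0) :
    q ∣ P ∧ q ∣ Q := by
  have key : ∀ A : MvPolynomial (Fin 2) ℝ, q ∣ Real.sin (c - c') • A → q ∣ A := by
    intro A hA
    have h1 : A = (Real.sin (c - c'))⁻¹ • (Real.sin (c - c') • A) := by
      rw [smul_smul, inv_mul_cancel₀ hs, one_smul]
    rw [h1]
    exact dvd_smul_of_dvd _ hA
  constructor
  · apply key
    have h1 : Real.sin (c - c') • P =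
        Real.cos c' • special_f P Q c - Real.cos c • special_f P Q c' := by
      rw [Real.sin_sub]
      simp only [special_f]
      module
    rw [h1]
    exact dvd_sub (dvd_smul_of_dvd _ h) (dvd_smul_of_dvd _ h')
  · apply key
    have h1 : Real.sin (c - c') • Q =
        Real.sin c' • special_f P Q c - Real.sin c • special_f P Q c' := by
      rw [Real.sin_sub]
      simp only [special_f]
      module
    rw [h1]
    exact dvd_sub (dvd_smul_of_dvd _ h) (dvd_smul_of_dvd _ h')

private theorem special_countable_sin (c : ℝ) : {c' : ℝ | Real.sin (c - c') = 0}.Countable := by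
  have h1 : {c' : ℝ | Real.sin (c - c') = 0} ⊆ Set.range (fun k : ℤ => c - (k : ℝ) * Real.pi) := by
    intro c' hc'
    obtain ⟨k, hk⟩ := Real.sin_eq_zero_iff.1 hc'
    exact ⟨k, by simp only; rw [hk]; ring⟩
  exact (Set.countable_range _).mono h1

private theorem special_bad_countable {P Q E : MvPolynomial (Fin 2) ℝ} (hPQ : IsRelPrime P Q)
    (hE0 : E ≠ 0) : {c : ℝ | ¬ IsRelPrime (special_f P Q c) E}.Countable := by
  classical
  have h1 : {c : ℝ | ¬ IsRelPrime (special_f P Q c) E} ⊆
      ⋃ q ∈ ((UniqueFactorizationMonoid.factors E).toFinset : Set (MvPolynomial (Fin 2) ℝ)),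
        {c : ℝ | q ∣ special_f P Q c} := by
    intro c hc
    simp only [Set.mem_setOf_eq, IsRelPrime, not_forall] at hc
    obtain ⟨d, hd1, hd2, hd⟩ := hc
    have hd0 : d ≠ 0 := by
      rintro rfl
      exact hE0 (zero_dvd_iff.1 hd2)
    obtain ⟨p, hp, hpd⟩ := WfDvdMonoid.exists_irreducible_factor hd hd0
    obtain ⟨q, hq, hqp⟩ := UniqueFactorizationMonoid.exists_mem_factors_of_dvd hE0 hp
      (hpd.trans hd2)
    simp only [Set.mem_iUnion]
    refine ⟨q, ?_, ?_⟩
    · simpa using hq
    · exact (hqp.symm.dvd).trans (hpd.trans hd1)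
  refine Set.Countable.mono h1 (Set.Countable.biUnion (Finset.countable_toSet _) ?_)
  intro q hq
  have hqi : Irreducible q := by
    apply UniqueFactorizationMonoid.irreducible_of_factor q
    simpa using hq
  rcases Set.eq_empty_or_nonempty {c : ℝ | q ∣ special_f P Q c} with h0 | ⟨c, hc⟩
  · rw [h0]
    exact Set.countable_empty
  · refine (special_countable_sin c).mono ?_
    intro c' hc'
    by_contra hs
    obtain ⟨hP, hQ⟩ := special_dvd hc hc' hs
    exact hqi.not_isUnit (hPQ hP hQ)

private theorem special_zeros (A B : MvPolynomial (Fin 2) ℝ) (h : IsRelPrime A B) {n m : ℕ}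
    (hA : A.totalDegree ≤ n) (hB : B.totalDegree ≤ m) :
    ∃ Z : Finset (ℝ × ℝ), Z.card ≤ n * m ∧ ∀ z : ℝ × ℝ,
      MvPolynomial.eval ![z.1, z.2] A = 0 → MvPolynomial.eval ![z.1, z.2] B = 0 → z ∈ Z := by
  classical
  set emb : ℝ × ℝ ↪ (Fin 2 → ℝ) := ⟨fun z => ![z.1, z.2], by
    intro z w hzw
    have h0 := congrFun hzw 0
    have h1 := congrFun hzw 1
    simp only [Matrix.cons_val_zero, Matrix.cons_val_one] at h0 h1
    exact Prod.ext h0 h1⟩ with hemb
  have hbound : ∀ s : Finset (ℝ × ℝ), (∀ z ∈ s, MvPolynomial.eval ![z.1, z.2] A = 0 ∧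
      MvPolynomial.eval ![z.1, z.2] B = 0) → s.card ≤ n * m := by
    intro s hs
    have h1 := MP60829e.bezout A B h (s.map emb) (by
      intro x hx
      rw [Finset.mem_map] at hx
      obtain ⟨z, hz, rfl⟩ := hx
      exact hs z hz)
    rw [Finset.card_map] at h1
    exact h1.trans (Nat.mul_le_mul hA hB)
  have hfin : {z : ℝ × ℝ | MvPolynomial.eval ![z.1, z.2] A = 0 ∧
      MvPolynomial.eval ![z.1, z.2] B = 0}.Finite := by
    by_contra hinf
    obtain ⟨s, hs, hcard⟩ := (Set.Infinite.exists_subset_card_eq hinf (n * m + 1))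
    have := hbound s fun z hz => hs hz
    omega
  exact ⟨hfin.toFinset, hbound _ fun z hz => hfin.mem_toFinset.1 hz, fun z h1 h2 =>
    hfin.mem_toFinset.2 ⟨h1, h2⟩⟩

/-- Proof. For `c ∈ ℝ` let `f c = sin c • P - cos c • Q` (as a polynomial, `C (sin c) * P - C (cos c) * Q`), so
`det2 (vf P Q z) (dirv c) = eval ![z.1, z.2] (f c)`. If a non-unit `h` divides `f c` and `f c'` with
`sin (c - c') ≠ 0` then it divides `P` and `Q`, impossible. `E ≠ 0` has finitely many irreducible factors
up to associates (`UniqueFactorizationMonoid.factors E`), each of them divides `f c` for at most one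
class of `c` modulo `π`, so the set of the bad `c` (for which `f c`, `E` are not relatively prime)
is contained in the union of finitely many classes modulo `π`, in particular it is countable. Choose
`t₀` outside the countable union of the shifts by `-k (2π/N)`. For each `k < N` the common zeros
of `f (t₀ + k (2π/N))` and `E` form a finite set with at most `n m` elements by
`MP_60829e_nt.Bezout` (`bezout`: any finite set of common zeros has at most
`totalDegree * totalDegree` elements; hence the set of the common zeros is finite: compare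
`exists_finset_zeros` in Zeros.lean, which does exactly this for `P`, `Q`). Take the union over `k`. -/
theorem exists_special {n m : ℕ} {P Q E : MvPolynomial (Fin 2) ℝ} (hP : P.totalDegree ≤ n)
    (hQ : Q.totalDegree ≤ n) (hPQ : IsRelPrime P Q) (hE0 : E ≠ 0) (hE : E.totalDegree ≤ m)
    (N : ℕ) :
    ∃ (t₀ : ℝ) (S : Finset (ℝ × ℝ)), S.card ≤ N * (n * m) ∧ ∀ k < N, ∀ z : ℝ × ℝ,
      det2 (vf P Q z) (dirv (t₀ + k * (2 * Real.pi / N))) = 0 →
      MvPolynomial.eval ![z.1, z.2] E = 0 → z ∈ S := by
  classical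
  have hbad := special_bad_countable (E := E) hPQ hE0
  have hun : (⋃ k : ℕ, {t : ℝ | ¬ IsRelPrime
      (special_f P Q (t + k * (2 * Real.pi / N))) E}).Countable := by
    apply Set.countable_iUnion
    intro k
    exact hbad.preimage (add_left_injective ((k : ℝ) * (2 * Real.pi / N)))
  obtain ⟨t₀, ht₀⟩ := (Set.Countable.dense_compl ℝ hun).nonempty
  have hgood : ∀ k : ℕ, IsRelPrime (special_f P Q (t₀ + k * (2 * Real.pi / N))) E := by
    intro k
    by_contra h
    exact ht₀ (Set.mem_iUnion.2 ⟨k, h⟩)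
  choose Z hZ1 hZ2 using fun k : ℕ => special_zeros _ _ (hgood k) (special_deg hP hQ _) hE
  refine ⟨t₀, (Finset.range N).biUnion Z, ?_, ?_⟩
  · have h1 := Finset.card_biUnion_le_card_mul (Finset.range N) Z (n * m) (fun k _ => hZ1 k)
    rwa [Finset.card_range] at h1
  · intro k hk z h1 h2
    rw [special_eval] at h1
    exact Finset.mem_biUnion.2 ⟨k, Finset.mem_range.2 hk, hZ2 k z h1 h2⟩

end Pool.Agent.Lib.MP_95e7ec_an
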