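import Mathlib
import Pool.Agent.Lib.MP_95e7ec_an.Rb.Fiber
import Pool.Agent.Lib.MP_95e7ec_an.Rb.FmlOf
import Pool.Agent.Lib.MP_95e7ec_an.Rb.Distinct
import Pool.Agent.Lib.MP_95e7ec_an.Rb.SpecIn
import Pool.Agent.Lib.MP_95e7ec_an.Rb.CurPoly
import Pool.Agent.Lib.MP_95e7ec_an.Rb.Special
import Pool.Agent.Lib.MP_95e7ec_an.Rb.Laminar
import Pool.Agent.Lib.MP_95e7ec_an.Zeros

/-!
# Rb, Final: the number of the closed orbits which persist under rotation
-/

set_option autoImplicit false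

open Set Filter Topology MeasureTheory
open scoped ContDiff ENNReal

namespace Pool.Agent.Lib.MP_95e7ec_an

/-- the count for a field with relatively prime components; `δ` is half of the persistence angle -/
theorem count_fml {n : ℕ} (hn : 1 ≤ n) {P Q : MvPolynomial (Fin 2) ℝ} (hP : P.totalDegree ≤ n)
    (hQ : Q.totalDegree ≤ n) (hPQ : IsRelPrime P Q) {δ : ℝ} (hδ : 0 < δ) (hδ1 : 2 * δ ≤ 1)
    (s : Finset (Set (ℝ × ℝ))) (hs : ∀ C ∈ s, ∃ F : Fml (vf P Q) (2 * δ), F.C 0 = C) :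
    (s.card : ℝ) ≤ 2700000000 * n ^ 3 / δ ^ 4 := by
  classical
  have hY : ContDiff ℝ 1 (vf P Q) := contDiff_vf P Q
  have hn1 : (1 : ℝ) ≤ n := by exact_mod_cast hn
  rcases s.eq_empty_or_nonempty with hse | ⟨C0, hC0⟩
  · subst hse
    simp only [Finset.card_empty, Nat.cast_zero]
    positivity
  have hδ1' : δ ≤ 1 := by linarith
  have h0 : (0 : ℝ) ∈ Set.Icc 0 δ := ⟨le_rfl, hδ.le⟩
  have h0' : (0 : ℝ) ∈ Set.Icc 0 (2 * δ) := ⟨le_rfl, by linarith⟩
  have h1' : δ ∈ Set.Icc 0 (2 * δ) := ⟨hδ.le, by linarith⟩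
  choose F0 hF0 using fun i : {C // C ∈ s} => hs i i.2
  set F : {C // C ∈ s} → Fml (vf P Q) δ := fun i => (F0 i).restrict (by linarith) with hF
  have hFC : ∀ i, (F i).C = (F0 i).C := fun i => rfl
  have hdis : ∀ i j : {C // C ∈ s}, i ≠ j → ∀ a ∈ Set.Icc 0 δ,
      Disjoint ((F i).C a) ((F j).C a) := by
    intro i j hij a ha
    refine fml_distinct hY hδ1 (F0 i) (F0 j) ?_ ha.1 (by linarith [ha.2])
    rw [hF0 i, hF0 j]
    exact fun h => hij (Subtype.ext h)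
  -- the polynomial
  obtain ⟨E0, hE0d, hE0⟩ := exists_cur_poly hP hQ 0
  obtain ⟨E1, hE1d, hE1⟩ := exists_cur_poly hP hQ δ
  have hE0n : E0 ≠ 0 := by
    obtain ⟨w, hw⟩ := cur_ne_zero hY ((F0 ⟨C0, hC0⟩).orb 0 h0')
    rintro rfl
    apply hw
    rw [← hE0 w, map_zero]
  have hE1n : E1 ≠ 0 := by
    obtain ⟨w, hw⟩ := cur_ne_zero hY ((F0 ⟨C0, hC0⟩).orb δ h1')
    rintro rfl
    apply hw
    rw [← hE1 w, map_zero]
  have hEn : E0 * E1 ≠ 0 := mul_ne_zero hE0n hE1n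
  have hEd : (E0 * E1).totalDegree ≤ 6 * n := by
    have := MvPolynomial.totalDegree_mul E0 E1
    omega
  -- the net
  have hpi := Real.pi_gt_three
  have hpi4 := Real.pi_lt_d2
  set N : ℕ := ⌈400 * Real.pi / δ⌉₊ with hN
  have hNpos : 0 < N := Nat.ceil_pos.2 (by positivity)
  have hNle : (N : ℝ) ≤ 1300 / δ := by
    have h1 : (N : ℝ) < 400 * Real.pi / δ + 1 := Nat.ceil_lt_add_one (by positivity)
    have h2 : 400 * Real.pi / δ + 1 ≤ 1300 / δ := by
      rw [div_add_one hδ.ne', div_le_div_iff_of_pos_right hδ]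
      linarith
    linarith
  have hNge : 2 * Real.pi / N ≤ δ / 200 := by
    have h1 : 400 * Real.pi / δ ≤ N := Nat.le_ceil _
    have hNr : (0 : ℝ) < N := by exact_mod_cast hNpos
    rw [div_le_iff₀ hδ] at h1
    rw [div_le_iff₀ hNr]
    linarith
  obtain ⟨t₀, S, hScard, hS⟩ := exists_special hP hQ hPQ hEn hEd N
  have hS' : ∀ k < N, ∀ z : ℝ × ℝ,
      det2 (vf P Q z) (dirv (t₀ + k * (2 * Real.pi / N))) = 0 →
      cur (vf P Q) 0 z * cur (vf P Q) δ z = 0 → z ∈ (S : Set (ℝ × ℝ)) := by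
    intro k hk z hz hc
    refine hS k hk z hz ?_
    rw [map_mul, hE0, hE1, hc]
  -- the special points in the hulls
  set sp : {C // C ∈ s} → Finset (ℝ × ℝ) := fun i => S.filter (fun z => z ∈ (F i).hull) with hsp
  have hspne : ∀ i, (sp i).Nonempty := by
    intro i
    have hside : Side (vf P Q) ((F i).C 0) ((F i).D 0) := by
      have := (F i).side 0 h0
      rwa [rb_turn_zero] at this
    obtain ⟨w, hw, hw1, hw2⟩ := special_inside hY ((F i).jp 0 h0) hside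
      (t₀ + (0 : ℕ) * (2 * Real.pi / N))
    refine ⟨w, ?_⟩
    rw [hsp, Finset.mem_filter]
    refine ⟨?_, Set.mem_biUnion h0 hw⟩
    have h3 := hS' 0 hNpos w hw1 (by rw [hw2, zero_mul])
    exact h3
  have hlam : ∀ i j, sp i ⊆ sp j ∨ sp j ⊆ sp i ∨ Disjoint (sp i) (sp j) := by
    have hbelow : ∀ i j : {C // C ∈ s}, (F i).Below (F j) → sp i ⊆ sp j := by
      intro i j h z hz
      rw [hsp, Finset.mem_filter] at hz ⊢
      refine ⟨hz.1, ?_⟩
      have hz2 := hz.2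
      simp only [Fml.hull, Set.mem_iUnion, exists_prop] at hz2
      obtain ⟨a, ha, hza⟩ := hz2
      exact Set.mem_biUnion h0 (Or.inl (h a ha 0 h0 hza))
    intro i j
    rcases eq_or_ne i j with rfl | hij
    · exact Or.inl subset_rfl
    rcases fml_rel hY hδ.le hδ1' (F i) (F j) (hdis i j hij) with h | h | h
    · exact Or.inl (hbelow i j h)
    · exact Or.inr (Or.inl (hbelow j i h))
    · refine Or.inr (Or.inr ?_)
      rw [Finset.disjoint_left]
      intro z hzi hzj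
      rw [hsp, Finset.mem_filter] at hzi hzj
      have hzi' := hzi.2
      have hzj' := hzj.2
      simp only [Fml.hull, Set.mem_iUnion, exists_prop] at hzi' hzj'
      obtain ⟨a, ha, hza⟩ := hzi'
      obtain ⟨b, hb, hzb⟩ := hzj'
      exact Set.disjoint_left.1 (h a ha b hb) hza hzb
  set 𝒜 : Finset (Finset (ℝ × ℝ)) := Finset.univ.image sp with h𝒜
  have h𝒜card : 𝒜.card ≤ 2 * S.card := by
    refine laminar_card S 𝒜 ?_ ?_ ?_
    · intro A hA
      obtain ⟨i, -, rfl⟩ := Finset.mem_image.1 hA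
      exact Finset.filter_subset _ _
    · intro A hA
      obtain ⟨i, -, rfl⟩ := Finset.mem_image.1 hA
      exact hspne i
    · intro A hA B hB
      obtain ⟨i, -, rfl⟩ := Finset.mem_image.1 hA
      obtain ⟨j, -, rfl⟩ := Finset.mem_image.1 hB
      exact hlam i j
  -- the fibres
  set M : ℕ := ⌊170000 * (n : ℝ) / δ ^ 3 + 4⌋₊ with hM
  have hfib : ∀ A ∈ 𝒜, (Finset.univ.filter fun i => sp i = A).card ≤ M := by
    intro A hA
    obtain ⟨i0, -, hi0⟩ := Finset.mem_image.1 hA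
    apply Nat.le_floor
    refine fiber_le hn hP hQ hδ hδ1' F _ (fun i _ j _ hij => hdis i j hij) hNpos hNge
      (S := (S : Set (ℝ × ℝ))) hS' (A := (A : Set (ℝ × ℝ))) ?_ ?_
    · rw [← hi0]
      exact Finset.coe_nonempty.2 (hspne i0)
    · intro i hi
      have h1 : sp i = A := (Finset.mem_filter.1 hi).2
      rw [← h1, hsp]
      ext z
      simp
  have hcard : Fintype.card {C // C ∈ s} ≤ M * 𝒜.card :=
    Finset.card_le_mul_card_image (f := sp) Finset.univ M hfib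
  have hsc : s.card = Fintype.card {C // C ∈ s} := by simp
  have hMr : (M : ℝ) ≤ 170000 * (n : ℝ) / δ ^ 3 + 4 := Nat.floor_le (by positivity)
  have hMr' : (M : ℝ) ≤ 170004 * (n : ℝ) / δ ^ 3 := by
    refine hMr.trans ?_
    have h1 : (4 : ℝ) ≤ 4 * n / δ ^ 3 := by
      rw [le_div_iff₀ (by positivity)]
      have : δ ^ 3 ≤ 1 := pow_le_one₀ hδ.le hδ1'
      nlinarith
    calc 170000 * (n : ℝ) / δ ^ 3 + 4 ≤ 170000 * (n : ℝ) / δ ^ 3 + 4 * n / δ ^ 3 := by linarith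
      _ = 170004 * (n : ℝ) / δ ^ 3 := by ring
  have h𝒜r : (𝒜.card : ℝ) ≤ 15600 * n ^ 2 / δ := by
    have h1 : (𝒜.card : ℝ) ≤ 2 * (N * (n * (6 * n))) := by
      have : 𝒜.card ≤ 2 * (N * (n * (6 * n))) := h𝒜card.trans (by omega)
      exact_mod_cast this
    calc (𝒜.card : ℝ) ≤ 2 * (N * (n * (6 * n))) := h1
      _ ≤ 2 * (1300 / δ * (n * (6 * n))) := by gcongr
      _ = 15600 * n ^ 2 / δ := by ring
  calc (s.card : ℝ) = (Fintype.card {C // C ∈ s} : ℝ) := by rw [hsc]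
    _ ≤ ((M * 𝒜.card : ℕ) : ℝ) := by exact_mod_cast hcard
    _ = M * 𝒜.card := by push_cast; ring
    _ ≤ (170004 * (n : ℝ) / δ ^ 3) * (15600 * n ^ 2 / δ) := by gcongr
    _ = 2652062400 * n ^ 3 / δ ^ 4 := by
        field_simp
        ring
    _ ≤ 2700000000 * n ^ 3 / δ ^ 4 := by gcongr; norm_num

/-- the count of finitely many persisting closed orbits -/
theorem count_persists {n : ℕ} (hn : 1 ≤ n) {P Q : MvPolynomial (Fin 2) ℝ}
    (hP : P.totalDegree ≤ n) (hQ : Q.totalDegree ≤ n) {δ : ℝ} (hδ : 0 < δ) (hδ1 : δ ≤ 1)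
    (s : Finset (Set (ℝ × ℝ))) (hs : ∀ C ∈ s, Persists (vf P Q) δ C) :
    (s.card : ℝ) ≤ 10 ^ 11 * n ^ 3 / δ ^ 4 := by
  classical
  let _ : NormalizedGCDMonoid (MvPolynomial (Fin 2) ℝ) := Nonempty.some inferInstance
  rcases s.eq_empty_or_nonempty with hse | ⟨C0, hC0⟩
  · subst hse
    simp only [Finset.card_empty, Nat.cast_zero]
    positivity
  have hv : ContDiff ℝ 1 (vf P Q) := contDiff_vf P Q
  have hPQ : P ≠ 0 ∨ Q ≠ 0 := by
    by_contra hcon
    push Not at hcon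
    obtain ⟨z, T, -, -, h, -⟩ := hs C0 hC0
    obtain ⟨hT, hd, hp, hne⟩ := h 0 ⟨le_rfl, hδ.le⟩
    have horb : IsClosedOrbit (turn 0 (vf P Q)) (Set.range (z 0)) :=
      ⟨z 0, T 0, hT, hd, hp, hne, rfl⟩
    rw [rb_turn_zero] at horb
    refine horb.ne_zero_of_contDiff hv ⟨0, rfl⟩ ?_
    rw [hcon.1, hcon.2]
    simp [vf]
  obtain ⟨P₁, Q₁, hP₁, hQ₁, hu⟩ := extract_gcd P Q
  set g := gcd P Q with hg
  have hg0 : g ≠ 0 := by
    intro h0
    rw [hg, gcd_eq_zero_iff] at h0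
    rcases hPQ with h | h
    · exact h h0.1
    · exact h h0.2
  have hrel : IsRelPrime P₁ Q₁ := gcd_isUnit_iff_isRelPrime.1 hu
  have hdeg : ∀ (A B : MvPolynomial (Fin 2) ℝ), A = g * B → A.totalDegree ≤ n →
      B.totalDegree ≤ n := by
    intro A B hAB hA
    rcases eq_or_ne B 0 with h0 | h0
    · simp [h0]
    · have := MvPolynomial.totalDegree_mul_of_isDomain hg0 h0
      rw [← hAB] at this
      omega
  have hP₁d := hdeg P P₁ hP₁ hP
  have hQ₁d := hdeg Q Q₁ hQ₁ hQ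
  have hsm : ∀ z, vf P Q z = (MvPolynomial.eval ![z.1, z.2] g) • vf P₁ Q₁ z := by
    intro z
    unfold vf
    conv_lhs => rw [hP₁, hQ₁]
    simp only [map_mul, Prod.smul_mk, smul_eq_mul]
  have hgc : Continuous fun z : ℝ × ℝ => MvPolynomial.eval ![z.1, z.2] g :=
    (contDiff_eval g (k := 0)).continuous
  have hneg : (fun z => -vf P₁ Q₁ z) = vf (-P₁) (-Q₁) := by
    funext z
    simp [vf]
  have hrel' : IsRelPrime (-P₁) (-Q₁) := IsRelPrime.neg_neg hrel
  have hdn : ∀ A : MvPolynomial (Fin 2) ℝ, (-A).totalDegree = A.totalDegree :=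
    MvPolynomial.totalDegree_neg
  -- the two orientations
  have hδ2 : 2 * (δ / 2) = δ := by ring
  set s1 := s.filter fun C => ∃ F : Fml (vf P₁ Q₁) (2 * (δ / 2)), F.C 0 = C with hs1
  set s2 := s.filter fun C => ∃ F : Fml (vf (-P₁) (-Q₁)) (2 * (δ / 2)), F.C 0 = C with hs2
  have hunion : s ⊆ s1 ∪ s2 := by
    intro C hC
    rw [Finset.mem_union, hs1, hs2, Finset.mem_filter, Finset.mem_filter, hδ2, ← hneg]
    rcases exists_fml hv (contDiff_vf P₁ Q₁) hgc hsm hδ.le (hs C hC) with h | h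
    · exact Or.inl ⟨hC, h⟩
    · exact Or.inr ⟨hC, h⟩
  have h1 := count_fml hn hP₁d hQ₁d hrel (δ := δ / 2) (by positivity) (by linarith) s1
    (fun C hC => (Finset.mem_filter.1 hC).2)
  have h2 := count_fml hn (by rw [hdn]; exact hP₁d) (by rw [hdn]; exact hQ₁d) hrel'
    (δ := δ / 2) (by positivity) (by linarith) s2 (fun C hC => (Finset.mem_filter.1 hC).2)
  have h3 : (s.card : ℝ) ≤ s1.card + s2.card := by
    have := (Finset.card_le_card hunion).trans (Finset.card_union_le s1 s2)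
    exact_mod_cast this
  calc (s.card : ℝ) ≤ s1.card + s2.card := h3
    _ ≤ 2700000000 * n ^ 3 / (δ / 2) ^ 4 + 2700000000 * n ^ 3 / (δ / 2) ^ 4 := add_le_add h1 h2
    _ = 86400000000 * n ^ 3 / δ ^ 4 := by
        field_simp
        ring
    _ ≤ 10 ^ 11 * n ^ 3 / δ ^ 4 := by gcongr; norm_num

/-- **Main theorem**: at most `10¹¹ n³ / δ⁴` closed orbits of a planar polynomial field of degree
at most `n` persist for all the turned fields `e^{ia} X`, `0 ≤ a ≤ δ`. -/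
theorem persists_finite {n : ℕ} (hn : 1 ≤ n) {P Q : MvPolynomial (Fin 2) ℝ}
    (hP : P.totalDegree ≤ n) (hQ : Q.totalDegree ≤ n) {δ : ℝ} (hδ : 0 < δ) (hδ1 : δ ≤ 1) :
    {C | Persists (vf P Q) δ C}.Finite ∧
      ({C | Persists (vf P Q) δ C}.ncard : ℝ) ≤ 10 ^ 11 * n ^ 3 / δ ^ 4 := by
  have hfin : {C | Persists (vf P Q) δ C}.Finite := by
    by_contra hinf
    obtain ⟨t, ht, htc⟩ := Set.Infinite.exists_subset_card_eq hinf
      (⌊(10 ^ 11 * n ^ 3 / δ ^ 4 : ℝ)⌋₊ + 1)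
    have h1 := count_persists hn hP hQ hδ hδ1 t fun C hC => ht hC
    have h2 := Nat.lt_floor_add_one (10 ^ 11 * (n : ℝ) ^ 3 / δ ^ 4)
    rw [htc] at h1
    push_cast at h1
    linarith
  refine ⟨hfin, ?_⟩
  rw [Set.ncard_eq_toFinset_card _ hfin]
  exact count_persists hn hP hQ hδ hδ1 _ fun C hC => by simpa using hC

end Pool.Agent.Lib.MP_95e7ec_an
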